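import Mathlib

/-!
Definitions for the project SRK (problem MP_28d749_ag): rank of generic sections of superelliptic
families `Y ^ ℓ = f_t(X)` in every fibre.

The affine curve `Y ^ ℓ = f(X)` (`f` squarefree of degree prime to `ℓ`) is the curve without its
only point at infinity, so that its ideal class group is the group of points of the Jacobian.
-/

namespace SRK

open Polynomial

/-- the coordinate ring of the affine curve `Y ^ ℓ = f(X)` -/
abbrev Crd {S : Type*} [CommRing S] (ℓ : ℕ) (f : S[X]) : Type _ :=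
  AdjoinRoot ((X : Polynomial (Polynomial S)) ^ ℓ - C f)

/-- the ideal `(X - x, Y - y)` of the point `(x, y)` -/
noncomputable def pt {S : Type*} [CommRing S] (ℓ : ℕ) (f : S[X]) (x y : S) : Ideal (Crd ℓ f) :=
  Ideal.span {AdjoinRoot.of _ (X - C x), AdjoinRoot.root _ - AdjoinRoot.of _ (C y)}

/-- the ideal of the divisor `∑ i, ∑ j, α i j (x i, ζ ^ j y i)` -/
noncomputable def dv {S : Type*} [CommRing S] (ℓ : ℕ) (f : S[X]) (ζ : S) {n : ℕ} (x y : Fin n → S)
    (α : Fin n → Fin ℓ → ℕ) : Ideal (Crd ℓ f) :=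
  ∏ i, ∏ j : Fin ℓ, pt ℓ f (x i) (ζ ^ (j : ℕ) * y i) ^ α i j

/-- the class of the divisor `∑ i, ∑ j, α i j (x i, ζ ^ j y i)` is a torsion class -/
def Tors {S : Type*} [CommRing S] (ℓ : ℕ) (f : S[X]) (ζ : S) {n : ℕ} (x y : Fin n → S)
    (α : Fin n → Fin ℓ → ℕ) : Prop :=
  ∃ N : ℕ, 0 < N ∧ ∃ h : Crd ℓ f, dv ℓ f ζ x y α ^ N = Ideal.span {h}

/-- The points `(x i, y i)` satisfy `e` relations which are independent over `ℤ[ζ]`, modulo
torsion. Here `ζ` acts by `(x, y) ↦ (x, ζ y)`; the coefficient of `(x i, y i)` in the relation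
with the number `k` is `∑ j, α k i j ζ ^ j`. -/
def Rel {K : Type*} [Field K] (ℓ : ℕ) (f : K[X]) (ζ : K) {n : ℕ} (x y : Fin n → K) (e : ℕ) :
    Prop :=
  ∃ α : Fin e → Fin n → Fin ℓ → ℕ,
    LinearIndependent K
      (fun (k : Fin e) (i : Fin n) => ∑ j : Fin ℓ, (α k i j : K) * ζ ^ (j : ℕ)) ∧
    ∀ k, Tors ℓ f ζ x y (α k)

/-- the monic polynomial `X ^ m + ∑ a_k X ^ (m - 1 - k)` -/
noncomputable def fam {S : Type*} [CommRing S] {m : ℕ} (a : Fin m → S) : S[X] :=
  X ^ m + ∑ k : Fin m, C (a k) * X ^ (m - 1 - (k : ℕ))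

/-- `(p, s)` is a point of the base: every `s j` satisfies its monic equation over `p` -/
def OnBase {S : Type*} [CommRing S] {d e : ℕ} (r : Fin e → ℕ)
    (b : Fin e → ℕ → MvPolynomial (Fin d) S) (p : Fin d → S) (s : Fin e → S) : Prop :=
  ∀ j, s j ^ r j + ∑ l ∈ Finset.range (r j), MvPolynomial.eval p (b j l) * s j ^ l = 0

/-- the abscissas of the sections -/
noncomputable def absc {S : Type*} [CommRing S] {d e n : ℕ} (D : ℕ)
    (F : Fin n → MvPolynomial (Fin d ⊕ Fin e) S) (c : Fin n × Fin (d + 1) → S)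
    (p : Fin d → S) (s : Fin e → S) (i : Fin n) : S :=
  MvPolynomial.eval (Sum.elim p s) (F i) + c (i, 0) + ∑ t : Fin d, c (i, t.succ) * p t ^ D

end SRK
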