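import Mathlib
import Pool.Agent.SRK.Defs

/-!
Targets (statements as propositions) of the project SRK.
-/

namespace SRK

open Polynomial

universe u

/-! ### auxiliary definitions -/

/-- the element `∑ A_j Y ^ j` of the coordinate ring -/
noncomputable def el {S : Type*} [CommRing S] (ℓ : ℕ) (f : S[X]) (A : Fin ℓ → S[X]) : Crd ℓ f :=
  ∑ j : Fin ℓ, AdjoinRoot.of _ (A j) * AdjoinRoot.root _ ^ (j : ℕ)

/-- coordinates of the conjugate number `t` of `∑ A_j Y ^ j` -/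
noncomputable def tw {S : Type*} [CommRing S] {ℓ : ℕ} (ζ : S) (t : ℕ) (A : Fin ℓ → S[X]) :
    Fin ℓ → S[X] :=
  fun j => C (ζ ^ (t * (j : ℕ))) * A j

/-- the automorphism `Y ↦ ζ Y` of the coordinate ring -/
noncomputable def sg {S : Type*} [CommRing S] (ℓ : ℕ) (f : S[X]) (ζ : S) (hζ : ζ ^ ℓ = 1) :
    Crd ℓ f →+* Crd ℓ f :=
  AdjoinRoot.lift (AdjoinRoot.of _) (AdjoinRoot.of _ (C ζ) * AdjoinRoot.root _) (by
    have h := AdjoinRoot.eval₂_root ((X : Polynomial (Polynomial S)) ^ ℓ - C f)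
    rw [eval₂_sub, eval₂_pow, eval₂_X, eval₂_C] at h ⊢
    rw [mul_pow, ← map_pow, ← map_pow, hζ, C_1, map_one, one_mul]
    exact h)

/-- `∏ (X - ω w)` -/
noncomputable def ff {S : Type*} [CommRing S] {m : ℕ} (ω : Fin m → S) : S[X] :=
  ∏ w, (X - C (ω w))

/-- `∏ (X - ω w)` over all `w` with `j < n w` -/
noncomputable def qq {S : Type*} [CommRing S] {m : ℕ} (ω : Fin m → S) (n : Fin m → ℕ) (j : ℕ) :
    S[X] :=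
  ∏ w, if j < n w then X - C (ω w) else 1

/-- `∏ (X - ω w) ^ (n w)` -/
noncomputable def qt {S : Type*} [CommRing S] {m : ℕ} (ω : Fin m → S) (n : Fin m → ℕ) : S[X] :=
  ∏ w, (X - C (ω w)) ^ n w

/-- the ideal of the divisor `∑ n w (ω w, 0)` -/
noncomputable def Jq {S : Type*} [CommRing S] (ℓ : ℕ) {m : ℕ} (ω : Fin m → S) (n : Fin m → ℕ) :
    Ideal (Crd ℓ (ff ω)) :=
  Ideal.span (Set.range fun j : Fin ℓ =>
    AdjoinRoot.of _ (qq ω n j) * AdjoinRoot.root _ ^ (j : ℕ))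

/-- `α - (α shifted) + norm of α`: represents `(1 - σ) α` by nonnegative coefficients -/
def DD {ℓ : ℕ} [NeZero ℓ] {N : ℕ} (α : Fin N → Fin ℓ → ℕ) : Fin N → Fin ℓ → ℕ :=
  fun i j => α i j + ∑ j' ∈ Finset.univ.erase (j + 1), α i j'

/-- the ideal is principal -/
def Pr {R : Type*} [CommRing R] (I : Ideal R) : Prop := ∃ h : R, I = Ideal.span {h}

/-- the function `f / f' ^ ℓ` -/
noncomputable def Lam {k : Type*} [Field k] (ℓ : ℕ) (f : k[X]) (x : k) : k :=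
  f.eval x / (derivative f).eval x ^ ℓ

/-- pivot system of `e` relations over the residue field -/
def Bad {k : Type*} [Field k] (ℓ e : ℕ) (f : k[X]) {n : ℕ} (x : Fin n → k)
    (S J : Finset (Fin n)) (w : Fin n → Fin n → k) : Prop :=
  Disjoint J S ∧ e ≤ J.card + S.card ∧ (∀ i ∈ S, (derivative f).eval (x i) = 0) ∧
  (∀ i, i ∉ S → (derivative f).eval (x i) ≠ 0) ∧ (∀ j ∈ J, ∀ i, w j i ^ ℓ = w j i) ∧
  ∀ j ∈ J, Lam ℓ f (x j) = ∑ i ∈ (J ∪ S)ᶜ, w j i * Lam ℓ f (x i)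

/-- the abscissas at infinity: without the constant term `c (i, 0)` -/
noncomputable def absc0 {S : Type*} [CommRing S] {d e n : ℕ} (D : ℕ)
    (F : Fin n → MvPolynomial (Fin d ⊕ Fin e) S) (c : Fin n × Fin (d + 1) → S)
    (p : Fin d → S) (s : Fin e → S) (i : Fin n) : S :=
  MvPolynomial.eval (Sum.elim p s) (F i) + ∑ t : Fin d, c (i, t.succ) * p t ^ D

/-- valuation ring and residue field of a nonarchimedean absolute value with `v ℓ < 1` -/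
structure Ctx {K : Type*} [Field K] (v : AbsoluteValue K ℝ) (ℓ : ℕ) (O : Subring K)
    {k : Type*} [Field k] (r : O →+* k) : Prop where
  na : IsNonarchimedean v
  lt : v (ℓ : K) < 1
  mem : ∀ x : K, x ∈ O ↔ v x ≤ 1
  res : ∀ x : O, r x = 0 ↔ v (x : K) < 1
  surj : Function.Surjective r

/-! ### Part A: the coordinate ring over a field -/

/-- DOM: the coordinate ring is a domain. -/
def T_DOM : Prop := ∀ (K : Type u) [Field K] (ℓ : ℕ), ℓ.Prime → ∀ f : K[X],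
  ¬ ℓ ∣ f.natDegree → IsDomain (Crd ℓ f)

/-- BAS: coordinates. -/
def T_BAS : Prop := ∀ (S : Type u) [CommRing S] [Nontrivial S] (ℓ : ℕ), 0 < ℓ →
  ∀ (f : S[X]) (g : Crd ℓ f), ∃! A : Fin ℓ → S[X], g = el ℓ f A

/-- SGE: the automorphism in coordinates. -/
def T_SGE : Prop := ∀ (S : Type u) [CommRing S] (ℓ : ℕ), 0 < ℓ → ∀ (f : S[X]) (ζ : S)
  (hζ : ζ ^ ℓ = 1),
  (∀ (A : Fin ℓ → S[X]) (t : ℕ), (sg ℓ f ζ hζ)^[t] (el ℓ f A) = el ℓ f (tw ζ t A)) ∧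
  Function.Bijective (sg ℓ f ζ hζ)

/-- NRM: norms, and their reduction. -/
def T_NRM : Prop := ∀ (O k : Type u) [CommRing O] [IsDomain O] [Field k] (ℓ : ℕ)
  [Fact ℓ.Prime] [CharP k ℓ] (r : O →+* k) (ζ : O), IsPrimitiveRoot ζ ℓ →
  ∀ (f : O[X]) (A : Fin ℓ → O[X]), ∃ g : O[X],
    ∏ t ∈ Finset.range ℓ, el ℓ f (tw ζ t A) = AdjoinRoot.of _ g ∧
    g.map r = ∑ j : Fin ℓ, ((A j).map r) ^ ℓ * (f.map r) ^ (j : ℕ)

/-- PT: the sum of the conjugates of a point is principal. -/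
def T_PT : Prop := ∀ (K : Type u) [Field K] (ℓ : ℕ), ℓ.Prime → ∀ (ζ : K), IsPrimitiveRoot ζ ℓ →
  ∀ f : K[X], Squarefree f → ∀ x y : K, y ^ ℓ = f.eval x →
    ∏ j : Fin ℓ, pt ℓ f x (ζ ^ (j : ℕ) * y) = Ideal.span {AdjoinRoot.of _ (X - C x)}

/-- SUB: the group of principal divisors supported in the given points. -/
def T_SUB : Prop := ∀ (K : Type u) [Field K] (ℓ : ℕ) [Fact ℓ.Prime] (ζ : K),
  IsPrimitiveRoot ζ ℓ → ∀ f : K[X], Squarefree f → ¬ ℓ ∣ f.natDegree →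
  ∀ (N : ℕ) (x y : Fin N → K), (∀ i, y i ^ ℓ = f.eval (x i)) →
  ∃ P : AddSubgroup (Fin N → Fin ℓ → ℤ),
    (∀ α : Fin N → Fin ℓ → ℕ, (fun i j => (α i j : ℤ)) ∈ P ↔ Pr (dv ℓ f ζ x y α)) ∧
    (∀ a ∈ P, (fun i j => a i (j + 1)) ∈ P) ∧ ∀ c : Fin N → ℤ, (fun i _ => c i) ∈ P

/-- JQ: the ideals `Jq`. -/
def T_JQ : Prop := ∀ (K : Type u) [Field K] (ℓ : ℕ), ℓ.Prime → ∀ (m : ℕ) (ω : Fin m → K),
  Function.Injective ω → ∀ n : Fin m → ℕ, (∀ w, n w < ℓ) →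
    (∀ A : Fin ℓ → K[X], el ℓ (ff ω) A ∈ Jq ℓ ω n ↔ ∀ j : Fin ℓ, qq ω n j ∣ A j) ∧
    Jq ℓ ω n ^ ℓ = Ideal.span {AdjoinRoot.of _ (qt ω n)} ∧
    Ideal.span {AdjoinRoot.root _} * Jq ℓ ω n =
      Ideal.span {AdjoinRoot.of _ (∏ w, if n w + 1 = ℓ then X - C (ω w) else 1)} *
        Jq ℓ ω (fun w => (n w + 1) % ℓ) ∧
    ((∀ w, n w = 0) → Jq ℓ ω n = ⊤)

/-- GID: ideals which are stable under the automorphism. -/
def T_GID : Prop := ∀ (K : Type u) [Field K] (ℓ : ℕ), ℓ.Prime → ∀ (ζ : K),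
  IsPrimitiveRoot ζ ℓ → ∀ hζ : ζ ^ ℓ = 1, ∀ (m : ℕ) (ω : Fin m → K), Function.Injective ω →
  ¬ ℓ ∣ m → ∀ I : Ideal (Crd ℓ (ff ω)), I ≠ ⊥ → Ideal.map (sg ℓ (ff ω) ζ hζ) I ≤ I →
  ∃ (g : K[X]) (n : Fin m → ℕ), g ≠ 0 ∧ (∀ w, n w < ℓ) ∧
    I = Ideal.span {AdjoinRoot.of _ g} * Jq ℓ ω n

/-- HIL: Hilbert's theorem 90 for ideals. -/
def T_HIL : Prop := ∀ (K : Type u) [Field K] [IsAlgClosed K] (ℓ : ℕ), ℓ.Prime → ∀ (ζ : K),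
  IsPrimitiveRoot ζ ℓ → ∀ hζ : ζ ^ ℓ = 1, ∀ f : K[X], ¬ ℓ ∣ f.natDegree →
  ∀ (I I' : Ideal (Crd ℓ f)) (M M' : K[X]) (h : Crd ℓ f), M ≠ 0 → M' ≠ 0 → h ≠ 0 →
    I * I' = Ideal.span {AdjoinRoot.of _ M'} →
    Ideal.span {AdjoinRoot.of _ M} * I = Ideal.span {h} * Ideal.map (sg ℓ f ζ hζ) I →
    ∃ (I'' : Ideal (Crd ℓ f)) (a b : Crd ℓ f), a ≠ 0 ∧ b ≠ 0 ∧
      Ideal.map (sg ℓ f ζ hζ) I'' ≤ I'' ∧ Ideal.span {a} * I'' = Ideal.span {b} * I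

/-- CLA: a divisor whose class is fixed by the automorphism is equivalent to a divisor supported
in the points with `Y = 0`; dual form. -/
def T_CLA : Prop := ∀ (K : Type u) [Field K] [IsAlgClosed K] (ℓ : ℕ) [Fact ℓ.Prime] (ζ : K),
  IsPrimitiveRoot ζ ℓ → ∀ (m : ℕ) (ω : Fin m → K), Function.Injective ω → ¬ ℓ ∣ m →
  ∀ (N : ℕ) (x y : Fin N → K), (∀ i, y i ^ ℓ = (ff ω).eval (x i)) →
  ∀ α : Fin N → Fin ℓ → ℕ, Pr (dv ℓ (ff ω) ζ x y (DD α)) →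
  ∃ n : Fin m → ℕ, (∀ w, n w < ℓ) ∧ Pr (dv ℓ (ff ω) ζ x y α * Jq ℓ ω n)

/-- MIN: normalisation of the exponents. -/
def T_MIN : Prop := ∀ (K : Type u) [Field K] (ℓ : ℕ) [Fact ℓ.Prime] (m : ℕ) (ω : Fin m → K),
  Function.Injective ω → ¬ ℓ ∣ m → ∀ (I : Ideal (Crd ℓ (ff ω))) (n : Fin m → ℕ),
  (∀ w, n w < ℓ) → Pr (I * Jq ℓ ω n) →
  ∃ n' : Fin m → ℕ, (∀ w, n' w < ℓ) ∧ Pr (I * Jq ℓ ω n') ∧
    ∀ t, 1 ≤ t → t < ℓ → ℓ * (Finset.univ.filter (fun w => t ≤ n' w)).card ≤ (ℓ - t) * m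

/-- NMJ: norm of a generator. -/
def T_NMJ : Prop := ∀ (K : Type u) [Field K] (ℓ : ℕ) [Fact ℓ.Prime] (ζ : K),
  IsPrimitiveRoot ζ ℓ → ∀ (m : ℕ) (ω : Fin m → K), Function.Injective ω → ¬ ℓ ∣ m →
  ∀ (N : ℕ) (x y : Fin N → K), (∀ i, y i ^ ℓ = (ff ω).eval (x i)) →
  ∀ (α : Fin N → Fin ℓ → ℕ) (n : Fin m → ℕ), (∀ w, n w < ℓ) →
  ∀ A : Fin ℓ → K[X], dv ℓ (ff ω) ζ x y α * Jq ℓ ω n = Ideal.span {el ℓ (ff ω) A} →
  (∀ j : Fin ℓ, qq ω n j ∣ A j) ∧ ∃ c : K, c ≠ 0 ∧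
    ∏ t ∈ Finset.range ℓ, el ℓ (ff ω) (tw ζ t A) =
      AdjoinRoot.of _ (C c * qt ω n * ∏ i, (X - C (x i)) ^ (∑ j, α i j))

/-! ### Part B: reduction -/

/-- RED: the norm equation over the residue field. -/
def T_RED : Prop := ∀ (K : Type u) [Field K] (v : AbsoluteValue K ℝ) (ℓ : ℕ) [Fact ℓ.Prime]
  (O : Subring K) (k : Type u) [Field k] [CharP k ℓ] (r : O →+* k), Ctx v ℓ O r →
  ∀ ζ : K, IsPrimitiveRoot ζ ℓ → ∀ (m : ℕ) (ω : Fin m → O), Function.Injective ω → ¬ ℓ ∣ m →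
  ∀ (N : ℕ) (x : Fin N → O) (y : Fin N → K),
    (∀ i, y i ^ ℓ = (ff (fun w => (ω w : K))).eval (x i : K)) →
  ∀ (α : Fin N → Fin ℓ → ℕ) (n : Fin m → ℕ), (∀ w, n w < ℓ) →
    Pr (dv ℓ (ff (fun w => (ω w : K))) ζ (fun i => (x i : K)) y α *
      Jq ℓ (fun w => (ω w : K)) n) →
  ∃ (A : Fin ℓ → k[X]) (c : k), c ≠ 0 ∧
    ∑ j : Fin ℓ, (qq (fun w => r (ω w)) n j * A j) ^ ℓ * (ff (fun w => r (ω w))) ^ (j : ℕ) =
      C c * qt (fun w => r (ω w)) n * ∏ i, (X - C (r (x i))) ^ (∑ j, α i j)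

/-- IDF: derivatives of `f' f ^ i` in characteristic `ℓ`. -/
def T_IDF : Prop := ∀ (k : Type u) [Field k] (ℓ : ℕ) [Fact ℓ.Prime] [CharP k ℓ] (f : k[X]),
  (∀ i, i + 1 < ℓ → derivative^[ℓ - 1] (derivative f * f ^ i) = 0) ∧
  derivative^[ℓ - 1] (derivative f * f ^ (ℓ - 1)) = - (derivative f) ^ ℓ

/-- CL: the congruence for the leading terms. -/
def T_CL : Prop := ∀ (k : Type u) [Field k] (ℓ : ℕ) [Fact ℓ.Prime] [CharP k ℓ] (m N : ℕ)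
  (ω : Fin m → k) (n : Fin m → ℕ) (A : Fin ℓ → k[X]) (c : k) (x : Fin N → k) (a : Fin N → ℕ),
  ¬ ℓ ∣ m → 2 ≤ (ℓ - 1) * (m - 1) → (∀ w, n w < ℓ) → c ≠ 0 →
  (∀ i, (derivative (ff ω)).eval (x i) ≠ 0) →
  ∑ j : Fin ℓ, (qq ω n j * A j) ^ ℓ * (ff ω) ^ (j : ℕ) =
    C c * qt ω n * ∏ i, (X - C (x i)) ^ a i →
  ∑ i, (a i : k) * Lam ℓ (ff ω) (x i) = 0

/-- DEG: the degree argument. -/
def T_DEG : Prop := ∀ (k : Type u) [Field k] (ℓ : ℕ) [Fact ℓ.Prime] [CharP k ℓ] (m N : ℕ)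
  (ω : Fin m → k) (n : Fin m → ℕ) (A : Fin ℓ → k[X]) (c : k) (x : Fin N → k) (a : Fin N → ℕ),
  ¬ ℓ ∣ m → (∀ w, n w < ℓ) → c ≠ 0 →
  (∀ t, 1 ≤ t → t < ℓ → ℓ * (Finset.univ.filter (fun w => t ≤ n w)).card ≤ (ℓ - t) * m) →
  (∀ i, (derivative (ff ω)).eval (x i) ≠ 0) →
  ∑ j : Fin ℓ, (qq ω n j * A j) ^ ℓ * (ff ω) ^ (j : ℕ) =
    C c * qt ω n * (∏ i, (X - C (x i)) ^ a i) ^ ℓ →
  ∀ w, n w = 0

/-- CLB: the second power of `1 - σ` does not kill more than the first. -/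
def T_CLB : Prop := ∀ (K : Type u) [Field K] [IsAlgClosed K] (v : AbsoluteValue K ℝ) (ℓ : ℕ)
  [Fact ℓ.Prime] (O : Subring K) (k : Type u) [Field k] [CharP k ℓ] (r : O →+* k),
  Ctx v ℓ O r → ∀ ζ : K, IsPrimitiveRoot ζ ℓ → ∀ (m : ℕ) (ω : Fin m → O),
  Function.Injective ω → ¬ ℓ ∣ m → ∀ (N : ℕ) (x : Fin N → O) (y : Fin N → K),
    (∀ i, y i ^ ℓ = (ff (fun w => (ω w : K))).eval (x i : K)) →
    (∀ i, (derivative (ff (fun w => r (ω w)))).eval (r (x i)) ≠ 0) →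
  ∀ α : Fin N → Fin ℓ → ℕ,
    Pr (dv ℓ (ff (fun w => (ω w : K))) ζ (fun i => (x i : K)) y (DD (DD α))) →
    Pr (dv ℓ (ff (fun w => (ω w : K))) ζ (fun i => (x i : K)) y (DD α))

/-- TOR: abstract lemma on torsion. -/
def T_TOR : Prop := ∀ (A : Type) [AddCommGroup A] (ℓ : ℕ), ℓ.Prime → ∀ (s : A →+ A)
  (P : AddSubgroup A), (∀ a ∈ P, s a ∈ P) → (∀ a, ∑ t ∈ Finset.range ℓ, s^[t] a ∈ P) →
  (∀ a, (a - s a) - s (a - s a) ∈ P → a - s a ∈ P) →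
  ∀ (a : A) (N : ℕ), 0 < N → N • a ∈ P → ∃ N' : ℕ, ¬ ℓ ∣ N' ∧ N' • (a - s a) ∈ P

/-- LL: the local lemma. -/
def T_LL : Prop := ∀ (K : Type u) [Field K] [IsAlgClosed K] (v : AbsoluteValue K ℝ) (ℓ : ℕ)
  [Fact ℓ.Prime] (O : Subring K) (k : Type u) [Field k] [CharP k ℓ] (r : O →+* k),
  Ctx v ℓ O r → ∀ ζ : K, IsPrimitiveRoot ζ ℓ → ∀ (m : ℕ) (ω : Fin m → O),
  Function.Injective ω → ¬ ℓ ∣ m → 2 ≤ (ℓ - 1) * (m - 1) →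
  ∀ (N : ℕ) (x : Fin N → O) (y : Fin N → K),
    (∀ i, y i ^ ℓ = (ff (fun w => (ω w : K))).eval (x i : K)) →
    (∀ i, (derivative (ff (fun w => r (ω w)))).eval (r (x i)) ≠ 0) →
  ∀ α : Fin N → Fin ℓ → ℕ,
    Tors ℓ (ff (fun w => (ω w : K))) ζ (fun i => (x i : K)) y α →
    ∑ i, ((∑ j, α i j : ℕ) : k) * Lam ℓ (ff (fun w => r (ω w))) (r (x i)) = 0

/-- `β`, a vector with entries in `ℤ[ζ]`, is a relation modulo torsion -/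
def TR {K : Type*} [Field K] (ℓ : ℕ) (f : K[X]) (ζ : K) {n : ℕ} (x y : Fin n → K)
    (β : Fin n → K) : Prop :=
  ∃ α : Fin n → Fin ℓ → ℕ, (∀ i, β i = ∑ j : Fin ℓ, (α i j : K) * ζ ^ (j : ℕ)) ∧
    Tors ℓ f ζ x y α

/-- MOD: the relations form a saturated `ℤ[ζ]`-module. -/
def T_MOD : Prop := ∀ (K : Type u) [Field K] [CharZero K] (ℓ : ℕ) [Fact ℓ.Prime] (ζ : K),
  IsPrimitiveRoot ζ ℓ → ∀ f : K[X], Squarefree f → ¬ ℓ ∣ f.natDegree →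
  ∀ (n : ℕ) (x y : Fin n → K), (∀ i, y i ^ ℓ = f.eval (x i)) →
    (∀ β β' : Fin n → K, TR ℓ f ζ x y β → TR ℓ f ζ x y β' → TR ℓ f ζ x y (β + β')) ∧
    (∀ c ∈ Algebra.adjoin ℤ {ζ}, ∀ β : Fin n → K, TR ℓ f ζ x y β → TR ℓ f ζ x y (c • β)) ∧
    (∀ c ∈ Algebra.adjoin ℤ {ζ}, c ≠ 0 → ∀ β : Fin n → K,
      (∀ i, β i ∈ Algebra.adjoin ℤ {ζ}) → TR ℓ f ζ x y (c • β) → TR ℓ f ζ x y β) ∧
    ∀ α : Fin n → Fin ℓ → ℕ,
      TR ℓ f ζ x y (fun i => ∑ j : Fin ℓ, (α i j : K) * ζ ^ (j : ℕ)) → Tors ℓ f ζ x y α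

/-- LAD: `ℤ[ζ]` at the prime above `ℓ`. -/
def T_LAD : Prop := ∀ (K : Type u) [Field K] [CharZero K] (v : AbsoluteValue K ℝ) (ℓ : ℕ)
  [Fact ℓ.Prime], IsNonarchimedean v → v (ℓ : K) < 1 → ∀ ζ : K, IsPrimitiveRoot ζ ℓ →
  v (1 - ζ) < 1 ∧
  (∀ β ∈ Algebra.adjoin ℤ {ζ}, v β < 1 → ∃ γ ∈ Algebra.adjoin ℤ {ζ}, β = (1 - ζ) * γ) ∧
  (∀ β ∈ IntermediateField.adjoin ℚ {ζ}, ∃ q : ℕ, q ≠ 0 ∧
    (q : K) * β ∈ Algebra.adjoin ℤ {ζ}) ∧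
  ∀ (ι : Type) [Finite ι] (τ : ι → K), (∀ i, τ i ∈ IntermediateField.adjoin ℚ {ζ}) →
    (∀ i, v (τ i) ≤ 1) → ∃ γ ∈ Algebra.adjoin ℤ {ζ}, v γ = 1 ∧
      ∀ i, γ * τ i ∈ Algebra.adjoin ℤ {ζ}

/-- LOCS: many independent relations give a pivot system over the residue field. -/
def T_LOCS : Prop := ∀ (K : Type u) [Field K] [CharZero K] [IsAlgClosed K]
  (v : AbsoluteValue K ℝ) (ℓ : ℕ) [Fact ℓ.Prime] (O : Subring K) (k : Type u) [Field k]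
  [CharP k ℓ] (r : O →+* k), Ctx v ℓ O r → ∀ ζ : K, IsPrimitiveRoot ζ ℓ →
  ∀ (m : ℕ) (ω : Fin m → O), Function.Injective ω → ¬ ℓ ∣ m → 2 ≤ (ℓ - 1) * (m - 1) →
  ∀ (N : ℕ) (x : Fin N → O) (y : Fin N → K),
    (∀ i, y i ^ ℓ = (ff (fun w => (ω w : K))).eval (x i : K)) →
  ∀ e : ℕ, Rel ℓ (ff (fun w => (ω w : K))) ζ (fun i => (x i : K)) y e →
  ∃ S J w, Bad ℓ e (ff (fun w => r (ω w))) (fun i => r (x i)) S J w

/-- SCL: scaling of the curve. -/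
def T_SCL : Prop := ∀ (K : Type u) [Field K] (ℓ : ℕ), 0 < ℓ → ∀ (m : ℕ) (ω : Fin m → K)
  (ζ c κ : K), c ≠ 0 → κ ^ ℓ = c ^ m → ∀ (N : ℕ) (x y : Fin N → K) (α : Fin N → Fin ℓ → ℕ),
  Tors ℓ (ff (fun w => c * ω w)) ζ (fun i => c * x i) (fun i => κ * y i) α →
  Tors ℓ (ff ω) ζ x y α

/-! ### Part C: generic coefficients -/

/-- PHMS: the generic coefficient vector has no bad system, integral parameters. -/
def T_PHMS : Prop := ∀ (k : Type u) [Field k] (ℓ : ℕ) [Fact ℓ.Prime] [CharP k ℓ]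
  (m d e' D n e : ℕ), ¬ ℓ ∣ m → 2 ≤ (ℓ - 1) * (m - 1) → ∀ Q : Finset (Fin d),
  Q.card + e = d + 1 → ∀ (ρ : Fin e' → ℕ) (b : Fin e' → ℕ → MvPolynomial (Fin d) k)
  (A : Fin m → MvPolynomial (Fin d ⊕ Fin e') k) (F : Fin n → MvPolynomial (Fin d ⊕ Fin e') k),
  ∃ Φ : MvPolynomial (Fin n × Fin (d + 1)) k, Φ ≠ 0 ∧
    ∀ c : Fin n × Fin (d + 1) → k, MvPolynomial.eval c Φ ≠ 0 →
    ∃ Ψ : MvPolynomial Q k, Ψ ≠ 0 ∧ ∀ z : Q → k, MvPolynomial.eval z Ψ ≠ 0 →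
    ∀ p s, OnBase ρ b p s → (∀ t : Q, p t = z t) → ∀ S J w,
      ¬ Bad ℓ e (fam fun κ => MvPolynomial.eval (Sum.elim p s) (A κ)) (absc D F c p s) S J w

/-- PHIS: the generic coefficient vector has no bad system at infinity. -/
def T_PHIS : Prop := ∀ (k : Type u) [Field k] (ℓ : ℕ) [Fact ℓ.Prime] [CharP k ℓ]
  (m d e' D n e : ℕ), ¬ ℓ ∣ m → 2 ≤ (ℓ - 1) * (m - 1) → ∀ Q : Finset (Fin d),
  Q.card + e = d + 1 → ∀ (ρ : Fin e' → ℕ) (b : Fin e' → ℕ → MvPolynomial (Fin d) k)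
  (F : Fin n → MvPolynomial (Fin d ⊕ Fin e') k),
  ∃ Φ : MvPolynomial (Fin n × Fin (d + 1)) k, Φ ≠ 0 ∧
    ∀ c : Fin n × Fin (d + 1) → k, MvPolynomial.eval c Φ ≠ 0 →
    ∀ p s, OnBase ρ b p s → (∀ t ∈ Q, p t = 0) → (∃ t, p t = 1) → ∀ S J w,
      ¬ Bad ℓ e (X ^ m : k[X]) (absc0 D F c p s) S J w

/-- RFS: the residue field. -/
def T_RFS : Prop := ∀ (K : Type u) [Field K] [IsAlgClosed K] (v : AbsoluteValue K ℝ) (ℓ : ℕ),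
  IsNonarchimedean v → ℓ.Prime → v (ℓ : K) < 1 →
  ∃ (O : Subring K) (k : Type u) (_ : Field k) (_ : CharP k ℓ) (_ : Infinite k) (r : O →+* k),
    Ctx v ℓ O r

/-- MAIS: points with integral parameters. -/
def T_MAIS : Prop := ∀ (K : Type u) [Field K] [CharZero K] [IsAlgClosed K]
  (v : AbsoluteValue K ℝ) (ℓ : ℕ) [Fact ℓ.Prime] (O : Subring K) (k : Type u) [Field k]
  [CharP k ℓ] (r : O →+* k), Ctx v ℓ O r → ∀ ζ : K, IsPrimitiveRoot ζ ℓ →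
  ∀ m : ℕ, ¬ ℓ ∣ m → 2 ≤ (ℓ - 1) * (m - 1) → ∀ a : Fin m → O,
  Squarefree (fam fun κ => (a κ : K)) → ∀ (N : ℕ) (x : Fin N → O) (y : Fin N → K),
    (∀ i, y i ^ ℓ = (fam fun κ => (a κ : K)).eval (x i : K)) →
  ∀ e : ℕ, Rel ℓ (fam fun κ => (a κ : K)) ζ (fun i => (x i : K)) y e →
  ∃ S J w, Bad ℓ e (fam fun κ => r (a κ)) (fun i => r (x i)) S J w

/-- MAIL: points with large abscissas. -/
def T_MAIL : Prop := ∀ (K : Type u) [Field K] [CharZero K] [IsAlgClosed K]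
  (v : AbsoluteValue K ℝ) (ℓ : ℕ) [Fact ℓ.Prime] (O : Subring K) (k : Type u) [Field k]
  [CharP k ℓ] (r : O →+* k), Ctx v ℓ O r → ∀ ζ : K, IsPrimitiveRoot ζ ℓ →
  ∀ m : ℕ, ¬ ℓ ∣ m → 2 ≤ (ℓ - 1) * (m - 1) → ∀ a : Fin m → K,
  Squarefree (fam a) → ∀ (N : ℕ) (x y : Fin N → K), (∀ i, y i ^ ℓ = (fam a).eval (x i)) →
  ∀ e : ℕ, Rel ℓ (fam a) ζ x y e →
  ∀ (u : K) (x' : Fin N → O), u ≠ 0 → (∀ κ : Fin m, v (a κ) < v u ^ ((κ : ℕ) + 1)) →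
    (∀ i, x i = u * x' i) → ∃ S J w, Bad ℓ e (X ^ m : k[X]) (fun i => r (x' i)) S J w

/-- INFS: points with large parameters. -/
def T_INFS : Prop := ∀ (K : Type u) [Field K] [CharZero K] [IsAlgClosed K]
  (v : AbsoluteValue K ℝ) (ℓ : ℕ) [Fact ℓ.Prime] (O : Subring K) (k : Type u) [Field k]
  [CharP k ℓ] (r : O →+* k), Ctx v ℓ O r → ∀ ζ : K, IsPrimitiveRoot ζ ℓ →
  ∀ m : ℕ, ¬ ℓ ∣ m → 2 ≤ (ℓ - 1) * (m - 1) → ∀ (d e' μ D n : ℕ), μ < D →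
  ∀ (ρ : Fin e' → ℕ) (b : Fin e' → ℕ → MvPolynomial (Fin d) O),
    (∀ j l, l < ρ j → (b j l).totalDegree ≤ ρ j - l) →
  ∀ (A : Fin m → MvPolynomial (Fin d ⊕ Fin e') O) (F : Fin n → MvPolynomial (Fin d ⊕ Fin e') O),
    (∀ κ : Fin m, (A κ).totalDegree ≤ ((κ : ℕ) + 1) * μ) → (∀ i, (F i).totalDegree ≤ D) →
  ∀ (c : Fin n × Fin (d + 1) → O) (p : Fin d → K) (s : Fin e' → K),
    OnBase ρ (fun j l => MvPolynomial.map O.subtype (b j l)) p s → (∃ t, 1 < v (p t)) →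
    Squarefree (fam fun κ => MvPolynomial.eval (Sum.elim p s)
      (MvPolynomial.map O.subtype (A κ))) →
  ∀ y : Fin n → K, (∀ i, y i ^ ℓ = (fam fun κ => MvPolynomial.eval (Sum.elim p s)
      (MvPolynomial.map O.subtype (A κ))).eval
        (absc D (fun i => MvPolynomial.map O.subtype (F i)) (fun u => (c u : K)) p s i)) →
  ∀ e : ℕ, Rel ℓ (fam fun κ => MvPolynomial.eval (Sum.elim p s)
      (MvPolynomial.map O.subtype (A κ))) ζ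
      (absc D (fun i => MvPolynomial.map O.subtype (F i)) (fun u => (c u : K)) p s) y e →
  ∃ p' s' S J w, OnBase ρ (fun j l => MvPolynomial.homogeneousComponent (ρ j - l)
      (MvPolynomial.map r (b j l))) p' s' ∧ (∃ t, p' t = 1) ∧
    (∀ t, v (p t) ≤ 1 → p' t = 0) ∧
    Bad ℓ e (X ^ m : k[X]) (absc0 D (fun i => MvPolynomial.homogeneousComponent D
      (MvPolynomial.map r (F i))) (fun u => r (c u)) p' s') S J w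

/-- FINS: the final theorem. -/
def T_FINS : Prop := ∀ (K : Type u) [Field K] [CharZero K] [IsAlgClosed K]
  (v : AbsoluteValue K ℝ) (ℓ : ℕ), IsNonarchimedean v → ℓ.Prime → v (ℓ : K) < 1 →
  ∀ m : ℕ, ¬ ℓ ∣ m → 2 ≤ (ℓ - 1) * (m - 1) → ∀ (d e' μ D n : ℕ), μ < D →
  ∀ (ρ : Fin e' → ℕ) (b : Fin e' → ℕ → MvPolynomial (Fin d) K),
    (∀ j l, l < ρ j → (b j l).totalDegree ≤ ρ j - l ∧ ∀ t, v ((b j l).coeff t) ≤ 1) →
  ∀ (A : Fin m → MvPolynomial (Fin d ⊕ Fin e') K) (F : Fin n → MvPolynomial (Fin d ⊕ Fin e') K),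
    (∀ κ : Fin m, (A κ).totalDegree ≤ ((κ : ℕ) + 1) * μ ∧ ∀ t, v ((A κ).coeff t) ≤ 1) →
    (∀ i, (F i).totalDegree ≤ D ∧ ∀ t, v ((F i).coeff t) ≤ 1) →
  ∃ Φ : MvPolynomial (Fin n × Fin (d + 1)) K, (∀ t, v (Φ.coeff t) ≤ 1) ∧
    (∃ t, v (Φ.coeff t) = 1) ∧
    ∀ c : Fin n × Fin (d + 1) → K, (∀ u, v (c u) ≤ 1) → v (MvPolynomial.eval c Φ) = 1 →
    ∀ (e : ℕ) (Q : Finset (Fin d)), Q.card + e = d + 1 →
    ∀ G : MvPolynomial Q K, G ≠ 0 → ∃ z : Q → K, MvPolynomial.eval z G ≠ 0 ∧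
    ∀ (p : Fin d → K) (s : Fin e' → K), OnBase ρ b p s → (∀ t : Q, p t = z t) →
      Squarefree (fam fun κ => MvPolynomial.eval (Sum.elim p s) (A κ)) →
    ∀ (ζ : K) (y : Fin n → K), IsPrimitiveRoot ζ ℓ →
      (∀ i, y i ^ ℓ = (fam fun κ => MvPolynomial.eval (Sum.elim p s) (A κ)).eval
        (absc D F c p s i)) →
      ¬ Rel ℓ (fam fun κ => MvPolynomial.eval (Sum.elim p s) (A κ)) ζ (absc D F c p s) y e

end SRK
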