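import Mathlib
import Pool.Agent.SRK.Targets

/-!
# BAS: coordinates
-/

namespace SRK

open Polynomial

universe u

namespace BAS_

variable {S : Type u} [CommRing S]

/-- the polynomial with the given coefficients -/
noncomputable def q (ℓ : ℕ) (A : Fin ℓ → S[X]) : Polynomial (Polynomial S) :=
  ∑ j : Fin ℓ, C (A j) * X ^ (j : ℕ)

theorem el_eq (ℓ : ℕ) (f : S[X]) (A : Fin ℓ → S[X]) :
    el ℓ f A = AdjoinRoot.mk ((X : Polynomial (Polynomial S)) ^ ℓ - C f) (q ℓ A) := by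
  unfold el q
  rw [map_sum]
  apply Finset.sum_congr rfl
  intro j _
  rw [map_mul, map_pow, AdjoinRoot.mk_C, AdjoinRoot.mk_X]

theorem q_coeff (ℓ : ℕ) (A : Fin ℓ → S[X]) (i : Fin ℓ) : (q ℓ A).coeff (i : ℕ) = A i := by
  unfold q
  rw [finsetSum_coeff, Finset.sum_eq_single i]
  · rw [coeff_C_mul, coeff_X_pow_self, mul_one]
  · intro j _ hj
    rw [coeff_C_mul, coeff_X_pow, if_neg, mul_zero]
    intro h
    exact hj (Fin.ext h.symm)
  · intro h
    exact absurd (Finset.mem_univ i) h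

theorem q_degree (ℓ : ℕ) (A : Fin ℓ → S[X]) : (q ℓ A).degree < (ℓ : WithBot ℕ) := by
  unfold q
  refine lt_of_le_of_lt (degree_sum_le _ _) ?_
  refine (Finset.sup_lt_iff (WithBot.bot_lt_coe ℓ)).mpr ?_
  intro j _
  exact lt_of_le_of_lt (degree_C_mul_X_pow_le _ _) (WithBot.coe_lt_coe.mpr j.2)

end BAS_

open BAS_ in
/-- BAS. -/
theorem p_BAS : T_BAS.{u} := by
  intro S _ _ ℓ hℓ f g
  set P : Polynomial (Polynomial S) := X ^ ℓ - C f with hP
  have hPm : P.Monic := monic_X_pow_sub_C f hℓ.ne'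
  have hPd : P.degree = (ℓ : WithBot ℕ) := degree_X_pow_sub_C hℓ f
  have hred : ∀ A : Fin ℓ → S[X], AdjoinRoot.modByMonicHom hPm (el ℓ f A) = q ℓ A := by
    intro A
    rw [el_eq]
    change AdjoinRoot.modByMonicHom hPm (AdjoinRoot.mk P (q ℓ A)) = q ℓ A
    rw [AdjoinRoot.modByMonicHom_mk, modByMonic_eq_self_iff hPm, hPd]
    exact q_degree ℓ A
  refine ⟨fun j => (AdjoinRoot.modByMonicHom hPm g).coeff (j : ℕ), ?_, ?_⟩
  · have h1 : q ℓ (fun j : Fin ℓ => (AdjoinRoot.modByMonicHom hPm g).coeff (j : ℕ)) =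
        AdjoinRoot.modByMonicHom hPm g := by
      ext1 i
      by_cases hi : i < ℓ
      · exact q_coeff ℓ _ ⟨i, hi⟩
      · have h2 : (AdjoinRoot.modByMonicHom hPm g).degree < (ℓ : WithBot ℕ) := by
          obtain ⟨p, rfl⟩ := AdjoinRoot.mk_surjective g
          have h3 := degree_modByMonic_lt p hPm
          rw [hPd] at h3
          exact h3
        rw [not_lt] at hi
        have hi' : (ℓ : WithBot ℕ) ≤ (i : WithBot ℕ) := by exact_mod_cast hi
        rw [coeff_eq_zero_of_degree_lt (lt_of_lt_of_le (q_degree ℓ _) hi'),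
          coeff_eq_zero_of_degree_lt (lt_of_lt_of_le h2 hi')]
    change g = el ℓ f _
    rw [el_eq, h1]
    exact (AdjoinRoot.mk_leftInverse hPm g).symm
  · intro B hB
    funext j
    change g = el ℓ f B at hB
    rw [hB, hred, q_coeff]

end SRK
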