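import Pool.Agent.SRK.Targets

/-! CL: the congruence for the leading terms. -/

set_option autoImplicit false

universe u

namespace SRK

open Polynomial

namespace CL_

/-- counting -/
lemma count {ℓ : ℕ} (n : ℕ) (hn : n ≤ ℓ) (hℓ : 0 < ℓ) (φ : Fin ℓ → ℕ) :
    n ≤ (Finset.univ.filter (fun s => φ s < n)).card + (∑ s, φ s) / ℓ := by
  classical
  set t := (Finset.univ.filter (fun s => ¬ φ s < n)).card with ht
  have h1 : (Finset.univ.filter (fun s => φ s < n)).card + t = ℓ := by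
    rw [ht, Finset.card_filter_add_card_filter_not]
    simp
  have h2 : t * n ≤ ∑ s, φ s := by
    calc t * n = ∑ s ∈ Finset.univ.filter (fun s => ¬ φ s < n), n := by simp [ht]
      _ ≤ ∑ s ∈ Finset.univ.filter (fun s => ¬ φ s < n), φ s := by
          apply Finset.sum_le_sum
          intro s hs
          exact not_lt.1 (Finset.mem_filter.1 hs).2
      _ ≤ ∑ s, φ s := Finset.sum_le_sum_of_subset (Finset.filter_subset _ _)
  have h3 : t * n / ℓ ≤ (∑ s, φ s) / ℓ := Nat.div_le_div_right h2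
  set a := (Finset.univ.filter (fun s => φ s < n)).card
  have h4 : n ≤ (a * ℓ + t * n) / ℓ := by
    rw [Nat.le_div_iff_mul_le hℓ]
    have h5 : n * ℓ = n * a + n * t := by rw [← mul_add, h1]
    have h6 : n * a ≤ a * ℓ := by rw [mul_comm]; exact Nat.mul_le_mul_left _ hn
    rw [h5, mul_comm t n]
    omega
  have h7 : (a * ℓ + t * n) / ℓ = a + t * n / ℓ := by
    rw [mul_comm a ℓ, Nat.mul_add_div hℓ]
  omega

variable {k : Type u} [Field k]

lemma qt_dvd {ℓ m : ℕ} (hℓ : 0 < ℓ) (ω : Fin m → k) (n : Fin m → ℕ) (hn : ∀ w, n w < ℓ)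
    (φ : Fin ℓ → ℕ) :
    qt ω n ∣ (∏ s, qq ω n (φ s)) * ff ω ^ ((∑ s, φ s) / ℓ) := by
  have h1 : (∏ s, qq ω n (φ s)) * ff ω ^ ((∑ s, φ s) / ℓ) =
      ∏ w, (X - C (ω w)) ^ ((Finset.univ.filter (fun s => φ s < n w)).card +
        (∑ s, φ s) / ℓ) := by
    unfold qq ff
    rw [Finset.prod_comm, ← Finset.prod_pow, ← Finset.prod_mul_distrib]
    refine Finset.prod_congr rfl fun w _ => ?_
    rw [pow_add, Finset.prod_ite]
    simp
  rw [h1]
  unfold qt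
  apply Finset.prod_dvd_prod_of_dvd
  intro w _
  exact pow_dvd_pow _ (count (n w) (hn w).le hℓ φ)

variable {ℓ : ℕ} [Fact ℓ.Prime] [CharP k ℓ]

omit [Fact ℓ.Prime] in
lemma der_pow (B : k[X]) : derivative (B ^ ℓ) = 0 := by
  rw [derivative_pow]
  simp

omit [Fact ℓ.Prime] in
lemma der_pow_mul (B g : k[X]) : derivative (B ^ ℓ * g) = B ^ ℓ * derivative g := by
  rw [derivative_mul, der_pow, zero_mul, zero_add]

omit [Fact ℓ.Prime] in
lemma iter_pow_mul (B g : k[X]) (t : ℕ) :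
    derivative^[t] (B ^ ℓ * g) = B ^ ℓ * derivative^[t] g := by
  induction t with
  | zero => rfl
  | succ t ih => rw [Function.iterate_succ_apply', ih, der_pow_mul,
      Function.iterate_succ_apply']

lemma cast_pow (z : ℕ) : (z : k) ^ ℓ = z := by
  have := map_natCast (frobenius k ℓ) z
  rwa [frobenius_def] at this

/-- the expansion of a product of `ℓ` factors -/
lemma expand {m : ℕ} (ω : Fin m → k) (n : Fin m → ℕ) (hn : ∀ w, n w < ℓ)
    (A : Fin ℓ → k[X]) (z : Fin ℓ → Fin ℓ → ℕ) :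
    ∃ β : (Fin ℓ → Fin ℓ) → k[X],
      ∏ s : Fin ℓ, ∑ j : Fin ℓ, (C (z s j : k) * ((qq ω n j * A j) ^ ℓ * ff ω ^ (j : ℕ))) =
      qt ω n ^ ℓ * ∑ φ : Fin ℓ → Fin ℓ, β φ ^ ℓ * ff ω ^ ((∑ s, (φ s : ℕ)) % ℓ) := by
  classical
  have hℓ : 0 < ℓ := (Fact.out : ℓ.Prime).pos
  have key : ∀ φ : Fin ℓ → Fin ℓ, ∃ b : k[X],
      ∏ s : Fin ℓ, (C (z s (φ s) : k) * ((qq ω n (φ s) * A (φ s)) ^ ℓ * ff ω ^ (φ s : ℕ))) =
      qt ω n ^ ℓ * (b ^ ℓ * ff ω ^ ((∑ s, (φ s : ℕ)) % ℓ)) := by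
    intro φ
    obtain ⟨r, hr⟩ := qt_dvd hℓ ω n hn (fun s => (φ s : ℕ))
    refine ⟨(∏ s, C (z s (φ s) : k)) * r * ∏ s, A (φ s), ?_⟩
    have e1 : ∏ s : Fin ℓ, (C (z s (φ s) : k) *
        ((qq ω n (φ s) * A (φ s)) ^ ℓ * ff ω ^ (φ s : ℕ))) =
        (∏ s, C (z s (φ s) : k)) ^ ℓ * ((∏ s, qq ω n (φ s)) ^ ℓ * (∏ s, A (φ s)) ^ ℓ) *
          ff ω ^ (∑ s, (φ s : ℕ)) := by
      rw [Finset.prod_mul_distrib, Finset.prod_mul_distrib, Finset.prod_pow_eq_pow_sum,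
        ← mul_pow, ← Finset.prod_mul_distrib, ← Finset.prod_pow, ← Finset.prod_pow]
      have e2 : ∀ s, C (z s (φ s) : k) ^ ℓ = C (z s (φ s) : k) := by
        intro s
        rw [← C_pow, cast_pow]
      simp only [e2]
      ring
    have e3 : ff ω ^ (∑ s, (φ s : ℕ)) =
        (ff ω ^ ((∑ s, (φ s : ℕ)) / ℓ)) ^ ℓ * ff ω ^ ((∑ s, (φ s : ℕ)) % ℓ) := by
      rw [← pow_mul, ← pow_add, mul_comm _ ℓ, Nat.div_add_mod]
    rw [e1, e3]
    have e4 : (∏ s, qq ω n (φ s)) ^ ℓ * (ff ω ^ ((∑ s, (φ s : ℕ)) / ℓ)) ^ ℓ =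
        qt ω n ^ ℓ * r ^ ℓ := by
      rw [← mul_pow, hr, mul_pow]
    calc _ = ((∏ s, qq ω n (φ s)) ^ ℓ * (ff ω ^ ((∑ s, (φ s : ℕ)) / ℓ)) ^ ℓ) *
          ((∏ s, C (z s (φ s) : k)) ^ ℓ * (∏ s, A (φ s)) ^ ℓ *
            ff ω ^ ((∑ s, (φ s : ℕ)) % ℓ)) := by ring
      _ = _ := by rw [e4]; ring
  choose β hβ using key
  refine ⟨β, ?_⟩
  rw [Finset.prod_univ_sum, Finset.mul_sum]
  simp only [Fintype.piFinset_univ]
  exact Finset.sum_congr rfl fun φ _ => hβ φ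

/-! ### derivatives of products of powers -/

/-- `∑ w, n w ∏_{w' ≠ w} (X - ω w')` -/
noncomputable def Fn {m : ℕ} (ω : Fin m → k) (n : Fin m → ℕ) : k[X] :=
  ∑ w, C (n w : k) * ∏ w' ∈ Finset.univ.erase w, (X - C (ω w'))

omit [Fact ℓ.Prime] [CharP k ℓ] in
lemma ff_mul_der_qt {m : ℕ} (ω : Fin m → k) (n : Fin m → ℕ) :
    ff ω * derivative (qt ω n) = qt ω n * Fn ω n := by
  unfold ff qt Fn
  rw [derivative_prod_finset, Finset.mul_sum, Finset.mul_sum]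
  refine Finset.sum_congr rfl fun w hw => ?_
  rw [derivative_X_sub_C_pow, ← Finset.mul_prod_erase _ _ hw,
    ← Finset.mul_prod_erase _ (fun w' => (X - C (ω w')) ^ n w') hw]
  rcases Nat.eq_zero_or_pos (n w) with h0 | h0
  · simp [h0]
  · have h1 : (X - C (ω w)) ^ n w = (X - C (ω w)) * (X - C (ω w)) ^ (n w - 1) := by
      rw [← pow_succ', Nat.sub_add_cancel h0]
    rw [h1]
    ring

/-- the `i`-th term in the derivative of `∏ (X - x i) ^ a i` -/
noncomputable def Ti {N : ℕ} (x : Fin N → k) (a : Fin N → ℕ) (i : Fin N) : k[X] :=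
  C (a i : k) * ((X - C (x i)) ^ (a i - 1) *
    ∏ i' ∈ Finset.univ.erase i, (X - C (x i')) ^ a i')

omit [Fact ℓ.Prime] [CharP k ℓ] in
lemma der_M {N : ℕ} (x : Fin N → k) (a : Fin N → ℕ) :
    derivative (∏ i, (X - C (x i)) ^ a i) = ∑ i, Ti x a i := by
  rw [derivative_prod_finset]
  refine Finset.sum_congr rfl fun i _ => ?_
  rw [derivative_X_sub_C_pow]
  unfold Ti
  ring

omit [Fact ℓ.Prime] [CharP k ℓ] in
lemma Ti_mul {N : ℕ} (x : Fin N → k) (a : Fin N → ℕ) (i : Fin N) :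
    Ti x a i * (X - C (x i)) = C (a i : k) * ∏ i, (X - C (x i)) ^ a i := by
  unfold Ti
  rw [← Finset.mul_prod_erase _ (fun i' => (X - C (x i')) ^ a i') (Finset.mem_univ i)]
  rcases Nat.eq_zero_or_pos (a i) with h0 | h0
  · simp [h0]
  · have h1 : (X - C (x i)) ^ a i = (X - C (x i)) * (X - C (x i)) ^ (a i - 1) := by
      rw [← pow_succ', Nat.sub_add_cancel h0]
    rw [h1]
    ring

/-! ### degrees -/

omit [Fact ℓ.Prime] [CharP k ℓ] in
lemma ff_monic {m : ℕ} (ω : Fin m → k) : (ff ω).Monic :=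
  monic_prod_of_monic _ _ fun w _ => monic_X_sub_C _

omit [Fact ℓ.Prime] [CharP k ℓ] in
lemma ff_natDegree {m : ℕ} (ω : Fin m → k) : (ff ω).natDegree = m := by
  unfold ff
  rw [natDegree_prod_of_monic _ _ fun _ _ => monic_X_sub_C _]
  simp

omit [Fact ℓ.Prime] in
lemma der_ff {m : ℕ} (ω : Fin (m + 1) → k) (hm : ¬ ℓ ∣ m + 1) :
    (derivative (ff ω)).natDegree = m ∧ (derivative (ff ω)).leadingCoeff = ((m + 1 : ℕ) : k) := by
  have h1 : (derivative (ff ω)).coeff m = ((m + 1 : ℕ) : k) := by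
    rw [coeff_derivative]
    have h2 : (ff ω).coeff (m + 1) = 1 := by
      have := (ff_monic ω).coeff_natDegree
      rwa [ff_natDegree] at this
    rw [h2]
    push_cast
    ring
  have h3 : ((m + 1 : ℕ) : k) ≠ 0 := fun h => hm ((CharP.cast_eq_zero_iff k ℓ _).1 h)
  have h4 : (derivative (ff ω)).natDegree = m := by
    apply le_antisymm
    · have := natDegree_derivative_le (ff ω)
      rwa [ff_natDegree, Nat.add_sub_cancel] at this
    · apply le_natDegree_of_ne_zero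
      rw [h1]
      exact h3
  refine ⟨h4, ?_⟩
  rw [leadingCoeff, h4, h1]

omit [Fact ℓ.Prime] [CharP k ℓ] in
lemma Fn_natDegree {m : ℕ} (ω : Fin (m + 1) → k) (n : Fin (m + 1) → ℕ) :
    (Fn ω n).natDegree ≤ m := by
  unfold Fn
  apply natDegree_sum_le_of_forall_le
  intro w hw
  refine (natDegree_C_mul_le _ _).trans ?_
  rw [natDegree_prod_of_monic _ _ fun w _ => monic_X_sub_C _]
  simp [Finset.card_erase_of_mem hw]

omit [CharP k ℓ] in
lemma descF (μ : ℕ) : ¬ ℓ ∣ (ℓ * μ + (ℓ - 1)).descFactorial (ℓ - 1) := by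
  have hp : ℓ.Prime := Fact.out
  rw [Nat.descFactorial_eq_prod_range, hp.prime.dvd_finsetProd_iff]
  rintro ⟨i, hi, hd⟩
  rw [Finset.mem_range] at hi
  have h1 : ℓ * μ + (ℓ - 1) - i = ℓ * μ + (ℓ - 1 - i) := by omega
  rw [h1, (Nat.dvd_add_right (dvd_mul_right _ _))] at hd
  have := Nat.le_of_dvd (by omega) hd
  omega

end CL_

open CL_ in
theorem p_CL (h_IDF : T_IDF.{u}) : T_CL.{u} := by
  intro k _ ℓ _ _ m N ω n A c x a hm hm2 hn hc hx hE
  have hp : ℓ.Prime := Fact.out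
  have hℓ : 0 < ℓ := hp.pos
  have hℓ2 : 2 ≤ ℓ := hp.two_le
  obtain ⟨μ, rfl⟩ : ∃ μ, m = μ + 1 + 1 := by
    rcases m with _ | _ | m
    · simp at hm2
    · simp at hm2
    · exact ⟨m, rfl⟩
  simp only [Nat.add_sub_cancel] at hm2
  set f := ff ω with hf
  set q := qt ω n with hq
  set M : k[X] := ∏ i, (X - C (x i)) ^ a i with hM
  set f' := derivative f with hf'
  obtain ⟨hd1, hd2⟩ := der_ff (ℓ := ℓ) ω hm
  rw [← hf, ← hf'] at hd1 hd2
  have hq0 : q ≠ 0 := by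
    rw [hq, qt]
    exact Finset.prod_ne_zero_iff.2 fun w _ => pow_ne_zero _ (X_sub_C_ne_zero _)
  have hM0 : M ≠ 0 := by
    rw [hM]
    exact Finset.prod_ne_zero_iff.2 fun w _ => pow_ne_zero _ (X_sub_C_ne_zero _)
  -- the polynomial `N0`
  set N0 : k[X] := (M * Fn ω n + f * ∑ i, Ti x a i) * M ^ (ℓ - 1) with hN0
  set Θ : k[X] := ∑ j : Fin ℓ, (qq ω n j * A j) ^ ℓ * f ^ (j : ℕ) with hΘ
  set Dl : k[X] := ∑ j : Fin ℓ, C ((j : ℕ) : k) * ((qq ω n j * A j) ^ ℓ * f ^ (j : ℕ)) with hDl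
  have hder : f * derivative Θ = f' * Dl := by
    rw [hΘ, derivative_sum, Finset.mul_sum, hDl, Finset.mul_sum]
    refine Finset.sum_congr rfl fun j _ => ?_
    rw [der_pow_mul, derivative_pow]
    rcases Nat.eq_zero_or_pos (j : ℕ) with h0 | h0
    · simp [h0]
    · have h1 : f ^ (j : ℕ) = f * f ^ ((j : ℕ) - 1) := by
        rw [← pow_succ', Nat.sub_add_cancel h0]
      rw [h1]
      ring
  have hder2 : f * derivative Θ = C c * q * (M * Fn ω n + f * ∑ i, Ti x a i) := by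
    rw [hE, derivative_mul, derivative_mul, derivative_C, zero_mul, zero_add, der_M]
    have h1 := ff_mul_der_qt ω n
    rw [← hf, ← hq] at h1
    calc f * (C c * derivative q * M + C c * q * ∑ i, Ti x a i) =
        C c * (f * derivative q) * M + C c * q * (f * ∑ i, Ti x a i) := by ring
      _ = _ := by rw [h1]; ring
  -- expansion
  obtain ⟨β, hβ⟩ := expand ω n hn A (fun s j => if s = ⟨0, hℓ⟩ then (j : ℕ) else 1)
  rw [← hf, ← hq] at hβ
  have hexp : Dl * Θ ^ (ℓ - 1) =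
      q ^ ℓ * ∑ φ : Fin ℓ → Fin ℓ, β φ ^ ℓ * f ^ ((∑ s, (φ s : ℕ)) % ℓ) := by
    rw [← hβ, ← Finset.mul_prod_erase _ _ (Finset.mem_univ (⟨0, hℓ⟩ : Fin ℓ))]
    simp only [if_true]
    congr 1
    rw [Finset.prod_congr rfl (g := fun _ => Θ)]
    · rw [Finset.prod_const, Finset.card_erase_of_mem (Finset.mem_univ _)]
      simp
    · intro s hs
      have hne : s ≠ ⟨0, hℓ⟩ := Finset.ne_of_mem_erase hs
      simp only [hne, if_false, Nat.cast_one, C_1, one_mul]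
      rw [hΘ]
  have hN : C c ^ ℓ * N0 = f' * ∑ φ : Fin ℓ → Fin ℓ, β φ ^ ℓ * f ^ ((∑ s, (φ s : ℕ)) % ℓ) := by
    have h1 : q ^ ℓ * (C c ^ ℓ * N0) = q ^ ℓ * (f' *
        ∑ φ : Fin ℓ → Fin ℓ, β φ ^ ℓ * f ^ ((∑ s, (φ s : ℕ)) % ℓ)) := by
      calc q ^ ℓ * (C c ^ ℓ * N0) =
          (C c * q * (M * Fn ω n + f * ∑ i, Ti x a i)) * (C c * q * M) ^ (ℓ - 1) := by
            have h2 : q ^ ℓ * (C c) ^ ℓ = (C c * q) * (C c * q) ^ (ℓ - 1) := by
              rw [← pow_succ', Nat.sub_add_cancel hℓ, mul_pow]; ring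
            rw [hN0, ← mul_assoc, h2, mul_pow (C c * q) M]
            ring
        _ = f' * (Dl * Θ ^ (ℓ - 1)) := by
            rw [← hder2, hder, ← hE]
            ring
        _ = _ := by rw [hexp]; ring
    exact mul_left_cancel₀ (pow_ne_zero _ hq0) h1
  have hdvd1 : f' ^ ℓ ∣ derivative^[ℓ - 1] N0 := by
    have h1 : f' ^ ℓ ∣ C c ^ ℓ * derivative^[ℓ - 1] N0 := by
      rw [← iter_pow_mul, hN, Finset.mul_sum, iterate_derivative_sum]
      apply Finset.dvd_sum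
      intro φ _
      have h2 : f' * (β φ ^ ℓ * f ^ ((∑ s, (φ s : ℕ)) % ℓ)) =
          β φ ^ ℓ * (f' * f ^ ((∑ s, (φ s : ℕ)) % ℓ)) := by ring
      rw [h2, iter_pow_mul]
      apply Dvd.dvd.mul_left
      obtain ⟨hI1, hI2⟩ := h_IDF k ℓ f
      have h3 : (∑ s, (φ s : ℕ)) % ℓ < ℓ := Nat.mod_lt _ hℓ
      rcases Nat.lt_or_ge ((∑ s, (φ s : ℕ)) % ℓ + 1) ℓ with h4 | h4
      · rw [hI1 _ h4]; exact dvd_zero _
      · have h5 : (∑ s, (φ s : ℕ)) % ℓ = ℓ - 1 := by omega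
        rw [h5, hI2]
        exact (dvd_neg).2 dvd_rfl
    have hu : IsUnit (C c ^ ℓ : k[X]) := (isUnit_C.2 (isUnit_iff_ne_zero.2 hc)).pow _
    exact (hu.dvd_mul_left).1 h1
  -- the polynomial `G`
  let h : Fin N → k[X] := fun i => f - C (Lam ℓ f (x i)) * f' ^ ℓ
  let g : Fin N → k[X] := fun i => h i /ₘ (X - C (x i))
  have hg : ∀ i, (X - C (x i)) * g i = h i := by
    intro i
    apply mul_divByMonic_eq_iff_isRoot.2
    simp only [h, IsRoot, eval_sub, eval_mul, eval_C, eval_pow, Lam]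
    rw [div_mul_cancel₀ _ (pow_ne_zero _ (hx i)), sub_self]
  set G : k[X] := Fn ω n + ∑ i, C (a i : k) * g i with hG
  have hMG : M ^ ℓ * G = N0 - f' ^ ℓ * ∑ i, C (Lam ℓ f (x i)) * (Ti x a i * M ^ (ℓ - 1)) := by
    have h1 : M ^ ℓ = M * M ^ (ℓ - 1) := by rw [← pow_succ', Nat.sub_add_cancel hℓ]
    have h2 : ∀ i, M * M ^ (ℓ - 1) * (C (a i : k) * g i) =
        M ^ (ℓ - 1) * Ti x a i * f -
          f' ^ ℓ * (C (Lam ℓ f (x i)) * (Ti x a i * M ^ (ℓ - 1))) := by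
      intro i
      have h3 := Ti_mul x a i
      rw [← hM] at h3
      calc M * M ^ (ℓ - 1) * (C (a i : k) * g i) =
          M ^ (ℓ - 1) * (C (a i : k) * M) * g i := by ring
        _ = M ^ (ℓ - 1) * Ti x a i * ((X - C (x i)) * g i) := by rw [← h3]; ring
        _ = _ := by rw [hg]; simp only [h]; ring
    rw [h1, hG, mul_add, Finset.mul_sum, Finset.sum_congr rfl fun i _ => h2 i,
      Finset.sum_sub_distrib, ← Finset.mul_sum, hN0, ← Finset.sum_mul, ← Finset.mul_sum]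
    ring
  have hdvd2 : f' ^ ℓ ∣ derivative^[ℓ - 1] G := by
    have h1 : f' ^ ℓ ∣ M ^ ℓ * derivative^[ℓ - 1] G := by
      rw [← iter_pow_mul, hMG, iterate_derivative_sub, iter_pow_mul]
      exact dvd_sub hdvd1 (dvd_mul_right _ _)
    have h2 : IsCoprime f' M := by
      rw [hM]
      apply IsCoprime.prod_right
      intro i _
      apply IsCoprime.pow_right
      apply IsCoprime.symm
      rw [(irreducible_X_sub_C (x i)).coprime_iff_not_dvd, dvd_iff_isRoot]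
      exact hx i
    exact (h2.pow (m := ℓ) (n := ℓ)).dvd_of_dvd_mul_left h1
  -- degrees
  have hfd : f.natDegree = μ + 1 + 1 := ff_natDegree ω
  have hbig : μ + 1 + 1 < ℓ * (μ + 1) := by
    obtain ⟨t, rfl⟩ : ∃ t, ℓ = t + 1 := ⟨ℓ - 1, by omega⟩
    simp only [Nat.add_sub_cancel] at hm2
    nlinarith
  have hhd : ∀ i, (h i).natDegree ≤ ℓ * (μ + 1) := by
    intro i
    refine (natDegree_sub_le _ _).trans (max_le ?_ ?_)
    · rw [hfd]; exact hbig.le
    · refine (natDegree_C_mul_le _ _).trans ?_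
      rw [natDegree_pow, hd1]
  have hgd : ∀ i, (g i).natDegree ≤ ℓ * (μ + 1) - 1 := by
    intro i
    rw [natDegree_divByMonic _ (monic_X_sub_C _), natDegree_X_sub_C]
    exact Nat.sub_le_sub_right (hhd i) 1
  have hFd := Fn_natDegree ω n
  have hGd : G.natDegree ≤ ℓ * (μ + 1) - 1 := by
    refine (natDegree_add_le _ _).trans (max_le (by omega) ?_)
    apply natDegree_sum_le_of_forall_le
    intro i _
    exact (natDegree_C_mul_le _ _).trans (hgd i)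
  have hG0 : derivative^[ℓ - 1] G = 0 := by
    apply eq_zero_of_dvd_of_natDegree_lt hdvd2
    rw [natDegree_pow, hd1]
    have := natDegree_iterate_derivative G (ℓ - 1)
    omega
  have hco : G.coeff (ℓ * μ + (ℓ - 1)) = 0 := by
    have h1 := congrArg (fun P => P.coeff (ℓ * μ)) hG0
    simp only [coeff_iterate_derivative, coeff_zero] at h1
    rw [nsmul_eq_mul] at h1
    refine (mul_eq_zero.1 h1).resolve_left ?_
    intro h2
    exact descF μ ((CharP.cast_eq_zero_iff k ℓ _).1 h2)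
  have hidx : ℓ * μ + (ℓ - 1) + 1 = ℓ * (μ + 1) := by
    rw [mul_add, mul_one]; omega
  have hFc : (Fn ω n).coeff (ℓ * μ + (ℓ - 1)) = 0 := by
    apply coeff_eq_zero_of_natDegree_lt
    omega
  have hgc : ∀ i, (g i).coeff (ℓ * μ + (ℓ - 1)) =
      - (Lam ℓ f (x i) * ((μ + 1 + 1 : ℕ) : k) ^ ℓ) := by
    intro i
    have h1 : (h i).coeff (ℓ * (μ + 1)) = - (Lam ℓ f (x i) * ((μ + 1 + 1 : ℕ) : k) ^ ℓ) := by
      simp only [h]
      rw [coeff_sub, coeff_C_mul, coeff_eq_zero_of_natDegree_lt (by rw [hfd]; exact hbig),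
        ← hd2, ← coeff_pow_mul_natDegree, hd1, zero_sub]
    rw [← h1, ← hg i, ← hidx, sub_mul, coeff_sub, coeff_X_mul, coeff_C_mul,
      coeff_eq_zero_of_natDegree_lt (p := g i) (n := ℓ * μ + (ℓ - 1) + 1)
        (by have := hgd i; omega)]
    ring
  have hfin : ∑ i, (a i : k) * (Lam ℓ f (x i) * ((μ + 1 + 1 : ℕ) : k) ^ ℓ) = 0 := by
    have h1 : G.coeff (ℓ * μ + (ℓ - 1)) =
        ∑ i, (a i : k) * (- (Lam ℓ f (x i) * ((μ + 1 + 1 : ℕ) : k) ^ ℓ)) := by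
      rw [hG, coeff_add, hFc, zero_add, finsetSum_coeff]
      refine Finset.sum_congr rfl fun i _ => ?_
      rw [coeff_C_mul, hgc]
    rw [h1] at hco
    simpa [Finset.sum_neg_distrib] using hco
  have hmk : (((μ + 1 + 1 : ℕ) : k)) ^ ℓ ≠ 0 :=
    pow_ne_zero _ fun h => hm ((CharP.cast_eq_zero_iff k ℓ _).1 h)
  have h1 : (∑ i, (a i : k) * Lam ℓ f (x i)) * ((μ + 1 + 1 : ℕ) : k) ^ ℓ = 0 := by
    rw [Finset.sum_mul, ← hfin]
    exact Finset.sum_congr rfl fun i _ => by ring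
  exact (mul_eq_zero.1 h1).resolve_right hmk

end SRK
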