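import Mathlib
import Pool.Agent.SRK.Targets

/-! CLA: a divisor whose class is fixed by the automorphism is equivalent to a divisor supported
in the points with `Y = 0`. -/

set_option autoImplicit false

universe u

namespace SRK

open Polynomial

namespace CLA_

section

variable {K : Type u} [Field K] {ℓ : ℕ}

/-- product of divisors -/
theorem dv_add (f : K[X]) (ζ : K) {N : ℕ} (x y : Fin N → K) (α β : Fin N → Fin ℓ → ℕ) :
    dv ℓ f ζ x y α * dv ℓ f ζ x y β = dv ℓ f ζ x y (fun i j => α i j + β i j) := by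
  unfold dv
  rw [← Finset.prod_mul_distrib]
  apply Finset.prod_congr rfl
  intro i _
  rw [← Finset.prod_mul_distrib]
  apply Finset.prod_congr rfl
  intro j _
  rw [pow_add]

/-- constant divisors are principal -/
theorem dv_const (hPT : T_PT.{u}) (hℓ : ℓ.Prime) (f : K[X]) (hf : Squarefree f) (ζ : K)
    (hζ : IsPrimitiveRoot ζ ℓ) {N : ℕ} (x y : Fin N → K) (hy : ∀ i, y i ^ ℓ = f.eval (x i))
    (c : Fin N → ℕ) :
    dv ℓ f ζ x y (fun i _ => c i) =
      Ideal.span {AdjoinRoot.of _ (∏ i, (X - C (x i)) ^ c i)} := by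
  unfold dv
  rw [map_prod, ← Ideal.prod_span_singleton]
  apply Finset.prod_congr rfl
  intro i _
  rw [Finset.prod_pow, hPT K ℓ hℓ ζ hζ f hf (x i) (y i) (hy i), Ideal.span_singleton_pow, map_pow]

theorem prod_ne_zero {N : ℕ} (x : Fin N → K) (c : Fin N → ℕ) :
    (∏ i, (X - C (x i)) ^ c i : K[X]) ≠ 0 := by
  rw [Finset.prod_ne_zero_iff]
  intro i _
  exact pow_ne_zero _ (X_sub_C_ne_zero (x i))

/-- the automorphism on the ideal of a point -/
theorem map_pt (hℓ : 0 < ℓ) (f : K[X]) (ζ : K) (hζ : ζ ^ ℓ = 1) (x y : K) :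
    Ideal.map (sg ℓ f ζ hζ) (pt ℓ f x (ζ * y)) = pt ℓ f x y := by
  have hz0 : ζ ≠ 0 := by
    rintro rfl
    rw [zero_pow hℓ.ne'] at hζ
    exact zero_ne_one hζ
  have e1 : sg ℓ f ζ hζ (AdjoinRoot.of _ (X - C x)) = AdjoinRoot.of _ (X - C x) := by
    unfold sg
    rw [AdjoinRoot.lift_of]
  have e2 : sg ℓ f ζ hζ (AdjoinRoot.root _ - AdjoinRoot.of _ (C (ζ * y))) =
      AdjoinRoot.of _ (C ζ) * (AdjoinRoot.root _ - AdjoinRoot.of _ (C y)) := by
    unfold sg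
    rw [map_sub, AdjoinRoot.lift_of, AdjoinRoot.lift_root, mul_sub, ← map_mul, C_mul]
  unfold pt
  rw [Ideal.map_span, Set.image_pair, e1, e2]
  apply le_antisymm
  · rw [Ideal.span_le]
    rintro z (rfl | rfl)
    · exact Ideal.subset_span (Set.mem_insert _ _)
    · exact Ideal.mul_mem_left _ _ (Ideal.subset_span (Set.mem_insert_of_mem _ rfl))
  · rw [Ideal.span_le]
    rintro z (rfl | rfl)
    · exact Ideal.subset_span (Set.mem_insert _ _)
    · have h1 : (AdjoinRoot.root _ - AdjoinRoot.of _ (C y) : Crd ℓ f) =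
          AdjoinRoot.of _ (C ζ⁻¹) *
            (AdjoinRoot.of _ (C ζ) * (AdjoinRoot.root _ - AdjoinRoot.of _ (C y))) := by
        rw [← mul_assoc, ← map_mul, ← C_mul, inv_mul_cancel₀ hz0, C_1, map_one, one_mul]
      have h2 : AdjoinRoot.of _ (C ζ⁻¹) *
            (AdjoinRoot.of _ (C ζ) * (AdjoinRoot.root _ - AdjoinRoot.of _ (C y))) ∈
          (Ideal.span {AdjoinRoot.of _ (X - C x),
            AdjoinRoot.of _ (C ζ) * (AdjoinRoot.root _ - AdjoinRoot.of _ (C y))} :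
            Ideal (Crd ℓ f)) :=
        Ideal.mul_mem_left _ _ (Ideal.subset_span (Set.mem_insert_of_mem _ rfl))
      rw [← h1] at h2
      exact h2

theorem pow_succ_fin [Fact ℓ.Prime] (ζ : K) (hζ : ζ ^ ℓ = 1) (j : Fin ℓ) :
    ζ ^ ((j + 1 : Fin ℓ) : ℕ) = ζ * ζ ^ (j : ℕ) := by
  have h2 : 2 ≤ ℓ := (Fact.out : ℓ.Prime).two_le
  have h1 : ((j + 1 : Fin ℓ) : ℕ) = ((j : ℕ) + 1) % ℓ := by
    rw [Fin.val_add, Fin.val_one', Nat.mod_eq_of_lt (by omega : 1 < ℓ)]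
  have h3 : ∀ k : ℕ, ζ ^ (k % ℓ) = ζ ^ k := by
    intro k
    conv_rhs => rw [← Nat.div_add_mod k ℓ, pow_add, pow_mul, hζ, one_pow, one_mul]
  rw [h1, h3, pow_succ, mul_comm]

/-- the automorphism on divisors -/
theorem map_dv [Fact ℓ.Prime] (f : K[X]) (ζ : K) (hζ : ζ ^ ℓ = 1) {N : ℕ} (x y : Fin N → K)
    (β : Fin N → Fin ℓ → ℕ) :
    Ideal.map (sg ℓ f ζ hζ) (dv ℓ f ζ x y β) = dv ℓ f ζ x y (fun i j => β i (j + 1)) := by
  have hmap : ∀ I : Ideal (Crd ℓ f), Ideal.map (sg ℓ f ζ hζ) I =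
      Ideal.mapHom (sg ℓ f ζ hζ) I := fun I => rfl
  unfold dv
  rw [hmap, map_prod]
  apply Finset.prod_congr rfl
  intro i _
  rw [map_prod]
  rw [← Equiv.prod_comp (Equiv.addRight (1 : Fin ℓ))]
  apply Finset.prod_congr rfl
  intro j _
  rw [Equiv.coe_addRight, map_pow, ← hmap, pow_succ_fin ζ hζ j, mul_assoc,
    map_pt (Fact.out : ℓ.Prime).pos]

/-- cancellation -/
theorem pr_of_mul {R : Type u} [CommRing R] [IsDomain R] {J : Ideal R} {c d : R} (hc : c ≠ 0)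
    (h : Ideal.span {c} * J = Ideal.span {d}) : Pr J := by
  have hd : d ∈ Ideal.span {c} * J := by
    rw [h]; exact Ideal.mem_span_singleton_self d
  obtain ⟨z, hz, hzd⟩ := Ideal.mem_span_singleton_mul.mp hd
  refine ⟨z, le_antisymm ?_ ?_⟩
  · intro w hw
    have h1 : c * w ∈ Ideal.span {d} := by
      rw [← h]
      exact Ideal.mem_span_singleton_mul.mpr ⟨w, hw, rfl⟩
    obtain ⟨t, ht⟩ := Ideal.mem_span_singleton'.mp h1
    rw [Ideal.mem_span_singleton']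
    refine ⟨t, ?_⟩
    apply mul_left_cancel₀ hc
    rw [← ht, ← hzd]
    ring
  · rw [Ideal.span_le, Set.singleton_subset_iff]
    exact hz

end

end CLA_

open CLA_ in
theorem p_CLA (hDOM : T_DOM.{u}) (hPT : T_PT.{u}) (hSUB : T_SUB.{u}) (hGID : T_GID.{u})
    (hHIL : T_HIL.{u}) : T_CLA.{u} := by
  intro K _ _ ℓ _ ζ hζ m ω hω hm N x y hy α hpr
  have hℓ : ℓ.Prime := Fact.out
  have hz1 : ζ ^ ℓ = 1 := hζ.pow_eq_one
  have hsf : Squarefree (ff ω) := (separable_prod_X_sub_C_iff.mpr hω).squarefree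
  have hdeg : (ff ω).natDegree = m := by
    unfold ff
    rw [natDegree_prod_of_monic _ _ (fun i _ => monic_X_sub_C (ω i))]
    simp
  have hm' : ¬ ℓ ∣ (ff ω).natDegree := by rw [hdeg]; exact hm
  have hdom : IsDomain (Crd ℓ (ff ω)) := hDOM K ℓ hℓ (ff ω) hm'
  have hinj : Function.Injective
      (AdjoinRoot.of ((X : Polynomial (Polynomial K)) ^ ℓ - C (ff ω))) := by
    apply AdjoinRoot.of.injective_of_degree_ne_zero
    rw [degree_X_pow_sub_C hℓ.pos]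
    exact_mod_cast hℓ.pos.ne'
  have hof : ∀ M : K[X], M ≠ 0 →
      (AdjoinRoot.of ((X : Polynomial (Polynomial K)) ^ ℓ - C (ff ω))) M ≠ 0 := by
    intro M hM h0
    apply hM
    apply hinj
    rw [h0, map_zero]
  -- sums
  obtain ⟨T, hT⟩ : ∃ T : Fin N → ℕ, ∀ i, T i = ∑ j', α i j' := ⟨_, fun _ => rfl⟩
  obtain ⟨β, hβ⟩ : ∃ β : Fin N → Fin ℓ → ℕ, ∀ i j, β i j = ∑ j' ∈ Finset.univ.erase j, α i j' :=
    ⟨_, fun _ _ => rfl⟩
  have hαβ : ∀ i j, α i j + β i j = T i := by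
    intro i j
    rw [hβ, hT, Finset.add_sum_erase _ _ (Finset.mem_univ j)]
  obtain ⟨T', hT'⟩ : ∃ T' : Fin N → ℕ, ∀ i, T' i = ∑ j', β i j' := ⟨_, fun _ => rfl⟩
  have hDD : ∀ (γ : Fin N → Fin ℓ → ℕ) i j, DD γ i j + γ i (j + 1) = γ i j + ∑ j', γ i j' := by
    intro γ i j
    unfold DD
    have h := Finset.add_sum_erase Finset.univ (γ i) (Finset.mem_univ (j + 1))
    omega
  -- `DD β` is principal
  have hprβ : Pr (dv ℓ (ff ω) ζ x y (DD β)) := by
    obtain ⟨P, hP, -, hc⟩ := hSUB K ℓ ζ hζ (ff ω) hsf hm' N x y hy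
    rw [← hP]
    have h1 := (hP (DD α)).mpr hpr
    have h2 := hc (fun i => ((T i + T' i : ℕ) : ℤ))
    have h3 := P.sub_mem h2 h1
    have h4 : (fun i (_ : Fin ℓ) => ((T i + T' i : ℕ) : ℤ)) - (fun i j => ((DD α i j : ℕ) : ℤ)) =
        (fun i j => ((DD β i j : ℕ) : ℤ)) := by
      funext i j
      simp only [Pi.sub_apply]
      have e1 := hDD α i j
      have e2 := hDD β i j
      have e3 := hαβ i j
      have e4 := hαβ i (j + 1)
      rw [← hT] at e1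
      rw [← hT'] at e2
      omega
    rw [h4] at h3
    exact h3
  obtain ⟨h, hh⟩ := hprβ
  -- constants
  have hconst : ∀ c : Fin N → ℕ, dv ℓ (ff ω) ζ x y (fun i _ => c i) =
      Ideal.span {AdjoinRoot.of _ (∏ i, (X - C (x i)) ^ c i)} :=
    fun c => dv_const hPT hℓ (ff ω) hsf ζ hζ x y hy c
  have hne : ∀ γ : Fin N → Fin ℓ → ℕ, dv ℓ (ff ω) ζ x y γ ≠ ⊥ := by
    intro γ h0
    have e : dv ℓ (ff ω) ζ x y γ *
        dv ℓ (ff ω) ζ x y (fun i j => ∑ j' ∈ Finset.univ.erase j, γ i j') =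
        dv ℓ (ff ω) ζ x y (fun i _ => ∑ j', γ i j') := by
      rw [dv_add]
      congr 1
      funext i j
      rw [Finset.add_sum_erase _ _ (Finset.mem_univ j)]
    rw [h0, hconst, Ideal.bot_mul] at e
    have e2 : (AdjoinRoot.of ((X : Polynomial (Polynomial K)) ^ ℓ - C (ff ω)))
        (∏ i, (X - C (x i)) ^ ∑ j', γ i j') = 0 := Ideal.span_singleton_eq_bot.mp e.symm
    exact hof _ (prod_ne_zero x _) e2
  have hh0 : h ≠ 0 := by
    rintro rfl
    apply hne (DD β)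
    rw [hh]
    exact Ideal.span_singleton_eq_bot.mpr rfl
  have hI1 : dv ℓ (ff ω) ζ x y β * dv ℓ (ff ω) ζ x y α =
      Ideal.span {AdjoinRoot.of _ (∏ i, (X - C (x i)) ^ T i)} := by
    rw [dv_add, ← hconst]
    congr 1
    funext i j
    rw [add_comm]
    exact hαβ i j
  have hI2 : Ideal.span {AdjoinRoot.of _ (∏ i, (X - C (x i)) ^ T' i)} * dv ℓ (ff ω) ζ x y β =
      Ideal.span {h} * Ideal.map (sg ℓ (ff ω) ζ hz1) (dv ℓ (ff ω) ζ x y β) := by
    rw [← hh, map_dv, dv_add, ← hconst, dv_add]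
    congr 1
    funext i j
    have e2 := hDD β i j
    rw [← hT'] at e2
    omega
  obtain ⟨I'', a, b, ha, hb, hst, hab⟩ := hHIL K ℓ hℓ ζ hζ hz1 (ff ω) hm'
    (dv ℓ (ff ω) ζ x y β) (dv ℓ (ff ω) ζ x y α) (∏ i, (X - C (x i)) ^ T' i)
    (∏ i, (X - C (x i)) ^ T i) h (prod_ne_zero x T') (prod_ne_zero x T) hh0 hI1 hI2
  have hI''0 : I'' ≠ ⊥ := by
    rintro rfl
    rw [Ideal.mul_bot] at hab
    rcases Ideal.mul_eq_bot.mp hab.symm with h0 | h0
    · exact hb (Ideal.span_singleton_eq_bot.mp h0)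
    · exact hne β h0
  obtain ⟨g, n, hg0, hn, hg⟩ := hGID K ℓ hℓ ζ hζ hz1 m ω hω hm I'' hI''0 hst
  refine ⟨n, hn, ?_⟩
  have hfin : Ideal.span {a * AdjoinRoot.of _ g} * (dv ℓ (ff ω) ζ x y α * Jq ℓ ω n) =
      Ideal.span {b * AdjoinRoot.of _ (∏ i, (X - C (x i)) ^ T i)} := by
    rw [← Ideal.span_singleton_mul_span_singleton, ← Ideal.span_singleton_mul_span_singleton,
      ← hI1, ← mul_assoc (Ideal.span {b}), ← hab, hg]
    ring
  exact pr_of_mul (mul_ne_zero ha (hof g hg0)) hfin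

end SRK
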