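import Mathlib
import Pool.Agent.SRK.Targets

/-!
SRK, target CLB: the second power of `1 - σ` does not kill more than the first.
-/

namespace SRK

open Polynomial

universe u

namespace CLB_

/-- the total multiplicities of `DD α` -/
theorem sum_DD {ℓ : ℕ} [NeZero ℓ] {N : ℕ} (α : Fin N → Fin ℓ → ℕ) (i : Fin N) :
    ∑ j, DD α i j = (∑ j, α i j) * ℓ := by
  have h1 : ∀ j : Fin ℓ, α i (j + 1) + ∑ j' ∈ Finset.univ.erase (j + 1), α i j' =
      ∑ j', α i j' := fun j => Finset.add_sum_erase _ _ (Finset.mem_univ _)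
  have h2 : ∑ j : Fin ℓ, α i (j + 1) = ∑ j, α i j :=
    Equiv.sum_comp (Equiv.addRight (1 : Fin ℓ)) (fun j => α i j)
  have h3 : ∑ j : Fin ℓ, (α i (j + 1) + ∑ j' ∈ Finset.univ.erase (j + 1), α i j') =
      ℓ * ∑ j, α i j := by
    rw [Finset.sum_congr rfl fun j _ => h1 j, Finset.sum_const, Finset.card_univ,
      Fintype.card_fin, smul_eq_mul]
  unfold DD
  rw [Finset.sum_add_distrib] at h3 ⊢
  rw [h2] at h3
  rw [h3, mul_comm]

end CLB_

theorem p_CLB (h1 : T_CLA.{u}) (h2 : T_MIN.{u}) (h3 : T_RED.{u}) (h4 : T_DEG.{u})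
    (h5 : T_JQ.{u}) : T_CLB.{u} := by
  intro K _ _ v ℓ _ O k _ _ r hC ζ hζ m ω hω hm N x y hy hx α hα
  have hω' : Function.Injective (fun w => (ω w : K)) := fun a b hab => hω (Subtype.ext hab)
  obtain ⟨n, hn, hp⟩ := h1 K ℓ ζ hζ m (fun w => (ω w : K)) hω' hm N (fun i => (x i : K)) y hy
    (DD α) hα
  obtain ⟨n', hn', hp', hc'⟩ := h2 K ℓ m (fun w => (ω w : K)) hω' hm _ n hn hp
  obtain ⟨A, c, hc, hA⟩ := h3 K v ℓ O k r hC ζ hζ m ω hω hm N x y hy (DD α) n' hn' hp'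
  have h6 : ∏ i, (X - C (r (x i))) ^ (∑ j, DD α i j) =
      (∏ i, (X - C (r (x i))) ^ (∑ j, α i j)) ^ ℓ := by
    rw [← Finset.prod_pow]
    apply Finset.prod_congr rfl
    intro i _
    rw [CLB_.sum_DD, pow_mul]
  rw [h6] at hA
  have h7 := h4 k ℓ m N (fun w => r (ω w)) n' A c (fun i => r (x i)) (fun i => ∑ j, α i j) hm hn'
    hc hc' hx hA
  rw [(h5 K ℓ (Fact.out : ℓ.Prime) m (fun w => (ω w : K)) hω' n' hn').2.2.2 h7,
    ← Ideal.one_eq_top, mul_one] at hp'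
  exact hp'

end SRK
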