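import Mathlib
import Pool.Agent.SRK.Targets

/-!
SRK, target DEG: the degree argument in characteristic `ℓ`.
-/

namespace SRK

open Polynomial

universe u

namespace DEG_

/-- a local lemma at a point `a` where `f' ≠ 0` -/
theorem loc {k : Type u} [Field k] (ℓ : ℕ) [Fact ℓ.Prime] [CharP k ℓ] (f : k[X]) (a : k)
    (hf : (derivative f).eval a ≠ 0) (s : ℕ) (hs : s ≤ ℓ) (B : ℕ → k[X])
    (h : (X - C a) ^ s ∣ ∑ j ∈ Finset.range s, B j ^ ℓ * f ^ j) (j : ℕ) (hj : j < s) :
    (X - C a) ∣ B j := by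
  classical
  have h1 : ∀ j, (X - C a) ^ s ∣ B j ^ ℓ - C ((B j).eval a ^ ℓ) := by
    intro j
    have h0 : B j ^ ℓ - C ((B j).eval a ^ ℓ) = (B j - C ((B j).eval a)) ^ ℓ := by
      rw [sub_pow_char, C_pow]
    rw [h0]
    exact (pow_dvd_pow _ hs).trans (pow_dvd_pow_of_dvd X_sub_C_dvd_sub_C_eval _)
  set g : k[X] := ∑ j ∈ Finset.range s, C ((B j).eval a ^ ℓ) * X ^ j with hg
  have h2 : (X - C a) ^ s ∣ g.comp f := by
    have h0 : g.comp f = ∑ j ∈ Finset.range s, B j ^ ℓ * f ^ j -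
        ∑ j ∈ Finset.range s, (B j ^ ℓ - C ((B j).eval a ^ ℓ)) * f ^ j := by
      rw [← Finset.sum_sub_distrib, hg, comp, eval₂_finsetSum]
      refine Finset.sum_congr rfl fun j _ => ?_
      rw [← comp, mul_comp, C_comp, pow_comp, X_comp]
      ring
    rw [h0]
    exact dvd_sub h (Finset.dvd_sum fun j _ => (h1 j).mul_right _)
  have hcoefg : ∀ j, g.coeff j = if j < s then (B j).eval a ^ ℓ else 0 := by
    intro j
    rw [hg, finsetSum_coeff]
    simp only [coeff_C_mul_X_pow]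
    rw [Finset.sum_ite_eq (Finset.range s) j]
    simp only [Finset.mem_range]
  have hcoef : g.coeff j = (B j).eval a ^ ℓ := by
    rw [hcoefg, if_pos hj]
  have h3 : g = 0 := by
    by_contra hg0
    obtain ⟨q, hq1, hq2⟩ := exists_eq_pow_rootMultiplicity_mul_and_not_dvd g hg0 (f.eval a)
    set r := g.rootMultiplicity (f.eval a) with hr
    have hdeg : g.natDegree < s := by
      have h0 : g.degree < s := by
        rw [degree_lt_iff_coeff_zero]
        intro i hi
        rw [hcoefg, if_neg (not_lt.2 hi)]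
      exact (natDegree_lt_iff_degree_lt hg0).2 h0
    have hrs : r < s := by
      have h0 : r ≤ g.natDegree := by
        have h4 : ((X - C (f.eval a)) ^ r).natDegree ≤ g.natDegree :=
          natDegree_le_of_dvd (Dvd.intro _ hq1.symm) hg0
        rwa [natDegree_pow, natDegree_X_sub_C, mul_one] at h4
      omega
    obtain ⟨u, hu⟩ := X_sub_C_dvd_sub_C_eval (a := a) (p := f)
    have hua : u.eval a = (derivative f).eval a := by
      have h0 : derivative f = u + (X - C a) * derivative u := by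
        have h4 : f = (X - C a) * u + C (f.eval a) := by rw [← hu]; ring
        conv_lhs => rw [h4]
        simp only [derivative_add, derivative_mul, derivative_sub, derivative_X, derivative_C]
        ring
      rw [h0]
      simp
    have h5 : g.comp f = (X - C a) ^ r * (u ^ r * q.comp f) := by
      conv_lhs => rw [hq1]
      rw [mul_comp, pow_comp, sub_comp, X_comp, C_comp, hu, mul_pow]
      ring
    rw [h5] at h2
    have h6 : (X - C a) ^ (s - r) ∣ u ^ r * q.comp f := by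
      have h7 : (X - C a) ^ s = (X - C a) ^ r * (X - C a) ^ (s - r) := by
        rw [← pow_add]; congr 1; omega
      rw [h7] at h2
      exact (mul_dvd_mul_iff_left (pow_ne_zero _ (X_sub_C_ne_zero a))).1 h2
    have h8 : (X - C a) ∣ u ^ r * q.comp f :=
      (dvd_pow_self _ (by omega)).trans h6
    rw [dvd_iff_isRoot, IsRoot.def, eval_mul, eval_pow, eval_comp, mul_eq_zero] at h8
    rcases h8 with h8 | h8
    · rw [hua] at h8
      exact pow_ne_zero _ hf h8
    · exact hq2 (dvd_iff_isRoot.2 h8)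
  rw [h3, coeff_zero] at hcoef
  rw [dvd_iff_isRoot]
  exact (pow_eq_zero_iff (Fact.out (p := ℓ.Prime)).ne_zero).1 hcoef.symm

/-- a point of `M` divides all the coordinates -/
theorem step {k : Type u} [Field k] (ℓ : ℕ) [Fact ℓ.Prime] [CharP k ℓ] {m : ℕ} (ω : Fin m → k)
    (n : Fin m → ℕ) (hn : ∀ w, n w < ℓ) (A : ℕ → k[X]) (a : k)
    (ha : (derivative (ff ω)).eval a ≠ 0) (c : k) (R : k[X])
    (h : ∑ j ∈ Finset.range ℓ, (qq ω n j * A j) ^ ℓ * (ff ω) ^ j =
      C c * qt ω n * ((X - C a) * R) ^ ℓ) (j : ℕ) (hj : j < ℓ) : (X - C a) ∣ A j := by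
  classical
  have hp : Prime (X - C a) := prime_X_sub_C a
  have h1 : ∀ j, j < ℓ → (X - C a) ∣ qq ω n j * A j := by
    refine loc ℓ (ff ω) a ha ℓ le_rfl (fun j => qq ω n j * A j) ?_
    rw [h, mul_pow]
    exact Dvd.dvd.mul_left (Dvd.intro _ rfl) _
  by_cases hw : ∃ w0, ω w0 = a
  · obtain ⟨w0, hw0⟩ := hw
    have hf : ff ω = (X - C a) * ∏ w ∈ Finset.univ.erase w0, (X - C (ω w)) := by
      rw [ff, ← Finset.mul_prod_erase Finset.univ (fun w => X - C (ω w)) (Finset.mem_univ w0),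
        hw0]
    have hne : ∀ w, w ≠ w0 → a - ω w ≠ 0 := by
      intro w hww0
      have h2 : (derivative (ff ω)).eval a =
          (∏ w ∈ Finset.univ.erase w0, (X - C (ω w))).eval a := by
        rw [hf, derivative_mul, eval_add, eval_mul, eval_mul]
        simp
      rw [h2, eval_prod] at ha
      have h3 := Finset.prod_ne_zero_iff.1 ha w (Finset.mem_erase.2 ⟨hww0, Finset.mem_univ w⟩)
      simpa using h3
    by_cases hjn : n w0 ≤ j
    · refine (hp.dvd_or_dvd (h1 j hj)).resolve_left fun hd => ?_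
      rw [dvd_iff_isRoot, IsRoot.def, qq, eval_prod] at hd
      refine Finset.prod_ne_zero_iff.2 (fun w _ => ?_) hd
      by_cases hjw : j < n w
      · rw [if_pos hjw]
        simpa using hne w (by rintro rfl; omega)
      · rw [if_neg hjw, eval_one]
        exact one_ne_zero
    · have h2 : ∀ j, ∃ D : k[X], j < ℓ → qq ω n j * A j = (X - C a) * D := by
        intro j
        by_cases hj' : j < ℓ
        · obtain ⟨D, hD⟩ := h1 j hj'
          exact ⟨D, fun _ => hD⟩
        · exact ⟨0, fun h' => absurd h' hj'⟩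
      choose D hD using h2
      have h3 : ∑ j ∈ Finset.range ℓ, D j ^ ℓ * (ff ω) ^ j = C c * qt ω n * R ^ ℓ := by
        have h4 : (X - C a) ^ ℓ * ∑ j ∈ Finset.range ℓ, D j ^ ℓ * (ff ω) ^ j =
            (X - C a) ^ ℓ * (C c * qt ω n * R ^ ℓ) := by
          have h5 : (X - C a) ^ ℓ * ∑ j ∈ Finset.range ℓ, D j ^ ℓ * (ff ω) ^ j =
              ∑ j ∈ Finset.range ℓ, (qq ω n j * A j) ^ ℓ * (ff ω) ^ j := by
            rw [Finset.mul_sum]
            refine Finset.sum_congr rfl fun i hi => ?_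
            rw [hD i (Finset.mem_range.1 hi), mul_pow]
            ring
          rw [h5, h, mul_pow]
          ring
        exact mul_left_cancel₀ (pow_ne_zero _ (X_sub_C_ne_zero a)) h4
      have h4 : (X - C a) ^ n w0 ∣ ∑ j ∈ Finset.range (n w0), D j ^ ℓ * (ff ω) ^ j := by
        have h5 : (X - C a) ^ n w0 ∣ ∑ j ∈ Finset.range ℓ, D j ^ ℓ * (ff ω) ^ j := by
          rw [h3, qt]
          refine Dvd.dvd.mul_right (Dvd.dvd.mul_left ?_ _) _
          have h6 := Finset.dvd_prod_of_mem (fun w => (X - C (ω w)) ^ n w) (Finset.mem_univ w0)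
          simp only [hw0] at h6
          exact h6
        rw [← Finset.sum_range_add_sum_Ico _ (hn w0).le] at h5
        have h6 : (X - C a) ^ n w0 ∣ ∑ j ∈ Finset.Ico (n w0) ℓ, D j ^ ℓ * (ff ω) ^ j := by
          refine Finset.dvd_sum fun i hi => ?_
          refine Dvd.dvd.mul_left ?_ _
          refine (pow_dvd_pow _ (Finset.mem_Ico.1 hi).1).trans ?_
          exact pow_dvd_pow_of_dvd (Dvd.intro _ hf.symm) i
        exact (dvd_add_left h6).1 h5
      have h5 : ∀ j, j < n w0 → (X - C a) ∣ D j :=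
        loc ℓ (ff ω) a ha (n w0) (hn w0).le D h4
      have hjn' : j < n w0 := not_le.1 hjn
      have h6 : qq ω n j = (X - C a) * ∏ w ∈ Finset.univ.erase w0,
          (if j < n w then X - C (ω w) else 1) := by
        rw [qq, ← Finset.mul_prod_erase Finset.univ
          (fun w => if j < n w then X - C (ω w) else 1) (Finset.mem_univ w0), if_pos hjn', hw0]
      have h7 : D j = (∏ w ∈ Finset.univ.erase w0,
          (if j < n w then X - C (ω w) else 1)) * A j := by
        have h8 := hD j hj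
        rw [h6, mul_assoc] at h8
        exact (mul_left_cancel₀ (X_sub_C_ne_zero a) h8).symm
      have h8 := h5 j hjn'
      rw [h7] at h8
      refine (hp.dvd_or_dvd h8).resolve_left fun hd => ?_
      rw [dvd_iff_isRoot, IsRoot.def, eval_prod] at hd
      refine Finset.prod_ne_zero_iff.2 (fun w hw => ?_) hd
      by_cases hjw : j < n w
      · rw [if_pos hjw]
        simpa using hne w (Finset.ne_of_mem_erase hw)
      · rw [if_neg hjw, eval_one]
        exact one_ne_zero
  · refine (hp.dvd_or_dvd (h1 j hj)).resolve_left fun hd => ?_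
    rw [dvd_iff_isRoot, IsRoot.def, qq, eval_prod] at hd
    refine Finset.prod_ne_zero_iff.2 (fun w _ => ?_) hd
    by_cases hjw : j < n w
    · rw [if_pos hjw]
      have h2 : a - ω w ≠ 0 := fun h0 => hw ⟨w, (sub_eq_zero.1 h0).symm⟩
      simpa using h2
    · rw [if_neg hjw, eval_one]
      exact one_ne_zero

theorem ff_monic {k : Type u} [Field k] {m : ℕ} (ω : Fin m → k) : (ff ω).Monic :=
  monic_prod_of_monic _ _ fun w _ => monic_X_sub_C (ω w)

theorem ff_natDegree {k : Type u} [Field k] {m : ℕ} (ω : Fin m → k) :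
    (ff ω).natDegree = m := by
  rw [ff, natDegree_prod_of_monic _ _ fun w _ => monic_X_sub_C (ω w)]
  simp

theorem qq_monic {k : Type u} [Field k] {m : ℕ} (ω : Fin m → k) (n : Fin m → ℕ) (j : ℕ) :
    (qq ω n j).Monic := by
  refine monic_prod_of_monic _ _ fun w _ => ?_
  split_ifs
  · exact monic_X_sub_C (ω w)
  · exact monic_one

/-- the number of `w` with `j < n w` -/
def cc {m : ℕ} (n : Fin m → ℕ) (j : ℕ) : ℕ := ∑ w, if j < n w then 1 else 0

theorem qq_natDegree {k : Type u} [Field k] {m : ℕ} (ω : Fin m → k) (n : Fin m → ℕ) (j : ℕ) :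
    (qq ω n j).natDegree = cc n j := by
  rw [qq, natDegree_prod_of_monic, cc]
  · refine Finset.sum_congr rfl fun w _ => ?_
    split_ifs
    · exact natDegree_X_sub_C (ω w)
    · exact natDegree_one
  · intro w _
    split_ifs
    · exact monic_X_sub_C (ω w)
    · exact monic_one

theorem qt_monic {k : Type u} [Field k] {m : ℕ} (ω : Fin m → k) (n : Fin m → ℕ) :
    (qt ω n).Monic :=
  monic_prod_of_monic _ _ fun w _ => (monic_X_sub_C (ω w)).pow _

theorem qt_natDegree {k : Type u} [Field k] {m : ℕ} (ω : Fin m → k) (n : Fin m → ℕ) :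
    (qt ω n).natDegree = ∑ w, n w := by
  rw [qt, natDegree_prod_of_monic _ _ fun w _ => (monic_X_sub_C (ω w)).pow _]
  refine Finset.sum_congr rfl fun w _ => ?_
  rw [natDegree_pow, natDegree_X_sub_C, mul_one]

theorem sum_cc {m : ℕ} (ℓ : ℕ) (n : Fin m → ℕ) (hn : ∀ w, n w < ℓ) :
    ∑ w, n w = ∑ i ∈ Finset.range ℓ, cc n i := by
  simp only [cc]
  rw [Finset.sum_comm]
  refine Finset.sum_congr rfl fun w _ => ?_
  rw [Finset.sum_ite, Finset.sum_const_zero, add_zero, Finset.sum_const, smul_eq_mul, mul_one]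
  have h : (Finset.range ℓ).filter (fun i => i < n w) = Finset.range (n w) := by
    ext i
    simp only [Finset.mem_filter, Finset.mem_range]
    have := hn w
    omega
  rw [h, Finset.card_range]

theorem cc_anti {m : ℕ} (n : Fin m → ℕ) {i j : ℕ} (h : i ≤ j) : cc n j ≤ cc n i := by
  refine Finset.sum_le_sum fun w _ => ?_
  split_ifs <;> omega

theorem cc_le {m : ℕ} (n : Fin m → ℕ) (i : ℕ) : cc n i ≤ m := by
  have h : cc n i ≤ ∑ w : Fin m, 1 := by
    refine Finset.sum_le_sum fun w _ => ?_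
    split_ifs <;> omega
  simpa using h

/-- the numerical inequality -/
theorem ineq {m : ℕ} (ℓ : ℕ) (n : Fin m → ℕ) (hn : ∀ w, n w < ℓ) (h0 : 0 < cc n 0)
    (h1 : cc n 0 < m) (j : ℕ) (hj : j < ℓ) : ∑ w, n w < ℓ * cc n j + j * m := by
  rw [sum_cc ℓ n hn, ← Finset.sum_range_add_sum_Ico _ hj.le]
  have hlast : cc n (ℓ - 1) = 0 := by
    refine Finset.sum_eq_zero fun w _ => ?_
    rw [if_neg]
    have := hn w
    omega
  have h2 : ∑ i ∈ Finset.range j, cc n i ≤ j * cc n 0 := by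
    refine (Finset.sum_le_card_nsmul _ _ (cc n 0) fun i _ => cc_anti n (Nat.zero_le i)).trans ?_
    rw [Finset.card_range, smul_eq_mul]
  have h3 : ∑ i ∈ Finset.Ico j ℓ, cc n i ≤ (ℓ - 1 - j) * cc n j := by
    obtain ⟨l, rfl⟩ : ∃ l, ℓ = l + 1 := ⟨ℓ - 1, by omega⟩
    rw [Finset.sum_Ico_succ_top (by omega)]
    rw [Nat.add_sub_cancel] at hlast
    rw [hlast, add_zero]
    refine (Finset.sum_le_card_nsmul _ _ (cc n j) fun i hi =>
      cc_anti n (Finset.mem_Ico.1 hi).1).trans ?_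
    rw [Nat.card_Ico, smul_eq_mul, Nat.add_sub_cancel]
  have h4 : (ℓ - 1 - j) * cc n j ≤ (ℓ - 1) * cc n j :=
    Nat.mul_le_mul_right _ (Nat.sub_le _ _)
  have h5 : (ℓ - 1) * cc n j + cc n j = ℓ * cc n j := by
    obtain ⟨l, rfl⟩ : ∃ l, ℓ = l + 1 := ⟨ℓ - 1, by omega⟩
    rw [Nat.add_sub_cancel]
    ring
  rcases Nat.eq_zero_or_pos j with rfl | hj0
  · omega
  · have h6 : j * cc n 0 < j * m := Nat.mul_lt_mul_of_pos_left h1 hj0
    omega

/-- the case without points: comparison of degrees -/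
theorem base {k : Type u} [Field k] (ℓ : ℕ) [Fact ℓ.Prime] {m : ℕ} (ω : Fin m → k)
    (n : Fin m → ℕ) (hn : ∀ w, n w < ℓ) (hm : ¬ ℓ ∣ m) (h0 : 0 < cc n 0) (h1 : cc n 0 < m)
    (A : ℕ → k[X]) (c : k) (hc : c ≠ 0) :
    ∑ j ∈ Finset.range ℓ, (qq ω n j * A j) ^ ℓ * (ff ω) ^ j ≠ C c * qt ω n := by
  classical
  intro h
  have hp : ℓ.Prime := Fact.out
  have hrhs : C c * qt ω n ≠ 0 := mul_ne_zero (C_ne_zero.2 hc) (qt_monic ω n).ne_zero
  set T : ℕ → k[X] := fun j => (qq ω n j * A j) ^ ℓ * (ff ω) ^ j with hT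
  have hdeg : ∀ j, T j ≠ 0 → (T j).natDegree = ℓ * (cc n j + (A j).natDegree) + j * m := by
    intro j hj
    have hA : A j ≠ 0 := by
      intro hA
      apply hj
      rw [hT]
      simp only [hA, mul_zero]
      rw [zero_pow hp.ne_zero, zero_mul]
    rw [hT]
    simp only
    rw [natDegree_mul (pow_ne_zero _ (mul_ne_zero (qq_monic ω n j).ne_zero hA))
      (pow_ne_zero _ (ff_monic ω).ne_zero), natDegree_pow, natDegree_pow, ff_natDegree,
      natDegree_mul (qq_monic ω n j).ne_zero hA, qq_natDegree]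
  have hdis : Set.Pairwise {i | i ∈ Finset.range ℓ ∧ T i ≠ 0} (Function.onFun Ne (degree ∘ T)) := by
    intro i hi j hj hij hd
    apply hij
    have hd' : (T i).natDegree = (T j).natDegree := natDegree_eq_of_degree_eq hd
    rw [hdeg i hi.2, hdeg j hj.2] at hd'
    have hi' := Finset.mem_range.1 hi.1
    have hj' := Finset.mem_range.1 hj.1
    have h2 : i * m ≡ j * m [MOD ℓ] := by
      have h3 : (ℓ * (cc n i + (A i).natDegree) + i * m) % ℓ =
          (ℓ * (cc n j + (A j).natDegree) + j * m) % ℓ := by rw [hd']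
      rw [Nat.mul_add_mod, Nat.mul_add_mod] at h3
      exact h3
    have h3 : i ≡ j [MOD ℓ] := Nat.ModEq.cancel_right_of_coprime
      ((Nat.Prime.coprime_iff_not_dvd hp).2 hm) h2
    have h4 : i % ℓ = j % ℓ := h3
    rwa [Nat.mod_eq_of_lt hi', Nat.mod_eq_of_lt hj'] at h4
  have hsum := degree_sum_eq_of_disjoint T (Finset.range ℓ) hdis
  have hle : ∀ j ∈ Finset.range ℓ, T j = 0 := by
    intro j hj
    by_contra hTj
    have h2 : (T j).degree ≤ (C c * qt ω n).degree := by
      rw [← h, hsum]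
      exact Finset.le_sup (f := fun i => (T i).degree) hj
    have h3 : (T j).natDegree ≤ (C c * qt ω n).natDegree := natDegree_le_natDegree h2
    rw [hdeg j hTj, natDegree_C_mul hc, qt_natDegree] at h3
    have h4 := ineq ℓ n hn h0 h1 j (Finset.mem_range.1 hj)
    have h5 : ℓ * (cc n j + (A j).natDegree) = ℓ * cc n j + ℓ * (A j).natDegree := by ring
    omega
  apply hrhs
  rw [← h]
  exact Finset.sum_eq_zero hle

/-- the statement for the divisor `M` -/
def Good {k : Type u} [Field k] (ℓ : ℕ) {m : ℕ} (ω : Fin m → k) (n : Fin m → ℕ) (c : k)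
    (M : k[X]) : Prop :=
  ∀ A : ℕ → k[X], ∑ j ∈ Finset.range ℓ, (qq ω n j * A j) ^ ℓ * (ff ω) ^ j ≠
    C c * qt ω n * M ^ ℓ

theorem good_step {k : Type u} [Field k] (ℓ : ℕ) [Fact ℓ.Prime] [CharP k ℓ] {m : ℕ}
    (ω : Fin m → k) (n : Fin m → ℕ) (hn : ∀ w, n w < ℓ) (c : k) (a : k)
    (ha : (derivative (ff ω)).eval a ≠ 0) (M : k[X])
    (hM : Good ℓ ω n c M) : Good ℓ ω n c ((X - C a) * M) := by
  classical
  intro A hA
  have h1 := step ℓ ω n hn A a ha c M hA
  have h2 : ∀ j, ∃ D : k[X], j < ℓ → A j = (X - C a) * D := by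
    intro j
    by_cases hj' : j < ℓ
    · obtain ⟨D, hD⟩ := h1 j hj'
      exact ⟨D, fun _ => hD⟩
    · exact ⟨0, fun h' => absurd h' hj'⟩
  choose D hD using h2
  apply hM D
  have h4 : (X - C a) ^ ℓ * ∑ j ∈ Finset.range ℓ, (qq ω n j * D j) ^ ℓ * (ff ω) ^ j =
      (X - C a) ^ ℓ * (C c * qt ω n * M ^ ℓ) := by
    have h5 : (X - C a) ^ ℓ * ∑ j ∈ Finset.range ℓ, (qq ω n j * D j) ^ ℓ * (ff ω) ^ j =
        ∑ j ∈ Finset.range ℓ, (qq ω n j * A j) ^ ℓ * (ff ω) ^ j := by
      rw [Finset.mul_sum]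
      refine Finset.sum_congr rfl fun i hi => ?_
      rw [hD i (Finset.mem_range.1 hi), mul_pow, mul_pow, mul_pow]
      ring
    rw [h5, hA, mul_pow]
    ring
  exact mul_left_cancel₀ (pow_ne_zero _ (X_sub_C_ne_zero a)) h4

theorem good_pow {k : Type u} [Field k] (ℓ : ℕ) [Fact ℓ.Prime] [CharP k ℓ] {m : ℕ}
    (ω : Fin m → k) (n : Fin m → ℕ) (hn : ∀ w, n w < ℓ) (c : k) (a : k)
    (ha : (derivative (ff ω)).eval a ≠ 0) (e : ℕ) (M : k[X])
    (hM : Good ℓ ω n c M) : Good ℓ ω n c ((X - C a) ^ e * M) := by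
  induction e with
  | zero => rwa [pow_zero, one_mul]
  | succ e ih =>
    rw [pow_succ', mul_assoc]
    exact good_step ℓ ω n hn c a ha _ ih

end DEG_

theorem p_DEG : T_DEG.{u} := by
  classical
  intro k _ ℓ _ _ m N ω n A c x a hm hn hc hbd hx hA
  have hp : ℓ.Prime := Fact.out
  by_contra hne
  push Not at hne
  obtain ⟨w0, hw0⟩ := hne
  have hm0 : 0 < m := Nat.pos_of_ne_zero fun h => hm (h ▸ dvd_zero ℓ)
  have hcc : DEG_.cc n 0 = (Finset.univ.filter (fun w => 1 ≤ n w)).card := by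
    rw [DEG_.cc, Finset.card_filter]
    rfl
  have h0 : 0 < DEG_.cc n 0 := by
    rw [hcc]
    exact Finset.card_pos.2 ⟨w0, Finset.mem_filter.2 ⟨Finset.mem_univ _, Nat.pos_of_ne_zero hw0⟩⟩
  have h1 : DEG_.cc n 0 < m := by
    have h2 := hbd 1 le_rfl hp.one_lt
    rw [← hcc] at h2
    by_contra h3
    have h4 : ℓ * m ≤ ℓ * DEG_.cc n 0 := Nat.mul_le_mul_left _ (not_lt.1 h3)
    have h5 : (ℓ - 1) * m < ℓ * m := Nat.mul_lt_mul_of_pos_right (Nat.sub_lt hp.pos one_pos) hm0
    omega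
  have hgood : ∀ s : Finset (Fin N), DEG_.Good ℓ ω n c (∏ i ∈ s, (X - C (x i)) ^ a i) := by
    intro s
    induction s using Finset.induction_on with
    | empty =>
      intro B
      rw [Finset.prod_empty, one_pow, mul_one]
      exact DEG_.base ℓ ω n hn hm h0 h1 B c hc
    | insert i s hi ih =>
      rw [Finset.prod_insert hi]
      exact DEG_.good_pow ℓ ω n hn c (x i) (hx i) (a i) _ ih
  apply hgood Finset.univ (fun j => if h : j < ℓ then A ⟨j, h⟩ else 0)
  rw [Finset.sum_range, ← hA]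
  refine Finset.sum_congr rfl fun j _ => ?_
  rw [dif_pos j.2]

end SRK
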