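import Pool.Agent.SRK.Targets

/-! DOM: the coordinate ring of `Y ^ ℓ = f(X)` is a domain. -/

set_option autoImplicit false

universe u

namespace SRK

open Polynomial

theorem p_DOM : T_DOM.{u} := by
  intro K _ ℓ hℓ f hf
  haveI : Fact ℓ.Prime := ⟨hℓ⟩
  have hpos : 0 < ℓ := hℓ.pos
  have hmon : ((X : Polynomial (Polynomial K)) ^ ℓ - C f).Monic := monic_X_pow_sub_C f hpos.ne'
  have hirr : Irreducible ((X : Polynomial (Polynomial K)) ^ ℓ - C f) := by
    rw [hmon.irreducible_iff_irreducible_map_fraction_map (K := FractionRing (Polynomial K))]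
    have h1 : ((X : Polynomial (Polynomial K)) ^ ℓ - C f).map
        (algebraMap (Polynomial K) (FractionRing (Polynomial K))) =
        X ^ ℓ - C (algebraMap (Polynomial K) (FractionRing (Polynomial K)) f) := by
      simp
    rw [h1]
    apply X_pow_sub_C_irreducible_of_prime hℓ
    intro b hb
    have hint : IsIntegral (Polynomial K) (b ^ ℓ) := by
      rw [hb]; exact isIntegral_algebraMap
    obtain ⟨g, hg⟩ := IsIntegrallyClosed.exists_algebraMap_eq_of_isIntegral_pow hpos hint
    rw [← hg, ← map_pow] at hb
    have h2 : g ^ ℓ = f := IsFractionRing.injective (Polynomial K) (FractionRing (Polynomial K)) hb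
    apply hf
    rw [← h2, natDegree_pow]
    exact Dvd.intro _ rfl
  exact AdjoinRoot.isDomain_of_prime hirr.prime

end SRK
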