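import Mathlib
import Pool.Agent.SRK.Targets

namespace SRK

open Polynomial

universe u

namespace FINS_

lemma eval_hom {R S : Type*} [CommRing R] [CommRing S] {σ : Type*} (r : R →+* S)
    (A : MvPolynomial σ R) (p : σ → R) :
    MvPolynomial.eval (fun j => r (p j)) (MvPolynomial.map r A) = r (MvPolynomial.eval p A) := by
  have h := MvPolynomial.eval₂_comp_right r (RingHom.id R) p A
  rw [MvPolynomial.map_id] at h
  rw [MvPolynomial.eval_map]
  exact h.symm

lemma elim_hom {R S : Type*} [CommRing R] [CommRing S] (r : R →+* S) {d n : ℕ}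
    (p : Fin d → R) (s : Fin n → R) :
    (Sum.elim (fun j => r (p j)) (fun j => r (s j)) : Fin d ⊕ Fin n → S) =
      fun x => r (Sum.elim p s x) := by
  funext x
  cases x <;> rfl

lemma absc_hom {R S : Type*} [CommRing R] [CommRing S] (r : R →+* S) {d n g : ℕ} (D : ℕ)
    (F : Fin g → MvPolynomial (Fin d ⊕ Fin n) R) (c : Fin g × Fin (d + 1) → R)
    (p : Fin d → R) (s : Fin n → R) (i : Fin g) :
    absc D (fun i => MvPolynomial.map r (F i)) (fun u => r (c u)) (fun j => r (p j))
      (fun j => r (s j)) i = r (absc D F c p s i) := by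
  simp only [absc, elim_hom, eval_hom, map_add, map_sum, map_mul, map_pow]

lemma onBase_hom {R S : Type*} [CommRing R] [CommRing S] (r : R →+* S) {d n : ℕ}
    {ρ : Fin n → ℕ} {b : Fin n → ℕ → MvPolynomial (Fin d) R} {p : Fin d → R} {s : Fin n → R}
    (h : OnBase ρ b p s) :
    OnBase ρ (fun j l => MvPolynomial.map r (b j l)) (fun j => r (p j)) (fun j => r (s j)) := by
  intro j
  have := congrArg r (h j)
  rw [map_add, map_sum, map_pow, map_zero] at this
  simpa only [map_mul, map_pow, eval_hom] using this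

lemma exists_lift {K : Type u} [Field K] {v : AbsoluteValue K ℝ} {O : Subring K}
    (hO : ∀ x, x ∈ O ↔ v x ≤ 1) {σ : Type*} (A : MvPolynomial σ K)
    (hA : ∀ s, v (A.coeff s) ≤ 1) : ∃ A' : MvPolynomial σ O, MvPolynomial.map O.subtype A' = A := by
  have : A ∈ Set.range (MvPolynomial.map O.subtype : MvPolynomial σ O →+* MvPolynomial σ K) := by
    rw [MvPolynomial.mem_range_map_iff_coeffs_subset]
    intro y hy
    obtain ⟨s, _, rfl⟩ := MvPolynomial.mem_coeffs_iff.1 (Finset.mem_coe.1 hy)
    exact ⟨⟨A.coeff s, (hO _).2 (hA s)⟩, rfl⟩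
  exact this

lemma vsum_le {K : Type u} [Field K] {v : AbsoluteValue K ℝ} (hna : IsNonarchimedean v)
    {ι : Type*} (S : Finset ι) (f : ι → K) {C : ℝ} (hC : 0 ≤ C) (h : ∀ i ∈ S, v (f i) ≤ C) :
    v (∑ i ∈ S, f i) ≤ C := by
  classical
  induction S using Finset.induction_on with
  | empty => simpa using hC
  | insert a S ha ih =>
    rw [Finset.sum_insert ha]
    exact (hna _ _).trans (max_le (h a (Finset.mem_insert_self _ _))
      (ih fun i hi => h i (Finset.mem_insert_of_mem hi)))

/-- an element satisfying a monic equation with integral coefficients is integral -/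
lemma integral {K : Type u} [Field K] {v : AbsoluteValue K ℝ} (hna : IsNonarchimedean v)
    (ρ : ℕ) (e : ℕ → K) (x : K) (he : ∀ l, l < ρ → v (e l) ≤ 1)
    (hx : x ^ ρ + ∑ l ∈ Finset.range ρ, e l * x ^ l = 0) : v x ≤ 1 := by
  by_contra hc
  push Not at hc
  have hx0 : 0 < v x := by linarith
  rcases Nat.eq_zero_or_pos ρ with h0 | hpos
  · subst h0; simp at hx
  have h1 : x ^ ρ = -∑ l ∈ Finset.range ρ, e l * x ^ l := by
    rw [eq_neg_iff_add_eq_zero]; exact hx
  have h2 : v (∑ l ∈ Finset.range ρ, e l * x ^ l) ≤ v x ^ (ρ - 1) := by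
    apply vsum_le hna _ _ (by positivity)
    intro l hl
    have hl' := Finset.mem_range.1 hl
    rw [map_mul, map_pow]
    calc v (e l) * v x ^ l ≤ 1 * v x ^ (ρ - 1) := by
          apply mul_le_mul (he l hl') _ (by positivity) zero_le_one
          exact pow_le_pow_right₀ hc.le (by omega)
      _ = v x ^ (ρ - 1) := one_mul _
  have h3 : v x ^ ρ ≤ v x ^ (ρ - 1) := by
    rw [← map_pow, h1, v.map_neg]; exact h2
  have h4 : v x ^ (ρ - 1) < v x ^ ρ := pow_lt_pow_right₀ hc (by omega)
  linarith

/-- an integral point avoiding a hypersurface of the generic fibre and one of the special fibre -/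
lemma exists_point {K : Type u} [Field K] [CharZero K] {v : AbsoluteValue K ℝ} {ℓ : ℕ}
    (hℓ : ℓ.Prime) {O : Subring K} {k : Type u} [Field k] [Infinite k] {r : O →+* k}
    (hC : Ctx v ℓ O r) {σ : Type} [Finite σ] (Ψ : MvPolynomial σ k) (hΨ : Ψ ≠ 0)
    (G : MvPolynomial σ K) (hG : G ≠ 0) :
    ∃ z : σ → O, MvPolynomial.eval (fun t => r (z t)) Ψ ≠ 0 ∧
      MvPolynomial.eval (fun t => (z t : K)) G ≠ 0 := by
  obtain ⟨z1, hz1⟩ : ∃ z1 : σ → k, MvPolynomial.eval z1 Ψ ≠ 0 := by
    by_contra hcon
    push Not at hcon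
    exact hΨ (MvPolynomial.funext (fun z => by rw [hcon z, map_zero]))
  choose z0 hz0 using fun t => hC.surj (z1 t)
  have hℓ0 : (ℓ : K) ≠ 0 := by exact_mod_cast hℓ.ne_zero
  have hvpos : 0 < v (ℓ : K) := v.pos hℓ0
  have hinf : ∀ t : σ, ({x : K | v (x - z0 t) < 1}).Infinite := by
    intro t
    have hinj : Function.Injective (fun j : ℕ => ((z0 t : K) + (ℓ : K) ^ (j + 1))) := by
      intro i j hij
      simp only at hij
      have h1 : (ℓ : K) ^ (i + 1) = (ℓ : K) ^ (j + 1) := add_left_cancel hij
      have h2 : ℓ ^ (i + 1) = ℓ ^ (j + 1) := by exact_mod_cast h1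
      have h3 := Nat.pow_right_injective hℓ.two_le h2
      omega
    refine (Set.infinite_range_of_injective hinj).mono ?_
    rintro _ ⟨j, rfl⟩
    simp only [Set.mem_setOf_eq, add_sub_cancel_left, map_pow]
    exact pow_lt_one₀ hvpos.le hC.lt (by omega)
  obtain ⟨z, hz, hGz⟩ : ∃ z ∈ Set.pi Set.univ (fun t : σ => {x : K | v (x - z0 t) < 1}),
      MvPolynomial.eval z G ≠ 0 := by
    by_contra hcon
    push Not at hcon
    exact hG (MvPolynomial.funext_set _ hinf (fun z hz => by rw [hcon z hz, map_zero]))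
  have hzv : ∀ t, v (z t - z0 t) < 1 := fun t => hz t (Set.mem_univ t)
  have hsub : ∀ t, z t - z0 t ∈ O := fun t => (hC.mem _).2 (hzv t).le
  have hzO : ∀ t, z t ∈ O := by
    intro t
    have := O.add_mem (hsub t) (z0 t).2
    simpa using this
  refine ⟨fun t => ⟨z t, hzO t⟩, ?_, hGz⟩
  have : (fun t => r ⟨z t, hzO t⟩) = z1 := by
    funext t
    have h0 : r (⟨z t, hzO t⟩ - z0 t) = 0 := (hC.res _).2 (hzv t)
    rw [map_sub, sub_eq_zero] at h0
    rw [h0, hz0]
  rw [this]
  exact hz1

end FINS_

open FINS_ in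
theorem p_FINS (h1 : T_RFS.{u}) (h2 : T_MAIS.{u}) (h3 : T_INFS.{u}) (h4 : T_PHMS.{u})
    (h5 : T_PHIS.{u}) : T_FINS.{u} := by
  intro K _ _ _ v ℓ hna hℓ hv m hm hm2 d n μ D g hmD ρ b hb A F hA hF
  haveI : Fact ℓ.Prime := ⟨hℓ⟩
  obtain ⟨O, k, _, _, _, r, hC⟩ := h1 K v ℓ hna hℓ hv
  have hO := hC.mem
  have hle : ∀ x : O, v (x : K) ≤ 1 := fun x => (hO x).1 x.2
  have hinj : Function.Injective (O.subtype : O →+* K) := Subtype.val_injective
  have hdeg : ∀ {σ : Type} (A : MvPolynomial σ O),
      (MvPolynomial.map O.subtype A).totalDegree = A.totalDegree :=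
    fun A => by rw [MvPolynomial.totalDegree, MvPolynomial.totalDegree,
      MvPolynomial.support_map_of_injective _ hinj]
  have hAl : ∀ κ, ∃ A' : MvPolynomial (Fin d ⊕ Fin n) O, MvPolynomial.map O.subtype A' = A κ :=
    fun κ => exists_lift hO (A κ) (hA κ).2
  choose A' hA' using hAl
  have hFl : ∀ i, ∃ F' : MvPolynomial (Fin d ⊕ Fin n) O, MvPolynomial.map O.subtype F' = F i :=
    fun i => exists_lift hO (F i) (hF i).2
  choose F' hF' using hFl
  have hbl : ∀ j l, ∃ b' : MvPolynomial (Fin d) O,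
      l < ρ j → MvPolynomial.map O.subtype b' = b j l := by
    intro j l
    by_cases hl : l < ρ j
    · obtain ⟨b', hb'⟩ := exists_lift hO (b j l) (hb j l hl).2
      exact ⟨b', fun _ => hb'⟩
    · exact ⟨0, fun h => absurd h hl⟩
  choose b' hb' using hbl
  have hcard : ∀ Q : Finset (Fin d), Q.card + (d + 1 - Q.card) = d + 1 := by
    intro Q
    have := Finset.card_le_univ Q
    rw [Fintype.card_fin] at this
    omega
  have H1 := fun Q : Finset (Fin d) => h4 k ℓ m d n D g (d + 1 - Q.card) hm hm2 Q (hcard Q) ρ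
    (fun j l => MvPolynomial.map r (b' j l)) (fun κ => MvPolynomial.map r (A' κ))
    (fun i => MvPolynomial.map r (F' i))
  choose Φ1 hΦ1 H1 using H1
  have H2 := fun Q : Finset (Fin d) => h5 k ℓ m d n D g (d + 1 - Q.card) hm hm2 Q (hcard Q) ρ
    (fun j l => MvPolynomial.homogeneousComponent (ρ j - l) (MvPolynomial.map r (b' j l)))
    (fun i => MvPolynomial.homogeneousComponent D (MvPolynomial.map r (F' i)))
  choose Φ2 hΦ2 H2 using H2
  obtain ⟨Φo, hΦo⟩ := MvPolynomial.map_surjective r hC.surj
    (∏ Q : Finset (Fin d), (Φ1 Q * Φ2 Q))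
  have hne : ∏ Q : Finset (Fin d), (Φ1 Q * Φ2 Q) ≠ 0 :=
    Finset.prod_ne_zero_iff.2 (fun Q _ => mul_ne_zero (hΦ1 Q) (hΦ2 Q))
  refine ⟨MvPolynomial.map O.subtype Φo, ?_, ?_, ?_⟩
  · intro s
    rw [MvPolynomial.coeff_map]
    exact hle _
  · obtain ⟨s, hs⟩ := MvPolynomial.ne_zero_iff.1 hne
    refine ⟨s, ?_⟩
    rw [MvPolynomial.coeff_map]
    rw [← hΦo, MvPolynomial.coeff_map] at hs
    refine le_antisymm (hle _) (not_lt.1 ?_)
    intro hlt
    exact hs ((hC.res _).2 hlt)
  · intro c hc hvc e Q hQ G hG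
    obtain rfl : e = d + 1 - Q.card := by omega
    set c' : Fin g × Fin (d + 1) → O := fun u => ⟨c u, (hO _).2 (hc u)⟩ with hc'
    have hev : MvPolynomial.eval c (MvPolynomial.map O.subtype Φo) =
      ((MvPolynomial.eval c' Φo : O) : K) := eval_hom O.subtype Φo c'
    have hne2 : r (MvPolynomial.eval c' Φo) ≠ 0 := by
      intro h0
      rw [hC.res] at h0
      rw [hev] at hvc
      rw [hvc] at h0
      exact lt_irrefl _ h0
    rw [← eval_hom r Φo c', hΦo, map_prod] at hne2
    have hneQ := Finset.prod_ne_zero_iff.1 hne2 Q (Finset.mem_univ Q)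
    rw [map_mul] at hneQ
    have n1 : MvPolynomial.eval (fun u => r (c' u)) (Φ1 Q) ≠ 0 := left_ne_zero_of_mul hneQ
    have n2 : MvPolynomial.eval (fun u => r (c' u)) (Φ2 Q) ≠ 0 := right_ne_zero_of_mul hneQ
    obtain ⟨Ψ, hΨ, HΨ⟩ := H1 Q _ n1
    obtain ⟨z, hz1, hz2⟩ := exists_point hℓ hC Ψ hΨ G hG
    refine ⟨fun t => (z t : K), hz2, ?_⟩
    intro p s hbase hpz hsq ζ y hζ hy hrel
    have hbase' : OnBase ρ (fun j l => MvPolynomial.map O.subtype (b' j l)) p s := by
      intro j
      rw [← hbase j]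
      congr 1
      apply Finset.sum_congr rfl
      intro l hl
      simp only
      rw [hb' j l (Finset.mem_range.1 hl)]
    have hFeq : (fun i => MvPolynomial.map O.subtype (F' i)) = F := funext hF'
    have hAeq : (fun κ => MvPolynomial.map O.subtype (A' κ)) = A := funext hA'
    by_cases hp : ∀ j, v (p j) ≤ 1
    · -- all coordinates are integral
      have hs : ∀ j, v (s j) ≤ 1 := by
        intro j
        apply integral hna (ρ j) (fun l => MvPolynomial.eval p (MvPolynomial.map O.subtype
          (b' j l))) (s j) _ (hbase' j)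
        intro l _
        have := eval_hom O.subtype (b' j l) (fun i => (⟨p i, (hO _).2 (hp i)⟩ : O))
        have e : (fun i => O.subtype (⟨p i, (hO _).2 (hp i)⟩ : O)) = p := rfl
        rw [e] at this
        rw [this]
        exact hle _
      set p' : Fin d → O := fun j => ⟨p j, (hO _).2 (hp j)⟩ with hp'
      set s' : Fin n → O := fun j => ⟨s j, (hO _).2 (hs j)⟩ with hs'
      have ep : (fun j => O.subtype (p' j)) = p := rfl
      have es : (fun j => O.subtype (s' j)) = s := rfl
      have eel : (fun x => O.subtype (Sum.elim p' s' x)) = Sum.elim p s := by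
        funext x
        cases x <;> rfl
      have hb0 : OnBase ρ b' p' s' := by
        intro j
        apply hinj
        have := hbase' j
        rw [map_zero, map_add, map_sum, map_pow]
        simp only [map_mul, map_pow]
        simp only [← eval_hom O.subtype, ep]
        exact this
      have hfam : (fun κ => ((MvPolynomial.eval (Sum.elim p' s') (A' κ) : O) : K)) =
          fun κ => MvPolynomial.eval (Sum.elim p s) (A κ) := by
        funext κ
        have := eval_hom O.subtype (A' κ) (Sum.elim p' s')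
        rw [eel, hA'] at this
        exact this.symm
      have habs : (fun i => ((absc D F' c' p' s' i : O) : K)) = absc D F c p s := by
        funext i
        have := absc_hom O.subtype D F' c' p' s' i
        simp only [hF', ep, es] at this
        exact this.symm
      rw [← hfam] at hsq hy hrel
      rw [← habs] at hy hrel
      obtain ⟨S, J, w, hbad⟩ := h2 K v ℓ O k r hC ζ hζ m hm hm2
        (fun κ => MvPolynomial.eval (Sum.elim p' s') (A' κ)) hsq g
        (absc D F' c' p' s') y hy _ hrel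
      have hbaser := onBase_hom r hb0
      refine HΨ _ hz1 _ _ hbaser ?_ S J w ?_
      · intro t
        have : p' t = z t := Subtype.ext (hpz t)
        rw [this]
      · have e1 : (fun κ => MvPolynomial.eval (Sum.elim (fun j => r (p' j)) (fun j => r (s' j)))
            (MvPolynomial.map r (A' κ))) =
            fun κ => r (MvPolynomial.eval (Sum.elim p' s') (A' κ)) := by
          funext κ
          rw [elim_hom, eval_hom]
        have e2 : absc D (fun i => MvPolynomial.map r (F' i)) (fun u => r (c' u))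
            (fun j => r (p' j)) (fun j => r (s' j)) = fun i => r (absc D F' c' p' s' i) := by
          funext i
          exact absc_hom r D F' c' p' s' i
        rw [e1, e2]
        exact hbad
    · push Not at hp
      rw [← hFeq, ← hAeq] at hy hrel
      rw [← hAeq] at hsq
      obtain ⟨p', s', S, J, w, hb1, hb2, hb3, hbad⟩ := h3 K v ℓ O k r hC ζ hζ m hm hm2 d n μ D g
        hmD ρ b'
        (by
          intro j l hl
          rw [← hdeg, hb' j l hl]
          exact (hb j l hl).1) A' F'
        (by intro κ; rw [← hdeg, hA']; exact (hA κ).1)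
        (by intro i; rw [← hdeg, hF']; exact (hF i).1)
        c' p s hbase' hp hsq y hy _ hrel
      refine H2 Q _ n2 p' s' hb1 ?_ hb2 S J w hbad
      intro t ht
      apply hb3 t
      have := hpz ⟨t, ht⟩
      rw [this]
      exact hle _

end SRK
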