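import Mathlib
import Pool.Agent.SRK.Targets

/-!
GID: ideals of the coordinate ring which are stable under the automorphism.
-/

namespace SRK

open Polynomial

universe u

namespace GID_

/-- `Y ^ ℓ = f` -/
theorem root_pow {K : Type u} [Field K] (ℓ : ℕ) (f : K[X]) :
    (AdjoinRoot.root ((X : Polynomial (Polynomial K)) ^ ℓ - C f)) ^ ℓ
      = AdjoinRoot.of ((X : Polynomial (Polynomial K)) ^ ℓ - C f) f := by
  have h := AdjoinRoot.eval₂_root ((X : Polynomial (Polynomial K)) ^ ℓ - C f)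
  rw [eval₂_sub, eval₂_pow, eval₂_X, eval₂_C] at h
  exact sub_eq_zero.1 h

theorem geo {K : Type u} [Field K] {ℓ : ℕ} {ζ : K} (hp : IsPrimitiveRoot ζ ℓ)
    {j k : ℕ} (hj : j < ℓ) (hk : k < ℓ) :
    ∑ t ∈ Finset.range ℓ, ζ ^ (t * (ℓ - j)) * ζ ^ (t * k) = if k = j then (ℓ : K) else 0 := by
  have h1 : ∀ t ∈ Finset.range ℓ, ζ ^ (t * (ℓ - j)) * ζ ^ (t * k)
      = (ζ ^ ((ℓ - j) + k)) ^ t := by
    intro t _
    rw [← pow_add, ← pow_mul]
    congr 1
    ring
  rw [Finset.sum_congr rfl h1]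
  split_ifs with h
  · subst h
    have h2 : ℓ - k + k = ℓ := Nat.sub_add_cancel hk.le
    rw [h2, hp.pow_eq_one]
    simp
  · have hx : ζ ^ ((ℓ - j) + k) ≠ 1 := by
      intro hc
      have hd := (hp.pow_eq_one_iff_dvd _).1 hc
      obtain ⟨c, hc⟩ := hd
      have h3 : c = 1 := by
        have h4 : 0 < c := by
          rcases Nat.eq_zero_or_pos c with h0 | h0
          · subst h0
            omega
          · exact h0
        have h5 : c < 2 := by
          by_contra hcon
          have h6 : ℓ * 2 ≤ ℓ * c := Nat.mul_le_mul_left ℓ (by omega)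
          omega
        omega
      subst h3
      apply h
      omega
    have hm := geom_sum_mul (ζ ^ ((ℓ - j) + k)) ℓ
    have h1' : (ζ ^ ((ℓ - j) + k)) ^ ℓ = 1 := by
      rw [← pow_mul, mul_comm, pow_mul, hp.pow_eq_one, one_pow]
    rw [h1', sub_self] at hm
    rcases mul_eq_zero.1 hm with h7 | h7
    · exact h7
    · exact absurd (sub_eq_zero.1 h7) hx

/-- projection to the components -/
theorem cmp (h1 : T_SGE.{u}) {K : Type u} [Field K] {ℓ : ℕ} (hℓ : ℓ.Prime) {ζ : K}
    (hp : IsPrimitiveRoot ζ ℓ) (hζ : ζ ^ ℓ = 1) (f : K[X]) (I : Ideal (Crd ℓ f))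
    (hI : Ideal.map (sg ℓ f ζ hζ) I ≤ I) (A : Fin ℓ → K[X]) (hA : el ℓ f A ∈ I) (j : Fin ℓ) :
    AdjoinRoot.of _ (A j) * AdjoinRoot.root _ ^ (j : ℕ) ∈ I := by
  have hst : ∀ t : ℕ, el ℓ f (tw ζ t A) ∈ I := by
    intro t
    rw [← (h1 K ℓ hℓ.pos f ζ hζ).1 A t]
    induction t with
    | zero => simpa using hA
    | succ t ih =>
      rw [Function.iterate_succ_apply']
      exact hI (Ideal.mem_map_of_mem _ ih)
  have hℓ0 : (ℓ : K) ≠ 0 := by
    have : NeZero ℓ := ⟨hℓ.ne_zero⟩
    exact (IsPrimitiveRoot.neZero' hp).out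
  have key : AdjoinRoot.of _ (A j) * AdjoinRoot.root _ ^ (j : ℕ) =
      AdjoinRoot.of _ (C ((ℓ : K)⁻¹)) * ∑ t ∈ Finset.range ℓ,
        AdjoinRoot.of ((X : Polynomial (Polynomial K)) ^ ℓ - C f) (C (ζ ^ (t * (ℓ - (j : ℕ))))) *
          el ℓ f (tw ζ t A) := by
    have h2 : ∑ t ∈ Finset.range ℓ,
        AdjoinRoot.of ((X : Polynomial (Polynomial K)) ^ ℓ - C f) (C (ζ ^ (t * (ℓ - (j : ℕ))))) *
          el ℓ f (tw ζ t A) =
        ∑ k : Fin ℓ, AdjoinRoot.of ((X : Polynomial (Polynomial K)) ^ ℓ - C f)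
          (C (∑ t ∈ Finset.range ℓ, ζ ^ (t * (ℓ - (j : ℕ))) * ζ ^ (t * (k : ℕ))) * A k) *
            AdjoinRoot.root _ ^ (k : ℕ) := by
      have h3 : ∀ t ∈ Finset.range ℓ,
          AdjoinRoot.of ((X : Polynomial (Polynomial K)) ^ ℓ - C f)
            (C (ζ ^ (t * (ℓ - (j : ℕ))))) * el ℓ f (tw ζ t A) =
          ∑ k : Fin ℓ, AdjoinRoot.of ((X : Polynomial (Polynomial K)) ^ ℓ - C f)
            (C (ζ ^ (t * (ℓ - (j : ℕ))) * ζ ^ (t * (k : ℕ))) * A k) *
              AdjoinRoot.root _ ^ (k : ℕ) := by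
        intro t _
        unfold el tw
        rw [Finset.mul_sum]
        refine Finset.sum_congr rfl fun k _ => ?_
        rw [C_mul, map_mul, map_mul, map_mul]
        ring
      rw [Finset.sum_congr rfl h3, Finset.sum_comm]
      refine Finset.sum_congr rfl fun k _ => ?_
      rw [map_sum, Finset.sum_mul, map_sum, Finset.sum_mul]
    rw [h2, Finset.sum_eq_single j]
    · rw [geo hp j.2 j.2, if_pos rfl, ← mul_assoc, ← map_mul, ← mul_assoc, ← C_mul,
        inv_mul_cancel₀ hℓ0, C_1, one_mul]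
    · intro k _ hkj
      rw [geo hp j.2 k.2, if_neg (fun h => hkj (Fin.ext h)), C_0, zero_mul, map_zero, zero_mul]
    · intro h
      exact absurd (Finset.mem_univ j) h
  rw [key]
  refine I.mul_mem_left _ (I.sum_mem fun t _ => I.mul_mem_left _ (hst t))

/-- the ideal of the `j`-th components -/
noncomputable def aj {K : Type u} [Field K] {ℓ : ℕ} {f : K[X]} (I : Ideal (Crd ℓ f)) (j : ℕ) :
    Ideal K[X] where
  carrier := {a | AdjoinRoot.of _ a * AdjoinRoot.root _ ^ j ∈ I}
  add_mem' := by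
    intro a b ha hb
    change _ ∈ I at ha
    change _ ∈ I at hb
    change _ ∈ I
    rw [map_add, add_mul]
    exact I.add_mem ha hb
  zero_mem' := by
    change _ ∈ I
    rw [map_zero, zero_mul]
    exact I.zero_mem
  smul_mem' := by
    intro c a ha
    change _ ∈ I at ha
    change _ ∈ I
    rw [smul_eq_mul, map_mul, mul_assoc]
    exact I.mul_mem_left _ ha

theorem mem_aj {K : Type u} [Field K] {ℓ : ℕ} {f : K[X]} (I : Ideal (Crd ℓ f)) (j : ℕ)
    (a : K[X]) : a ∈ aj I j ↔ AdjoinRoot.of _ a * AdjoinRoot.root _ ^ j ∈ I := Iff.rfl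

theorem fac {K : Type u} [Field K] {m : ℕ} (ω : Fin m → K) (hω : Function.Injective ω)
    (s : Finset (Fin m)) : ∀ q : K[X], q ∣ ∏ w ∈ s, (X - C (ω w)) →
      Associated q (∏ w ∈ s, (open Classical in if (X - C (ω w)) ∣ q then X - C (ω w) else 1)) := by
  classical
  induction s using Finset.induction_on with
  | empty =>
    intro q hq
    rw [Finset.prod_empty] at hq ⊢
    exact associated_one_iff_isUnit.2 (isUnit_of_dvd_one hq)
  | insert a s ha ih =>
    intro q hq
    rw [Finset.prod_insert ha] at hq ⊢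
    by_cases hd : (X - C (ω a)) ∣ q
    · rw [if_pos hd]
      obtain ⟨q', rfl⟩ := hd
      have hne : (X - C (ω a)) ≠ 0 := X_sub_C_ne_zero _
      have hq' : q' ∣ ∏ w ∈ s, (X - C (ω w)) := (mul_dvd_mul_iff_left hne).1 hq
      have h1 := ih q' hq'
      have h2 : (∏ w ∈ s, (if (X - C (ω w)) ∣ (X - C (ω a)) * q' then X - C (ω w) else 1)) =
          ∏ w ∈ s, (if (X - C (ω w)) ∣ q' then X - C (ω w) else 1) := by
        refine Finset.prod_congr rfl fun w hw => ?_
        have hwa : ω w ≠ ω a := fun h => ha (hω h ▸ hw)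
        have h3 : (X - C (ω w)) ∣ (X - C (ω a)) * q' ↔ (X - C (ω w)) ∣ q' := by
          constructor
          · intro h
            rcases (prime_X_sub_C (ω w)).dvd_or_dvd h with h4 | h4
            · exfalso
              rw [dvd_iff_isRoot] at h4
              simp only [IsRoot.def, eval_sub, eval_X, eval_C] at h4
              exact hwa (sub_eq_zero.1 h4)
            · exact h4
          · intro h
            exact h.mul_left _
        by_cases h5 : (X - C (ω w)) ∣ q'
        · rw [if_pos h5, if_pos (h3.2 h5)]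
        · rw [if_neg h5, if_neg (fun h => h5 (h3.1 h))]
      rw [h2]
      exact h1.mul_left _
    · rw [if_neg hd, one_mul]
      apply ih
      have hc : IsCoprime q (X - C (ω a)) := by
        have := (prime_X_sub_C (ω a)).irreducible
        exact ((this.coprime_iff_not_dvd).2 hd).symm
      exact hc.dvd_of_dvd_mul_left hq

end GID_

open GID_ in
theorem p_GID (h0 : T_BAS.{u}) (h1 : T_SGE.{u}) : T_GID.{u} := by
  classical
  intro K _ ℓ hℓ ζ hp hζ m ω hω hm I hI hst
  have hf0 : ff ω ≠ 0 := by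
    exact Finset.prod_ne_zero_iff.2 fun w _ => X_sub_C_ne_zero _
  have hcomp := cmp h1 hℓ hp hζ (ff ω) I hst
  -- generators
  have hgen : ∀ j : ℕ, ∃ g : K[X], ∀ a : K[X],
      (AdjoinRoot.of ((X : Polynomial (Polynomial K)) ^ ℓ - C (ff ω)) a *
        AdjoinRoot.root _ ^ j ∈ I ↔ g ∣ a) := by
    intro j
    obtain ⟨g, hg⟩ := (IsPrincipalIdealRing.principal (aj I j)).principal
    refine ⟨g, fun a => ?_⟩
    rw [← mem_aj, hg]
    exact Ideal.mem_span_singleton
  choose g hg using hgen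
  have hsucc : ∀ j, g (j + 1) ∣ g j := by
    intro j
    rw [← hg (j + 1), pow_succ, ← mul_assoc]
    exact I.mul_mem_right _ ((hg j _).2 dvd_rfl)
  have hmono : ∀ i j, i ≤ j → g j ∣ g i := by
    intro i j hij
    induction j, hij using Nat.le_induction with
    | base => exact dvd_rfl
    | succ j _ ih => exact (hsucc j).trans ih
  have hf1 : g 0 ∣ g (ℓ - 1) * ff ω := by
    rw [← hg 0, pow_zero, mul_one, map_mul, ← root_pow ℓ (ff ω)]
    have h2 : AdjoinRoot.root ((X : Polynomial (Polynomial K)) ^ ℓ - C (ff ω)) ^ ℓ =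
        AdjoinRoot.root ((X : Polynomial (Polynomial K)) ^ ℓ - C (ff ω)) ^ (ℓ - 1) *
          AdjoinRoot.root ((X : Polynomial (Polynomial K)) ^ ℓ - C (ff ω)) := by
      rw [← pow_succ, Nat.sub_add_cancel hℓ.one_le]
    rw [h2, ← mul_assoc]
    exact I.mul_mem_right _ ((hg (ℓ - 1) _).2 dvd_rfl)
  have hg0 : g 0 ≠ 0 := by
    obtain ⟨x, hx, hx0⟩ := Submodule.exists_mem_ne_zero_of_ne_bot hI
    obtain ⟨A, hA, _⟩ := h0 K ℓ hℓ.pos (ff ω) x
    have hex : ∃ j, A j ≠ 0 := by
      by_contra hcon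
      push Not at hcon
      apply hx0
      rw [hA]
      unfold el
      refine Finset.sum_eq_zero fun j _ => ?_
      rw [hcon j, map_zero, zero_mul]
    obtain ⟨j, hj⟩ := hex
    have h2 : g 0 ∣ A j * ff ω := by
      rw [← hg 0, pow_zero, mul_one, map_mul, ← root_pow ℓ (ff ω)]
      have h3 : AdjoinRoot.root ((X : Polynomial (Polynomial K)) ^ ℓ - C (ff ω)) ^ ℓ =
          AdjoinRoot.root ((X : Polynomial (Polynomial K)) ^ ℓ - C (ff ω)) ^ (j : ℕ) *
            AdjoinRoot.root ((X : Polynomial (Polynomial K)) ^ ℓ - C (ff ω)) ^ (ℓ - (j : ℕ)) := by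
        rw [← pow_add, Nat.add_sub_of_le j.2.le]
      rw [h3, ← mul_assoc]
      exact I.mul_mem_right _ (hcomp A (hA ▸ hx) j)
    intro hz
    rw [hz, zero_dvd_iff] at h2
    rcases mul_eq_zero.1 h2 with h4 | h4
    · exact hj h4
    · exact hf0 h4
  have hgl : g (ℓ - 1) ≠ 0 := by
    intro hz
    have := hmono 0 (ℓ - 1) (Nat.zero_le _)
    rw [hz, zero_dvd_iff] at this
    exact hg0 this
  -- the quotients
  have hq : ∀ j, ∃ q : K[X], j ≤ ℓ - 1 → g j = g (ℓ - 1) * q := by
    intro j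
    by_cases hj : j ≤ ℓ - 1
    · obtain ⟨q, hq⟩ := hmono j (ℓ - 1) hj
      exact ⟨q, fun _ => hq⟩
    · exact ⟨0, fun h => absurd h hj⟩
  choose q hq using hq
  have hqf : ∀ j, j ≤ ℓ - 1 → q j ∣ ff ω := by
    intro j hj
    have h2 : g j ∣ g (ℓ - 1) * ff ω := (hmono 0 j (Nat.zero_le _)).trans hf1
    rw [hq j hj] at h2
    exact (mul_dvd_mul_iff_left hgl).1 h2
  have hqm : ∀ i j, i ≤ j → j ≤ ℓ - 1 → q j ∣ q i := by
    intro i j hij hj
    have h2 := hmono i j hij
    rw [hq j hj, hq i (hij.trans hj)] at h2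
    exact (mul_dvd_mul_iff_left hgl).1 h2
  have hql : q (ℓ - 1) = 1 := by
    have h2 := hq (ℓ - 1) le_rfl
    have h3 : g (ℓ - 1) * 1 = g (ℓ - 1) * q (ℓ - 1) := by
      rw [mul_one]
      exact h2
    exact (mul_left_cancel₀ hgl h3).symm
  -- the exponents
  let n : Fin m → ℕ := fun w =>
    ((Finset.range ℓ).filter fun j => (X - C (ω w)) ∣ q j).card
  have hnj : ∀ w j, j < ℓ → (j < n w ↔ (X - C (ω w)) ∣ q j) := by
    intro w j hj
    constructor
    · intro h
      by_contra hcon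
      have hsub : ((Finset.range ℓ).filter fun j => (X - C (ω w)) ∣ q j) ⊆ Finset.range j := by
        intro i hi
        rw [Finset.mem_filter, Finset.mem_range] at hi
        rw [Finset.mem_range]
        by_contra hij
        push Not at hij
        exact hcon (hi.2.trans (hqm j i hij (by omega)))
      have := Finset.card_le_card hsub
      rw [Finset.card_range] at this
      exact absurd h (not_lt.2 this)
    · intro h
      have hsub : Finset.range (j + 1) ⊆
          ((Finset.range ℓ).filter fun j => (X - C (ω w)) ∣ q j) := by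
        intro i hi
        rw [Finset.mem_range] at hi
        rw [Finset.mem_filter, Finset.mem_range]
        exact ⟨by omega, h.trans (hqm i j (by omega) (by omega))⟩
      have := Finset.card_le_card hsub
      rw [Finset.card_range] at this
      exact this
  have hnl : ∀ w, n w < ℓ := by
    intro w
    by_contra hcon
    push Not at hcon
    have h2 := (hnj w (ℓ - 1) (Nat.sub_lt hℓ.pos Nat.one_pos)).1
      (lt_of_lt_of_le (Nat.sub_lt hℓ.pos Nat.one_pos) hcon)
    rw [hql] at h2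
    exact (prime_X_sub_C (ω w)).not_isUnit (isUnit_of_dvd_one h2)
  have hass : ∀ j, j < ℓ → Associated (q j) (qq ω n j) := by
    intro j hj
    have h2 := fac ω hω Finset.univ (q j) (by
      exact hqf j (by omega))
    have h3 : qq ω n j = ∏ w ∈ Finset.univ,
        (if (X - C (ω w)) ∣ q j then X - C (ω w) else 1) := by
      unfold qq
      refine Finset.prod_congr rfl fun w _ => ?_
      by_cases h4 : (X - C (ω w)) ∣ q j
      · rw [if_pos h4, if_pos ((hnj w j hj).2 h4)]
      · rw [if_neg h4, if_neg (fun h => h4 ((hnj w j hj).1 h))]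
    rw [h3]
    exact h2
  have hgq : ∀ j, j < ℓ → ∀ a : K[X], g j ∣ a ↔ g (ℓ - 1) * qq ω n j ∣ a := by
    intro j hj a
    rw [hq j (by omega)]
    exact ((hass j hj).mul_left _).dvd_iff_dvd_left
  refine ⟨g (ℓ - 1), n, hgl, hnl, le_antisymm ?_ ?_⟩
  · intro x hx
    obtain ⟨A, hA, _⟩ := h0 K ℓ hℓ.pos (ff ω) x
    rw [hA]
    unfold el
    refine Ideal.sum_mem _ fun j _ => ?_
    have h2 := hcomp A (hA ▸ hx) j
    rw [hg j, hgq j j.2] at h2
    obtain ⟨c, hc⟩ := h2
    have h3 : AdjoinRoot.of ((X : Polynomial (Polynomial K)) ^ ℓ - C (ff ω)) (A j) *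
        AdjoinRoot.root _ ^ (j : ℕ) =
        AdjoinRoot.of _ (g (ℓ - 1)) *
          (AdjoinRoot.of _ c * (AdjoinRoot.of _ (qq ω n j) * AdjoinRoot.root _ ^ (j : ℕ))) := by
      rw [hc, map_mul, map_mul]
      ring
    rw [h3]
    refine Ideal.mul_mem_mul (Ideal.mem_span_singleton_self _) (Ideal.mul_mem_left _ _ ?_)
    exact Ideal.subset_span ⟨j, rfl⟩
  · unfold Jq
    rw [Ideal.span_mul_span, Ideal.span_le]
    intro x hx
    obtain ⟨a, ha, b, ⟨j, rfl⟩, rfl⟩ := Set.mem_mul.1 hx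
    rw [Set.mem_singleton_iff] at ha
    subst ha
    change _ ∈ I
    rw [← mul_assoc, ← map_mul]
    exact (hg j _).2 ((hgq j j.2 _).2 dvd_rfl)

end SRK
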