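import Mathlib
import Pool.Agent.SRK.Targets

/-!
SRK, target HIL: Hilbert's theorem 90 for ideals of the coordinate ring.
-/

namespace SRK

open Polynomial

universe u

namespace HIL_

/-- cyclic shift of a product over `range (n + 1)` -/
theorem prod_shift {M : Type*} [CommMonoid M] (g : ℕ → M) (n : ℕ) (h : g (n + 1) = g 0) :
    ∏ k ∈ Finset.range (n + 1), g (k + 1) = ∏ k ∈ Finset.range (n + 1), g k := by
  rw [Finset.prod_range_succ, h, ← Finset.prod_range_succ']

theorem prod_shift' {M : Type*} [CommMonoid M] (g : ℕ → M) (n : ℕ) (hn : 0 < n) (h : g n = g 0) :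
    ∏ k ∈ Finset.range n, g (k + 1) = ∏ k ∈ Finset.range n, g k := by
  obtain ⟨m, rfl⟩ : ∃ m, n = m + 1 := ⟨n - 1, by omega⟩
  exact prod_shift g m h

/-- ideal products of spans of singletons -/
theorem map_span_mul {R : Type*} [CommRing R] (s : R →+* R) (x : R) (I : Ideal R) :
    Ideal.map s (Ideal.span {x} * I) = Ideal.span {s x} * Ideal.map s I := by
  rw [Ideal.map_mul, Ideal.map_span, Set.image_singleton]

section abstract

variable {R : Type*} [CommRing R] [IsDomain R]

/-- `(M) I = (h) σ I` implies `(M ^ n) = (N h)` if `I` divides a nonzero principal ideal -/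
theorem norm_span (s : R →+* R) (n : ℕ) (hn : 0 < n) (hs : s ^ n = 1) (M M' h : R)
    (hM : s M = M) (hM' : s M' = M') (hM'0 : M' ≠ 0) (I I' : Ideal R)
    (hI : I * I' = Ideal.span {M'})
    (hh : Ideal.span {M} * I = Ideal.span {h} * Ideal.map s I) :
    Ideal.span {M ^ n} = Ideal.span {∏ t ∈ Finset.range n, (s ^ t) h} := by
  have fixM : ∀ t, (s ^ t) M = M := by
    intro t
    induction t with
    | zero => rfl
    | succ t ih => rw [pow_succ, RingHom.coe_mul, Function.comp_apply, hM, ih]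
  have fixM' : ∀ t, (s ^ t) M' = M' := by
    intro t
    induction t with
    | zero => rfl
    | succ t ih => rw [pow_succ, RingHom.coe_mul, Function.comp_apply, hM', ih]
  have mapmap : ∀ t, Ideal.map (s ^ t) (Ideal.map s I) = Ideal.map (s ^ (t + 1)) I := by
    intro t
    rw [Ideal.map_map]
    rfl
  have step : ∀ t, Ideal.span {M} * Ideal.map (s ^ t) I =
      Ideal.span {(s ^ t) h} * Ideal.map (s ^ (t + 1)) I := by
    intro t
    have := congrArg (Ideal.map (s ^ t)) hh
    rwa [map_span_mul, map_span_mul, fixM, mapmap] at this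
  have prodeq : Ideal.span {M ^ n} * ∏ t ∈ Finset.range n, Ideal.map (s ^ t) I =
      Ideal.span {∏ t ∈ Finset.range n, (s ^ t) h} *
        ∏ t ∈ Finset.range n, Ideal.map (s ^ t) I := by
    have h1 : ∏ t ∈ Finset.range n, (Ideal.span {M} * Ideal.map (s ^ t) I) =
        ∏ t ∈ Finset.range n, (Ideal.span {(s ^ t) h} * Ideal.map (s ^ (t + 1)) I) :=
      Finset.prod_congr rfl fun t _ => step t
    rw [Finset.prod_mul_distrib, Finset.prod_mul_distrib, Finset.prod_const, Finset.card_range,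
      Ideal.span_singleton_pow, Ideal.prod_span_singleton,
      prod_shift' (fun t => Ideal.map (s ^ t) I) n hn (by rw [hs, pow_zero])] at h1
    exact h1
  have inv : (∏ t ∈ Finset.range n, Ideal.map (s ^ t) I) *
      (∏ t ∈ Finset.range n, Ideal.map (s ^ t) I') = Ideal.span {M' ^ n} := by
    rw [← Finset.prod_mul_distrib]
    have h1 : ∀ t ∈ Finset.range n, Ideal.map (s ^ t) I * Ideal.map (s ^ t) I' =
        Ideal.span {M'} := by
      intro t _
      rw [← Ideal.map_mul, hI, Ideal.map_span, Set.image_singleton, fixM']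
    rw [Finset.prod_congr rfl h1, Finset.prod_const, Finset.card_range,
      Ideal.span_singleton_pow]
  have h2 := congrArg (· * ∏ t ∈ Finset.range n, Ideal.map (s ^ t) I') prodeq
  simp only [mul_assoc] at h2
  rw [inv, mul_comm _ (Ideal.span {M' ^ n}), mul_comm _ (Ideal.span {M' ^ n})] at h2
  exact (Ideal.span_singleton_mul_right_inj (pow_ne_zero n hM'0)).1 h2

/-- Hilbert 90 once the norm is normalised -/
theorem hilb (s : R →+* R) (n : ℕ) (hn : 0 < n) (hs : s ^ n = 1) (hinj : Function.Injective s)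
    (hdis : ∀ i j, i < n → j < n → s ^ i = s ^ j → i = j) (M h : R) (hM : s M = M)
    (hM0 : M ≠ 0) (I : Ideal R)
    (hN : ∏ t ∈ Finset.range n, (s ^ t) h = M ^ n)
    (hh : Ideal.span {M} * I = Ideal.span {h} * Ideal.map s I) :
    ∃ (I'' : Ideal R) (a b : R), a ≠ 0 ∧ b ≠ 0 ∧
      Ideal.map s I'' ≤ I'' ∧ Ideal.span {a} * I'' = Ideal.span {b} * I := by
  classical
  -- coefficients
  set e : ℕ → R := fun k => M ^ (n - 1 - k) * ∏ i ∈ Finset.range k, (s ^ i) h with he
  have hs' : ∀ (k : ℕ) (x : R), s ((s ^ k) x) = (s ^ (k + 1)) x := by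
    intro k x
    rw [pow_succ', RingHom.coe_mul, Function.comp_apply]
  -- the element T
  obtain ⟨z, hz⟩ : ∃ z, ∑ k ∈ Finset.range n, e k * (s ^ k) z ≠ 0 := by
    by_contra hcon
    push Not at hcon
    have hli := linearIndependent_monoidHom R R
    let v : Fin n → (R →* R) := fun k => ((s ^ (k : ℕ) : R →+* R) : R →* R)
    have hv : Function.Injective v := by
      intro i j hij
      apply Fin.ext
      apply hdis i j i.2 j.2
      ext x
      exact DFunLike.congr_fun hij x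
    have hli' := hli.comp v hv
    have h0 := Fintype.linearIndependent_iff.1 hli' (fun k => e k) (by
      ext x
      have := hcon x
      rw [Finset.sum_range] at this
      simpa [v] using this) ⟨0, hn⟩
    simp only [he, Finset.range_zero, Finset.prod_empty, mul_one] at h0
    exact pow_ne_zero _ hM0 h0
  set T := ∑ k ∈ Finset.range n, e k * (s ^ k) z with hT
  have key : h * s T = M * T := by
    have e1 : h * s T = ∑ k ∈ Finset.range n,
        (M ^ (n - 1 - k) * ∏ i ∈ Finset.range (k + 1), (s ^ i) h) * (s ^ (k + 1)) z := by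
      rw [hT, map_sum, Finset.mul_sum]
      refine Finset.sum_congr rfl fun k _ => ?_
      rw [map_mul, hs', he]
      simp only
      rw [map_mul, map_pow, hM, map_prod, Finset.prod_range_succ']
      simp only [hs', pow_zero, RingHom.coe_one, id_eq]
      ring
    have e2 : M * T = ∑ k ∈ Finset.range n,
        (M ^ (n - k) * ∏ i ∈ Finset.range k, (s ^ i) h) * (s ^ k) z := by
      rw [hT, Finset.mul_sum]
      refine Finset.sum_congr rfl fun k hk => ?_
      have hk' := Finset.mem_range.1 hk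
      have : n - k = (n - 1 - k) + 1 := by omega
      rw [he, this, pow_succ]
      ring
    obtain ⟨m, rfl⟩ : ∃ m, n = m + 1 := ⟨n - 1, by omega⟩
    rw [e1, e2, Finset.sum_range_succ, Finset.sum_range_succ']
    congr 1
    · refine Finset.sum_congr rfl fun k hk => ?_
      have hk' := Finset.mem_range.1 hk
      have : m + 1 - 1 - k = m + 1 - (k + 1) := by omega
      rw [this]
    · rw [hN, hs]
      simp
  -- the norm of T
  have hpow : ∀ k : ℕ, Function.Injective (s ^ k : R →+* R) := by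
    intro k
    rw [RingHom.coe_pow]
    exact hinj.iterate k
  have hTk : ∀ k : ℕ, (s ^ k) T ≠ 0 := by
    intro k hk
    exact hz ((map_eq_zero_iff _ (hpow k)).1 hk)
  set NT := ∏ k ∈ Finset.range n, (s ^ k) T with hNT
  set T' := ∏ k ∈ Finset.range (n - 1), (s ^ (k + 1)) T with hT'
  have hNT0 : NT ≠ 0 := Finset.prod_ne_zero_iff.2 fun k _ => hTk k
  have hTT' : T * T' = NT := by
    obtain ⟨m, rfl⟩ : ∃ m, n = m + 1 := ⟨n - 1, by omega⟩
    rw [hNT, hT', Finset.prod_range_succ', Nat.add_sub_cancel]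
    simp [mul_comm]
  have hsNT : s NT = NT := by
    rw [hNT, map_prod]
    simp only [hs']
    exact prod_shift' (fun k : ℕ => (s ^ k) T) n hn (by simp only [hs, pow_zero])
  refine ⟨Ideal.span {T'} * I, T, NT, hz, hNT0, ?_, ?_⟩
  · have hne : M * T ≠ 0 := mul_ne_zero hM0 hz
    apply le_of_eq
    apply (Ideal.span_singleton_mul_right_inj hne).1
    rw [map_span_mul]
    calc Ideal.span {M * T} * (Ideal.span {s T'} * Ideal.map s I)
        = Ideal.span {h * s T} * (Ideal.span {s T'} * Ideal.map s I) := by rw [key]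
      _ = Ideal.span {NT} * (Ideal.span {h} * Ideal.map s I) := by
          rw [← mul_assoc, ← mul_assoc, Ideal.span_singleton_mul_span_singleton,
            Ideal.span_singleton_mul_span_singleton]
          congr 2
          have : s T * s T' = NT := by rw [← map_mul, hTT', hsNT]
          rw [← this]
          congr 1
          ring
      _ = Ideal.span {NT} * (Ideal.span {M} * I) := by rw [hh]
      _ = Ideal.span {M * T} * (Ideal.span {T'} * I) := by
          rw [← mul_assoc, ← mul_assoc, Ideal.span_singleton_mul_span_singleton,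
            Ideal.span_singleton_mul_span_singleton]
          congr 2
          rw [← hTT']
          congr 1
          ring
  · rw [← mul_assoc, Ideal.span_singleton_mul_span_singleton, hTT']

end abstract

section concrete

variable {K : Type u} [Field K]

theorem of_mul_el (ℓ : ℕ) (f : K[X]) (Q : K[X]) (A : Fin ℓ → K[X]) :
    AdjoinRoot.of _ Q * el ℓ f A = el ℓ f (fun j => Q * A j) := by
  unfold el
  rw [Finset.mul_sum]
  refine Finset.sum_congr rfl fun j _ => ?_
  rw [map_mul, mul_assoc]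

theorem of_eq_el (ℓ : ℕ) (hℓ : 0 < ℓ) (f : K[X]) (P : K[X]) :
    (AdjoinRoot.of ((X : Polynomial (Polynomial K)) ^ ℓ - C f) P : Crd ℓ f) =
      el ℓ f (fun j => if (j : ℕ) = 0 then P else 0) := by
  unfold el
  rw [Finset.sum_eq_single ⟨0, hℓ⟩]
  · simp
  · intro j _ hj
    have : (j : ℕ) ≠ 0 := fun h => hj (Fin.ext h)
    simp [this]
  · intro h
    exact absurd (Finset.mem_univ _) h

theorem el_inj (h1 : T_BAS.{u}) (ℓ : ℕ) (hℓ : 0 < ℓ) (f : K[X]) {A B : Fin ℓ → K[X]}
    (h : el ℓ f A = el ℓ f B) : A = B :=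
  (h1 K ℓ hℓ f (el ℓ f A)).unique rfl h

theorem of_inj (h1 : T_BAS.{u}) (ℓ : ℕ) (hℓ : 0 < ℓ) (f : K[X]) :
    Function.Injective (AdjoinRoot.of ((X : Polynomial (Polynomial K)) ^ ℓ - C f)) := by
  intro P Q h
  rw [of_eq_el ℓ hℓ, of_eq_el ℓ hℓ] at h
  have := congrFun (el_inj h1 ℓ hℓ f h) ⟨0, hℓ⟩
  simpa using this

theorem dvd_of (h1 : T_BAS.{u}) (ℓ : ℕ) (hℓ : 0 < ℓ) (f : K[X]) (P Q : K[X])
    (h : (AdjoinRoot.of ((X : Polynomial (Polynomial K)) ^ ℓ - C f) Q : Crd ℓ f) ∣
      AdjoinRoot.of _ P) : Q ∣ P := by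
  obtain ⟨g, hg⟩ := h
  obtain ⟨A, hA, -⟩ := h1 K ℓ hℓ f g
  rw [hA, of_mul_el, of_eq_el ℓ hℓ] at hg
  have := congrFun (el_inj h1 ℓ hℓ f hg) ⟨0, hℓ⟩
  simp only [if_true] at this
  exact ⟨_, this⟩

end concrete

end HIL_

open HIL_ in
theorem p_HIL (hDOM : T_DOM.{u}) (hBAS : T_BAS.{u}) (hSGE : T_SGE.{u}) : T_HIL.{u} := by
  intro K _ _ ℓ hℓ ζ hprim hζ f hf I I' M M' h hM hM' hh0 hI hh
  have hℓ0 : 0 < ℓ := hℓ.pos
  have : IsDomain (Crd ℓ f) := hDOM K ℓ hℓ f hf
  have : NeZero ℓ := ⟨hℓ.ne_zero⟩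
  set s := sg ℓ f ζ hζ with hs
  obtain ⟨hel, hbij⟩ := hSGE K ℓ hℓ0 f ζ hζ
  have ofinj := of_inj hBAS ℓ hℓ0 f
  have hsof : ∀ P : K[X], s (AdjoinRoot.of _ P) = AdjoinRoot.of _ P := by
    intro P
    rw [hs, sg, AdjoinRoot.lift_of]
  have hsroot : s (AdjoinRoot.root _) = AdjoinRoot.of _ (C ζ) * AdjoinRoot.root _ := by
    rw [hs, sg, AdjoinRoot.lift_root]
  -- order of s
  have hsn : s ^ ℓ = 1 := by
    refine RingHom.ext fun x => ?_
    obtain ⟨A, hA, -⟩ := hBAS K ℓ hℓ0 f x
    rw [RingHom.coe_pow, hA, hs, hel A ℓ]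
    have : tw ζ ℓ A = A := by
      ext1 j
      unfold tw
      rw [pow_mul, hζ, one_pow, C_1, one_mul]
    rw [this]
    rfl
  have hroot0 : (AdjoinRoot.root ((X : Polynomial (Polynomial K)) ^ ℓ - C f)) ≠ 0 := by
    intro h0
    have h1 := AdjoinRoot.eval₂_root ((X : Polynomial (Polynomial K)) ^ ℓ - C f)
    rw [eval₂_sub, eval₂_pow, eval₂_X, eval₂_C, h0, zero_pow hℓ.ne_zero, zero_sub,
      neg_eq_zero] at h1
    have h2 : f = 0 := ofinj (by rw [h1, map_zero])
    rw [h2, natDegree_zero] at hf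
    exact hf (dvd_zero _)
  have hpowroot : ∀ k, (s ^ k) (AdjoinRoot.root _) =
      AdjoinRoot.of _ (C (ζ ^ k)) * AdjoinRoot.root _ := by
    intro k
    induction k with
    | zero => simp
    | succ k ih =>
      rw [pow_succ', RingHom.coe_mul, Function.comp_apply, ih, map_mul, hsof, hsroot,
        pow_succ ζ k, C_mul, map_mul]
      ring
  have hdis : ∀ i j, i < ℓ → j < ℓ → s ^ i = s ^ j → i = j := by
    intro i j hi hj hij
    have h1 := DFunLike.congr_fun hij (AdjoinRoot.root _)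
    rw [hpowroot, hpowroot] at h1
    have h2 := ofinj (mul_right_cancel₀ hroot0 h1)
    exact hprim.pow_inj hi hj (C_injective h2)
  -- the norm of h
  have hspan := norm_span s ℓ hℓ0 hsn (AdjoinRoot.of _ M) (AdjoinRoot.of _ M') h (hsof M)
    (hsof M') (fun h0 => hM' (ofinj (by rw [h0, map_zero]))) I I' hI hh
  have hinv : s (∏ t ∈ Finset.range ℓ, (s ^ t) h) = ∏ t ∈ Finset.range ℓ, (s ^ t) h := by
    rw [map_prod]
    have : ∀ k, s ((s ^ k) h) = (s ^ (k + 1)) h := by
      intro k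
      rw [pow_succ', RingHom.coe_mul, Function.comp_apply]
    simp only [this]
    exact prod_shift' (fun k : ℕ => (s ^ k) h) ℓ hℓ0 (by simp only [hsn, pow_zero])
  obtain ⟨B, hB, -⟩ := hBAS K ℓ hℓ0 f (∏ t ∈ Finset.range ℓ, (s ^ t) h)
  have hB0 : ∀ j : Fin ℓ, (j : ℕ) ≠ 0 → B j = 0 := by
    intro j hj
    rw [hB] at hinv
    have h1 := hel B 1
    rw [Function.iterate_one, ← hs, hinv] at h1
    have h2 := congrFun (el_inj hBAS ℓ hℓ0 f h1) j
    unfold tw at h2
    rw [one_mul] at h2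
    have h3 : (C (ζ ^ (j : ℕ)) - 1) * B j = 0 := by
      rw [sub_mul, one_mul, ← h2, sub_self]
    rcases mul_eq_zero.1 h3 with h4 | h4
    · exfalso
      rw [← C_1, ← C_sub, C_eq_zero, sub_eq_zero] at h4
      exact hj (Nat.eq_zero_of_dvd_of_lt ((hprim.pow_eq_one_iff_dvd _).1 h4) j.2)
    · exact h4
  have hNof : ∏ t ∈ Finset.range ℓ, (s ^ t) h = AdjoinRoot.of _ (B ⟨0, hℓ0⟩) := by
    rw [hB, of_eq_el ℓ hℓ0]
    congr 1
    ext1 j
    by_cases hj : (j : ℕ) = 0
    · rw [if_pos hj]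
      congr 1
      exact Fin.ext hj
    · rw [if_neg hj, hB0 j hj]
  rw [hNof, ← map_pow, Ideal.span_singleton_eq_span_singleton] at hspan
  have hd1 : M ^ ℓ ∣ B ⟨0, hℓ0⟩ := dvd_of hBAS ℓ hℓ0 f _ _ hspan.dvd
  have hd2 : B ⟨0, hℓ0⟩ ∣ M ^ ℓ := dvd_of hBAS ℓ hℓ0 f _ _ hspan.symm.dvd
  obtain ⟨u, hu⟩ := associated_of_dvd_dvd hd1 hd2
  obtain ⟨c, hc, hcu⟩ := Polynomial.isUnit_iff.1 u.isUnit
  have hc0 : c ≠ 0 := hc.ne_zero
  obtain ⟨κ, hκ⟩ := IsAlgClosed.exists_pow_nat_eq c hℓ0
  have hκ0 : κ ≠ 0 := by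
    intro h0
    rw [h0, zero_pow hℓ.ne_zero] at hκ
    exact hc0 hκ.symm
  -- normalised h
  set κi : Crd ℓ f := AdjoinRoot.of _ (C κ⁻¹) with hκi
  have hunit : IsUnit κi := by
    rw [hκi]
    exact ((Polynomial.isUnit_C.2 (inv_ne_zero hκ0).isUnit).map _)
  have hspanh : Ideal.span {κi * h} = Ideal.span {h} := by
    rw [mul_comm]
    exact Ideal.span_singleton_mul_right_unit hunit h
  have hfixκ : ∀ t, (s ^ t) κi = κi := by
    intro t
    induction t with
    | zero => rfl
    | succ t ih => rw [pow_succ, RingHom.coe_mul, Function.comp_apply, hκi, hsof, ← hκi, ih]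
  have hN' : ∏ t ∈ Finset.range ℓ, (s ^ t) (κi * h) = (AdjoinRoot.of _ M) ^ ℓ := by
    simp only [map_mul, hfixκ]
    have e1 : (C κ⁻¹ : K[X]) ^ ℓ * (M ^ ℓ * C c) = M ^ ℓ := by
      rw [← C_pow, inv_pow, hκ, mul_comm (M ^ ℓ) (C c), ← mul_assoc, ← C_mul,
        inv_mul_cancel₀ hc0, C_1, one_mul]
    rw [Finset.prod_mul_distrib, Finset.prod_const, Finset.card_range, hNof, ← hu, ← hcu, hκi,
      ← map_pow, ← map_mul, e1, map_pow]
  exact hilb s ℓ hℓ0 hsn hbij.injective hdis (AdjoinRoot.of _ M) (κi * h) (hsof M)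
    (fun h0 => hM (ofinj (by rw [h0, map_zero]))) I hN' (by rw [hspanh]; exact hh)

end SRK
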