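import Mathlib
import Pool.Agent.SRK.Targets

/-!
IDF: derivatives of `f' f ^ i` in characteristic `ℓ`.
-/

namespace SRK

open Polynomial

universe u

namespace IDF_

variable {k : Type u} [Field k] {ℓ : ℕ} [hp : Fact ℓ.Prime] [CharP k ℓ]

lemma der_char (g : k[X]) : derivative^[ℓ] g = 0 := by
  rw [← factorial_smul_hasseDeriv, LinearMap.smul_apply]
  have h : ((ℓ.factorial : ℕ) : k[X]) = 0 := by
    rw [CharP.cast_eq_zero_iff k[X] ℓ]
    exact Nat.dvd_factorial hp.out.pos (le_refl _)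
  rw [nsmul_eq_mul, h, zero_mul]

lemma der_char' (g : k[X]) : derivative^[ℓ - 1] (derivative g) = 0 := by
  have h := der_char (ℓ := ℓ) g
  obtain ⟨m, hm⟩ : ∃ m, ℓ = m + 1 := ⟨ℓ - 1, by have := hp.out.pos; omega⟩
  rw [hm, Function.iterate_succ_apply] at h
  rw [hm, Nat.add_sub_cancel]
  exact h

omit hp in
lemma cast_ne {i : ℕ} (h0 : 0 < i) (h1 : i < ℓ) : (i : k) ≠ 0 := by
  intro h
  rw [CharP.cast_eq_zero_iff k ℓ] at h
  exact absurd (Nat.le_of_dvd h0 h) (by omega)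

lemma part1 (f : k[X]) (i : ℕ) (hi : i + 1 < ℓ) :
    derivative^[ℓ - 1] (derivative f * f ^ i) = 0 := by
  have h1 : derivative f * f ^ i = C (((i + 1 : ℕ) : k)⁻¹) * derivative (f ^ (i + 1)) := by
    rw [derivative_pow_succ, ← mul_assoc, ← mul_assoc]
    have h2 : C (((i + 1 : ℕ) : k)⁻¹) * C ((i : k) + 1) = 1 := by
      rw [← C_mul, Nat.cast_add, Nat.cast_one, inv_mul_cancel₀, C_1]
      exact_mod_cast cast_ne (k := k) (ℓ := ℓ) (Nat.succ_pos i) hi
    rw [h2, one_mul, mul_comm]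
  rw [h1, iterate_derivative_C_mul, der_char', mul_zero]

/-- adjacent binomial coefficients -/
lemma choose_adj {j : ℕ} (hj : j + 1 < ℓ) :
    (((ℓ - 1).choose (j + 1) : ℕ) : k) = -(((ℓ - 1).choose j : ℕ) : k) := by
  have h1 : (ℓ - 1).choose j + (ℓ - 1).choose (j + 1) = ℓ.choose (j + 1) := by
    have h2 := Nat.choose_succ_succ (ℓ - 1) j
    rw [Nat.succ_eq_add_one, Nat.sub_add_cancel hp.out.pos] at h2
    exact h2.symm
  have h3 : ((ℓ.choose (j + 1) : ℕ) : k) = 0 := by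
    rw [CharP.cast_eq_zero_iff k ℓ]
    exact hp.out.dvd_choose_self (by omega) hj
  rw [← h1, Nat.cast_add] at h3
  linear_combination h3

omit hp in
lemma cast_sub {j : ℕ} (hj : j + 1 < ℓ) : ((ℓ - 1 - j : ℕ) : k) = -((j : k) + 1) := by
  have h1 : (((ℓ - 1 - j) + (j + 1) : ℕ) : k) = 0 := by
    rw [CharP.cast_eq_zero_iff k ℓ]
    have : ℓ - 1 - j + (j + 1) = ℓ := by omega
    rw [this]
  push_cast at h1
  linear_combination h1

lemma key (f g : k[X]) :
    derivative (f + g) * (f + g) ^ (ℓ - 1) = derivative f * f ^ (ℓ - 1) +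
      derivative g * g ^ (ℓ - 1) + derivative (∑ j ∈ Finset.range (ℓ - 1),
        C ((((ℓ - 1).choose j : ℕ) : k) * ((j : k) + 1)⁻¹) * (f ^ (j + 1) * g ^ (ℓ - 1 - j))) := by
  have e1 : (f + g) ^ (ℓ - 1) = f ^ (ℓ - 1) + ∑ j ∈ Finset.range (ℓ - 1),
      C (((ℓ - 1).choose j : ℕ) : k) * (f ^ j * g ^ (ℓ - 1 - j)) := by
    rw [add_pow, Finset.sum_range_succ, Nat.sub_self, Nat.choose_self, pow_zero, Nat.cast_one,
      mul_one, mul_one, add_comm]
    congr 1
    refine Finset.sum_congr rfl fun j _ => ?_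
    rw [C_eq_natCast]
    ring
  have e2 : (f + g) ^ (ℓ - 1) = g ^ (ℓ - 1) + ∑ j ∈ Finset.range (ℓ - 1),
      C (((ℓ - 1).choose (j + 1) : ℕ) : k) * (f ^ (j + 1) * g ^ (ℓ - 1 - (j + 1))) := by
    rw [add_pow, Finset.sum_range_succ', Nat.sub_zero, Nat.choose_zero_right, pow_zero,
      Nat.cast_one, mul_one, one_mul, add_comm]
    congr 1
    refine Finset.sum_congr rfl fun j _ => ?_
    rw [C_eq_natCast]
    ring
  have e3 : derivative (∑ j ∈ Finset.range (ℓ - 1),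
      C ((((ℓ - 1).choose j : ℕ) : k) * ((j : k) + 1)⁻¹) * (f ^ (j + 1) * g ^ (ℓ - 1 - j))) =
      derivative f * (∑ j ∈ Finset.range (ℓ - 1),
        C (((ℓ - 1).choose j : ℕ) : k) * (f ^ j * g ^ (ℓ - 1 - j))) +
      derivative g * ∑ j ∈ Finset.range (ℓ - 1),
        C (((ℓ - 1).choose (j + 1) : ℕ) : k) * (f ^ (j + 1) * g ^ (ℓ - 1 - (j + 1))) := by
    rw [derivative_sum, Finset.mul_sum, Finset.mul_sum, ← Finset.sum_add_distrib]
    refine Finset.sum_congr rfl fun j hj => ?_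
    have hj1 : j + 1 < ℓ := by
      have := Finset.mem_range.1 hj
      omega
    have hj0 : (j : k) + 1 ≠ 0 := by exact_mod_cast cast_ne (k := k) (Nat.succ_pos j) hj1
    have c1 : C ((((ℓ - 1).choose j : ℕ) : k) * ((j : k) + 1)⁻¹) * C ((j : k) + 1) =
        C (((ℓ - 1).choose j : ℕ) : k) := by
      rw [← C_mul, mul_assoc, inv_mul_cancel₀ hj0, mul_one]
    have c2 : C (((ℓ - 1).choose (j + 1) : ℕ) : k) = -C (((ℓ - 1).choose j : ℕ) : k) := by
      rw [choose_adj hj1, C_neg]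
    have c3 : (C ((ℓ - 1 - j : ℕ) : k) : k[X]) = -C ((j : k) + 1) := by
      rw [cast_sub hj1, C_neg]
    have c4 : ℓ - 1 - j - 1 = ℓ - 1 - (j + 1) := by omega
    rw [derivative_C_mul, derivative_mul, derivative_pow_succ, derivative_pow, c2, c3, ← c1, c4]
    ring
  rw [e3, derivative_add, add_mul]
  nth_rw 1 [e1]
  rw [e2]
  ring

lemma add_T (f g : k[X]) : derivative^[ℓ - 1] (derivative (f + g) * (f + g) ^ (ℓ - 1)) =
    derivative^[ℓ - 1] (derivative f * f ^ (ℓ - 1)) +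
      derivative^[ℓ - 1] (derivative g * g ^ (ℓ - 1)) := by
  rw [key, iterate_map_add, iterate_map_add, der_char', add_zero]

lemma fact_eq : (((ℓ - 1).factorial : ℕ) : k) = -1 := by
  have h1 := ZMod.wilsons_lemma ℓ
  have h2 : (((ℓ - 1).factorial + 1 : ℕ) : ZMod ℓ) = 0 := by
    push_cast
    rw [h1]
    ring
  rw [ZMod.natCast_eq_zero_iff, ← CharP.cast_eq_zero_iff k ℓ] at h2
  push_cast at h2
  linear_combination h2

lemma desc_eq (n : ℕ) : (((n * ℓ + (ℓ - 1)).descFactorial (ℓ - 1) : ℕ) : k) = -1 := by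
  rw [← fact_eq (k := k) (ℓ := ℓ), ← Nat.descFactorial_self (ℓ - 1),
    Nat.descFactorial_eq_prod_range, Nat.descFactorial_eq_prod_range, Nat.cast_prod, Nat.cast_prod]
  refine Finset.prod_congr rfl fun i hi => ?_
  have hi1 := Finset.mem_range.1 hi
  have h1 : n * ℓ + (ℓ - 1) - i = n * ℓ + (ℓ - 1 - i) := by omega
  rw [h1, Nat.cast_add, Nat.cast_mul, CharP.cast_eq_zero k ℓ, mul_zero, zero_add]

lemma mono (n : ℕ) (a : k) :
    derivative^[ℓ - 1] (derivative (monomial n a) * (monomial n a) ^ (ℓ - 1)) =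
      -(derivative (monomial n a)) ^ ℓ := by
  have hpos := hp.out.pos
  rcases n with _ | n
  · have h1 : derivative (monomial 0 a) = 0 := by
      rw [monomial_zero_left, derivative_C]
    rw [h1, zero_mul, iterate_map_zero, zero_pow hpos.ne', neg_zero]
  · obtain ⟨m, hm⟩ : ∃ m, ℓ = m + 1 := ⟨ℓ - 1, by omega⟩
    have h0 : derivative (monomial (n + 1) a) = C (a * ((n + 1 : ℕ) : k)) * X ^ n := by
      rw [derivative_monomial, Nat.add_sub_cancel, ← C_mul_X_pow_eq_monomial]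
    have h1 : derivative (monomial (n + 1) a) * (monomial (n + 1) a) ^ (ℓ - 1) =
        C (a ^ ℓ * ((n + 1 : ℕ) : k)) * X ^ (n * ℓ + (ℓ - 1)) := by
      rw [h0, ← C_mul_X_pow_eq_monomial, mul_pow, ← C_pow, ← pow_mul, hm, Nat.add_sub_cancel,
        C_mul, C_mul, C_pow, C_pow]
      ring
    have h2 : (((n * ℓ + (ℓ - 1)).descFactorial (ℓ - 1) : ℕ) : k[X]) = -1 := by
      have h3 := congrArg (C : k → k[X]) (desc_eq (k := k) (ℓ := ℓ) n)
      rw [C_eq_natCast, C_neg, C_1] at h3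
      exact h3
    have h4 : (((n + 1 : ℕ) : k)) ^ ℓ = ((n + 1 : ℕ) : k) := by
      have h5 := map_natCast (frobenius k ℓ) (n + 1)
      rwa [frobenius_def] at h5
    rw [h1, iterate_derivative_C_mul, iterate_derivative_X_pow_eq_natCast_mul,
      Nat.add_sub_cancel, h2, h0, mul_pow, ← C_pow, mul_pow, h4, ← pow_mul]
    ring

end IDF_

open IDF_

theorem p_IDF : T_IDF.{u} := by
  intro k _ ℓ _ _ f
  refine ⟨fun i hi => part1 f i hi, ?_⟩
  induction f using Polynomial.induction_on' with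
  | add f g hf hg =>
    rw [add_T, hf, hg, derivative_add, add_pow_char]
    ring
  | monomial n a => exact mono n a

end SRK
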