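import Mathlib
import Pool.Agent.SRK.Targets
import Pool.Agent.RD.INF2

set_option autoImplicit false

/-!
SRK, target INFS: points with large parameters.
-/

namespace SRK

open MvPolynomial

universe u

open RD.INF_ RD.INF2_ in
theorem p_INFS (h1 : T_MAIL.{u}) : T_INFS.{u} := by
  intro K _ _ _ v ℓ _ O k _ _ r hC ζ hζ m hm hg d n μ D g hμD ρ b hb A F hA hF c p s
    hbase hbig hsq y hy e hrel
  classical
  have hna := hC.na
  have hO := hC.mem
  have hr := hC.res
  -- the largest coordinate
  obtain ⟨j1, hj1⟩ := hbig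
  obtain ⟨j0, -, hj0⟩ := Finset.exists_max_image Finset.univ (fun j => v (p j))
    ⟨j1, Finset.mem_univ j1⟩
  have hu1 : 1 < v (p j0) := lt_of_lt_of_le hj1 (hj0 j1 (Finset.mem_univ j1))
  set u : K := p j0 with hudef
  have hV0 : 0 < v u := by linarith
  have hu0 : u ≠ 0 := v.pos_iff.1 hV0
  have hple : ∀ j, v (p j) ≤ v u := fun j => hj0 j (Finset.mem_univ j)
  -- the integral coordinates
  have hsle : ∀ j, v (s j) ≤ v u := by
    intro j
    by_contra hlt
    push Not at hlt
    have hs0 : 0 < v (s j) := hV0.trans hlt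
    have h3 := hbase j
    have h4 : v (∑ l ∈ Finset.range (ρ j), eval p (map O.subtype (b j l)) * s j ^ l)
        < v (s j) ^ ρ j := by
      refine sum_lt hna _ _ _ (by positivity) fun l hl => ?_
      rw [Finset.mem_range] at hl
      rw [map_mul, map_pow]
      have h5 := eval_le2 hna hO (b j l) (ρ j - l) (hb j l hl) p (v u) hu1.le hple
      calc v (eval p (map O.subtype (b j l))) * v (s j) ^ l
          ≤ v u ^ (ρ j - l) * v (s j) ^ l := mul_le_mul_of_nonneg_right h5 (by positivity)
        _ < v (s j) ^ (ρ j - l) * v (s j) ^ l :=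
            mul_lt_mul_of_pos_right (pow_lt_pow_left₀ hlt hV0.le (by omega)) (by positivity)
        _ = v (s j) ^ ρ j := by rw [← pow_add, Nat.sub_add_cancel hl.le]
    have h6 : s j ^ ρ j = -∑ l ∈ Finset.range (ρ j), eval p (map O.subtype (b j l)) * s j ^ l :=
      eq_neg_of_add_eq_zero_left h3
    have h7 := congrArg v h6
    rw [v.map_neg, map_pow] at h7
    rw [← h7] at h4
    exact lt_irrefl _ h4
  have hp'O : ∀ j, p j / u ∈ O := by
    intro j
    rw [hO, map_div₀, div_le_one hV0]
    exact hple j
  have hs'O : ∀ j, s j / u ∈ O := by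
    intro j
    rw [hO, map_div₀, div_le_one hV0]
    exact hsle j
  set p' : Fin d → O := fun j => ⟨p j / u, hp'O j⟩ with hp'
  set s' : Fin n → O := fun j => ⟨s j / u, hs'O j⟩ with hs'
  have hpq : ∀ j, p j = u * (p' j : K) := fun j => by
    change p j = u * (p j / u)
    field_simp
  have hsq' : ∀ j, s j = u * (s' j : K) := fun j => by
    change s j = u * (s j / u)
    field_simp
  have hx : ∀ j, Sum.elim p s j = u * Sum.elim (fun j => (p' j : K)) (fun j => (s' j : K)) j := by
    rintro (j | j)
    · exact hpq j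
    · exact hsq' j
  have hxv : ∀ j, v (Sum.elim p s j) ≤ v u := by
    rintro (j | j)
    · exact hple j
    · exact hsle j
  have hxv' : ∀ j, v (Sum.elim (fun j => (p' j : K)) (fun j => (s' j : K)) j) ≤ 1 := by
    rintro (j | j)
    · exact (hO _).1 (p' j).2
    · exact (hO _).1 (s' j).2
  -- the abscissas
  set T : Fin g → O := fun i => absc0 D (fun i => homogeneousComponent D (F i)) c p' s' i with hT
  have hTK : ∀ i, (T i : K) = eval (Sum.elim (fun j => (p' j : K)) (fun j => (s' j : K)))
      (map O.subtype (homogeneousComponent D (F i))) + ∑ l : Fin d, (c (i, l.succ) : K) *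
        (p' l : K) ^ D := by
    intro i
    rw [elim_comp (fun x : O => (x : K)) p' s']
    have h3 := eval_red O.subtype (homogeneousComponent D (F i)) (Sum.elim p' s')
    change eval (fun j => ((Sum.elim p' s' j : O) : K)) _ = _ at h3
    rw [h3]
    change ((absc0 D (fun i => homogeneousComponent D (F i)) c p' s' i : O) : K) = _
    unfold absc0
    push_cast
    rfl
  have hlt1 : (v u)⁻¹ < 1 := inv_lt_one_of_one_lt₀ hu1
  have hXT : ∀ i, v (absc D (fun i => map O.subtype (F i)) (fun w => (c w : K)) p s i / u ^ D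
      - T i) < 1 := by
    intro i
    rw [hTK i]
    have h3 := eval_top hna hO (F i) D (hF i) _ _ u hu1 hx hxv'
    have h4 : absc D (fun i => map O.subtype (F i)) (fun w => (c w : K)) p s i / u ^ D
        - (eval (Sum.elim (fun j => (p' j : K)) (fun j => (s' j : K)))
        (map O.subtype (homogeneousComponent D (F i))) + ∑ l : Fin d, (c (i, l.succ) : K) *
        (p' l : K) ^ D)
        = (eval (Sum.elim p s) (map O.subtype (F i)) / u ^ D -
          eval (Sum.elim (fun j => (p' j : K)) (fun j => (s' j : K)))
            (map O.subtype (homogeneousComponent D (F i)))) + (c (i, 0) : K) / u ^ D := by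
      unfold absc
      have h5 : ∑ l : Fin d, (c (i, l.succ) : K) * p l ^ D
          = u ^ D * ∑ l : Fin d, (c (i, l.succ) : K) * (p' l : K) ^ D := by
        rw [Finset.mul_sum]
        refine Finset.sum_congr rfl fun l _ => ?_
        rw [hpq l, mul_pow]
        ring
      rw [h5]
      field_simp
      ring
    rw [h4]
    refine add_lt hna (h3.trans_lt hlt1) ?_
    rw [map_div₀, map_pow, div_lt_one (by positivity)]
    exact ((hO _).1 (c (i, 0)).2).trans_lt (one_lt_pow₀ hu1 (by omega))
  -- the abscissas divided by `u ^ D`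
  have hX'O : ∀ i, absc D (fun i => map O.subtype (F i)) (fun w => (c w : K)) p s i / u ^ D ∈ O := by
    intro i
    rw [hO]
    have h3 := hna (absc D (fun i => map O.subtype (F i)) (fun w => (c w : K)) p s i / u ^ D
      - T i) (T i : K)
    rw [sub_add_cancel] at h3
    exact h3.trans (max_le (hXT i).le ((hO _).1 (T i).2))
  set x' : Fin g → O := fun i =>
    ⟨absc D (fun i => map O.subtype (F i)) (fun w => (c w : K)) p s i / u ^ D, hX'O i⟩ with hx'
  have hrx : ∀ i, r (x' i) = r (T i) := by
    intro i
    rw [← sub_eq_zero, ← map_sub, hr]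
    exact hXT i
  obtain ⟨S, J, w, hbad⟩ := h1 K v ℓ O k r hC ζ hζ m hm hg
    (fun κ => eval (Sum.elim p s) (map O.subtype (A κ))) hsq g
    (absc D (fun i => map O.subtype (F i)) (fun u => (c u : K)) p s) y hy e hrel (u ^ D) x'
    (pow_ne_zero _ hu0) (by
      intro κ
      have h3 := eval_le2 hna hO (A κ) _ (hA κ) _ _ hu1.le hxv
      refine h3.trans_lt ?_
      rw [map_pow, ← pow_mul, mul_comm D]
      exact pow_lt_pow_right₀ hu1 (Nat.mul_lt_mul_of_pos_left hμD (Nat.succ_pos _))) (by
      intro i
      change _ = u ^ D * (absc D (fun i => map O.subtype (F i)) (fun w => (c w : K)) p s i / u ^ D)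
      rw [mul_div_cancel₀ _ (pow_ne_zero _ hu0)])
  -- the reduction
  have hred : ∀ i, absc0 D (fun i => homogeneousComponent D (map r (F i))) (fun w => r (c w))
      (fun j => r (p' j)) (fun j => r (s' j)) i = r (T i) := by
    intro i
    change _ = r (absc0 D (fun i => homogeneousComponent D (F i)) c p' s' i)
    unfold absc0
    rw [elim_comp r p' s', map_add, map_sum]
    simp only [homog_map, eval_red, map_mul, map_pow]
  have hfun : (fun i => r (x' i)) = absc0 D (fun i => homogeneousComponent D (map r (F i)))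
      (fun w => r (c w)) (fun j => r (p' j)) (fun j => r (s' j)) := by
    funext i
    rw [hred i, hrx i]
  rw [hfun] at hbad
  refine ⟨fun j => r (p' j), fun j => r (s' j), S, J, w, ?_, ⟨j0, ?_⟩, ?_, hbad⟩
  · intro j
    have h3 : r (s' j) ^ ρ j + ∑ l ∈ Finset.range (ρ j),
        eval (fun j => r (p' j)) (homogeneousComponent (ρ j - l) (map r (b j l))) * r (s' j) ^ l
        = r (s' j ^ ρ j + ∑ l ∈ Finset.range (ρ j),
          eval p' (homogeneousComponent (ρ j - l) (b j l)) * s' j ^ l) := by
      rw [map_add, map_pow, map_sum]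
      congr 1
      refine Finset.sum_congr rfl fun l _ => ?_
      rw [map_mul, map_pow, homog_map, eval_red]
    rw [h3, hr]
    have h4 : ((s' j ^ ρ j + ∑ l ∈ Finset.range (ρ j),
          eval p' (homogeneousComponent (ρ j - l) (b j l)) * s' j ^ l : O) : K)
        = (s' j : K) ^ ρ j + ∑ l ∈ Finset.range (ρ j),
          eval (fun j => (p' j : K)) (map O.subtype (homogeneousComponent (ρ j - l) (b j l))) *
            (s' j : K) ^ l := by
      push_cast
      congr 1
      refine Finset.sum_congr rfl fun l _ => ?_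
      rw [show (fun j => (p' j : K)) = fun j => O.subtype (p' j) from rfl, eval_red]
      rfl
    have h5 := hbase j
    have h6 : (s' j : K) ^ ρ j + ∑ l ∈ Finset.range (ρ j),
        eval p (map O.subtype (b j l)) / u ^ (ρ j - l) * (s' j : K) ^ l = 0 := by
      have h7 : u ^ ρ j * ((s' j : K) ^ ρ j + ∑ l ∈ Finset.range (ρ j),
          eval p (map O.subtype (b j l)) / u ^ (ρ j - l) * (s' j : K) ^ l) = 0 := by
        rw [← h5, mul_add, Finset.mul_sum, ← mul_pow, ← hsq' j]
        congr 1
        refine Finset.sum_congr rfl fun l hl => ?_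
        rw [Finset.mem_range] at hl
        have h8 : u ^ ρ j = u ^ (ρ j - l) * u ^ l := by
          rw [← pow_add, Nat.sub_add_cancel hl.le]
        have h10 : s j ^ l = u ^ l * (s' j : K) ^ l := by rw [← mul_pow, ← hsq' j]
        rw [h8, h10]
        change _ = eval p (map O.subtype (b j l)) * _
        field_simp
      exact (mul_eq_zero.1 h7).resolve_left (pow_ne_zero _ hu0)
    have h9 : (s' j : K) ^ ρ j + ∑ l ∈ Finset.range (ρ j),
          eval (fun j => (p' j : K)) (map O.subtype (homogeneousComponent (ρ j - l) (b j l))) *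
            (s' j : K) ^ l = -∑ l ∈ Finset.range (ρ j), (eval p (map O.subtype (b j l)) /
              u ^ (ρ j - l) - eval (fun j => (p' j : K))
                (map O.subtype (homogeneousComponent (ρ j - l) (b j l)))) * (s' j : K) ^ l := by
      have h10 := h6
      simp only [sub_mul, Finset.sum_sub_distrib]
      linear_combination h10
    rw [h4, h9, v.map_neg]
    refine sum_lt hna _ _ _ one_pos fun l hl => ?_
    rw [Finset.mem_range] at hl
    rw [map_mul, map_pow]
    have h11 := eval_top hna hO (b j l) (ρ j - l) (hb j l hl) p (fun j => (p' j : K)) u hu1 hpq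
      (fun j => (hO _).1 (p' j).2)
    calc _ ≤ (v u)⁻¹ * 1 := mul_le_mul h11 (pow_le_one₀ (v.nonneg _) ((hO _).1 (s' j).2))
          (by positivity) (by positivity)
      _ < 1 := by rw [mul_one]; exact hlt1
  · have : p' j0 = 1 := Subtype.ext (div_self hu0)
    change r (p' j0) = 1
    rw [this, map_one]
  · intro t ht
    change r (p' t) = 0
    rw [hr]
    change v (p t / u) < 1
    rw [map_div₀, div_lt_one hV0]
    exact ht.trans_lt hu1

end SRK
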