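import Mathlib
import Pool.Agent.SRK.Targets

/-!
# JQ: the ideals `Jq`
-/

namespace SRK

open Polynomial

universe u

namespace JQ_

variable {K : Type u} [Field K] {ℓ m : ℕ} (ω : Fin m → K) (n : Fin m → ℕ)

theorem root_pow (f : K[X]) :
    (AdjoinRoot.root ((X : Polynomial (Polynomial K)) ^ ℓ - C f)) ^ ℓ =
      AdjoinRoot.of ((X : Polynomial (Polynomial K)) ^ ℓ - C f) f := by
  have h := AdjoinRoot.eval₂_root ((X : Polynomial (Polynomial K)) ^ ℓ - C f)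
  rw [eval₂_sub, eval₂_pow, eval₂_X, eval₂_C] at h
  exact sub_eq_zero.mp h

theorem qq_dvd_qq {i j : ℕ} (h : i ≤ j) : qq ω n j ∣ qq ω n i := by
  unfold qq
  apply Finset.prod_dvd_prod_of_dvd
  intro w _
  by_cases h1 : j < n w
  · rw [if_pos h1, if_pos (lt_of_le_of_lt h h1)]
  · rw [if_neg h1]
    exact one_dvd _

theorem qq_dvd_ff (j : ℕ) : qq ω n j ∣ ff ω := by
  unfold qq ff
  apply Finset.prod_dvd_prod_of_dvd
  intro w _
  split_ifs
  · exact dvd_rfl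
  · exact one_dvd _

/-- the set of the elements with divisible coordinates -/
def St : Set (Crd ℓ (ff ω)) := {g | ∃ A : Fin ℓ → K[X], g = el ℓ (ff ω) A ∧ ∀ j : Fin ℓ, qq ω n j ∣ A j}

theorem el_add (f : K[X]) (A B : Fin ℓ → K[X]) : el ℓ f (A + B) = el ℓ f A + el ℓ f B := by
  unfold el
  rw [← Finset.sum_add_distrib]
  apply Finset.sum_congr rfl
  intro j _
  rw [Pi.add_apply, map_add, add_mul]

theorem el_smul (f a : K[X]) (A : Fin ℓ → K[X]) :
    el ℓ f (fun j => a * A j) = AdjoinRoot.of _ a * el ℓ f A := by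
  unfold el
  rw [Finset.mul_sum]
  apply Finset.sum_congr rfl
  intro j _
  rw [map_mul, mul_assoc]

theorem root_mul_el (hℓ : 0 < ℓ) (f : K[X]) (A : Fin ℓ → K[X]) :
    AdjoinRoot.root _ * el ℓ f A = el ℓ f (fun j => if _h : (j : ℕ) = 0 then
      f * A ⟨ℓ - 1, by omega⟩ else A ⟨(j : ℕ) - 1, by omega⟩) := by
  obtain ⟨k, rfl⟩ := Nat.exists_eq_succ_of_ne_zero hℓ.ne'
  unfold el
  rw [Finset.mul_sum, Fin.sum_univ_castSucc, Fin.sum_univ_succ, add_comm]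
  congr 1
  · dsimp only
    rw [dif_pos (by simp)]
    have h1 : (⟨k.succ - 1, by omega⟩ : Fin (k + 1)) = Fin.last k := by
      ext; simp
    rw [h1, map_mul]
    simp only [Fin.val_last, Fin.val_zero, pow_zero, mul_one]
    rw [← root_pow f]
    have h2 : ∀ {R : Type u} [CommRing R] (y a : R), y * (a * y ^ k) = y ^ (k + 1) * a := by
      intro R _ y a
      ring
    exact h2 _ _
  · apply Finset.sum_congr rfl
    intro j _
    dsimp only
    rw [dif_neg (by simp)]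
    have h1 : (⟨(j.succ : ℕ) - 1, by have := j.2; simp⟩ : Fin (k + 1)) = j.castSucc := by
      ext; simp
    rw [h1]
    simp only [Fin.val_castSucc, Fin.val_succ, pow_succ]
    ring

theorem root_mul_mem (hℓ : 0 < ℓ) {g : Crd ℓ (ff ω)} (hg : g ∈ St (ℓ := ℓ) ω n) :
    AdjoinRoot.root _ * g ∈ St (ℓ := ℓ) ω n := by
  obtain ⟨A, rfl, hA⟩ := hg
  rw [root_mul_el hℓ]
  refine ⟨_, rfl, fun j => ?_⟩
  split_ifs with h
  · exact (qq_dvd_ff ω n _).mul_right _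
  · refine dvd_trans (qq_dvd_qq ω n (Nat.sub_le (j : ℕ) 1)) ?_
    exact hA ⟨(j : ℕ) - 1, by omega⟩

theorem add_mem {g g' : Crd ℓ (ff ω)} (hg : g ∈ St (ℓ := ℓ) ω n) (hg' : g' ∈ St (ℓ := ℓ) ω n) :
    g + g' ∈ St (ℓ := ℓ) ω n := by
  obtain ⟨A, rfl, hA⟩ := hg
  obtain ⟨B, rfl, hB⟩ := hg'
  exact ⟨A + B, (el_add _ A B).symm, fun j => dvd_add (hA j) (hB j)⟩

theorem zero_mem : (0 : Crd ℓ (ff ω)) ∈ St (ℓ := ℓ) ω n :=
  ⟨0, by simp [el], fun j => by simp⟩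

theorem of_mul_mem (a : K[X]) {g : Crd ℓ (ff ω)} (hg : g ∈ St (ℓ := ℓ) ω n) :
    AdjoinRoot.of _ a * g ∈ St (ℓ := ℓ) ω n := by
  obtain ⟨A, rfl, hA⟩ := hg
  exact ⟨_, (el_smul _ a A).symm, fun j => (hA j).mul_left a⟩

theorem root_pow_mul_mem (hℓ : 0 < ℓ) (k : ℕ) {g : Crd ℓ (ff ω)} (hg : g ∈ St (ℓ := ℓ) ω n) :
    AdjoinRoot.root _ ^ k * g ∈ St (ℓ := ℓ) ω n := by
  induction k with
  | zero => simpa using hg
  | succ k ih =>
    rw [pow_succ', mul_assoc]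
    exact root_mul_mem ω n hℓ ih

theorem sum_mem' {ι : Type*} (s : Finset ι) (g : ι → Crd ℓ (ff ω))
    (hg : ∀ i ∈ s, g i ∈ St (ℓ := ℓ) ω n) : ∑ i ∈ s, g i ∈ St (ℓ := ℓ) ω n := by
  classical
  induction s using Finset.induction_on with
  | empty => rw [Finset.sum_empty]; exact zero_mem ω n
  | insert a s ha ih =>
    rw [Finset.sum_insert ha]
    exact add_mem ω n (hg a (Finset.mem_insert_self a s))
      (ih fun i hi => hg i (Finset.mem_insert_of_mem hi))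

theorem mul_mem' (h : T_BAS.{u}) (hℓ : 0 < ℓ) (r : Crd ℓ (ff ω)) {g : Crd ℓ (ff ω)}
    (hg : g ∈ St (ℓ := ℓ) ω n) : r * g ∈ St (ℓ := ℓ) ω n := by
  obtain ⟨B, hB, _⟩ := h K ℓ hℓ (ff ω) r
  rw [hB]
  unfold el
  rw [Finset.sum_mul]
  apply sum_mem'
  intro j _
  rw [mul_assoc]
  exact of_mul_mem ω n _ (root_pow_mul_mem ω n hℓ _ hg)

theorem gen_mem (j : Fin ℓ) :
    AdjoinRoot.of _ (qq ω n j) * AdjoinRoot.root _ ^ (j : ℕ) ∈ St (ℓ := ℓ) ω n := by
  refine ⟨Pi.single j (qq ω n j), ?_, ?_⟩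
  · unfold el
    rw [Finset.sum_eq_single j]
    · rw [Pi.single_eq_same]
    · intro i _ hi
      rw [Pi.single_eq_of_ne hi, map_zero, zero_mul]
    · intro hj
      exact absurd (Finset.mem_univ j) hj
  · intro i
    by_cases hi : i = j
    · rw [hi, Pi.single_eq_same]
    · rw [Pi.single_eq_of_ne hi]
      exact dvd_zero _

theorem jq_le (h : T_BAS.{u}) (hℓ : 0 < ℓ) {g : Crd ℓ (ff ω)} (hg : g ∈ Jq ℓ ω n) :
    g ∈ St (ℓ := ℓ) ω n := by
  unfold Jq at hg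
  refine Submodule.span_induction (p := fun g _ => g ∈ St (ℓ := ℓ) ω n) ?_ ?_ ?_ ?_ hg
  · rintro x ⟨j, rfl⟩
    exact gen_mem ω n j
  · exact zero_mem ω n
  · intro x y _ _ hx hy
    exact add_mem ω n hx hy
  · intro a x _ hx
    exact mul_mem' ω n h hℓ a hx

theorem part1 (h : T_BAS.{u}) (hℓ : 0 < ℓ) (A : Fin ℓ → K[X]) :
    el ℓ (ff ω) A ∈ Jq ℓ ω n ↔ ∀ j : Fin ℓ, qq ω n j ∣ A j := by
  constructor
  · intro hA
    obtain ⟨B, hB, hd⟩ := jq_le ω n h hℓ hA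
    obtain ⟨A', _, hA'⟩ := h K ℓ hℓ (ff ω) (el ℓ (ff ω) A)
    have e1 := hA' A rfl
    have e2 := hA' B hB
    rw [e1, ← e2]
    exact hd
  · intro hA
    unfold el
    apply Ideal.sum_mem
    intro j _
    obtain ⟨c, hc⟩ := hA j
    rw [hc, mul_comm (qq ω n j) c, map_mul, mul_assoc]
    exact Ideal.mul_mem_left _ _ (Ideal.subset_span ⟨j, rfl⟩)

/-- the products of `N` generators -/
def PS (ℓ : ℕ) (N : ℕ) : Set (Crd ℓ (ff ω)) :=
  {x | ∃ e : Fin N → Fin ℓ, x = AdjoinRoot.of _ (∏ t, qq ω n (e t)) *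
    AdjoinRoot.root _ ^ (∑ t, (e t : ℕ))}

theorem pow_le_PS (N : ℕ) : Jq ℓ ω n ^ N ≤ Ideal.span (PS ω n ℓ N) := by
  induction N with
  | zero =>
    rw [pow_zero, Ideal.one_eq_top, top_le_iff, Ideal.eq_top_iff_one]
    exact Ideal.subset_span ⟨Fin.elim0, by simp⟩
  | succ N ih =>
    rw [pow_succ]
    refine (Ideal.mul_mono_left ih).trans ?_
    unfold Jq
    rw [Ideal.span_mul_span']
    apply Ideal.span_mono
    rintro x ⟨a, ⟨e, rfl⟩, b, ⟨j, rfl⟩, rfl⟩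
    refine ⟨Fin.snoc e j, ?_⟩
    dsimp only
    rw [Fin.prod_univ_castSucc, Fin.sum_univ_castSucc]
    simp only [Fin.snoc_castSucc, Fin.snoc_last]
    rw [map_mul, pow_add]
    ring

theorem ineq (hℓ : 0 < ℓ) {N : ℕ} (hN : N < ℓ) (e : Fin ℓ → Fin ℓ) :
    N ≤ ∑ t, (if (e t : ℕ) < N then 1 else 0) + (∑ t, (e t : ℕ)) / ℓ := by
  set k := ∑ t, (if (e t : ℕ) < N then 1 else 0) with hk
  have h1 : (ℓ - k) * N ≤ ∑ t, (e t : ℕ) := by
    have h2 : ∑ t : Fin ℓ, (if (e t : ℕ) < N then 1 else 0) +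
        ∑ t : Fin ℓ, (if (e t : ℕ) < N then 0 else 1) = ℓ := by
      rw [← Finset.sum_add_distrib]
      have : ∀ t : Fin ℓ, (if (e t : ℕ) < N then 1 else 0) +
          (if (e t : ℕ) < N then 0 else 1) = 1 := by
        intro t; split_ifs <;> rfl
      rw [Finset.sum_congr rfl (fun t _ => this t)]
      simp
    have h3 : ℓ - k = ∑ t : Fin ℓ, (if (e t : ℕ) < N then 0 else 1) := by omega
    rw [h3, Finset.sum_mul]
    apply Finset.sum_le_sum
    intro t _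
    split_ifs with h
    · simp
    · rw [one_mul]; omega
  have hkl : k ≤ ℓ := by
    calc k ≤ ∑ _t : Fin ℓ, 1 := by
          apply Finset.sum_le_sum
          intro t _
          split_ifs <;> simp
      _ = ℓ := by simp
  have h4 : N - k ≤ (∑ t, (e t : ℕ)) / ℓ := by
    rw [Nat.le_div_iff_mul_le hℓ]
    refine le_trans ?_ h1
    obtain ⟨c, hc⟩ := Nat.exists_eq_add_of_le hkl
    rcases le_or_gt N k with h5 | h5
    · rw [Nat.sub_eq_zero_of_le h5]; simp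
    · obtain ⟨d, hd⟩ := Nat.exists_eq_add_of_lt h5
      have e1 : N - k = d + 1 := by omega
      have e2 : ℓ - k = c := by omega
      rw [e1, e2, hc, hd]
      have h6 : d + 1 < c := by omega
      nlinarith
  omega

theorem qt_dvd (hℓ : 0 < ℓ) (hn : ∀ w, n w < ℓ) (e : Fin ℓ → Fin ℓ) :
    qt ω n ∣ (∏ t, qq ω n (e t)) * ff ω ^ ((∑ t, (e t : ℕ)) / ℓ) := by
  unfold qt qq ff
  rw [Finset.prod_comm, ← Finset.prod_pow, ← Finset.prod_mul_distrib]
  apply Finset.prod_dvd_prod_of_dvd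
  intro w _
  have h1 : ∏ t : Fin ℓ, (if (e t : ℕ) < n w then X - C (ω w) else 1) =
      (X - C (ω w)) ^ (∑ t : Fin ℓ, (if (e t : ℕ) < n w then 1 else 0)) := by
    rw [← Finset.prod_pow_eq_pow_sum]
    apply Finset.prod_congr rfl
    intro t _
    split_ifs
    · rw [pow_one]
    · rw [pow_zero]
  rw [h1, ← pow_add]
  exact pow_dvd_pow _ (ineq hℓ (hn w) e)

theorem pow_le (hℓ : 0 < ℓ) (hn : ∀ w, n w < ℓ) :
    Jq ℓ ω n ^ ℓ ≤ Ideal.span {AdjoinRoot.of _ (qt ω n)} := by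
  refine (pow_le_PS ω n ℓ).trans ?_
  rw [Ideal.span_le]
  rintro x ⟨e, rfl⟩
  rw [SetLike.mem_coe, Ideal.mem_span_singleton]
  obtain ⟨c, hc⟩ := qt_dvd ω n hℓ hn e
  have h1 : (∑ t, (e t : ℕ)) = ℓ * ((∑ t, (e t : ℕ)) / ℓ) + (∑ t, (e t : ℕ)) % ℓ :=
    (Nat.div_add_mod _ _).symm
  rw [h1, pow_add, pow_mul, root_pow, ← map_pow, ← mul_assoc, ← map_mul, hc, map_mul,
    mul_assoc]
  exact Dvd.intro _ rfl

/-- the quotient of `q_i ^ ℓ f ^ i` by `q` -/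
noncomputable def rr (ℓ : ℕ) (i : ℕ) : K[X] :=
  ∏ w, (X - C (ω w)) ^ ((if i < n w then ℓ else 0) + i - n w)

theorem rr_mul (hn : ∀ w, n w < ℓ) (i : ℕ) : rr ω n ℓ i * qt ω n = qq ω n i ^ ℓ * ff ω ^ i := by
  unfold rr qt qq ff
  rw [← Finset.prod_pow, ← Finset.prod_pow, ← Finset.prod_mul_distrib, ← Finset.prod_mul_distrib]
  apply Finset.prod_congr rfl
  intro w _
  have := hn w
  by_cases h : i < n w
  · rw [if_pos h, if_pos h, ← pow_add, ← pow_add]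
    congr 1
    omega
  · rw [if_neg h, if_neg h, one_pow, one_mul, ← pow_add]
    congr 1
    omega

theorem span_rr (hℓ : 0 < ℓ) (hω : Function.Injective ω) (hn : ∀ w, n w < ℓ) :
    Ideal.span (Set.range fun i : Fin ℓ => rr ω n ℓ i) = ⊤ := by
  by_contra hne
  obtain ⟨M, hM, hle⟩ := Ideal.exists_le_maximal _ hne
  have hmem : ∀ i : ℕ, i < ℓ → rr ω n ℓ i ∈ M := fun i hi =>
    hle (Ideal.subset_span (Set.mem_range.mpr ⟨(⟨i, hi⟩ : Fin ℓ), rfl⟩))
  have hprime := hM.isPrime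
  have hex : ∀ i : ℕ, i < ℓ → ∃ w, X - C (ω w) ∈ M ∧ (if i < n w then ℓ else 0) + i - n w ≠ 0 := by
    intro i hi
    have h1 := hmem i hi
    unfold rr at h1
    rw [Ideal.IsPrime.prod_mem_iff] at h1
    obtain ⟨w, _, hw⟩ := h1
    refine ⟨w, hprime.mem_of_pow_mem _ hw, ?_⟩
    intro h0
    rw [h0, pow_zero] at hw
    exact hprime.ne_top ((Ideal.eq_top_iff_one M).mpr hw)
  obtain ⟨w0, hw0, h0⟩ := hex 0 hℓ
  obtain ⟨w1, hw1, h1⟩ := hex (n w0) (hn w0)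
  have hne : w1 ≠ w0 := by
    intro h
    rw [h, if_neg (lt_irrefl _)] at h1
    simp at h1
  have hd : C (ω w0 - ω w1) ∈ M := by
    have : C (ω w0 - ω w1) = (X - C (ω w1)) - (X - C (ω w0)) := by rw [C_sub]; ring
    rw [this]
    exact M.sub_mem hw1 hw0
  have hu : IsUnit (C (ω w0 - ω w1)) := by
    rw [isUnit_C, isUnit_iff_ne_zero]
    exact sub_ne_zero.mpr fun h => hne (hω h).symm
  exact hprime.ne_top (Ideal.eq_top_of_isUnit_mem M hd hu)

theorem le_pow (hℓ : 0 < ℓ) (hω : Function.Injective ω) (hn : ∀ w, n w < ℓ) :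
    Ideal.span {AdjoinRoot.of _ (qt ω n)} ≤ Jq ℓ ω n ^ ℓ := by
  rw [Ideal.span_singleton_le_iff_mem]
  have hkey : ∀ a ∈ Ideal.span (Set.range fun i : Fin ℓ => rr ω n ℓ i),
      AdjoinRoot.of ((X : Polynomial (Polynomial K)) ^ ℓ - C (ff ω)) (a * qt ω n) ∈
        Jq ℓ ω n ^ ℓ := by
    intro a ha
    refine Submodule.span_induction (p := fun a _ =>
      AdjoinRoot.of ((X : Polynomial (Polynomial K)) ^ ℓ - C (ff ω)) (a * qt ω n) ∈
        Jq ℓ ω n ^ ℓ) ?_ ?_ ?_ ?_ ha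
    · rintro x ⟨i, rfl⟩
      dsimp only
      rw [rr_mul ω n hn]
      have h1 : AdjoinRoot.of ((X : Polynomial (Polynomial K)) ^ ℓ - C (ff ω))
          (qq ω n (i : ℕ) ^ ℓ * ff ω ^ (i : ℕ)) =
          (AdjoinRoot.of _ (qq ω n i) * AdjoinRoot.root _ ^ (i : ℕ)) ^ ℓ := by
        rw [map_mul, map_pow, map_pow, ← root_pow, mul_pow, ← pow_mul, ← pow_mul, mul_comm ℓ]
      have h2 : AdjoinRoot.of ((X : Polynomial (Polynomial K)) ^ ℓ - C (ff ω)) (qq ω n i) *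
          AdjoinRoot.root _ ^ (i : ℕ) ∈ Jq ℓ ω n := Ideal.subset_span ⟨i, rfl⟩
      rw [h1]
      exact Ideal.pow_mem_pow h2 _
    · simp
    · intro x y _ _ hx hy
      rw [add_mul, map_add]
      exact Ideal.add_mem _ hx hy
    · intro b x _ hx
      rw [smul_eq_mul, mul_assoc, map_mul]
      exact Ideal.mul_mem_left _ _ hx
  have := hkey 1 (by rw [span_rr ω n hℓ hω hn]; exact Submodule.mem_top)
  rwa [one_mul] at this

theorem qq_last (hn : ∀ w, n w < ℓ) : qq ω n (ℓ - 1) = 1 := by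
  unfold qq
  apply Finset.prod_eq_one
  intro w _
  rw [if_neg]
  have := hn w
  omega

theorem shift_succ (hn : ∀ w, n w < ℓ) (j : ℕ) (hj : j + 1 < ℓ) :
    qq ω n j = (∏ w, if n w + 1 = ℓ then X - C (ω w) else 1) *
      qq ω (fun w => (n w + 1) % ℓ) (j + 1) := by
  unfold qq
  rw [← Finset.prod_mul_distrib]
  apply Finset.prod_congr rfl
  intro w _
  have h1 := hn w
  by_cases h : n w + 1 = ℓ
  · rw [if_pos h, if_pos (by omega), if_neg, mul_one]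
    dsimp only
    rw [h, Nat.mod_self]
    omega
  · have h3 : (n w + 1) % ℓ = n w + 1 := Nat.mod_eq_of_lt (by omega)
    rw [if_neg h, one_mul]
    by_cases h2 : j < n w
    · rw [if_pos h2, if_pos (by dsimp only; omega)]
    · rw [if_neg h2, if_neg (by dsimp only; omega)]

theorem shift_zero (hn : ∀ w, n w < ℓ) :
    ff ω = (∏ w, if n w + 1 = ℓ then X - C (ω w) else 1) *
      qq ω (fun w => (n w + 1) % ℓ) 0 := by
  unfold qq ff
  rw [← Finset.prod_mul_distrib]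
  apply Finset.prod_congr rfl
  intro w _
  have h1 := hn w
  by_cases h : n w + 1 = ℓ
  · rw [if_pos h, if_neg, mul_one]
    dsimp only
    rw [h, Nat.mod_self]
    omega
  · have h3 : (n w + 1) % ℓ = n w + 1 := Nat.mod_eq_of_lt (by omega)
    rw [if_neg h, one_mul, if_pos (by dsimp only; omega)]

theorem part3 (hℓ : 0 < ℓ) (hn : ∀ w, n w < ℓ) :
    Ideal.span {AdjoinRoot.root _} * Jq ℓ ω n =
      Ideal.span {AdjoinRoot.of _ (∏ w, if n w + 1 = ℓ then X - C (ω w) else 1)} *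
        Jq ℓ ω (fun w => (n w + 1) % ℓ) := by
  unfold Jq
  rw [Ideal.span_mul_span', Ideal.span_mul_span']
  congr 1
  ext x
  rw [Set.singleton_mul, Set.singleton_mul, Set.mem_image, Set.mem_image]
  constructor
  · rintro ⟨_, ⟨j, rfl⟩, rfl⟩
    by_cases hj : (j : ℕ) + 1 = ℓ
    · refine ⟨_, ⟨⟨0, hℓ⟩, rfl⟩, ?_⟩
      dsimp only
      have h1 : (j : ℕ) = ℓ - 1 := by omega
      rw [h1, qq_last ω n hn, map_one, one_mul, pow_zero, mul_one, ← map_mul, ← shift_zero ω n hn,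
        ← root_pow, ← pow_succ']
      congr 1
      omega
    · refine ⟨_, ⟨⟨(j : ℕ) + 1, by omega⟩, rfl⟩, ?_⟩
      dsimp only
      rw [← mul_assoc, ← map_mul, ← shift_succ ω n hn j (by omega), pow_succ]
      ring
  · rintro ⟨_, ⟨j, rfl⟩, rfl⟩
    by_cases hj : (j : ℕ) = 0
    · refine ⟨_, ⟨⟨ℓ - 1, by omega⟩, rfl⟩, ?_⟩
      dsimp only
      rw [hj, qq_last ω n hn, map_one, one_mul, pow_zero, mul_one, ← map_mul, ← shift_zero ω n hn,
        ← root_pow, ← pow_succ']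
      congr 1
      omega
    · refine ⟨_, ⟨⟨(j : ℕ) - 1, by omega⟩, rfl⟩, ?_⟩
      dsimp only
      obtain ⟨i, hi⟩ := Nat.exists_eq_succ_of_ne_zero hj
      rw [hi, Nat.succ_sub_one, Nat.succ_eq_add_one, ← mul_assoc (AdjoinRoot.of _ _), ← map_mul,
        ← shift_succ ω n hn i (by omega), pow_succ]
      ring

end JQ_

open JQ_ in
/-- JQ. -/
theorem p_JQ (h : T_BAS.{u}) : T_JQ.{u} := by
  intro K _ ℓ hℓ m ω hω n hn
  refine ⟨part1 ω n h hℓ.pos, le_antisymm (pow_le ω n hℓ.pos hn) (le_pow ω n hℓ.pos hω hn),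
    part3 ω n hℓ.pos hn, ?_⟩
  intro h0
  rw [Ideal.eq_top_iff_one]
  refine Ideal.subset_span ⟨⟨0, hℓ.pos⟩, ?_⟩
  dsimp only
  rw [pow_zero, mul_one]
  have : qq ω n 0 = 1 := by
    unfold qq
    apply Finset.prod_eq_one
    intro w _
    rw [h0 w, if_neg (lt_irrefl 0)]
  rw [this, map_one]

end SRK
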