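import Mathlib
import Pool.Agent.SRK.Targets

/-!
# SRK: LAD
-/

set_option autoImplicit false

namespace SRK

universe u

set_option linter.unusedSectionVars false

namespace LAD_

variable {K : Type u} [Field K] [CharZero K] (v : AbsoluteValue K ℝ) {ℓ : ℕ} {ζ : K}

lemma nat_le (hv : IsNonarchimedean v) (n : ℕ) : v (n : K) ≤ 1 := by
  induction n with
  | zero => simp
  | succ n ih =>
    push_cast
    refine (hv _ _).trans ?_
    rw [map_one]
    exact max_le ih le_rfl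

lemma int_le (hv : IsNonarchimedean v) (n : ℤ) : v (n : K) ≤ 1 := by
  rcases Int.eq_nat_or_neg n with ⟨m, rfl | rfl⟩
  · simpa using nat_le v hv m
  · push_cast
    rw [AbsoluteValue.map_neg]
    exact nat_le v hv m

lemma v_zeta [Fact ℓ.Prime] (hζ : IsPrimitiveRoot ζ ℓ) : v ζ = 1 := by
  have h1 : v ζ ^ ℓ = 1 := by rw [← map_pow, hζ.pow_eq_one, map_one]
  exact (pow_eq_one_iff_of_nonneg (v.nonneg _) (Fact.out : ℓ.Prime).ne_zero).1 h1

lemma mem_le [Fact ℓ.Prime] (hv : IsNonarchimedean v) (hζ : IsPrimitiveRoot ζ ℓ) {β : K}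
    (hβ : β ∈ Algebra.adjoin ℤ {ζ}) : v β ≤ 1 := by
  induction hβ using Algebra.adjoin_induction with
  | mem x hx =>
    rw [Set.mem_singleton_iff] at hx
    rw [hx, v_zeta v hζ]
  | algebraMap r => simpa using int_le v hv r
  | add x y _ _ hx hy => exact (hv _ _).trans (max_le hx hy)
  | mul x y _ _ hx hy =>
    rw [map_mul]
    exact mul_le_one₀ hx (v.nonneg _) hy

lemma zeta_mem : ζ ∈ Algebra.adjoin ℤ {ζ} := Algebra.subset_adjoin rfl

lemma nat_mem (n : ℕ) : (n : K) ∈ Algebra.adjoin ℤ {ζ} := by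
  exact natCast_mem _ n

lemma int_mem (n : ℤ) : (n : K) ∈ Algebra.adjoin ℤ {ζ} := by
  exact intCast_mem _ n

/-- `ℓ` is a multiple of `1 - ζ` -/
lemma ell_eq [Fact ℓ.Prime] (hζ : IsPrimitiveRoot ζ ℓ) :
    ∃ γ ∈ Algebra.adjoin ℤ {ζ}, (ℓ : K) = (1 - ζ) * γ := by
  refine ⟨∑ k ∈ Finset.range ℓ, ∑ j ∈ Finset.range k, ζ ^ j, ?_, ?_⟩
  · exact sum_mem fun k _ => sum_mem fun j _ => pow_mem zeta_mem _
  · have h1 : ∑ k ∈ Finset.range ℓ, ζ ^ k = 0 :=
      hζ.geom_sum_eq_zero (Fact.out : ℓ.Prime).one_lt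
    have h2 : (ℓ : K) = ∑ k ∈ Finset.range ℓ, (1 - ζ ^ k) := by
      rw [Finset.sum_sub_distrib, h1]
      simp
    rw [h2, Finset.mul_sum]
    refine Finset.sum_congr rfl fun k _ => ?_
    rw [mul_comm, geom_sum_mul_neg]

lemma v_one_sub [Fact ℓ.Prime] (hv : IsNonarchimedean v) (hl : v (ℓ : K) < 1)
    (hζ : IsPrimitiveRoot ζ ℓ) : v (1 - ζ) < 1 := by
  have hp : ℓ.Prime := Fact.out
  set z : Algebra.adjoin ℤ {ζ} := ⟨ζ, zeta_mem⟩ with hz
  obtain ⟨r, hr⟩ := exists_add_pow_prime_eq hp (1 : Algebra.adjoin ℤ {ζ}) (-z)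
  have hz1 : z ^ ℓ = 1 := Subtype.ext (by simpa [hz] using hζ.pow_eq_one)
  have h1 : ∃ s : Algebra.adjoin ℤ {ζ}, (1 + -z) ^ ℓ = ℓ * s := by
    rcases hp.eq_two_or_odd' with h2 | hodd
    · refine ⟨1 + -z * r, ?_⟩
      rw [hr, h2]
      rw [h2] at hz1
      rw [neg_pow, hz1]
      push_cast
      ring
    · refine ⟨-z * r, ?_⟩
      rw [hr, hodd.neg_pow, hz1]
      ring
  obtain ⟨s, hs⟩ := h1
  have h2 : (1 - ζ) ^ ℓ = (ℓ : K) * (s : K) := by
    have := congrArg (fun x : Algebra.adjoin ℤ {ζ} => (x : K)) hs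
    simpa [hz, sub_eq_add_neg] using this
  have h3 : v (1 - ζ) ^ ℓ < 1 := by
    rw [← map_pow, h2, map_mul]
    calc v (ℓ : K) * v (s : K) ≤ v (ℓ : K) * 1 :=
          mul_le_mul_of_nonneg_left (mem_le v hv hζ s.2) (v.nonneg _)
      _ < 1 := by rw [mul_one]; exact hl
  by_contra hcon
  push Not at hcon
  exact absurd (one_le_pow₀ hcon (n := ℓ)) (not_le.2 h3)

lemma dvd_int [Fact ℓ.Prime] (hv : IsNonarchimedean v) (hl : v (ℓ : K) < 1) (b : ℤ)
    (hb : v (b : K) < 1) : (ℓ : ℤ) ∣ b := by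
  have hp : ℓ.Prime := Fact.out
  by_contra hcon
  have hcop : IsCoprime (ℓ : ℤ) b :=
    (Prime.coprime_iff_not_dvd (Nat.prime_iff_prime_int.1 hp)).2 hcon
  obtain ⟨x, y, hxy⟩ := hcop
  have h1 : (x : K) * (ℓ : K) + (y : K) * (b : K) = 1 := by exact_mod_cast congrArg (Int.cast) hxy
  have h2 : v ((x : K) * (ℓ : K)) < 1 := by
    rw [map_mul]
    calc v (x : K) * v (ℓ : K) ≤ 1 * v (ℓ : K) :=
          mul_le_mul_of_nonneg_right (int_le v hv x) (v.nonneg _)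
      _ < 1 := by rw [one_mul]; exact hl
  have h3 : v ((y : K) * (b : K)) < 1 := by
    rw [map_mul]
    calc v (y : K) * v (b : K) ≤ 1 * v (b : K) :=
          mul_le_mul_of_nonneg_right (int_le v hv y) (v.nonneg _)
      _ < 1 := by rw [one_mul]; exact hb
  have h4 : v (1 : K) < 1 := by
    rw [← h1]
    exact (hv _ _).trans_lt (max_lt h2 h3)
  rw [map_one] at h4
  exact lt_irrefl _ h4

lemma int_add {β : K} (hβ : β ∈ Algebra.adjoin ℤ {ζ}) :
    ∃ (b : ℤ), ∃ γ ∈ Algebra.adjoin ℤ {ζ}, β = b + (1 - ζ) * γ := by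
  induction hβ using Algebra.adjoin_induction with
  | mem x hx =>
    rw [Set.mem_singleton_iff] at hx
    refine ⟨1, -1, neg_mem (one_mem _), ?_⟩
    rw [hx]
    push_cast
    ring
  | algebraMap r =>
    refine ⟨r, 0, zero_mem _, ?_⟩
    simp
  | add x y _ _ hx hy =>
    obtain ⟨a, γ, h1, rfl⟩ := hx
    obtain ⟨b, δ, h2, rfl⟩ := hy
    refine ⟨a + b, γ + δ, add_mem h1 h2, ?_⟩
    push_cast
    ring
  | mul x y _ _ hx hy =>
    obtain ⟨a, γ, h1, rfl⟩ := hx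
    obtain ⟨b, δ, h2, rfl⟩ := hy
    refine ⟨a * b, a * δ + b * γ + (1 - ζ) * γ * δ, ?_, ?_⟩
    · refine add_mem (add_mem (mul_mem (int_mem a) h2) (mul_mem (int_mem b) h1)) ?_
      exact mul_mem (mul_mem (sub_mem (one_mem _) zeta_mem) h1) h2
    · push_cast
      ring

lemma div_one_sub [Fact ℓ.Prime] (hv : IsNonarchimedean v) (hl : v (ℓ : K) < 1)
    (hζ : IsPrimitiveRoot ζ ℓ) {β : K} (hβ : β ∈ Algebra.adjoin ℤ {ζ}) (hb : v β < 1) :
    ∃ γ ∈ Algebra.adjoin ℤ {ζ}, β = (1 - ζ) * γ := by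
  obtain ⟨b, γ, hγ, rfl⟩ := int_add hβ
  have h1 : v ((1 - ζ) * γ) < 1 := by
    rw [map_mul]
    calc v (1 - ζ) * v γ ≤ v (1 - ζ) * 1 :=
          mul_le_mul_of_nonneg_left (mem_le v hv hζ hγ) (v.nonneg _)
      _ < 1 := by rw [mul_one]; exact v_one_sub v hv hl hζ
  have h2 : v (b : K) < 1 := by
    have h3 : (b : K) = ((b : K) + (1 - ζ) * γ) + -((1 - ζ) * γ) := by ring
    rw [h3]
    refine (hv _ _).trans_lt (max_lt hb ?_)
    rwa [AbsoluteValue.map_neg]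
  obtain ⟨c, rfl⟩ := dvd_int v hv hl b h2
  obtain ⟨δ, hδ, he⟩ := ell_eq hζ
  refine ⟨δ * c + γ, add_mem (mul_mem hδ (int_mem c)) hγ, ?_⟩
  push_cast
  rw [he]
  ring

lemma denom [Fact ℓ.Prime] (hζ : IsPrimitiveRoot ζ ℓ) {β : K}
    (hβ : β ∈ IntermediateField.adjoin ℚ {ζ}) :
    ∃ q : ℕ, q ≠ 0 ∧ (q : K) * β ∈ Algebra.adjoin ℤ {ζ} := by
  have hint : IsIntegral ℚ ζ := (hζ.isIntegral (Fact.out : ℓ.Prime).pos).tower_top
  have h1 : β ∈ Algebra.adjoin ℚ {ζ} := by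
    rw [← IntermediateField.adjoin_simple_toSubalgebra_of_isAlgebraic hint.isAlgebraic]
    exact hβ
  clear hβ
  induction h1 using Algebra.adjoin_induction with
  | mem x hx =>
    rw [Set.mem_singleton_iff] at hx
    refine ⟨1, one_ne_zero, ?_⟩
    rw [hx, Nat.cast_one, one_mul]
    exact zeta_mem
  | algebraMap r =>
    refine ⟨r.den, r.den_ne_zero, ?_⟩
    have h2 : (r.den : K) * (algebraMap ℚ K) r = ((r.num : ℤ) : K) := by
      rw [eq_ratCast]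
      have : (r.den : ℚ) * r = r.num := Rat.den_mul_eq_num r
      exact_mod_cast congrArg (fun x : ℚ => (x : K)) this
    rw [h2]
    exact int_mem _
  | add x y _ _ hx hy =>
    obtain ⟨a, ha, h2⟩ := hx
    obtain ⟨b, hb, h3⟩ := hy
    refine ⟨a * b, mul_ne_zero ha hb, ?_⟩
    have : ((a * b : ℕ) : K) * (x + y) = b * (a * x) + a * (b * y) := by push_cast; ring
    rw [this]
    exact add_mem (mul_mem (nat_mem b) h2) (mul_mem (nat_mem a) h3)
  | mul x y _ _ hx hy =>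
    obtain ⟨a, ha, h2⟩ := hx
    obtain ⟨b, hb, h3⟩ := hy
    refine ⟨a * b, mul_ne_zero ha hb, ?_⟩
    have : ((a * b : ℕ) : K) * (x * y) = (a * x) * (b * y) := by push_cast; ring
    rw [this]
    exact mul_mem h2 h3

lemma descent [Fact ℓ.Prime] (hv : IsNonarchimedean v) (hl : v (ℓ : K) < 1)
    (hζ : IsPrimitiveRoot ζ ℓ) {ι : Type} (τ : ι → K) (hτ : ∀ i, v (τ i) ≤ 1) :
    ∀ (k : ℕ) (q : K), q ∈ Algebra.adjoin ℤ {ζ} → (∀ i, q * τ i ∈ Algebra.adjoin ℤ {ζ}) →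
      v (1 - ζ) ^ k ≤ v q → ∃ γ ∈ Algebra.adjoin ℤ {ζ}, v γ = 1 ∧
        ∀ i, γ * τ i ∈ Algebra.adjoin ℤ {ζ} := by
  have h1ζ : (1 - ζ) ≠ 0 := sub_ne_zero.2 (hζ.ne_one (Fact.out : ℓ.Prime).one_lt).symm
  have hpos : 0 < v (1 - ζ) := v.pos h1ζ
  intro k
  induction k with
  | zero =>
    intro q hq hqτ hk
    rw [pow_zero] at hk
    exact ⟨q, hq, le_antisymm (mem_le v hv hζ hq) hk, hqτ⟩
  | succ k ih =>
    intro q hq hqτ hk
    by_cases h1 : v q = 1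
    · exact ⟨q, hq, h1, hqτ⟩
    have h2 : v q < 1 := lt_of_le_of_ne (mem_le v hv hζ hq) h1
    obtain ⟨q1, hq1, he⟩ := div_one_sub v hv hl hζ hq h2
    refine ih q1 hq1 (fun i => ?_) ?_
    · have h3 : v (q * τ i) < 1 := by
        rw [map_mul]
        calc v q * v (τ i) ≤ v q * 1 := mul_le_mul_of_nonneg_left (hτ i) (v.nonneg _)
          _ < 1 := by rw [mul_one]; exact h2
      obtain ⟨β, hβ, he2⟩ := div_one_sub v hv hl hζ (hqτ i) h3
      have h4 : q1 * τ i = β := by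
        apply mul_left_cancel₀ h1ζ
        rw [← he2, he]
        ring
      rw [h4]
      exact hβ
    · rw [he, map_mul, pow_succ] at hk
      have h5 : v (1 - ζ) * v (1 - ζ) ^ k ≤ v (1 - ζ) * v q1 := by rwa [mul_comm] at hk
      exact le_of_mul_le_mul_left h5 hpos

end LAD_

open LAD_ in
theorem p_LAD : T_LAD.{u} := by
  intro K _ _ v ℓ _ hv hl ζ hζ
  refine ⟨v_one_sub v hv hl hζ, fun β hβ hb => div_one_sub v hv hl hζ hβ hb,
    fun β hβ => denom hζ hβ, fun ι _ τ hτ hτ1 => ?_⟩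
  have hden : ∃ q : ℕ, q ≠ 0 ∧ ∀ i, (q : K) * τ i ∈ Algebra.adjoin ℤ {ζ} := by
    choose q hq0 hq using fun i => denom hζ (hτ i)
    have := Fintype.ofFinite ι
    classical
    refine ⟨∏ i, q i, Finset.prod_ne_zero_iff.2 fun i _ => hq0 i, fun i => ?_⟩
    rw [← Finset.mul_prod_erase Finset.univ q (Finset.mem_univ i)]
    have : ((q i * ∏ x ∈ Finset.univ.erase i, q x : ℕ) : K) * τ i =
        ((∏ x ∈ Finset.univ.erase i, q x : ℕ) : K) * ((q i : K) * τ i) := by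
      push_cast
      ring
    rw [this]
    exact mul_mem (nat_mem _) (hq i)
  obtain ⟨q, hq0, hq⟩ := hden
  have hqK : (q : K) ≠ 0 := Nat.cast_ne_zero.2 hq0
  obtain ⟨k, hk⟩ := exists_pow_lt_of_lt_one (v.pos hqK) (v_one_sub v hv hl hζ)
  exact descent v hv hl hζ τ hτ1 k q (nat_mem q) hq hk.le

end SRK
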