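import Mathlib
import Pool.Agent.SRK.Targets

/-!
SRK, LL: the local lemma (assembly).
-/

namespace SRK

open Polynomial

universe u

namespace LL_

/-- the shift of the second index -/
def sh (N ℓ : ℕ) [NeZero ℓ] : (Fin N → Fin ℓ → ℤ) →+ (Fin N → Fin ℓ → ℤ) where
  toFun a := fun i j => a i (j + 1)
  map_zero' := rfl
  map_add' _ _ := rfl

theorem sh_apply {N ℓ : ℕ} [NeZero ℓ] (a : Fin N → Fin ℓ → ℤ) (i : Fin N) (j : Fin ℓ) :
    sh N ℓ a i j = a i (j + 1) := rfl

open Fin.CommRing in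
theorem sh_iter {N ℓ : ℕ} [NeZero ℓ] (a : Fin N → Fin ℓ → ℤ) (t : ℕ) (i : Fin N) (j : Fin ℓ) :
    (sh N ℓ)^[t] a i j = a i (j + (t : Fin ℓ)) := by
  induction t generalizing j with
  | zero => simp
  | succ t ih =>
    rw [Function.iterate_succ_apply', sh_apply, ih]
    congr 1
    push_cast
    ring

open Fin.CommRing in
theorem sum_sh {N ℓ : ℕ} [NeZero ℓ] (a : Fin N → Fin ℓ → ℤ) (i : Fin N) (j : Fin ℓ) :
    (∑ t ∈ Finset.range ℓ, (sh N ℓ)^[t] a) i j = ∑ j', a i j' := by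
  rw [Finset.sum_apply, Finset.sum_apply]
  simp only [sh_iter]
  rw [← Fin.sum_univ_eq_sum_range (fun t => a i (j + (t : Fin ℓ))) ℓ]
  simp only [Fin.cast_val_eq_self]
  exact Fintype.sum_equiv (Equiv.addLeft j) _ _ fun t => rfl

/-- `DD α` as an integer vector -/
theorem DD_cast {N ℓ : ℕ} [NeZero ℓ] (α : Fin N → Fin ℓ → ℕ) (i : Fin N) (j : Fin ℓ) :
    ((DD α i j : ℕ) : ℤ) = (α i j : ℤ) - (α i (j + 1) : ℤ) + ∑ j', (α i j' : ℤ) := by
  unfold DD
  have h := Finset.add_sum_erase Finset.univ (fun j' => (α i j' : ℤ)) (Finset.mem_univ (j + 1))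
  push_cast
  linarith

theorem dv_smul {S : Type*} [CommRing S] (ℓ : ℕ) (f : S[X]) (ζ : S) {n : ℕ} (x y : Fin n → S)
    (α : Fin n → Fin ℓ → ℕ) (N : ℕ) :
    dv ℓ f ζ x y (fun i j => N * α i j) = dv ℓ f ζ x y α ^ N := by
  unfold dv
  rw [← Finset.prod_pow]
  apply Finset.prod_congr rfl
  intro i _
  rw [← Finset.prod_pow]
  apply Finset.prod_congr rfl
  intro j _
  rw [← pow_mul]
  exact congrArg _ (mul_comm _ _)

theorem ff_natDegree {K : Type*} [Field K] {m : ℕ} (ω : Fin m → K) : (ff ω).natDegree = m := by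
  unfold ff
  rw [natDegree_prod_of_monic _ _ fun w _ => monic_X_sub_C (ω w)]
  simp

theorem ff_squarefree {K : Type*} [Field K] {m : ℕ} (ω : Fin m → K) (hω : Function.Injective ω) :
    Squarefree (ff ω) := by
  unfold ff
  exact (separable_prod_X_sub_C_iff.mpr hω).squarefree

end LL_

open LL_

theorem p_LL (hSUB : T_SUB.{u}) (hTOR : T_TOR) (hCLB : T_CLB.{u}) (hCLA : T_CLA.{u})
    (hRED : T_RED.{u}) (hCL : T_CL.{u}) : T_LL.{u} := by
  intro K _ _ v ℓ hℓ O k _ _ r hC ζ hζ m ω hω hm hm2 N x y hy hx α hα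
  have hωK : Function.Injective (fun w => (ω w : K)) := fun a b h => hω (Subtype.ext h)
  have hsq := ff_squarefree (fun w => (ω w : K)) hωK
  have hdeg : ¬ ℓ ∣ (ff (fun w => (ω w : K))).natDegree := by
    rw [ff_natDegree]; exact hm
  obtain ⟨P, hP1, hP2, hP3⟩ := hSUB K ℓ ζ hζ (ff (fun w => (ω w : K))) hsq hdeg N
    (fun i => (x i : K)) y hy
  -- the torsion vector
  obtain ⟨N0, hN0, h0, hh0⟩ := hα
  have hNa : N0 • (fun i j => (α i j : ℤ)) ∈ P := by
    have h1 : (fun i j => (((fun i j => N0 * α i j) i j : ℕ) : ℤ)) ∈ P := by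
      rw [hP1]
      refine ⟨h0, ?_⟩
      rw [dv_smul, hh0]
    have e : N0 • (fun i j => (α i j : ℤ)) = fun (i : Fin N) (j : Fin ℓ) =>
        (((fun i j => N0 * α i j) i j : ℕ) : ℤ) := by
      funext i j
      simp
    rw [e]
    exact h1
  -- TOR
  have hcond3 : ∀ a : Fin N → Fin ℓ → ℤ, (a - sh N ℓ a) - sh N ℓ (a - sh N ℓ a) ∈ P →
      a - sh N ℓ a ∈ P := by
    intro a ha
    -- natural representative
    let c : Fin N → ℤ := fun i => ∑ j, |a i j|
    have hc : ∀ i j, 0 ≤ a i j + c i := by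
      intro i j
      have h1 : |a i j| ≤ c i :=
        Finset.single_le_sum (f := fun j => |a i j|) (fun j _ => abs_nonneg _) (Finset.mem_univ j)
      have h2 := neg_abs_le (a i j)
      linarith
    let β : Fin N → Fin ℓ → ℕ := fun i j => (a i j + c i).toNat
    have hβ : ∀ i j, ((β i j : ℕ) : ℤ) = a i j + c i := fun i j => Int.toNat_of_nonneg (hc i j)
    have e1 : (fun i j => ((DD β i j : ℕ) : ℤ))
        = (a - sh N ℓ a) + fun i _ => ∑ j', (β i j' : ℤ) := by
      funext i j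
      rw [DD_cast, Pi.add_apply, Pi.add_apply, Pi.sub_apply, Pi.sub_apply, sh_apply, hβ, hβ]
      ring
    have e2 : (fun i j => ((DD (DD β) i j : ℕ) : ℤ))
        = ((a - sh N ℓ a) - sh N ℓ (a - sh N ℓ a)) + fun i _ => ∑ j', ((DD β i j' : ℕ) : ℤ) := by
      funext i j
      have h1 := congrFun (congrFun e1 i) j
      have h2 := congrFun (congrFun e1 i) (j + 1)
      simp only [Pi.add_apply] at h1 h2
      rw [DD_cast, h1, h2, Pi.add_apply, Pi.add_apply, Pi.sub_apply (a - sh N ℓ a),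
        Pi.sub_apply ((a - sh N ℓ a) i), sh_apply (a - sh N ℓ a)]
      ring
    have h1 : (fun i j => ((DD (DD β) i j : ℕ) : ℤ)) ∈ P := by
      rw [e2]
      exact P.add_mem ha (hP3 _)
    rw [hP1] at h1
    have h2 := hCLB K v ℓ O k r hC ζ hζ m ω hω hm N x y hy hx β h1
    rw [← hP1, e1] at h2
    have h3 := P.sub_mem h2 (hP3 fun i => ∑ j', (β i j' : ℤ))
    rwa [add_sub_cancel_right] at h3
  obtain ⟨N', hN', hN'P⟩ := hTOR (Fin N → Fin ℓ → ℤ) ℓ hℓ.out (sh N ℓ) P
    (fun a ha => hP2 a ha)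
    (by
      intro a
      have e : (∑ t ∈ Finset.range ℓ, (sh N ℓ)^[t] a) = fun i _ => ∑ j', a i j' := by
        funext i j
        exact sum_sh a i j
      rw [e]
      exact hP3 _)
    hcond3 (fun i j => (α i j : ℤ)) N0 hN0 hNa
  -- the multiple
  have hDD : Pr (dv ℓ (ff (fun w => (ω w : K))) ζ (fun i => (x i : K)) y
      (DD fun i j => N' * α i j)) := by
    rw [← hP1]
    have e : (fun i j => ((DD (fun i j => N' * α i j) i j : ℕ) : ℤ))
        = N' • ((fun i j => (α i j : ℤ)) - sh N ℓ (fun i j => (α i j : ℤ)))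
          + fun i _ => ∑ j', ((N' * α i j' : ℕ) : ℤ) := by
      funext i j
      rw [DD_cast]
      simp only [Pi.add_apply, Pi.smul_apply, Pi.sub_apply, sh_apply]
      simp only [nsmul_eq_mul]
      push_cast
      ring
    rw [e]
    exact P.add_mem hN'P (hP3 _)
  obtain ⟨n, hn, hPr⟩ := hCLA K ℓ ζ hζ m (fun w => (ω w : K)) hωK hm N (fun i => (x i : K)) y hy
    (fun i j => N' * α i j) hDD
  obtain ⟨A, c, hc, hAc⟩ := hRED K v ℓ O k r hC ζ hζ m ω hω hm N x y hy
    (fun i j => N' * α i j) n hn hPr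
  have hfin := hCL k ℓ m N (fun w => r (ω w)) n A c (fun i => r (x i))
    (fun i => ∑ j, N' * α i j) hm hm2 hn hc hx hAc
  have hN'k : (N' : k) ≠ 0 := by
    intro h
    exact hN' ((CharP.cast_eq_zero_iff k ℓ N').mp h)
  have h2 : (N' : k) * ∑ i, ((∑ j, α i j : ℕ) : k) * Lam ℓ (ff (fun w => r (ω w))) (r (x i)) = 0 := by
    rw [← hfin, Finset.mul_sum]
    apply Finset.sum_congr rfl
    intro i _
    rw [← Finset.mul_sum]
    push_cast
    ring
  exact (mul_eq_zero.mp h2).resolve_left hN'k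

end SRK
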