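import Mathlib
import Pool.Agent.SRK.Targets
import Pool.Agent.RD.PIV
import Pool.Agent.RD.DIM

/-!
LOCS: many independent relations give a pivot system over the residue field.
-/

namespace SRK

open Polynomial

universe u

namespace LOCS_

theorem ff_natDegree {K : Type*} [Field K] {m : ℕ} (ω : Fin m → K) : (ff ω).natDegree = m := by
  unfold ff
  rw [Polynomial.natDegree_prod_of_monic _ _ (fun i _ => monic_X_sub_C _)]
  simp

theorem ff_squarefree {K : Type*} [Field K] {m : ℕ} (ω : Fin m → K)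
    (hω : Function.Injective ω) : Squarefree (ff ω) := by
  unfold ff
  exact (Polynomial.separable_prod_X_sub_C_iff.2 hω).squarefree

/-- a finite sum of multiples of relations is a relation -/
theorem TR_sum {K : Type u} [Field K] (ℓ : ℕ) (f : K[X]) (ζ : K) {n : ℕ} (x y : Fin n → K)
    (hadd : ∀ β β' : Fin n → K, TR ℓ f ζ x y β → TR ℓ f ζ x y β' → TR ℓ f ζ x y (β + β'))
    {ι : Type*} (s : Finset ι) (β : ι → Fin n → K) (h : ∀ i ∈ s, TR ℓ f ζ x y (β i)) :
    TR ℓ f ζ x y (∑ i ∈ s, β i) := by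
  classical
  induction s using Finset.induction_on with
  | empty =>
    refine ⟨fun _ _ => 0, by simp, 1, one_pos, 1, ?_⟩
    simp [dv, Ideal.one_eq_top]
  | insert a s ha ih =>
    rw [Finset.sum_insert ha]
    exact hadd _ _ (h a (Finset.mem_insert_self _ _))
      (ih fun i hi => h i (Finset.mem_insert_of_mem hi))

/-- change of the index set -/
theorem dv_reindex {K : Type u} [Field K] (ℓ : ℕ) (f : K[X]) (ζ : K) {n n' : ℕ}
    (x y : Fin n → K) (α : Fin n → Fin ℓ → ℕ) (S : Finset (Fin n)) (hS : ∀ i ∈ S, α i = 0)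
    (σ : Fin n' ≃ {i : Fin n // i ∉ S}) :
    dv ℓ f ζ (fun i => x (σ i)) (fun i => y (σ i)) (fun i => α (σ i)) = dv ℓ f ζ x y α := by
  unfold dv
  rw [← Finset.prod_subset (Finset.subset_univ Sᶜ) (f := fun i => ∏ j : Fin ℓ,
    pt ℓ f (x i) (ζ ^ (j : ℕ) * y i) ^ α i j)]
  · rw [← Equiv.prod_comp σ.symm]
    simp only [Equiv.apply_symm_apply]
    rw [← Finset.prod_subtype (Sᶜ) (by simp) (fun i => ∏ j : Fin ℓ,
      pt ℓ f (x i) (ζ ^ (j : ℕ) * y i) ^ α i j)]
  · intro i _ hi
    have hi' : i ∈ S := by simpa using hi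
    rw [hS i hi']
    simp

end LOCS_

open LOCS_ in
theorem p_LOCS (h1 : T_LL.{u}) (h2 : T_MOD.{u}) (h3 : T_LAD.{u}) : T_LOCS.{u} := by
  classical
  intro K _ _ _ v ℓ hℓ O k _ _ r hctx ζ hζ m ω hω hm hm2 N x y hy e hrel
  obtain ⟨α, hind, htor⟩ := hrel
  have hωK : Function.Injective (fun w => (ω w : K)) := by
    intro a b hab
    exact hω (Subtype.ext hab)
  have hsq := ff_squarefree (fun w => (ω w : K)) hωK
  have hdeg : ¬ ℓ ∣ (ff (fun w => (ω w : K))).natDegree := by rwa [ff_natDegree]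
  obtain ⟨hadd, hsmul, hsat, hrep⟩ := h2 K ℓ ζ hζ _ hsq hdeg N (fun i => (x i : K)) y hy
  obtain ⟨hv1, hdvd, hden, hcom⟩ := h3 K v ℓ hctx.na hctx.lt ζ hζ
  set f := ff (fun w => (ω w : K)) with hf
  set A := Algebra.adjoin ℤ {ζ} with hA
  set F := IntermediateField.adjoin ℚ {ζ} with hF
  have hζF : ζ ∈ F := IntermediateField.mem_adjoin_simple_self ℚ ζ
  have hAF : ∀ β ∈ A, β ∈ F := by
    intro β hβ
    have : A ≤ (F.toSubalgebra.restrictScalars ℤ) := by
      apply Algebra.adjoin_le
      intro z hz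
      rw [Set.mem_singleton_iff.1 hz]
      exact hζF
    exact this hβ
  have hζA : ζ ∈ A := Algebra.subset_adjoin (Set.mem_singleton ζ)
  have hsumA : ∀ a : Fin ℓ → ℕ, ∑ j : Fin ℓ, (a j : K) * ζ ^ (j : ℕ) ∈ A := by
    intro a
    refine sum_mem fun j _ => mul_mem (natCast_mem A _) (pow_mem hζA _)
  let row : Fin e → (Fin N → F) := fun k i => ⟨∑ j : Fin ℓ, (α k i j : K) * ζ ^ (j : ℕ),
    hAF _ (hsumA _)⟩
  let g : (Fin N → F) →ₗ[F] (Fin N → K) :=
    LinearMap.pi fun i => (Algebra.linearMap F K).comp (LinearMap.proj i)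
  have hindF : LinearIndependent F row := by
    have hK : LinearIndependent F
        (fun (k : Fin e) (i : Fin N) => ∑ j : Fin ℓ, (α k i j : K) * ζ ^ (j : ℕ)) :=
      hind.restrict_scalars (by
        intro x y hxy
        have : ((x : F) : K) * 1 = ((y : F) : K) * 1 := by
          simpa [Algebra.smul_def] using hxy
        exact Subtype.ext (by simpa using this))
    have hcomp : (fun (k : Fin e) (i : Fin N) => ∑ j : Fin ℓ, (α k i j : K) * ζ ^ (j : ℕ)) =
        g ∘ row := by
      funext k i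
      simp only [Function.comp, g, LinearMap.pi_apply, LinearMap.comp_apply, LinearMap.proj_apply,
        Algebra.linearMap_apply]
      rfl
    rw [hcomp] at hK
    exact LinearIndependent.of_comp g hK
  let U : Submodule F (Fin N → F) := Submodule.span F (Set.range row)
  have hU : Module.finrank F U = e := by
    simpa using finrank_span_eq_card hindF
  set S : Finset (Fin N) := Finset.univ.filter
    (fun i => (derivative (ff (fun w => r (ω w)))).eval (r (x i)) = 0) with hS
  let UD : Submodule F (Fin N → F) :=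
    U ⊓ (⨅ i ∈ S, LinearMap.ker (LinearMap.proj i : (Fin N → F) →ₗ[F] F))
  have hdim : Module.finrank F U ≤ Module.finrank F UD + S.card := RD.p_DIM F N U S
  obtain ⟨J, τ, hJ, hτ⟩ := RD.p_PIV F (fun x => v (x : K)) (by simp)
    (by
      intro x hx
      exact v.pos (by simpa using hx))
    (by intro x y; simp) (by intro x y; simpa using hctx.na (x : K) (y : K)) N UD
  have hzero : ∀ j ∈ J, ∀ i ∈ S, τ j i = 0 := by
    intro j hj i hi
    have h := (hτ j hj).1.2
    simp only [Submodule.mem_iInf, LinearMap.mem_ker, LinearMap.proj_apply, SetLike.mem_coe] at h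
    exact h i hi
  have hdisj : Disjoint J S := by
    rw [Finset.disjoint_left]
    intro j hj hjD
    have e1 := hzero j hj j hjD
    rw [(hτ j hj).2.1] at e1
    exact one_ne_zero e1
  -- residue of ζ
  have hvζ : v ζ = 1 := by
    have h5 : v ζ ^ ℓ = 1 := by rw [← map_pow, hζ.pow_eq_one, map_one]
    exact (pow_eq_one_iff_of_nonneg (v.nonneg _) hℓ.out.ne_zero).1 h5
  have hζO : ζ ∈ O := (hctx.mem ζ).2 hvζ.le
  have hrζ : r ⟨ζ, hζO⟩ = 1 := by
    have h5 : r (1 - ⟨ζ, hζO⟩) = 0 := by
      rw [hctx.res]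
      simpa using hv1
    rw [map_sub, map_one, sub_eq_zero] at h5
    exact h5.symm
  -- the relations
  have key : ∀ j ∈ J, ∃ ε : Fin N → ℕ, (ε j : k) ≠ 0 ∧ (∀ j' ∈ J, j' ≠ j → (ε j' : k) = 0) ∧
      ∑ i ∈ Sᶜ, (ε i : k) * Lam ℓ (ff (fun w => r (ω w))) (r (x i)) = 0 := by
    intro j hj
    have hmem : τ j ∈ U := (hτ j hj).1.1
    obtain ⟨φ, hφ⟩ := (Submodule.mem_span_range_iff_exists_fun F).1 hmem
    have hφd := fun k : Fin e => hden (φ k : K) (φ k).2
    choose q hq0 hqA using hφd
    set Q : ℕ := ∏ k, q k with hQ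
    have hQ0 : Q ≠ 0 := Finset.prod_ne_zero_iff.2 fun k _ => hq0 k
    have hQK : (Q : K) ≠ 0 := by exact_mod_cast hQ0
    have hQφ : ∀ k, (Q : K) * (φ k : K) ∈ A := by
      intro k
      have h6 : Q = (∏ l ∈ Finset.univ.erase k, q l) * q k :=
        (Finset.prod_erase_mul _ _ (Finset.mem_univ k)).symm
      rw [h6, Nat.cast_mul, mul_assoc]
      exact mul_mem (natCast_mem A _) (hqA k)
    obtain ⟨γ, hγA, hvγ, hγτ⟩ := hcom (Fin N) (fun i => (τ j i : K)) (fun i => (τ j i).2)
      (fun i => (hτ j hj).2.2.2 i)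
    have hTR1 : TR ℓ f ζ (fun i => (x i : K)) y
        (∑ k : Fin e, ((Q : K) * (φ k : K)) • fun i => ∑ j : Fin ℓ, (α k i j : K) * ζ ^ (j : ℕ)) := by
      apply TR_sum ℓ f ζ _ _ hadd
      intro k _
      exact hsmul _ (hQφ k) _ ⟨α k, fun i => rfl, htor k⟩
    have hTR2 : TR ℓ f ζ (fun i => (x i : K)) y ((Q : K) • fun i => γ * (τ j i : K)) := by
      have h7 := hsmul γ hγA _ hTR1
      convert h7 using 1
      funext i
      have h8 : (τ j i : K) = ∑ k, (φ k : K) * ∑ j : Fin ℓ, (α k i j : K) * ζ ^ (j : ℕ) := by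
        rw [← hφ]
        simp only [Finset.sum_apply, Pi.smul_apply, smul_eq_mul]
        push_cast
        rfl
      simp only [Pi.smul_apply, Finset.sum_apply, smul_eq_mul]
      rw [h8, Finset.mul_sum, Finset.mul_sum, Finset.mul_sum]
      refine Finset.sum_congr rfl fun k _ => ?_
      ring
    have hTR3 : TR ℓ f ζ (fun i => (x i : K)) y (fun i => γ * (τ j i : K)) :=
      hsat _ (natCast_mem A Q) hQK _ hγτ hTR2
    obtain ⟨a, ha, hator⟩ := hTR3
    set a' : Fin N → Fin ℓ → ℕ := fun i => if i ∈ S then 0 else a i with ha'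
    have hrepa : ∀ i, γ * (τ j i : K) = ∑ j : Fin ℓ, (a' i j : K) * ζ ^ (j : ℕ) := by
      intro i
      by_cases hi : i ∈ S
      · rw [hzero j hj i hi]
        simp [ha', hi]
      · refine (ha i).trans ?_
        simp [ha', hi]
    have htor' : Tors ℓ f ζ (fun i => (x i : K)) y a' := by
      apply hrep a'
      have h9 : (fun i => ∑ j : Fin ℓ, (a' i j : K) * ζ ^ (j : ℕ)) = fun i => γ * (τ j i : K) := by
        funext i
        exact (hrepa i).symm
      rw [h9]
      exact ⟨a, ha, hator⟩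
    -- reindex
    have σ : Fin (Fintype.card {i : Fin N // i ∉ S}) ≃ {i : Fin N // i ∉ S} :=
      (Fintype.equivFin _).symm
    have hll := h1 K v ℓ O k r hctx ζ hζ m ω hω hm hm2 _ (fun i => x (σ i)) (fun i => y (σ i))
      (fun i => hy (σ i)) (by
        intro i
        have := (σ i).2
        simpa [hS] using this) (fun i => a' (σ i)) (by
        obtain ⟨M, hM, h, hh⟩ := htor'
        refine ⟨M, hM, h, ?_⟩
        rw [← hh]
        congr 1
        exact dv_reindex ℓ f ζ (fun i => (x i : K)) y a' S (by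
          intro i hi
          simp [ha', hi]) σ)
    have hε : ∀ i, ((∑ j, a' i j : ℕ) : k) = r ⟨γ * (τ j i : K), by
        rw [hctx.mem, map_mul, hvγ, one_mul]
        exact (hτ j hj).2.2.2 i⟩ := by
      intro i
      have h10 : (⟨γ * (τ j i : K), by
        rw [hctx.mem, map_mul, hvγ, one_mul]
        exact (hτ j hj).2.2.2 i⟩ : O) = ∑ j : Fin ℓ, (a' i j : O) * ⟨ζ, hζO⟩ ^ (j : ℕ) := by
        apply Subtype.ext
        refine (hrepa i).trans ?_
        push_cast
        rfl
      rw [h10, map_sum]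
      push_cast
      refine Finset.sum_congr rfl fun j _ => ?_
      rw [map_mul, map_pow, hrζ, one_pow, mul_one, map_natCast]
    refine ⟨fun i => ∑ j, a' i j, ?_, ?_, ?_⟩
    · rw [hε j, Ne, hctx.res]
      have : (τ j j : K) = 1 := by rw [(hτ j hj).2.1]; rfl
      simp only [this, mul_one, hvγ]
      exact lt_irrefl _
    · intro j' hj' hne
      rw [hε j', hctx.res]
      have : (τ j j' : K) = 0 := by rw [(hτ j hj).2.2.1 j' hj' hne]; rfl
      simp [this]
    · rw [← hll, ← Equiv.sum_comp σ.symm]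
      simp only [Equiv.apply_symm_apply]
      rw [← Finset.sum_subtype (Sᶜ) (by simp) (fun i => ((∑ j, a' i j : ℕ) : k) *
        Lam ℓ (ff (fun w => r (ω w))) (r (x i)))]
  choose! ε hε1 hε2 hε3 using key
  refine ⟨S, J, fun j i => - (ε j i : k) / (ε j j : k), hdisj, ?_, ?_, ?_, ?_, ?_⟩
  · rw [hJ, ← hU]; exact hdim
  · intro i hi
    simpa [hS] using hi
  · intro i hi
    simpa [hS] using hi
  · intro j _ i
    have : ∀ z : k, z ^ ℓ = frobenius k ℓ z := fun z => rfl
    rw [this, map_div₀, map_neg, map_natCast, map_natCast]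
  · intro j hj
    have h11 := hε3 j hj
    have hun : Sᶜ = insert j ((J.erase j) ∪ (J ∪ S)ᶜ) := by
      ext i
      have hd : i ∈ J → i ∉ S := fun h => Finset.disjoint_left.1 hdisj h
      simp only [Finset.mem_compl, Finset.mem_union, Finset.mem_insert, Finset.mem_erase, not_or]
      constructor
      · intro h
        by_cases h12 : i = j
        · exact Or.inl h12
        · by_cases h13 : i ∈ J
          · exact Or.inr (Or.inl ⟨h12, h13⟩)
          · exact Or.inr (Or.inr ⟨h13, h⟩)
      · rintro (h | h | h)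
        · rw [h]; exact Finset.disjoint_left.1 hdisj hj
        · exact hd h.2
        · exact h.2
    have hdj : Disjoint (J.erase j) (J ∪ S)ᶜ := by
      rw [Finset.disjoint_left]
      intro i hi hi'
      simp only [Finset.mem_compl, Finset.mem_union, not_or] at hi'
      exact hi'.1 (Finset.mem_of_mem_erase hi)
    have hnot : j ∉ (J.erase j) ∪ (J ∪ S)ᶜ := by
      simp [hj]
    rw [hun, Finset.sum_insert hnot, Finset.sum_union hdj] at h11
    have h12 : ∑ i ∈ J.erase j, (ε j i : k) * Lam ℓ (ff (fun w => r (ω w))) (r (x i)) = 0 := by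
      apply Finset.sum_eq_zero
      intro i hi
      rw [hε2 j hj i (Finset.mem_of_mem_erase hi) (Finset.ne_of_mem_erase hi), zero_mul]
    rw [h12, zero_add] at h11
    have h13 : ∑ i ∈ (J ∪ S)ᶜ, -(ε j i : k) / (ε j j : k) *
        Lam ℓ (ff (fun w => r (ω w))) (r (x i)) = - (∑ i ∈ (J ∪ S)ᶜ, (ε j i : k) *
        Lam ℓ (ff (fun w => r (ω w))) (r (x i))) / (ε j j : k) := by
      rw [neg_div, Finset.sum_div, ← Finset.sum_neg_distrib]
      refine Finset.sum_congr rfl fun i _ => ?_
      ring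
    rw [h13, eq_div_iff (hε1 j hj)]
    linear_combination h11

end SRK
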