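import Mathlib
import Pool.Agent.SRK.Targets

set_option autoImplicit false

/-!
# MAIL: points with large abscissas
-/

namespace SRK

open Polynomial

universe u

namespace MAIL_

theorem fam_degree_aux {S : Type*} [CommRing S] [Nontrivial S] {m : ℕ} (a : Fin m → S) :
    (∑ k : Fin m, C (a k) * X ^ (m - 1 - (k : ℕ)) : S[X]).degree < m := by
  refine (Polynomial.degree_sum_le _ _).trans_lt ?_
  refine (Finset.sup_lt_iff (WithBot.bot_lt_coe m)).2 ?_
  intro k _
  refine (Polynomial.degree_C_mul_X_pow_le _ _).trans_lt ?_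
  have hk := k.2
  exact Nat.cast_lt.2 (by omega : m - 1 - (k : ℕ) < m)

theorem fam_monic {S : Type*} [CommRing S] [Nontrivial S] {m : ℕ} (a : Fin m → S) :
    (fam a).Monic := by
  unfold fam
  exact Polynomial.monic_X_pow_add (fam_degree_aux a)

theorem fam_natDegree {S : Type*} [CommRing S] [Nontrivial S] {m : ℕ} (a : Fin m → S) :
    (fam a).natDegree = m := by
  unfold fam
  rw [Polynomial.natDegree_add_eq_left_of_degree_lt, Polynomial.natDegree_X_pow]
  rw [Polynomial.degree_X_pow]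
  exact fam_degree_aux a

/-- the roots, in a row -/
theorem roots {K : Type*} [Field K] [CharZero K] [IsAlgClosed K] {m : ℕ} (a : Fin m → K)
    (hsq : Squarefree (fam a)) : ∃ ω : Fin m → K, Function.Injective ω ∧ fam a = ff ω := by
  classical
  have hsep : (fam a).Separable := PerfectField.separable_iff_squarefree.2 hsq
  have hnd : (fam a).roots.Nodup := Polynomial.nodup_roots hsep
  have hspl : (fam a).Splits := IsAlgClosed.splits _
  have hcard : (fam a).roots.toFinset.card = m := by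
    rw [Multiset.toFinset_card_of_nodup hnd, ← hspl.natDegree_eq_card_roots, fam_natDegree]
  have e : Fin m ≃ {z // z ∈ (fam a).roots.toFinset} :=
    ((fam a).roots.toFinset.equivFinOfCardEq hcard).symm
  refine ⟨fun w => (e w : K), fun x y h => e.injective (Subtype.ext h), ?_⟩
  refine (hspl.eq_prod_roots_of_monic (fam_monic a)).trans ?_
  unfold ff
  rw [e.prod_comp (fun z : {z // z ∈ (fam a).roots.toFinset} => X - C (z : K)),
    Finset.prod_coe_sort (fam a).roots.toFinset (fun z => X - C z), Finset.prod,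
    Multiset.toFinset_val, Multiset.dedup_eq_self.2 hnd]

/-- the roots are small -/
theorem small {K : Type*} [Field K] (v : AbsoluteValue K ℝ) (hna : IsNonarchimedean v) {m : ℕ}
    (hm : m ≠ 0) (a : Fin m → K) (u z : K) (hu : u ≠ 0)
    (ha : ∀ κ : Fin m, v (a κ) < v u ^ ((κ : ℕ) + 1)) (hz : (fam a).eval z = 0) : v z < v u := by
  by_contra hcon
  rw [not_lt] at hcon
  have hvu : 0 < v u := v.pos hu
  have hvz : 0 < v z := lt_of_lt_of_le hvu hcon
  unfold fam at hz
  simp only [eval_add, eval_pow, eval_X, eval_finsetSum, eval_mul, eval_C] at hz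
  have : Nonempty (Fin m) := ⟨⟨0, Nat.pos_of_ne_zero hm⟩⟩
  obtain ⟨κ, -, hκ⟩ := hna.finset_image_add_of_nonempty
    (fun k : Fin m => a k * z ^ (m - 1 - (k : ℕ))) (t := Finset.univ) Finset.univ_nonempty
  have h1 : v (z ^ m) = v (∑ k : Fin m, a k * z ^ (m - 1 - (k : ℕ))) := by
    have : z ^ m = -(∑ k : Fin m, a k * z ^ (m - 1 - (k : ℕ))) := eq_neg_of_add_eq_zero_left hz
    rw [this, v.map_neg]
  have h2 : v z ^ m ≤ v (a κ) * v z ^ (m - 1 - (κ : ℕ)) := by
    rw [← v.map_pow, h1, ← v.map_pow, ← v.map_mul]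
    exact hκ
  have h3 : v (a κ) * v z ^ (m - 1 - (κ : ℕ)) < v z ^ m := by
    have hk := κ.2
    have e : v z ^ m = v z ^ ((κ : ℕ) + 1) * v z ^ (m - 1 - (κ : ℕ)) := by
      rw [← pow_add]
      congr 1
      omega
    rw [e]
    exact mul_lt_mul_of_pos_right
      ((ha κ).trans_le (pow_le_pow_left₀ hvu.le hcon _)) (pow_pos hvz _)
  exact absurd (h2.trans_lt h3) (lt_irrefl _)

end MAIL_

theorem p_MAIL (h1 : T_LOCS.{u}) (h2 : T_SCL.{u}) : T_MAIL.{u} := by
  intro K _ _ _ v ℓ _ O k _ _ r hctx ζ hζ m hℓm h2m a hsq N x y hy e hrel u x' hu ha hx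
  have hm : m ≠ 0 := by
    rintro rfl
    exact hℓm (dvd_zero _)
  have hℓ : 0 < ℓ := (Fact.out : ℓ.Prime).pos
  obtain ⟨ω, hωi, hω⟩ := MAIL_.roots a hsq
  have hroot : ∀ w, (fam a).eval (ω w) = 0 := by
    intro w
    rw [hω]
    unfold ff
    rw [eval_prod]
    exact Finset.prod_eq_zero (Finset.mem_univ w) (by simp)
  have hvu : 0 < v u := v.pos hu
  have hsm : ∀ w, v (ω w / u) < 1 := by
    intro w
    rw [map_div₀, div_lt_one hvu]
    exact MAIL_.small v hctx.na hm a u (ω w) hu ha (hroot w)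
  obtain ⟨κ0, hκ0⟩ := IsAlgClosed.exists_pow_nat_eq (u ^ m) hℓ
  have hκne : κ0 ≠ 0 := by
    rintro rfl
    rw [zero_pow hℓ.ne'] at hκ0
    exact pow_ne_zero m hu hκ0.symm
  let ω' : Fin m → O := fun w => ⟨ω w / u, (hctx.mem _).2 (hsm w).le⟩
  have hω'inj : Function.Injective ω' := by
    intro w1 w2 h
    have h' : ω w1 / u = ω w2 / u := congrArg (fun z : O => (z : K)) h
    exact hωi ((div_left_inj' hu).1 h')
  have hωu : (fun w => u * ((ω' w : O) : K)) = ω := by
    funext w
    show u * (ω w / u) = ω w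
    field_simp
  have hy' : ∀ i, (y i / κ0) ^ ℓ = (ff (fun w => (ω' w : K))).eval (x' i : K) := by
    intro i
    rw [div_pow, hy i, hκ0, hω, ← hωu, hx i]
    unfold ff
    rw [eval_prod, eval_prod]
    simp only [eval_sub, eval_X, eval_C, ← mul_sub]
    rw [Finset.prod_mul_distrib, Finset.prod_const, Finset.card_univ, Fintype.card_fin,
      mul_div_cancel_left₀ _ (pow_ne_zero m hu)]
  have hrel' : Rel ℓ (ff (fun w => (ω' w : K))) ζ (fun i => (x' i : K)) (fun i => y i / κ0) e := by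
    obtain ⟨α, hlin, htor⟩ := hrel
    refine ⟨α, hlin, fun j => ?_⟩
    refine h2 K ℓ hℓ m (fun w => (ω' w : K)) ζ u κ0 hu hκ0 N (fun i => (x' i : K))
      (fun i => y i / κ0) (α j) ?_
    have e1 : (fun i => u * ((x' i : O) : K)) = x := funext fun i => (hx i).symm
    have e2 : (fun i => κ0 * (y i / κ0)) = y := funext fun i => mul_div_cancel₀ _ hκne
    rw [e1, e2, hωu, ← hω]
    exact htor j
  obtain ⟨S, J, w, hbad⟩ := h1 K v ℓ O k r hctx ζ hζ m ω' hω'inj hℓm h2m N x' (fun i => y i / κ0)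
    hy' e hrel'
  refine ⟨S, J, w, ?_⟩
  have e3 : ff (fun w => r (ω' w)) = (X ^ m : k[X]) := by
    have : (fun w => r (ω' w)) = fun _ : Fin m => (0 : k) := funext fun w => (hctx.res _).2 (hsm w)
    rw [this]
    unfold ff
    simp
  rw [← e3]
  exact hbad

end SRK
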