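import Mathlib
import Pool.Agent.SRK.Targets

/-!
Project SRK, piece MIN: normalisation of the exponents.
-/

namespace SRK

open Polynomial

universe u

namespace MIN_

lemma natDegree_ff {K : Type*} [Field K] {m : ℕ} (ω : Fin m → K) : (ff ω).natDegree = m := by
  unfold ff
  rw [natDegree_prod_of_monic _ _ (fun w _ => monic_X_sub_C (ω w))]
  simp

lemma of_inj {K : Type*} [Field K] (ℓ : ℕ) (hℓ : ℓ ≠ 0) (f : K[X]) :
    Function.Injective (AdjoinRoot.of ((X : Polynomial (Polynomial K)) ^ ℓ - C f)) := by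
  apply AdjoinRoot.of.injective_of_degree_ne_zero
  rw [degree_X_pow_sub_C (Nat.pos_of_ne_zero hℓ)]
  exact_mod_cast hℓ

lemma cancel {R : Type*} [CommRing R] (hR : IsDomain R) (I J J' : Ideal R) (p y : R)
    (hp : p ≠ 0) (h3 : Ideal.span {y} * J = Ideal.span {p} * J') (hP : Pr (I * J)) :
    Pr (I * J') := by
  obtain ⟨h, hh⟩ := hP
  have key : Ideal.span {p} * (I * J') = Ideal.span {y * h} := by
    rw [mul_left_comm, ← h3, mul_left_comm, hh, Ideal.span_singleton_mul_span_singleton]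
  have hmem : y * h ∈ Ideal.span {p} := by
    have h1 : y * h ∈ Ideal.span {p} * (I * J') := by
      rw [key]; exact Ideal.mem_span_singleton_self _
    exact Ideal.mul_le_left h1
  obtain ⟨g, hg⟩ := Ideal.mem_span_singleton'.mp hmem
  refine ⟨g, ?_⟩
  have e : Ideal.span {p} * (I * J') = Ideal.span {p} * Ideal.span {g} := by
    rw [key, Ideal.span_singleton_mul_span_singleton, ← hg, mul_comm]
  exact (Ideal.span_singleton_mul_right_inj hp).mp e

lemma shift1 (hJ : T_JQ.{u}) (hD : T_DOM.{u}) (K : Type u) [Field K] (ℓ : ℕ) (hℓ : ℓ.Prime)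
    (m : ℕ) (ω : Fin m → K) (hω : Function.Injective ω) (hm : ¬ ℓ ∣ m)
    (I : Ideal (Crd ℓ (ff ω))) (n : Fin m → ℕ) (hn : ∀ w, n w < ℓ) (hP : Pr (I * Jq ℓ ω n)) :
    Pr (I * Jq ℓ ω (fun w => (n w + 1) % ℓ)) := by
  have hR : IsDomain (Crd ℓ (ff ω)) := hD K ℓ hℓ (ff ω) (by rw [natDegree_ff]; exact hm)
  have h3 := (hJ K ℓ hℓ m ω hω n hn).2.2.1
  have hP0 : (∏ w, if n w + 1 = ℓ then X - C (ω w) else 1 : K[X]) ≠ 0 := by
    apply Finset.prod_ne_zero_iff.mpr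
    intro w _
    split_ifs
    · exact X_sub_C_ne_zero _
    · exact one_ne_zero
  refine cancel hR I (Jq ℓ ω n) _ _ _ ?_ h3 hP
  intro h0
  exact hP0 (of_inj ℓ hℓ.ne_zero (ff ω) (h0.trans (map_zero _).symm))

lemma shift (hJ : T_JQ.{u}) (hD : T_DOM.{u}) (K : Type u) [Field K] (ℓ : ℕ) (hℓ : ℓ.Prime)
    (m : ℕ) (ω : Fin m → K) (hω : Function.Injective ω) (hm : ¬ ℓ ∣ m)
    (I : Ideal (Crd ℓ (ff ω))) (n : Fin m → ℕ) (hn : ∀ w, n w < ℓ) (hP : Pr (I * Jq ℓ ω n))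
    (s : ℕ) : Pr (I * Jq ℓ ω (fun w => (n w + s) % ℓ)) := by
  induction s with
  | zero =>
    have : (fun w => (n w + 0) % ℓ) = n := by
      funext w
      rw [add_zero, Nat.mod_eq_of_lt (hn w)]
    rw [this]; exact hP
  | succ s ih =>
    have h1 := shift1 hJ hD K ℓ hℓ m ω hω hm I (fun w => (n w + s) % ℓ)
      (fun w => Nat.mod_lt _ hℓ.pos) ih
    have : (fun w => ((n w + s) % ℓ + 1) % ℓ) = fun w => (n w + (s + 1)) % ℓ := by
      funext w
      rw [Nat.mod_add_mod, add_assoc]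
    rw [this] at h1
    exact h1

end MIN_

open MIN_ in
theorem p_MIN (hJ : T_JQ.{u}) (hD : T_DOM.{u}) : T_MIN.{u} := by
  intro K _ ℓ hfact m ω hω hm I n hn hP
  have hℓ : ℓ.Prime := hfact.out
  classical
  let Q : ℕ → Prop := fun N => ∃ n' : Fin m → ℕ, (∀ w, n' w < ℓ) ∧ Pr (I * Jq ℓ ω n') ∧
    ∑ w, n' w = N
  have hex : ∃ N, Q N := ⟨∑ w, n w, n, hn, hP, rfl⟩
  obtain ⟨n', h1, h2, h3⟩ := Nat.find_spec hex
  refine ⟨n', h1, h2, ?_⟩
  intro t ht1 htl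
  have h4 := shift hJ hD K ℓ hℓ m ω hω hm I n' h1 h2 (ℓ - t)
  have h5 : Nat.find hex ≤ ∑ w, (n' w + (ℓ - t)) % ℓ :=
    Nat.find_min' hex ⟨_, fun w => Nat.mod_lt _ hℓ.pos, h4, rfl⟩
  rw [← h3] at h5
  have h6 : ∀ w, (n' w + (ℓ - t)) % ℓ + ℓ * (if t ≤ n' w then 1 else 0) = n' w + (ℓ - t) := by
    intro w
    have hw := h1 w
    split_ifs with hc
    · have e : n' w + (ℓ - t) = (n' w - t) + ℓ := by omega
      rw [e, Nat.add_mod_right, Nat.mod_eq_of_lt (by omega), mul_one]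
    · rw [Nat.mod_eq_of_lt (by omega), mul_zero, add_zero]
  have h7 : ∑ w, (n' w + (ℓ - t)) % ℓ +
      ℓ * (Finset.univ.filter (fun w => t ≤ n' w)).card = ∑ w, n' w + (ℓ - t) * m := by
    have e1 : ∑ w, ((n' w + (ℓ - t)) % ℓ + ℓ * (if t ≤ n' w then 1 else 0)) =
        ∑ w, (n' w + (ℓ - t)) := Finset.sum_congr rfl (fun w _ => h6 w)
    rw [Finset.sum_add_distrib, Finset.sum_add_distrib, ← Finset.mul_sum] at e1
    rw [Finset.card_filter, e1]
    simp [mul_comm]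
  omega

end SRK
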