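import Mathlib
import Pool.Agent.SRK.Targets

namespace SRK

open Polynomial

universe u

namespace MOD_

/-- evaluation of an integral vector -/
noncomputable def ev {K : Type*} [Field K] (ζ : K) {n ℓ : ℕ} (a : Fin n → Fin ℓ → ℤ) :
    Fin n → K :=
  fun i => ∑ j : Fin ℓ, (a i j : K) * ζ ^ (j : ℕ)

lemma ev_add {K : Type*} [Field K] (ζ : K) {n ℓ : ℕ} (a b : Fin n → Fin ℓ → ℤ) :
    ev ζ (a + b) = ev ζ a + ev ζ b := by
  funext i
  simp only [ev, Pi.add_apply]
  rw [← Finset.sum_add_distrib]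
  refine Finset.sum_congr rfl fun j _ => ?_
  push_cast
  ring

lemma ev_smul {K : Type*} [Field K] (ζ : K) {n ℓ : ℕ} (c : ℤ) (a : Fin n → Fin ℓ → ℤ) :
    ev ζ (c • a) = (c : K) • ev ζ a := by
  funext i
  simp only [ev, Pi.smul_apply, smul_eq_mul]
  rw [Finset.mul_sum]
  refine Finset.sum_congr rfl fun j _ => ?_
  push_cast
  ring

lemma sum_pow_zero {K : Type*} [Field K] {ζ : K} {ℓ : ℕ} [hl : Fact ℓ.Prime]
    (hζ : IsPrimitiveRoot ζ ℓ) : ∑ j : Fin ℓ, ζ ^ (j : ℕ) = 0 := by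
  rw [Fin.sum_univ_eq_sum_range (fun j => ζ ^ j) ℓ]
  exact hζ.geom_sum_eq_zero hl.out.one_lt

lemma ev_const {K : Type*} [Field K] {ζ : K} {n ℓ : ℕ} [Fact ℓ.Prime]
    (hζ : IsPrimitiveRoot ζ ℓ) (c : Fin n → ℤ) :
    ev ζ (fun i (_ : Fin ℓ) => c i) = 0 := by
  funext i
  simp only [ev, Pi.zero_apply]
  rw [← Finset.mul_sum, sum_pow_zero hζ, mul_zero]

/-- the powers `ζ ^ j` -/
lemma pow_add_one {K : Type*} [Field K] {ζ : K} {ℓ : ℕ} [hl : Fact ℓ.Prime]
    (hζ : IsPrimitiveRoot ζ ℓ) (j : Fin ℓ) :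
    ζ ^ ((j + 1 : Fin ℓ) : ℕ) = ζ * ζ ^ (j : ℕ) := by
  rw [← pow_succ']
  have h1 : ((j + 1 : Fin ℓ) : ℕ) = ((j : ℕ) + 1) % ℓ := by
    rw [Fin.val_add]
    have h2 : ((1 : Fin ℓ) : ℕ) = 1 % ℓ := Fin.val_one' ℓ
    rw [h2, Nat.add_mod_mod]
  rw [h1]
  conv_rhs => rw [← Nat.div_add_mod ((j : ℕ) + 1) ℓ, pow_add, pow_mul, hζ.pow_eq_one, one_pow,
    one_mul]

lemma ev_shift {K : Type*} [Field K] {ζ : K} {n ℓ : ℕ} [Fact ℓ.Prime]
    (hζ : IsPrimitiveRoot ζ ℓ) (a : Fin n → Fin ℓ → ℤ) :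
    ζ • ev ζ (fun i j => a i (j + 1)) = ev ζ a := by
  funext i
  simp only [ev, Pi.smul_apply, smul_eq_mul]
  rw [Finset.mul_sum, ← Equiv.sum_comp (Equiv.addRight (1 : Fin ℓ))
    (fun j => (a i j : K) * ζ ^ (j : ℕ))]
  refine Finset.sum_congr rfl fun j _ => ?_
  rw [Equiv.coe_addRight, pow_add_one hζ]
  ring

/-- integral vectors with value zero are constant -/
lemma ev_zero {K : Type*} [Field K] [CharZero K] {ζ : K} {n ℓ : ℕ} [hl : Fact ℓ.Prime]
    (hζ : IsPrimitiveRoot ζ ℓ) (a : Fin n → Fin ℓ → ℤ) (h : ev ζ a = 0) :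
    ∃ c : Fin n → ℤ, a = fun i _ => c i := by
  have key : ∀ i, ∃ c : ℤ, ∀ j, a i j = c := by
    intro i
    have hi : ∑ j : Fin ℓ, (a i j : K) * ζ ^ (j : ℕ) = 0 := congrFun h i
    set p : ℤ[X] := ∑ j : Fin ℓ, C (a i j) * X ^ (j : ℕ) with hp
    have hcoeff : ∀ j : Fin ℓ, p.coeff j = a i j := by
      intro j
      rw [hp, finsetSum_coeff]
      rw [Finset.sum_eq_single j]
      · simp
      · intro b _ hb
        rw [coeff_C_mul, coeff_X_pow, if_neg, mul_zero]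
        intro hh
        exact hb (Fin.ext hh.symm)
      · intro hh
        exact absurd (Finset.mem_univ j) hh
    have hdeg : p.natDegree ≤ ℓ - 1 := by
      rw [hp]
      refine natDegree_sum_le_of_forall_le _ _ fun j _ => ?_
      refine (natDegree_C_mul_X_pow_le _ _).trans ?_
      have := j.2
      omega
    have hae : aeval ζ p = 0 := by
      rw [hp, map_sum, ← hi]
      refine Finset.sum_congr rfl fun j _ => ?_
      rw [map_mul, map_pow, aeval_C, aeval_X]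
      simp
    have hint : IsIntegral ℤ ζ := hζ.isIntegral hl.out.pos
    have hdvd := minpoly.isIntegrallyClosed_dvd hint hae
    rw [← cyclotomic_eq_minpoly hζ hl.out.pos] at hdvd
    obtain ⟨q, hq⟩ := hdvd
    have hq0 : ∃ c : ℤ, q = C c := by
      by_cases hq1 : q = 0
      · exact ⟨0, by rw [hq1, C_0]⟩
      · refine ⟨q.coeff 0, eq_C_of_natDegree_eq_zero ?_⟩
        have h1 : p.natDegree = (cyclotomic ℓ ℤ).natDegree + q.natDegree := by
          rw [hq, natDegree_mul (cyclotomic_ne_zero _ _) hq1]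
        rw [natDegree_cyclotomic, Nat.totient_prime hl.out] at h1
        omega
    obtain ⟨c, hc⟩ := hq0
    refine ⟨c, fun j => ?_⟩
    rw [← hcoeff j, hq, hc, coeff_mul_C, cyclotomic_prime, finsetSum_coeff]
    rw [Finset.sum_eq_single (j : ℕ)]
    · simp
    · intro b _ hb
      rw [coeff_X_pow, if_neg (Ne.symm hb)]
    · intro hh
      exact absurd (Finset.mem_range.mpr j.2) hh
  choose c hc using key
  exact ⟨c, funext fun i => funext fun j => hc i j⟩

/-- elements of `ℤ[ζ]` as values -/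
lemma exists_ev {K : Type*} [Field K] {ζ : K} {n ℓ : ℕ} [hl : Fact ℓ.Prime]
    (hζ : IsPrimitiveRoot ζ ℓ) (β : Fin n → K) (h : ∀ i, β i ∈ Algebra.adjoin ℤ {ζ}) :
    ∃ b : Fin n → Fin ℓ → ℤ, β = ev ζ b := by
  have key : ∀ i, ∃ b : Fin ℓ → ℤ, β i = ∑ j : Fin ℓ, (b j : K) * ζ ^ (j : ℕ) := by
    intro i
    have hi := h i
    rw [Algebra.adjoin_singleton_eq_range_aeval] at hi
    obtain ⟨p, hp⟩ := hi
    have hp' : aeval ζ p = β i := hp
    have hmon : (X ^ ℓ - 1 : ℤ[X]).Monic := by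
      have := monic_X_pow_sub_C (1 : ℤ) hl.out.ne_zero
      rwa [C_1] at this
    have hz : aeval ζ (X ^ ℓ - 1 : ℤ[X]) = 0 := by
      rw [map_sub, map_pow, aeval_X, map_one, hζ.pow_eq_one, sub_self]
    have h1 : aeval ζ p = aeval ζ (p %ₘ (X ^ ℓ - 1 : ℤ[X])) := by
      conv_lhs => rw [← modByMonic_add_div p (X ^ ℓ - 1 : ℤ[X])]
      rw [map_add, map_mul, hz, zero_mul, add_zero]
    have hdeg : (p %ₘ (X ^ ℓ - 1 : ℤ[X])).natDegree < ℓ := by
      have h2 : (X ^ ℓ - 1 : ℤ[X]).natDegree = ℓ := by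
        have := natDegree_X_pow_sub_C (n := ℓ) (r := (1 : ℤ))
        rwa [C_1] at this
      have h3 := natDegree_modByMonic_lt p hmon (by
        intro h4
        rw [h4, natDegree_one] at h2
        exact hl.out.ne_zero h2.symm)
      rwa [h2] at h3
    refine ⟨fun j => (p %ₘ (X ^ ℓ - 1 : ℤ[X])).coeff j, ?_⟩
    rw [← hp', h1, aeval_eq_sum_range' hdeg,
      Fin.sum_univ_eq_sum_range
        (fun j => (((p %ₘ (X ^ ℓ - 1 : ℤ[X])).coeff j : ℤ) : K) * ζ ^ j) ℓ]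
    refine Finset.sum_congr rfl fun j _ => ?_
    rw [zsmul_eq_mul]
  choose b hb using key
  exact ⟨b, funext fun i => hb i⟩

lemma dv_pow {S : Type*} [CommRing S] (ℓ : ℕ) (f : S[X]) (ζ : S) {n : ℕ} (x y : Fin n → S)
    (α : Fin n → Fin ℓ → ℕ) (N : ℕ) :
    dv ℓ f ζ x y α ^ N = dv ℓ f ζ x y (fun i j => N * α i j) := by
  unfold dv
  rw [← Finset.prod_pow]
  refine Finset.prod_congr rfl fun i _ => ?_
  rw [← Finset.prod_pow]
  refine Finset.prod_congr rfl fun j _ => ?_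
  rw [← pow_mul, mul_comm (α i j)]

/-- a multiple of a nonzero element of `ℤ[ζ]` is a positive integer -/
lemma exists_int {K : Type*} [Field K] [CharZero K] {ζ : K} {ℓ : ℕ} [hl : Fact ℓ.Prime]
    (hζ : IsPrimitiveRoot ζ ℓ) (c : K) (hc : c ∈ Algebra.adjoin ℤ {ζ}) (h0 : c ≠ 0) :
    ∃ c' ∈ Algebra.adjoin ℤ {ζ}, ∃ q : ℤ, q ≠ 0 ∧ c' * c = q := by
  have hint : IsIntegral ℤ ζ := hζ.isIntegral hl.out.pos
  have hcint : IsIntegral ℤ c := by
    have h1 : Algebra.adjoin ℤ {ζ} ≤ integralClosure ℤ K :=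
      Algebra.adjoin_le (by
        intro z hz
        rw [Set.mem_singleton_iff] at hz
        subst hz
        exact hint)
    exact h1 hc
  have halg : IsAlgebraic ℤ c := hcint.isAlgebraic
  obtain ⟨q, hq0, hq⟩ := halg.exists_nonzero_coeff_and_aeval_eq_zero
    (mem_nonZeroDivisors_of_ne_zero h0)
  have h2 : aeval c q.divX * c + ((q.coeff 0 : ℤ) : K) = 0 := by
    have h3 := congrArg (aeval c) (divX_mul_X_add q)
    rw [hq, map_add, map_mul, aeval_X, aeval_C] at h3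
    simpa using h3
  refine ⟨aeval c q.divX, ?_, -q.coeff 0, neg_ne_zero.mpr hq0, ?_⟩
  · have h4 : aeval c q.divX ∈ Algebra.adjoin ℤ {c} := by
      rw [Algebra.adjoin_singleton_eq_range_aeval]
      exact ⟨q.divX, rfl⟩
    have h5 : Algebra.adjoin ℤ {c} ≤ Algebra.adjoin ℤ {ζ} :=
      Algebra.adjoin_le (by
        intro z hz
        rw [Set.mem_singleton_iff] at hz
        subst hz
        exact hc)
    exact h5 h4
  · push_cast
    linear_combination h2

end MOD_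

open MOD_

theorem p_MOD (hS : T_SUB.{u}) : T_MOD.{u} := by
  intro K _ _ ℓ _ ζ hζ f hf hdeg n x y hxy
  obtain ⟨P, hP, hsh, hco⟩ := hS K ℓ ζ hζ f hf hdeg n x y hxy
  -- torsion classes
  have hT : ∀ α : Fin n → Fin ℓ → ℕ, Tors ℓ f ζ x y α ↔
      ∃ N : ℕ, 0 < N ∧ (N : ℤ) • (fun i j => (α i j : ℤ)) ∈ P := by
    intro α
    unfold Tors
    refine exists_congr fun N => and_congr_right fun _ => ?_
    rw [dv_pow]
    have h1 := hP (fun i j => N * α i j)
    unfold Pr at h1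
    rw [← h1]
    have h2 : (fun i j => ((N * α i j : ℕ) : ℤ)) = (N : ℤ) • (fun i j => (α i j : ℤ)) := by
      funext i j
      simp
    rw [h2]
  -- relations
  have hTR : ∀ β : Fin n → K, TR ℓ f ζ x y β ↔ ∃ a : Fin n → Fin ℓ → ℤ, β = ev ζ a ∧
      ∃ N : ℕ, 0 < N ∧ (N : ℤ) • a ∈ P := by
    intro β
    constructor
    · rintro ⟨α, h1, h2⟩
      refine ⟨fun i j => (α i j : ℤ), ?_, (hT α).mp h2⟩
      funext i
      rw [h1 i]
      simp [ev]
    · rintro ⟨a, h1, N, hN, h2⟩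
      have h3 : ∀ i, ∃ m : ℤ, ∀ j, 0 ≤ a i j + m := by
        intro i
        refine ⟨∑ j, |a i j|, fun j => ?_⟩
        have h4 : |a i j| ≤ ∑ j, |a i j| :=
          Finset.single_le_sum (f := fun j => |a i j|) (fun j _ => abs_nonneg _)
            (Finset.mem_univ j)
        have h5 := neg_abs_le (a i j)
        linarith
      choose m hm using h3
      have h6 : (fun i j => (((a i j + m i).toNat : ℕ) : ℤ)) = a + (fun i _ => m i) := by
        funext i j
        rw [Int.toNat_of_nonneg (hm i j)]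
        rfl
      refine ⟨fun i j => (a i j + m i).toNat, ?_, ?_⟩
      · intro i
        rw [h1]
        have h7 : ev ζ a = ev ζ (fun i j => (((a i j + m i).toNat : ℕ) : ℤ)) := by
          rw [h6, ev_add, ev_const hζ, add_zero]
        rw [h7]
        simp only [ev]
        refine Finset.sum_congr rfl fun j _ => ?_
        norm_cast
      · rw [hT]
        refine ⟨N, hN, ?_⟩
        rw [h6, smul_add]
        refine P.add_mem h2 (P.zsmul_mem (hco m) _)
  -- (4)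
  have h4 : ∀ α : Fin n → Fin ℓ → ℕ,
      TR ℓ f ζ x y (fun i => ∑ j : Fin ℓ, (α i j : K) * ζ ^ (j : ℕ)) → Tors ℓ f ζ x y α := by
    intro α h
    rw [hTR] at h
    obtain ⟨a, h1, N, hN, h2⟩ := h
    rw [hT]
    refine ⟨N, hN, ?_⟩
    have h3 : ev ζ ((fun i j => (α i j : ℤ)) + (-1 : ℤ) • a) = 0 := by
      rw [ev_add, ev_smul, ← h1]
      funext i
      simp [ev]
    obtain ⟨c, hc⟩ := ev_zero hζ _ h3
    have h5 : (fun i j => (α i j : ℤ)) = a + (fun i _ => c i) := by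
      rw [← hc]
      funext i j
      simp
    rw [h5, smul_add]
    exact P.add_mem h2 (P.zsmul_mem (hco c) _)
  -- (1)
  have h1 : ∀ β β' : Fin n → K, TR ℓ f ζ x y β → TR ℓ f ζ x y β' →
      TR ℓ f ζ x y (β + β') := by
    intro β β' hb hb'
    rw [hTR] at hb hb' ⊢
    obtain ⟨a, e1, N, hN, m1⟩ := hb
    obtain ⟨a', e2, N', hN', m2⟩ := hb'
    refine ⟨a + a', by rw [e1, e2, ev_add], N * N', Nat.mul_pos hN hN', ?_⟩
    have e3 : ((N * N' : ℕ) : ℤ) • (a + a') = (N' : ℤ) • ((N : ℤ) • a) +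
        (N : ℤ) • ((N' : ℤ) • a') := by
      rw [smul_add, smul_smul, smul_smul]
      push_cast
      rw [mul_comm (N' : ℤ)]
    rw [e3]
    exact P.add_mem (P.zsmul_mem m1 _) (P.zsmul_mem m2 _)
  have hint : ∀ (c : ℤ) (β : Fin n → K), TR ℓ f ζ x y β → TR ℓ f ζ x y ((c : K) • β) := by
    intro c β hb
    rw [hTR] at hb ⊢
    obtain ⟨a, e1, N, hN, m1⟩ := hb
    refine ⟨c • a, by rw [e1, ev_smul], N, hN, ?_⟩
    rw [smul_comm]
    exact P.zsmul_mem m1 _
  have hinv : ∀ β : Fin n → K, TR ℓ f ζ x y (ζ • β) → TR ℓ f ζ x y β := by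
    intro β hb
    rw [hTR] at hb ⊢
    obtain ⟨a, e1, N, hN, m1⟩ := hb
    refine ⟨fun i j => a i (j + 1), ?_, N, hN, ?_⟩
    · have hz : ζ ≠ 0 := hζ.ne_zero (NeZero.ne ℓ)
      have e2 : ζ • β = ζ • ev ζ (fun i j => a i (j + 1)) := by rw [ev_shift hζ, e1]
      exact smul_right_injective _ hz e2
    · exact hsh _ m1
  have hzeta : ∀ β : Fin n → K, TR ℓ f ζ x y β → TR ℓ f ζ x y (ζ • β) := by
    intro β hb
    have hk : ∀ k : ℕ, ∀ β : Fin n → K, TR ℓ f ζ x y (ζ ^ k • β) → TR ℓ f ζ x y β := by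
      intro k
      induction k with
      | zero => intro β h; simpa using h
      | succ k ih =>
        intro β h
        apply ih
        apply hinv
        rw [smul_smul, ← pow_succ']
        exact h
    apply hk (ℓ - 1)
    have hl1 : 1 ≤ ℓ := Nat.pos_of_ne_zero (NeZero.ne ℓ)
    rw [smul_smul, ← pow_succ, Nat.sub_add_cancel hl1, hζ.pow_eq_one, one_smul]
    exact hb
  -- (2)
  have h2 : ∀ c ∈ Algebra.adjoin ℤ {ζ}, ∀ β : Fin n → K, TR ℓ f ζ x y β →
      TR ℓ f ζ x y (c • β) := by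
    intro c hc
    induction hc using Algebra.adjoin_induction with
    | mem z hz =>
      rw [Set.mem_singleton_iff] at hz
      subst hz
      exact hzeta
    | algebraMap r =>
      intro β hb
      have := hint r β hb
      simpa using this
    | add z w _ _ hz hw =>
      intro β hb
      rw [add_smul]
      exact h1 _ _ (hz β hb) (hw β hb)
    | mul z w _ _ hz hw =>
      intro β hb
      rw [mul_smul]
      exact hz _ (hw β hb)
  refine ⟨h1, h2, ?_, h4⟩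
  -- (3)
  intro c hc hc0 β hβ hb
  obtain ⟨b, hb'⟩ := exists_ev hζ β hβ
  obtain ⟨c', hc', q, hq0, hq⟩ := exists_int hζ c hc hc0
  have h5 := h2 c' hc' _ hb
  rw [smul_smul, hq] at h5
  rw [hTR] at h5 ⊢
  obtain ⟨a, e1, N, hN, m1⟩ := h5
  refine ⟨b, hb', q.natAbs * N, Nat.mul_pos (Int.natAbs_pos.mpr hq0) hN, ?_⟩
  have h6 : ev ζ (q • b + (-1 : ℤ) • a) = 0 := by
    rw [ev_add, ev_smul, ev_smul, ← e1, hb']
    simp
  obtain ⟨d, hd⟩ := ev_zero hζ _ h6
  have h7 : q • b = a + (fun i _ => d i) := by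
    rw [← hd]
    simp
  have h8 : (N : ℤ) • (q • b) ∈ P := by
    rw [h7, smul_add]
    exact P.add_mem m1 (P.zsmul_mem (hco d) _)
  have h9 : ((q.natAbs * N : ℕ) : ℤ) • b = q.sign • ((N : ℤ) • (q • b)) := by
    rw [smul_smul, smul_smul]
    congr 1
    push_cast
    rw [← Int.sign_mul_self_eq_abs]
    ring
  rw [h9]
  exact P.zsmul_mem h8 _

end SRK
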