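import Mathlib
import Pool.Agent.SRK.Targets

/-!
Norm of a generator.
-/

namespace SRK

open Polynomial

universe u

namespace NMJ_

section gen

variable {S : Type*} [CommRing S] {ℓ : ℕ} {f : S[X]}

theorem of_mul_el (g : S[X]) (A : Fin ℓ → S[X]) :
    (AdjoinRoot.of _ g : Crd ℓ f) * el ℓ f A = el ℓ f (fun j => g * A j) := by
  rw [el, el, Finset.mul_sum]
  refine Finset.sum_congr rfl fun j _ => ?_
  rw [map_mul, mul_assoc]

theorem of_el [NeZero ℓ] (g : S[X]) :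
    (AdjoinRoot.of _ g : Crd ℓ f) = el ℓ f (Pi.single 0 g) := by
  rw [el, Finset.sum_eq_single 0]
  · simp
  · intro j _ hj
    rw [Pi.single_eq_of_ne hj]
    simp
  · intro h; exact absurd (Finset.mem_univ _) h

theorem sg_of (ζ : S) (hζ : ζ ^ ℓ = 1) (t : ℕ) (g : S[X]) :
    ((sg ℓ f ζ hζ) ^ t) (AdjoinRoot.of _ g) = AdjoinRoot.of _ g := by
  induction t with
  | zero => rfl
  | succ t ih =>
    rw [pow_succ, RingHom.mul_def, RingHom.comp_apply]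
    have : sg ℓ f ζ hζ (AdjoinRoot.of _ g) = AdjoinRoot.of _ g := by
      rw [sg, AdjoinRoot.lift_of]
    rw [this, ih]

theorem sg_root (ζ : S) (hζ : ζ ^ ℓ = 1) (t : ℕ) :
    ((sg ℓ f ζ hζ) ^ t) (AdjoinRoot.root _) =
      AdjoinRoot.of _ (C (ζ ^ t)) * AdjoinRoot.root _ := by
  induction t with
  | zero => simp
  | succ t ih =>
    rw [pow_succ, RingHom.mul_def, RingHom.comp_apply]
    have : sg ℓ f ζ hζ (AdjoinRoot.root _) = AdjoinRoot.of _ (C ζ) * AdjoinRoot.root _ := by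
      rw [sg, AdjoinRoot.lift_root]
    rw [this, map_mul, sg_of, ih, pow_succ, C_mul, map_mul]
    ring

theorem span_unit {R : Type*} [CommRing R] {ι : Type*} (g g' : ι → R) (u v : ι → R)
    (h : ∀ j, g' j = u j * g j) (h' : ∀ j, g j = v j * g' j) :
    Ideal.span (Set.range g') = Ideal.span (Set.range g) := by
  apply le_antisymm
  · rw [Ideal.span_le]
    rintro _ ⟨j, rfl⟩
    rw [h j]
    exact Ideal.mul_mem_left _ _ (Ideal.subset_span ⟨j, rfl⟩)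
  · rw [Ideal.span_le]
    rintro _ ⟨j, rfl⟩
    rw [h' j]
    exact Ideal.mul_mem_left _ _ (Ideal.subset_span ⟨j, rfl⟩)

end gen

variable {K : Type u} [Field K] {ℓ : ℕ}

theorem map_pt (f : K[X]) (ζ : K) (hζ : ζ ^ ℓ = 1) (h0 : ζ ≠ 0) (t : ℕ) (x y : K) :
    Ideal.map ((sg ℓ f ζ hζ) ^ t) (pt ℓ f x y) = pt ℓ f x (ζ⁻¹ ^ t * y) := by
  have e0 : ((sg ℓ f ζ hζ) ^ t) (AdjoinRoot.root _ - AdjoinRoot.of _ (C y)) =
      AdjoinRoot.of _ (C (ζ ^ t)) * AdjoinRoot.root _ - AdjoinRoot.of _ (C y) := by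
    rw [map_sub ((sg ℓ f ζ hζ) ^ t), sg_root, sg_of]
  rw [pt, pt, Ideal.map_span, Set.image_pair, sg_of, e0]
  have e1 : (AdjoinRoot.of _ (C (ζ ^ t)) * AdjoinRoot.root _ - AdjoinRoot.of _ (C y) : Crd ℓ f) =
      AdjoinRoot.of _ (C (ζ ^ t)) * (AdjoinRoot.root _ - AdjoinRoot.of _ (C (ζ⁻¹ ^ t * y))) := by
    rw [mul_sub, ← map_mul (AdjoinRoot.of _) (C (ζ ^ t)), ← C_mul, ← mul_assoc, ← mul_pow,
      mul_inv_cancel₀ h0, one_pow, one_mul]
  have e2 : (AdjoinRoot.root _ - AdjoinRoot.of _ (C (ζ⁻¹ ^ t * y)) : Crd ℓ f) =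
      AdjoinRoot.of _ (C (ζ⁻¹ ^ t)) *
        (AdjoinRoot.of _ (C (ζ ^ t)) * AdjoinRoot.root _ - AdjoinRoot.of _ (C y)) := by
    rw [e1, ← mul_assoc, ← map_mul, ← C_mul, ← mul_pow, inv_mul_cancel₀ h0, one_pow, C_1, map_one,
      one_mul]
  apply le_antisymm
  · rw [Ideal.span_le]
    intro z hz
    rcases hz with rfl | rfl
    · exact Ideal.subset_span (Or.inl rfl)
    · rw [e1]
      exact Ideal.mul_mem_left _ _ (Ideal.subset_span (Or.inr rfl))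
  · rw [Ideal.span_le]
    intro z hz
    rcases hz with rfl | rfl
    · exact Ideal.subset_span (Or.inl rfl)
    · have := Ideal.mul_mem_left (Ideal.span {AdjoinRoot.of _ (X - C x),
        (AdjoinRoot.of _ (C (ζ ^ t)) * AdjoinRoot.root _ - AdjoinRoot.of _ (C y) : Crd ℓ f)})
        (AdjoinRoot.of _ (C (ζ⁻¹ ^ t))) (Ideal.subset_span (Or.inr rfl))
      rw [← e2] at this
      exact this

theorem map_Jq {m : ℕ} (ω : Fin m → K) (n : Fin m → ℕ) (ζ : K) (hζ : ζ ^ ℓ = 1) (h0 : ζ ≠ 0)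
    (t : ℕ) : Ideal.map ((sg ℓ (ff ω) ζ hζ) ^ t) (Jq ℓ ω n) = Jq ℓ ω n := by
  have e0 : ∀ j : Fin ℓ, ((sg ℓ (ff ω) ζ hζ) ^ t)
      (AdjoinRoot.of _ (qq ω n j) * AdjoinRoot.root _ ^ (j : ℕ)) =
      AdjoinRoot.of _ (C ((ζ ^ t) ^ (j : ℕ))) *
        (AdjoinRoot.of _ (qq ω n j) * AdjoinRoot.root _ ^ (j : ℕ)) := by
    intro j
    rw [map_mul ((sg ℓ (ff ω) ζ hζ) ^ t), map_pow ((sg ℓ (ff ω) ζ hζ) ^ t), sg_of, sg_root,
      mul_pow, ← map_pow, ← map_pow]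
    ring
  rw [Jq, Ideal.map_span, ← Set.range_comp]
  refine span_unit _ _ (fun j : Fin ℓ => AdjoinRoot.of _ (C ((ζ ^ t) ^ (j : ℕ))))
    (fun j : Fin ℓ => AdjoinRoot.of _ (C ((ζ⁻¹ ^ t) ^ (j : ℕ)))) ?_ ?_
  · intro j
    exact e0 j
  · intro j
    have h1 := e0 j
    have h2 : (AdjoinRoot.of _ (C ((ζ⁻¹ ^ t) ^ (j : ℕ))) : Crd ℓ (ff ω)) *
        AdjoinRoot.of _ (C ((ζ ^ t) ^ (j : ℕ))) = 1 := by
      rw [← map_mul, ← C_mul, ← mul_pow, ← mul_pow, inv_mul_cancel₀ h0, one_pow, one_pow, C_1,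
        map_one]
    simp only [Function.comp_apply]
    rw [h1, ← mul_assoc, h2, one_mul]

theorem map_dv (f : K[X]) (ζ : K) (hζ : ζ ^ ℓ = 1) (h0 : ζ ≠ 0) (t : ℕ) {N : ℕ}
    (x y : Fin N → K) (α : Fin N → Fin ℓ → ℕ) :
    Ideal.map ((sg ℓ f ζ hζ) ^ t) (dv ℓ f ζ x y α) =
      ∏ i, ∏ j : Fin ℓ, pt ℓ f (x i) (ζ⁻¹ ^ t * (ζ ^ (j : ℕ) * y i)) ^ α i j := by
  rw [dv, ← Ideal.mapHom_apply, map_prod]
  refine Finset.prod_congr rfl fun i _ => ?_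
  rw [map_prod]
  refine Finset.prod_congr rfl fun j _ => ?_
  rw [map_pow, Ideal.mapHom_apply, map_pt]
  exact h0

/-- the product of the conjugates of the ideal -/
theorem prod_map (hPT : T_PT.{u}) (hJQ : T_JQ.{u}) (hℓ : ℓ.Prime) (ζ : K)
    (hζ : IsPrimitiveRoot ζ ℓ) {m : ℕ} (ω : Fin m → K) (hω : Function.Injective ω) {N : ℕ}
    (x y : Fin N → K) (hxy : ∀ i, y i ^ ℓ = (ff ω).eval (x i)) (α : Fin N → Fin ℓ → ℕ)
    (n : Fin m → ℕ) (hn : ∀ w, n w < ℓ) :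
    ∏ t ∈ Finset.range ℓ, Ideal.map ((sg ℓ (ff ω) ζ hζ.pow_eq_one) ^ t)
      (dv ℓ (ff ω) ζ x y α * Jq ℓ ω n) =
      Ideal.span {AdjoinRoot.of _ (qt ω n * ∏ i, (X - C (x i)) ^ (∑ j, α i j))} := by
  have h0 : ζ ≠ 0 := hζ.ne_zero hℓ.ne_zero
  have hsq : Squarefree (ff ω) := by
    have : (ff ω).Separable := by
      rw [ff]
      exact separable_prod_X_sub_C_iff.2 hω
    exact this.squarefree
  have hJ := (hJQ K ℓ hℓ m ω hω n hn).2.1
  have hinv : IsPrimitiveRoot ζ⁻¹ ℓ := hζ.inv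
  have hpt : ∀ (i : Fin N) (j : Fin ℓ),
      ∏ t ∈ Finset.range ℓ, pt ℓ (ff ω) (x i) (ζ⁻¹ ^ t * (ζ ^ (j : ℕ) * y i)) =
        Ideal.span {AdjoinRoot.of _ (X - C (x i))} := by
    intro i j
    rw [Finset.prod_range]
    refine hPT K ℓ hℓ ζ⁻¹ hinv (ff ω) hsq (x i) (ζ ^ (j : ℕ) * y i) ?_
    rw [mul_pow, ← pow_mul, mul_comm (j : ℕ) ℓ, pow_mul, hζ.pow_eq_one, one_pow, one_mul, hxy i]
  have hd : ∏ t ∈ Finset.range ℓ, Ideal.map ((sg ℓ (ff ω) ζ hζ.pow_eq_one) ^ t)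
      (dv ℓ (ff ω) ζ x y α) =
      Ideal.span {AdjoinRoot.of _ (∏ i, (X - C (x i)) ^ (∑ j, α i j))} := by
    simp_rw [map_dv (ff ω) ζ hζ.pow_eq_one h0]
    rw [Finset.prod_comm, map_prod, ← Ideal.prod_span_singleton]
    refine Finset.prod_congr rfl fun i _ => ?_
    rw [Finset.prod_comm, map_pow, ← Finset.prod_pow_eq_pow_sum, ← Ideal.prod_span_singleton]
    refine Finset.prod_congr rfl fun j _ => ?_
    rw [Finset.prod_pow, hpt i j, Ideal.span_singleton_pow]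
  simp_rw [Ideal.map_mul, map_Jq ω n ζ hζ.pow_eq_one h0]
  rw [Finset.prod_mul_distrib, hd, Finset.prod_const, Finset.card_range, hJ,
    Ideal.span_singleton_mul_span_singleton, ← map_mul, mul_comm]

end NMJ_

open NMJ_ in
/-- NMJ. -/
theorem p_NMJ (hPT : T_PT.{u}) (hJQ : T_JQ.{u}) (hBAS : T_BAS.{u}) (hSGE : T_SGE.{u}) :
    T_NMJ.{u} := by
  intro K _ ℓ _ ζ hζ m ω hω hm N x y hxy α n hn A hA
  have hℓ : ℓ.Prime := Fact.out
  have : NeZero ℓ := ⟨hℓ.ne_zero⟩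
  have h0 : ζ ≠ 0 := hζ.ne_zero hℓ.ne_zero
  constructor
  · rw [← (hJQ K ℓ hℓ m ω hω n hn).1 A]
    have : Ideal.span {el ℓ (ff ω) A} ≤ Jq ℓ ω n := by
      rw [← hA]
      exact Ideal.mul_le_inf.trans inf_le_right
    exact this (Ideal.mem_span_singleton_self _)
  obtain ⟨hs1, -⟩ := hSGE K ℓ hℓ.pos (ff ω) ζ hζ.pow_eq_one
  have hs : ∀ (B : Fin ℓ → K[X]) (t : ℕ),
      ((sg ℓ (ff ω) ζ hζ.pow_eq_one) ^ t) (el ℓ (ff ω) B) = el ℓ (ff ω) (tw ζ t B) := by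
    intro B t
    rw [RingHom.coe_pow]
    exact hs1 B t
  set M : K[X] := ∏ i, (X - C (x i)) ^ (∑ j, α i j) with hM
  set Nm : Crd ℓ (ff ω) := ∏ t ∈ Finset.range ℓ, el ℓ (ff ω) (tw ζ t A) with hNm
  -- the ideal
  have hspan : Ideal.span {Nm} = Ideal.span {AdjoinRoot.of _ (qt ω n * M)} := by
    rw [hM, ← prod_map hPT hJQ hℓ ζ hζ ω hω x y hxy α n hn, hNm, ← Ideal.prod_span_singleton]
    refine Finset.prod_congr rfl fun t _ => ?_
    rw [hA, Ideal.map_span, Set.image_singleton, hs]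
  -- invariance
  have hinvt : ((sg ℓ (ff ω) ζ hζ.pow_eq_one) ^ 1) Nm = Nm := by
    rw [hNm, map_prod]
    have e : ∀ t, ((sg ℓ (ff ω) ζ hζ.pow_eq_one) ^ 1) (el ℓ (ff ω) (tw ζ t A)) =
        el ℓ (ff ω) (tw ζ (t + 1) A) := by
      intro t
      rw [hs]
      congr 1
      funext j
      simp only [tw]
      rw [← mul_assoc, ← C_mul, ← pow_add]
      congr 3
      ring
    simp_rw [e]
    have el0 : el ℓ (ff ω) (tw ζ ℓ A) = el ℓ (ff ω) (tw ζ 0 A) := by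
      congr 1
      funext j
      simp only [tw]
      rw [pow_mul, hζ.pow_eq_one, one_pow, zero_mul, pow_zero]
    obtain ⟨k, rfl⟩ : ∃ k, ℓ = k + 1 := ⟨ℓ - 1, (Nat.succ_pred_eq_of_pos hℓ.pos).symm⟩
    rw [Finset.prod_range_succ, el0, Finset.prod_range_succ']
  obtain ⟨B, hB, -⟩ := hBAS K ℓ hℓ.pos (ff ω) Nm
  have huniq : ∀ B B' : Fin ℓ → K[X], el ℓ (ff ω) B = el ℓ (ff ω) B' → B = B' := by
    intro B B' h
    exact (hBAS K ℓ hℓ.pos (ff ω) (el ℓ (ff ω) B)).unique rfl h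
  have hBt : tw ζ 1 B = B := by
    apply huniq
    rw [← hs, ← hB, hinvt]
  have hB0 : B = Pi.single 0 (B 0) := by
    funext j
    by_cases hj : j = 0
    · rw [hj, Pi.single_eq_same]
    · rw [Pi.single_eq_of_ne hj]
      have h1 := congrFun hBt j
      simp only [tw, one_mul] at h1
      have h2 : C (ζ ^ (j : ℕ) - 1) * B j = 0 := by
        rw [C_sub, C_1, sub_mul, one_mul, h1, sub_self]
      rcases mul_eq_zero.1 h2 with h3 | h3
      · exfalso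
        rw [C_eq_zero, sub_eq_zero] at h3
        have hj' : (j : ℕ) ≠ 0 := by
          intro h
          apply hj
          ext
          rw [h]
          rfl
        exact hζ.pow_ne_one_of_pos_of_lt hj' j.2 h3
      · exact h3
  have hNof : Nm = AdjoinRoot.of _ (B 0) := by
    rw [of_el, ← hB0, hB]
  -- associated
  have hdvd : ∀ g g' : K[X], (AdjoinRoot.of _ g : Crd ℓ (ff ω)) ∣ AdjoinRoot.of _ g' → g ∣ g' := by
    rintro g g' ⟨z, hz⟩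
    obtain ⟨G, hG, -⟩ := hBAS K ℓ hℓ.pos (ff ω) z
    rw [hG, of_mul_el, of_el] at hz
    have := congrFun (huniq _ _ hz) 0
    rw [Pi.single_eq_same] at this
    exact ⟨G 0, this⟩
  rw [hNof] at hspan
  have hd1 : B 0 ∣ qt ω n * M := by
    apply hdvd
    rw [← Ideal.mem_span_singleton, hspan]
    exact Ideal.mem_span_singleton_self _
  have hd2 : qt ω n * M ∣ B 0 := by
    apply hdvd
    rw [← Ideal.mem_span_singleton, ← hspan]
    exact Ideal.mem_span_singleton_self _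
  obtain ⟨v, hv⟩ := associated_of_dvd_dvd hd2 hd1
  obtain ⟨c, hc, hcv⟩ := Polynomial.isUnit_iff.1 v.isUnit
  refine ⟨c, hc.ne_zero, ?_⟩
  rw [hNof, ← hv, ← hcv]
  congr 1
  ring

end SRK
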