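import Mathlib
import Pool.Agent.SRK.Targets

/-!
# NRM: norms, and their reduction
-/

namespace SRK

open Polynomial

universe u

namespace NRM_

/-- the polynomial in `Y` with coefficients `A j` twisted by `z ^ (t j)` -/
noncomputable def PP {R : Type*} [CommRing R] {ℓ : ℕ} (z : R) (A : Fin ℓ → R) (t : ℕ) : R[X] :=
  ∑ j : Fin ℓ, C (z ^ (t * (j : ℕ)) * A j) * X ^ (j : ℕ)

theorem PP_coeff {R : Type*} [CommRing R] {ℓ : ℕ} (z : R) (A : Fin ℓ → R) (t i : ℕ) :
    (PP z A t).coeff i = if h : i < ℓ then z ^ (t * i) * A ⟨i, h⟩ else 0 := by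
  unfold PP
  rw [finsetSum_coeff]
  simp only [coeff_C_mul, coeff_X_pow]
  split_ifs with h
  · rw [Finset.sum_eq_single (⟨i, h⟩ : Fin ℓ)]
    · simp
    · intro b _ hb
      have : i ≠ (b : ℕ) := fun e => hb (Fin.ext e.symm)
      simp [this]
    · simp
  · apply Finset.sum_eq_zero
    intro b _
    have : i ≠ (b : ℕ) := fun e => h (e ▸ b.2)
    simp [this]

theorem PP_comp {R : Type*} [CommRing R] {ℓ : ℕ} (z : R) (A : Fin ℓ → R) (t : ℕ) :
    (PP z A t).comp (C z * X) = PP z A (t + 1) := by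
  unfold PP
  rw [← coe_compRingHom_apply, map_sum]
  simp only [coe_compRingHom_apply]
  apply Finset.sum_congr rfl
  intro j _
  rw [mul_comp, C_comp, pow_comp, X_comp, mul_pow, ← C_pow, ← mul_assoc, ← C_mul]
  congr 2
  rw [add_mul, pow_add, one_mul]
  ring

theorem PP_per {R : Type*} [CommRing R] {ℓ : ℕ} (z : R) (hz : z ^ ℓ = 1) (A : Fin ℓ → R) :
    PP z A ℓ = PP z A 0 := by
  unfold PP
  apply Finset.sum_congr rfl
  intro j _
  rw [pow_mul, hz, one_pow, Nat.zero_mul, pow_zero]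

/-- the product of the conjugates -/
noncomputable def QQ {R : Type*} [CommRing R] {ℓ : ℕ} (z : R) (A : Fin ℓ → R) : R[X] :=
  ∏ t ∈ Finset.range ℓ, PP z A t

theorem QQ_comp {R : Type*} [CommRing R] {ℓ : ℕ} (z : R) (hz : z ^ ℓ = 1) (A : Fin ℓ → R) :
    (QQ z A).comp (C z * X) = QQ z A := by
  unfold QQ
  rw [prod_comp]
  have h1 : ∀ t, (PP z A t).comp (C z * X) = PP z A (t + 1) := PP_comp z A
  simp only [h1]
  have h2 := Finset.prod_range_succ (fun t => PP z A t) ℓ
  have h3 := Finset.prod_range_succ' (fun t => PP z A t) ℓ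
  rcases Nat.eq_zero_or_pos ℓ with hl | hl
  · subst hl; simp
  · obtain ⟨m, rfl⟩ : ∃ m, ℓ = m + 1 := ⟨ℓ - 1, by omega⟩
    rw [Finset.prod_range_succ, PP_per z hz A]
    conv_rhs => rw [Finset.prod_range_succ']

theorem QQ_coeff {R : Type*} [CommRing R] [IsDomain R] {ℓ : ℕ} (z : R)
    (hz : IsPrimitiveRoot z ℓ) (A : Fin ℓ → R) (i : ℕ) (hi : ¬ ℓ ∣ i) : (QQ z A).coeff i = 0 := by
  have h1 := QQ_comp z hz.pow_eq_one A
  have h2 : ((QQ z A).comp (C z * X)).coeff i = z ^ i * (QQ z A).coeff i := by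
    rw [comp_C_mul_X_coeff]
    ring
  rw [h1] at h2
  have h3 : (z ^ i - 1) * (QQ z A).coeff i = 0 := by
    rw [sub_mul, one_mul, ← h2, sub_self]
  rcases mul_eq_zero.1 h3 with h4 | h4
  · exact absurd ((hz.pow_eq_one_iff_dvd i).1 (sub_eq_zero.1 h4)) hi
  · exact h4

theorem expand_contract {R : Type*} [CommRing R] (ℓ : ℕ) (hl : 0 < ℓ) (Q : R[X])
    (hQ : ∀ i, ¬ ℓ ∣ i → Q.coeff i = 0) : expand R ℓ (contract ℓ Q) = Q := by
  ext i
  rw [coeff_expand hl]
  split_ifs with h
  · rw [coeff_contract hl.ne', Nat.div_mul_cancel h]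
  · exact (hQ i h).symm

end NRM_

open NRM_

theorem p_NRM : T_NRM.{u} := by
  intro O k _ _ _ ℓ hℓ _ r ζ hζ f A
  have hprime : ℓ.Prime := hℓ.out
  have hpos : 0 < ℓ := hprime.pos
  have hz : IsPrimitiveRoot (C ζ : O[X]) ℓ := hζ.map_of_injective C_injective
  set Q : O[X][X] := QQ (C ζ) A with hQ
  set G : O[X][X] := contract ℓ Q with hG
  have hexp : expand O[X] ℓ G = Q := NRM_.expand_contract ℓ hpos Q (fun i hi => QQ_coeff _ hz A i hi)
  refine ⟨G.eval f, ?_, ?_⟩
  · have h1 : ∀ t, el ℓ f (tw ζ t A) =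
        AdjoinRoot.mk ((X : Polynomial (Polynomial O)) ^ ℓ - C f) (PP (C ζ) A t) := by
      intro t
      unfold el PP tw
      rw [map_sum]
      apply Finset.sum_congr rfl
      intro j _
      rw [map_mul (AdjoinRoot.mk _), map_pow (AdjoinRoot.mk _), AdjoinRoot.mk_C, AdjoinRoot.mk_X,
        ← C_pow]
    simp only [h1]
    rw [← map_prod]
    have h2 : ∏ t ∈ Finset.range ℓ, PP (C ζ) A t = expand O[X] ℓ G := hexp.symm
    rw [h2]
    have h3 : AdjoinRoot.mk ((X : Polynomial (Polynomial O)) ^ ℓ - C f) (expand O[X] ℓ G) =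
        AdjoinRoot.mk ((X : Polynomial (Polynomial O)) ^ ℓ - C f) (C (G.eval f)) := by
      rw [AdjoinRoot.mk_eq_mk]
      have h4 : (X : Polynomial (Polynomial O)) ^ ℓ - C f ∣
          G.eval₂ C (X ^ ℓ) - G.eval₂ C (C f) := by
        rw [eval₂_eq_sum_range, eval₂_eq_sum_range, ← Finset.sum_sub_distrib]
        apply Finset.dvd_sum
        intro i _
        rw [← mul_sub]
        exact Dvd.dvd.mul_left (sub_dvd_pow_sub_pow _ _ i) _
      have h5 : G.eval₂ C (C f) = C (G.eval f) := by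
        rw [← eval₂_at_apply]
      rw [h5] at h4
      have h7 : expand O[X] ℓ G = G.eval₂ C (X ^ ℓ) := by
        rw [expand_eq_sum, eval₂_eq_sum]
      rw [h7]
      exact h4
    rw [h3, AdjoinRoot.mk_C]
  · -- reduction
    have hrz : r ζ = 1 := by
      have h1 : (r ζ - 1) ^ ℓ = 0 := by
        rw [sub_pow_char, ← map_pow, hζ.pow_eq_one, map_one, one_pow, sub_self]
      exact sub_eq_zero.1 (pow_eq_zero_iff hpos.ne' |>.1 h1)
    have hQm : Q.map (mapRingHom r) =
        expand k[X] ℓ (∑ j : Fin ℓ, C (((A j).map r) ^ ℓ) * X ^ (j : ℕ)) := by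
      rw [hQ]
      unfold QQ
      rw [Polynomial.map_prod]
      have h1 : ∀ t ∈ Finset.range ℓ, (PP (C ζ) A t).map (mapRingHom r) =
          ∑ j : Fin ℓ, C ((A j).map r) * X ^ (j : ℕ) := by
        intro t _
        unfold PP
        rw [Polynomial.map_sum]
        apply Finset.sum_congr rfl
        intro j _
        rw [Polynomial.map_mul, Polynomial.map_pow, map_X, map_C]
        simp [hrz]
      rw [Finset.prod_congr rfl h1, Finset.prod_const, Finset.card_range, sum_pow_char, map_sum]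
      apply Finset.sum_congr rfl
      intro j _
      rw [mul_pow, map_mul (expand k[X] ℓ), map_pow (expand k[X] ℓ), expand_X, expand_C, ← C_pow,
        ← pow_mul, ← pow_mul, mul_comm ℓ]
    have hGm : G.map (mapRingHom r) = ∑ j : Fin ℓ, C (((A j).map r) ^ ℓ) * X ^ (j : ℕ) := by
      apply expand_injective hpos
      rw [← hQm, ← map_expand, hexp]
    have h6 : (G.eval f).map r = (G.map (mapRingHom r)).eval (f.map r) := by
      rw [eval_map, ← coe_mapRingHom, eval₂_at_apply]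
    rw [h6, hGm, eval_finsetSum]
    apply Finset.sum_congr rfl
    intro j _
    rw [eval_mul, eval_C, eval_pow, eval_X]

end SRK
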