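import Pool.Agent.SRK.Targets
import Pool.Agent.RD.Targets2

set_option autoImplicit false

/-!
# PHIS: generic coefficients have no bad system at infinity (superelliptic case)
-/

namespace SRK

open MvPolynomial

universe u

namespace PHIS_

/-- the coefficient variables -/
abbrev Iv (d g : ℕ) : Type := Fin g × Fin (d + 1)

/-- the other variables: the parameters, the integral functions, the inverses, the weights -/
abbrev Kv (d n g : ℕ) : Type := (Fin d ⊕ Fin n) ⊕ (Fin g ⊕ (Fin g × Fin g))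

variable {k : Type u} [Field k] {d n D g : ℕ}

/-- the abscissas, in an algebra -/
noncomputable def av {L : Type*} [Field L] [Algebra k L] (D : ℕ)
    (F : Fin g → MvPolynomial (Fin d ⊕ Fin n) k) (c : Iv d g → L) (p : Fin d → L) (s : Fin n → L)
    (i : Fin g) : L :=
  aeval (Sum.elim p s) (F i) + ∑ m : Fin d, c (i, m.succ) * p m ^ D

/-- the conditions -/
structure Sol {L : Type*} [Field L] [Algebra k L] (ℓ M D : ℕ) (Q : Finset (Fin d)) (r : Fin n → ℕ)
    (b : Fin n → ℕ → MvPolynomial (Fin d) k) (F : Fin g → MvPolynomial (Fin d ⊕ Fin n) k)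
    (S J : Finset (Fin g)) (m : Fin d)
    (c : Iv d g → L) (p : Fin d → L) (s : Fin n → L) (h : Fin g → L) (w : Fin g → Fin g → L) :
    Prop where
  pm : p m = 1
  pQ : ∀ t ∈ Q, p t = 0
  base : ∀ j, s j ^ r j + ∑ l ∈ Finset.range (r j), aeval p (b j l) * s j ^ l = 0
  hS : ∀ i ∈ S, av D F c p s i = 0
  hN : ∀ i, i ∉ S → h i * av D F c p s i = 1
  w4 : ∀ j ∈ J, ∀ i, w j i ^ ℓ = w j i
  hJ : ∀ j ∈ J, h j ^ M = ∑ i ∈ (J ∪ S)ᶜ, w j i * h i ^ M

/-- the form -/
noncomputable def FP (D : ℕ) (F : Fin g → MvPolynomial (Fin d ⊕ Fin n) k) (i : Fin g) :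
    MvPolynomial (Iv d g ⊕ Kv d n g) k :=
  rename (fun v => Sum.inr (Sum.inl v)) (F i) +
    ∑ m : Fin d, X (Sum.inl (i, m.succ)) * X (Sum.inr (Sum.inl (Sum.inl m))) ^ D

/-- the equation of the base -/
noncomputable def BP (g : ℕ) (r : Fin n → ℕ) (b : Fin n → ℕ → MvPolynomial (Fin d) k) (j : Fin n) :
    MvPolynomial (Iv d g ⊕ Kv d n g) k :=
  X (Sum.inr (Sum.inl (Sum.inr j))) ^ r j + ∑ l ∈ Finset.range (r j),
    rename (fun v => Sum.inr (Sum.inl (Sum.inl v))) (b j l) *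
      X (Sum.inr (Sum.inl (Sum.inr j))) ^ l

/-- the system of equations -/
def sys (ℓ M D : ℕ) (Q : Finset (Fin d)) (r : Fin n → ℕ) (b : Fin n → ℕ → MvPolynomial (Fin d) k)
    (F : Fin g → MvPolynomial (Fin d ⊕ Fin n) k) (S J : Finset (Fin g)) (m : Fin d) :
    Set (MvPolynomial (Iv d g ⊕ Kv d n g) k) :=
  {f | f = X (Sum.inr (Sum.inl (Sum.inl m))) - 1 ∨
    (∃ t ∈ Q, f = X (Sum.inr (Sum.inl (Sum.inl t)))) ∨ (∃ j, f = BP g r b j) ∨
    (∃ i ∈ S, f = FP D F i) ∨
    (∃ i, i ∉ S ∧ f = X (Sum.inr (Sum.inr (Sum.inl i))) * FP D F i - 1) ∨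
    (∃ j ∈ J, ∃ i, f = X (Sum.inr (Sum.inr (Sum.inr (j, i)))) ^ ℓ -
      X (Sum.inr (Sum.inr (Sum.inr (j, i))))) ∨
    (∃ j ∈ J, f = X (Sum.inr (Sum.inr (Sum.inl j))) ^ M - ∑ i ∈ (J ∪ S)ᶜ,
      X (Sum.inr (Sum.inr (Sum.inr (j, i)))) * X (Sum.inr (Sum.inr (Sum.inl i))) ^ M)}

section

variable {L : Type*} [Field L] [Algebra k L] (r : Fin n → ℕ)
    (b : Fin n → ℕ → MvPolynomial (Fin d) k) (F : Fin g → MvPolynomial (Fin d ⊕ Fin n) k)
    (c : Iv d g → L) (p : Fin d → L) (s : Fin n → L) (h : Fin g → L) (w : Fin g → Fin g → L)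

/-- the point -/
def pnt : Iv d g ⊕ Kv d n g → L :=
  Sum.elim c (Sum.elim (Sum.elim p s) (Sum.elim h (fun ji => w ji.1 ji.2)))

theorem aeval_FP (i : Fin g) : aeval (pnt c p s h w) (FP D F i) = av D F c p s i := by
  unfold FP av
  rw [map_add, aeval_rename, map_sum]
  congr 1
  refine Finset.sum_congr rfl fun m _ => ?_
  rw [map_mul, map_pow, aeval_X, aeval_X]
  rfl

theorem aeval_BP (j : Fin n) : aeval (pnt c p s h w) (BP g r b j) =
    s j ^ r j + ∑ l ∈ Finset.range (r j), aeval p (b j l) * s j ^ l := by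
  unfold BP
  rw [map_add, map_pow, aeval_X, map_sum]
  congr 1
  refine Finset.sum_congr rfl fun m _ => ?_
  rw [map_mul, map_pow, aeval_X, aeval_rename]
  rfl

theorem sol_of_sys {ℓ M : ℕ} {Q : Finset (Fin d)} {S J : Finset (Fin g)} {m : Fin d}
    (hh : ∀ f ∈ sys ℓ M D Q r b F S J m, aeval (pnt c p s h w) f = 0) :
    Sol ℓ M D Q r b F S J m c p s h w := by
  refine ⟨?_, ?_, ?_, ?_, ?_, ?_, ?_⟩
  · have := hh _ (Or.inl rfl)
    rw [map_sub, map_one, sub_eq_zero, aeval_X] at this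
    exact this
  · intro t ht
    have := hh _ (Or.inr (Or.inl ⟨t, ht, rfl⟩))
    rw [aeval_X] at this
    exact this
  · intro j
    have := hh _ (Or.inr (Or.inr (Or.inl ⟨j, rfl⟩)))
    rw [aeval_BP] at this
    exact this
  · intro i hi
    have := hh _ (Or.inr (Or.inr (Or.inr (Or.inl ⟨i, hi, rfl⟩))))
    rw [aeval_FP] at this
    exact this
  · intro i hi
    have := hh _ (Or.inr (Or.inr (Or.inr (Or.inr (Or.inl ⟨i, hi, rfl⟩)))))
    rw [map_sub, map_one, sub_eq_zero, map_mul, aeval_FP, aeval_X] at this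
    exact this
  · intro j hj i
    have := hh _ (Or.inr (Or.inr (Or.inr (Or.inr (Or.inr (Or.inl ⟨j, hj, i, rfl⟩))))))
    rw [map_sub, map_pow, sub_eq_zero, aeval_X] at this
    exact this
  · intro j hj
    have := hh _ (Or.inr (Or.inr (Or.inr (Or.inr (Or.inr (Or.inr ⟨j, hj, rfl⟩))))))
    rw [map_sub, sub_eq_zero, map_sum, map_pow, aeval_X] at this
    simp only [map_mul, map_pow, aeval_X] at this
    exact this

theorem sys_of_sol {ℓ M : ℕ} {Q : Finset (Fin d)} {S J : Finset (Fin g)} {m : Fin d}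
    (hh : Sol ℓ M D Q r b F S J m c p s h w) :
    ∀ f ∈ sys ℓ M D Q r b F S J m, aeval (pnt c p s h w) f = 0 := by
  intro f hf
  rcases hf with rfl | ⟨t, ht, rfl⟩ | ⟨j, rfl⟩ | ⟨i, hi, rfl⟩ | ⟨i, hi, rfl⟩ | ⟨j, hj, i, rfl⟩ |
    ⟨j, hj, rfl⟩
  · rw [map_sub, map_one, sub_eq_zero, aeval_X]
    exact hh.pm
  · rw [aeval_X]
    exact hh.pQ t ht
  · rw [aeval_BP]
    exact hh.base j
  · rw [aeval_FP]
    exact hh.hS i hi
  · rw [map_sub, map_one, sub_eq_zero, map_mul, aeval_FP, aeval_X]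
    exact hh.hN i hi
  · rw [map_sub, map_pow, sub_eq_zero, aeval_X]
    exact hh.w4 j hj i
  · rw [map_sub, sub_eq_zero, map_sum, map_pow, aeval_X]
    simp only [map_mul, map_pow, aeval_X]
    exact hh.hJ j hj

end

/-- the generic system is unsolvable -/
theorem no_sol (hT : RD.T_TRD.{u}) {ℓ M : ℕ} (hℓ : 2 ≤ ℓ) (hM : 0 < M) {e : ℕ}
    (Q : Finset (Fin d)) (hQ : Q.card + e = d + 1) (r : Fin n → ℕ)
    (b : Fin n → ℕ → MvPolynomial (Fin d) k) (F : Fin g → MvPolynomial (Fin d ⊕ Fin n) k)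
    (S J : Finset (Fin g)) (m : Fin d)
    (hcard : e ≤ J.card + S.card) (hdis : Disjoint J S) (L : Type u) [Field L] [Algebra k L]
    (c : Iv d g → L) (hc : AlgebraicIndependent k c) (p : Fin d → L) (s : Fin n → L)
    (h : Fin g → L)
    (w : Fin g → Fin g → L) (hs : Sol ℓ M D Q r b F S J m c p s h w) : False := by
  classical
  set B : Finset (Iv d g) := (S ∪ J).image (fun i => (i, m.succ)) with hB
  have hQle : Q.card ≤ d := by
    have := Finset.card_le_univ Q
    rwa [Fintype.card_fin] at this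
  have hBcard : (Qᶜ).card < B.card := by
    rw [hB, Finset.card_image_of_injective _ (fun i j hij => (Prod.ext_iff.1 hij).1),
      Finset.card_union_of_disjoint hdis.symm, Finset.card_compl, Fintype.card_fin]
    omega
  have hmem : ∀ i α, (i, α) ∈ B ↔ (i ∈ S ∪ J ∧ α = m.succ) := by
    intro i α
    rw [hB, Finset.mem_image]
    constructor
    · rintro ⟨i', hi', he⟩
      obtain ⟨rfl, rfl⟩ := Prod.ext_iff.1 he
      exact ⟨hi', rfl⟩
    · rintro ⟨hi, rfl⟩
      exact ⟨i, hi, rfl⟩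
  set p' : Fin (Qᶜ).card → L := fun i => p ((Qᶜ).equivFin.symm i) with hp'
  apply hT k L (Iv d g) c hc (Qᶜ).card p' B hBcard
  set L0 := IntermediateField.adjoin k (Set.range p' ∪ c '' {w | w ∉ B}) with hL0
  have halg : ∀ x ∈ L0, IsAlgebraic L0 x := fun x hx =>
    isAlgebraic_algebraMap (⟨x, hx⟩ : L0)
  set A := algebraicClosure L0 L with hA
  have hAi : ∀ x : L, x ∈ A ↔ IsAlgebraic L0 x := fun x => mem_algebraicClosure_iff
  have hpL : ∀ j, p j ∈ L0 := by
    intro j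
    by_cases hj : j ∈ Q
    · rw [hs.pQ j hj]
      exact zero_mem _
    · have hj' : j ∈ Qᶜ := Finset.mem_compl.2 hj
      refine IntermediateField.subset_adjoin _ _ (Or.inl ⟨(Qᶜ).equivFin ⟨j, hj'⟩, ?_⟩)
      rw [hp']
      simp
  have hp0 : ∀ j, p j ∈ A := fun j => (hAi _).2 (halg _ (hpL j))
  have hc0 : ∀ u, u ∉ B → c u ∈ A := fun u hu => (hAi _).2 (halg _
    (IntermediateField.subset_adjoin _ _ (Or.inr ⟨u, hu, rfl⟩)))
  have hk0 : ∀ x : k, algebraMap k L x ∈ A := fun x => (hAi _).2 (halg _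
    (IntermediateField.algebraMap_mem L0 x))
  -- polynomial expressions
  have hbL : ∀ f : MvPolynomial (Fin d) k, aeval p f ∈ L0 := by
    intro f
    rw [aeval_def, eval₂_eq]
    exact sum_mem fun e _ => mul_mem (IntermediateField.algebraMap_mem L0 _)
      (prod_mem fun j _ => pow_mem (hpL j) _)
  have hs0 : ∀ j, s j ∈ A := by
    intro j
    rw [hAi]
    have hb := hs.base j
    have hr : r j ≠ 0 := by
      intro h0
      rw [h0] at hb
      simp at hb
    refine ⟨Polynomial.X ^ r j + ∑ l ∈ Finset.range (r j),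
      Polynomial.C (⟨aeval p (b j l), hbL _⟩ : L0) * Polynomial.X ^ l, ?_, ?_⟩
    · apply Polynomial.Monic.ne_zero
      apply Polynomial.monic_X_pow_add
      refine lt_of_le_of_lt (Polynomial.degree_sum_le _ _) ?_
      rw [Finset.sup_lt_iff (by exact_mod_cast WithBot.bot_lt_coe (r j))]
      intro l hl
      refine lt_of_le_of_lt (Polynomial.degree_C_mul_X_pow_le _ _) ?_
      exact_mod_cast Finset.mem_range.1 hl
    · rw [map_add, map_pow, Polynomial.aeval_X, map_sum]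
      rw [← hb]
      congr 1
      refine Finset.sum_congr rfl fun l _ => ?_
      rw [map_mul, map_pow, Polynomial.aeval_X, Polynomial.aeval_C]
      rfl
  have hF0 : ∀ i, aeval (Sum.elim p s) (F i) ∈ A := by
    intro i
    rw [aeval_def, eval₂_eq]
    refine sum_mem fun e _ => mul_mem (hk0 _) (prod_mem fun j _ => pow_mem ?_ _)
    rcases j with j | j
    · exact hp0 j
    · exact hs0 j
  set rest : Fin g → L := fun i => aeval (Sum.elim p s) (F i) +
    ∑ m' ∈ Finset.univ.erase m, c (i, m'.succ) * p m' ^ D with hrest_def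
  have hrest : ∀ i, rest i ∈ A := by
    intro i
    refine add_mem (hF0 i) (sum_mem fun m' hm' => mul_mem (hc0 _ ?_) (pow_mem (hp0 _) _))
    rw [hmem]
    rintro ⟨_, h2⟩
    exact (Finset.ne_of_mem_erase hm') (Fin.succ_injective _ h2)
  have htop : ∀ i, av D F c p s i = c (i, m.succ) + rest i := by
    intro i
    rw [hrest_def]
    unfold av
    rw [← Finset.add_sum_erase _ _ (Finset.mem_univ m), hs.pm, one_pow, mul_one]
    ring
  -- the inverses outside `S` and `J`
  have hh : ∀ i, i ∈ (J ∪ S)ᶜ → h i ∈ A := by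
    intro i hi
    rw [Finset.mem_compl, Finset.mem_union, not_or] at hi
    have h1 := hs.hN i hi.2
    have h2 : av D F c p s i ∈ A := by
      rw [htop i]
      refine add_mem (hc0 _ ?_) (hrest i)
      rw [hmem, Finset.mem_union]
      rintro ⟨h3 | h3, _⟩
      · exact hi.2 h3
      · exact hi.1 h3
    rw [eq_inv_of_mul_eq_one_left h1]
    exact inv_mem h2
  intro u hu
  obtain ⟨i, α⟩ := u
  obtain ⟨hi, rfl⟩ := (hmem i α).1 hu
  rw [← hAi]
  rcases Finset.mem_union.1 hi with hiS | hiJ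
  · have h1 := hs.hS i hiS
    rw [htop i] at h1
    rw [eq_neg_of_add_eq_zero_left h1]
    exact neg_mem (hrest i)
  · have hw : ∀ i', w i i' ∈ A := by
      intro i'
      rw [hAi]
      refine ⟨Polynomial.X ^ ℓ - Polynomial.X, ?_, ?_⟩
      · intro h0
        have h2 := congrArg (fun q => Polynomial.coeff q ℓ) h0
        have h3 : (1 : ℕ) ≠ ℓ := by omega
        simp [Polynomial.coeff_X, h3] at h2
      · rw [map_sub, map_pow, Polynomial.aeval_X, hs.w4 i hiJ i', sub_self]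
    have h1 : h i ^ M ∈ A := by
      rw [hs.hJ i hiJ]
      exact sum_mem fun i' hi' => mul_mem (hw i') (pow_mem (hh i' hi') _)
    have h1' : h i ∈ A := by
      rw [hAi] at h1 ⊢
      exact IsAlgebraic.of_pow hM h1
    have hiS : i ∉ S := fun h => Finset.disjoint_left.1 hdis hiJ h
    have h2 := hs.hN i hiS
    have h3 : av D F c p s i = (h i)⁻¹ := eq_inv_of_mul_eq_one_right h2
    rw [htop i] at h3
    have h4 : c (i, m.succ) = (h i)⁻¹ - rest i := by
      rw [← h3]; ring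
    rw [h4]
    exact sub_mem (inv_mem h1') (hrest i)

end PHIS_

open PHIS_ in
theorem p_PHIS (h1 : RD.T_TRD.{u}) (h2 : RD.T_ELM.{u}) : T_PHIS.{u} := by
  classical
  intro k _ ℓ _ _ m d e' D n e hm hgen Q hQ r b F
  have hℓ : 2 ≤ ℓ := (Fact.out : ℓ.Prime).two_le
  set M : ℕ := ℓ * (m - 1) - m with hMdef
  have hm2 : 2 ≤ m := by
    by_contra hcon
    have : m - 1 = 0 := by omega
    rw [this] at hgen
    simp at hgen
  have hge : m + 1 ≤ ℓ * (m - 1) := by
    have : ℓ * (m - 1) = (ℓ - 1) * (m - 1) + (m - 1) := by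
      obtain ⟨q, rfl⟩ : ∃ q, ℓ = q + 1 := ⟨ℓ - 1, by omega⟩
      rw [Nat.add_sub_cancel]; ring
    omega
  have hM : 0 < M := by omega
  have hmk : (m : k) ≠ 0 := by
    intro h0
    exact hm ((CharP.cast_eq_zero_iff k ℓ m).1 h0)
  have key : ∀ t : Finset (Fin n) × Finset (Fin n) × Fin d,
      ∃ Φ : MvPolynomial (Iv d n) k, Φ ≠ 0 ∧ (Disjoint t.2.1 t.1 →
        e ≤ t.2.1.card + t.1.card → ∀ c : Iv d n → k, eval c Φ ≠ 0 →
        ∀ y : Kv d e' n → k, ∃ f ∈ sys ℓ M D Q r b F t.1 t.2.1 t.2.2,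
          eval (Sum.elim c y) f ≠ 0) := by
    rintro ⟨S, J, t0⟩
    by_cases hd : Disjoint J S ∧ e ≤ J.card + S.card
    · obtain ⟨Φ, hΦ, hprop⟩ := h2 k (Iv d n) (Kv d e' n) (sys ℓ M D Q r b F S J t0) (by
        intro L _ _ c y hc
        by_contra hcon
        push Not at hcon
        have hpt : (pnt c (fun j => y (Sum.inl (Sum.inl j))) (fun j => y (Sum.inl (Sum.inr j)))
            (fun i => y (Sum.inr (Sum.inl i))) (fun j i => y (Sum.inr (Sum.inr (j, i)))) :
            Iv d n ⊕ Kv d e' n → L) = Sum.elim c y := by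
          funext x
          rcases x with x | (x | x) | x | x <;> rfl
        rw [← hpt] at hcon
        exact no_sol h1 hℓ hM Q hQ r b F S J t0 hd.2 hd.1 L c hc _ _ _ _
          (sol_of_sys r b F c _ _ _ _ hcon))
      exact ⟨Φ, hΦ, fun _ _ => hprop⟩
    · exact ⟨1, one_ne_zero, fun ha hb => absurd ⟨ha, hb⟩ hd⟩
  choose Φ hΦ hprop using key
  refine ⟨∏ t, Φ t, Finset.prod_ne_zero_iff.2 fun t _ => hΦ t, ?_⟩
  intro c hc p s hbase hpQ ⟨t0, ht0⟩ S J w hbad
  obtain ⟨b1, b2, b3, b4, b5, b6⟩ := hbad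
  have hder : ∀ x : k, (Polynomial.derivative (Polynomial.X ^ m : Polynomial k)).eval x =
      (m : k) * x ^ (m - 1) := by
    intro x
    rw [Polynomial.derivative_X_pow]
    simp
  have hLam : ∀ x : k, x ≠ 0 → Lam ℓ (Polynomial.X ^ m : Polynomial k) x =
      ((m : k) ^ ℓ)⁻¹ * x⁻¹ ^ M := by
    intro x hx
    unfold Lam
    rw [hder]
    have h3 : x ^ (ℓ * (m - 1)) = x ^ M * x ^ m := by
      rw [← pow_add]
      congr 1
      omega
    rw [mul_pow, ← pow_mul, mul_comm (m - 1) ℓ, h3, inv_pow]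
    simp only [Polynomial.eval_pow, Polynomial.eval_X]
    field_simp
  rw [map_prod] at hc
  have hc' := Finset.prod_ne_zero_iff.1 hc (S, J, t0) (Finset.mem_univ _)
  have hav : ∀ i, av D F c p s i = absc0 D F c p s i := by
    intro i
    unfold av absc0
    rw [← coe_aeval_eq_eval]
    rfl
  have hx0 : ∀ i, i ∉ S → absc0 D F c p s i ≠ 0 := by
    intro i hi h0
    apply b4 i hi
    rw [hder, h0, zero_pow (by omega), mul_zero]
  obtain ⟨f, hf, hne⟩ := hprop (S, J, t0) b1 b2 c hc'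
    (Sum.elim (Sum.elim p s) (Sum.elim (fun i => (absc0 D F c p s i)⁻¹) (fun ji => w ji.1 ji.2)))
  apply hne
  have := sys_of_sol (k := k) (L := k) r b F c p s (fun i => (absc0 D F c p s i)⁻¹) w
    (ℓ := ℓ) (M := M) (Q := Q) (S := S) (J := J) (m := t0) (D := D) ?_ f hf
  · rw [← coe_aeval_eq_eval]
    exact this
  · refine ⟨ht0, hpQ, ?_, ?_, ?_, b5, ?_⟩
    · intro j
      have := hbase j
      rw [← this]
      congr 1
    · intro i hi
      rw [hav]
      have h3 := b3 i hi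
      rw [hder, mul_eq_zero] at h3
      rcases h3 with h3 | h3
      · exact absurd h3 hmk
      · exact pow_eq_zero_iff (by omega) |>.1 h3
    · intro i hi
      rw [hav]
      exact inv_mul_cancel₀ (hx0 i hi)
    · intro j hj
      have hjS : j ∉ S := fun h => Finset.disjoint_left.1 b1 hj h
      have h6 := b6 j hj
      rw [hLam _ (hx0 j hjS)] at h6
      have hm' : ((m : k) ^ ℓ)⁻¹ ≠ 0 := inv_ne_zero (pow_ne_zero _ hmk)
      apply mul_left_cancel₀ hm'
      rw [h6, Finset.mul_sum]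
      refine Finset.sum_congr rfl fun i hi => ?_
      rw [Finset.mem_compl, Finset.mem_union, not_or] at hi
      rw [hLam _ (hx0 i hi.2)]
      ring

end SRK
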