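import Mathlib
import Pool.Agent.SRK.Targets
import Pool.Agent.RD.Targets

set_option autoImplicit false

/-!
SRK-PHMS: generic coefficients, no bad system over the residue field, integral parameters.
-/

namespace SRK

open MvPolynomial

universe u

namespace PHMS_

/-! ### the polynomial `fam` -/

theorem map_fam {S T : Type*} [CommRing S] [CommRing T] (φ : S →+* T) {m : ℕ} (a : Fin m → S) :
    (fam a).map φ = fam (fun κ => φ (a κ)) := by
  unfold fam
  rw [Polynomial.map_add, Polynomial.map_pow, Polynomial.map_X, Polynomial.map_sum]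
  congr 1
  refine Finset.sum_congr rfl fun κ _ => ?_
  rw [Polynomial.map_mul, Polynomial.map_C, Polynomial.map_pow, Polynomial.map_X]

theorem eval_fam {S T : Type*} [CommRing S] [CommRing T] (φ : S →+* T) {m : ℕ} (a : Fin m → S)
    (x : S) : φ ((fam a).eval x) = (fam (fun κ => φ (a κ))).eval (φ x) := by
  rw [← map_fam, Polynomial.eval_map, Polynomial.eval₂_hom]

theorem eval_der {S T : Type*} [CommRing S] [CommRing T] (φ : S →+* T) {m : ℕ} (a : Fin m → S)
    (x : S) : φ ((Polynomial.derivative (fam a)).eval x) =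
      (Polynomial.derivative (fam (fun κ => φ (a κ)))).eval (φ x) := by
  rw [← map_fam, Polynomial.derivative_map, Polynomial.eval_map, Polynomial.eval₂_hom]

theorem low {S : Type*} [CommRing S] {m : ℕ} (a : Fin m → S) :
    (∑ κ : Fin m, Polynomial.C (a κ) * Polynomial.X ^ (m - 1 - (κ : ℕ))).degree <
      ((m : ℕ) : WithBot ℕ) := by
  rw [Polynomial.degree_lt_iff_coeff_zero]
  intro j hj
  rw [Polynomial.finsetSum_coeff]
  refine Finset.sum_eq_zero fun κ _ => ?_
  rw [Polynomial.coeff_C_mul, Polynomial.coeff_X_pow, if_neg, mul_zero]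
  have := κ.2
  omega

theorem fam_monic {S : Type*} [CommRing S] {m : ℕ} (a : Fin m → S) : (fam a).Monic := by
  unfold fam
  exact Polynomial.monic_X_pow_add (low a)

theorem fam_deg {S : Type*} [CommRing S] [Nontrivial S] {m : ℕ} (a : Fin m → S) :
    (fam a).natDegree = m := by
  unfold fam
  rw [Polynomial.natDegree_add_eq_left_of_degree_lt, Polynomial.natDegree_X_pow]
  rw [Polynomial.degree_X_pow]
  exact low a

theorem der_deg {F : Type*} [Field F] {m : ℕ} (hm : 0 < m) (hmF : (m : F) ≠ 0) (a : Fin m → F) :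
    (Polynomial.derivative (fam a)).natDegree = m - 1 := by
  refine Polynomial.natDegree_eq_of_le_of_coeff_ne_zero ?_ ?_
  · refine (Polynomial.natDegree_derivative_le _).trans ?_
    rw [fam_deg]
  · rw [Polynomial.coeff_derivative]
    have h1 : m - 1 + 1 = m := by omega
    have h2 : (fam a).coeff m = 1 := by
      have := (fam_monic a).coeff_natDegree
      rwa [fam_deg] at this
    have h3 : (((m - 1 : ℕ) : F) + 1) = (m : F) := by
      exact_mod_cast congrArg (Nat.cast : ℕ → F) h1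
    rw [h1, h2, one_mul, h3]
    exact hmF

theorem der_ne {F : Type*} [Field F] {m : ℕ} (hm : 2 ≤ m) (hmF : (m : F) ≠ 0) (a : Fin m → F) :
    Polynomial.derivative (fam a) ≠ 0 := by
  intro h
  have h1 := der_deg (by omega) hmF a
  rw [h, Polynomial.natDegree_zero] at h1
  omega

theorem alg_S {F L : Type*} [Field F] [Field L] [Algebra F L] {m : ℕ} (hm : 2 ≤ m)
    (hmF : (m : F) ≠ 0) (a : Fin m → F) (x : L)
    (h : (Polynomial.derivative (fam fun κ => algebraMap F L (a κ))).eval x = 0) :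
    IsAlgebraic F x := by
  refine ⟨Polynomial.derivative (fam a), der_ne hm hmF a, ?_⟩
  rw [← map_fam, Polynomial.derivative_map, Polynomial.eval_map_algebraMap] at h
  exact h

theorem alg_J {F L : Type*} [Field F] [Field L] [Algebra F L] {m ℓ : ℕ} (hm : 2 ≤ m)
    (hℓ : m < ℓ * (m - 1)) (hmF : (m : F) ≠ 0) (a : Fin m → F) (γ : F) (x : L)
    (h : (fam fun κ => algebraMap F L (a κ)).eval x =
      algebraMap F L γ * (Polynomial.derivative (fam fun κ => algebraMap F L (a κ))).eval x ^ ℓ) :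
    IsAlgebraic F x := by
  refine ⟨fam a - Polynomial.C γ * Polynomial.derivative (fam a) ^ ℓ, ?_, ?_⟩
  · intro h0
    have h1 := sub_eq_zero.1 h0
    have h2 := congrArg Polynomial.natDegree h1
    rw [fam_deg] at h2
    by_cases hγ : γ = 0
    · rw [hγ, Polynomial.C_0, zero_mul, Polynomial.natDegree_zero] at h2
      omega
    · rw [Polynomial.natDegree_C_mul hγ, Polynomial.natDegree_pow, der_deg (by omega) hmF] at h2
      omega
  · rw [← map_fam, Polynomial.derivative_map, Polynomial.eval_map_algebraMap,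
      Polynomial.eval_map_algebraMap] at h
    rw [map_sub, map_mul, map_pow, Polynomial.aeval_C, h, sub_self]

theorem mem_fam {F L : Type*} [Field F] [Field L] [Algebra F L] (L1 : IntermediateField F L)
    {m : ℕ} (a : Fin m → L) (ha : ∀ κ, a κ ∈ L1) (x : L) (hx : x ∈ L1) :
    (fam a).eval x ∈ L1 ∧ (Polynomial.derivative (fam a)).eval x ∈ L1 := by
  have h1 := eval_fam (algebraMap L1 L) (fun κ => (⟨a κ, ha κ⟩ : L1)) ⟨x, hx⟩
  have h2 := eval_der (algebraMap L1 L) (fun κ => (⟨a κ, ha κ⟩ : L1)) ⟨x, hx⟩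
  have e1 : ∀ z : L1, algebraMap L1 L z = (z : L) := fun z => rfl
  simp only [e1] at h1 h2
  rw [← h1, ← h2]
  exact ⟨Subtype.mem _, Subtype.mem _⟩

/-- a root of a monic polynomial is algebraic -/
theorem alg_monic {K M : Type*} [Field K] [Field M] [Algebra K M] (r : ℕ) (β : ℕ → K) (x : M)
    (h : x ^ r + ∑ l ∈ Finset.range r, algebraMap K M (β l) * x ^ l = 0) : IsAlgebraic K x := by
  refine ⟨Polynomial.X ^ r + ∑ l ∈ Finset.range r, Polynomial.C (β l) * Polynomial.X ^ l, ?_, ?_⟩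
  · intro h0
    have h1 := congrArg (fun q => Polynomial.coeff q r) h0
    simp only [Polynomial.coeff_add, Polynomial.coeff_X_pow, if_true, Polynomial.finsetSum_coeff,
      Polynomial.coeff_C_mul, Polynomial.coeff_zero] at h1
    rw [Finset.sum_eq_zero, add_zero] at h1
    · exact one_ne_zero h1
    · intro l hl
      rw [if_neg (Finset.mem_range.1 hl).ne', mul_zero]
  · simp only [map_add, map_sum, map_mul, map_pow, Polynomial.aeval_X, Polynomial.aeval_C]
    exact h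

theorem alg_w {K M : Type*} [Field K] [Field M] [Algebra K M] {ℓ : ℕ} (hℓ : 2 ≤ ℓ) (w : M)
    (h : w ^ ℓ = w) : IsAlgebraic K w := by
  refine ⟨Polynomial.X ^ ℓ - Polynomial.X, ?_, ?_⟩
  · intro h0
    have h1 := congrArg (fun q => Polynomial.coeff q ℓ) h0
    simp only [Polynomial.coeff_sub, Polynomial.coeff_X_pow, if_true, Polynomial.coeff_X,
      Polynomial.coeff_zero] at h1
    rw [if_neg (by omega), sub_zero] at h1
    exact one_ne_zero h1
  · rw [map_sub, map_pow, Polynomial.aeval_X, h, sub_self]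

section sol

variable {k L : Type u} [Field k] [Field L] [Algebra k L] {d e' n m : ℕ}

/-- the abscissas -/
noncomputable def xv (D : ℕ) (F : Fin n → MvPolynomial (Fin d ⊕ Fin e') k)
    (c : Fin n × Fin (d + 1) → L) (q : Fin d ⊕ Fin e' → L) (i : Fin n) : L :=
  aeval q (F i) + c (i, 0) + ∑ t : Fin d, c (i, t.succ) * q (Sum.inl t) ^ D

/-- the equation -/
noncomputable def fv (A : Fin m → MvPolynomial (Fin d ⊕ Fin e') k) (q : Fin d ⊕ Fin e' → L) :
    Polynomial L :=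
  fam fun κ => aeval q (A κ)

theorem no_sol (h1 : RD.T_TRD.{u}) (ℓ e D : ℕ) (hℓ : 2 ≤ ℓ) (hm : 2 ≤ m)
    (hmℓ : m < ℓ * (m - 1)) (hmk : (m : k) ≠ 0) (Q : Finset (Fin d)) (hQ : Q.card + e = d + 1)
    (ρ : Fin e' → ℕ) (b : Fin e' → ℕ → MvPolynomial (Fin d) k)
    (A : Fin m → MvPolynomial (Fin d ⊕ Fin e') k) (F : Fin n → MvPolynomial (Fin d ⊕ Fin e') k)
    (S J : Finset (Fin n)) (hdis : Disjoint J S) (hcard : e ≤ J.card + S.card)
    (z : Q → L) (c : Fin n × Fin (d + 1) → L) (hc : AlgebraicIndependent k (Sum.elim z c))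
    (q : Fin d ⊕ Fin e' → L) (h : Fin n → L) (w : Fin n → Fin n → L)
    (Hz : ∀ t : Q, q (Sum.inl t) = z t)
    (H0 : ∀ j, q (Sum.inr j) ^ ρ j + ∑ l ∈ Finset.range (ρ j),
      aeval (fun t => q (Sum.inl t)) (b j l) * q (Sum.inr j) ^ l = 0)
    (H1 : ∀ i ∈ S, (Polynomial.derivative (fv A q)).eval (xv D F c q i) = 0)
    (H2 : ∀ i, i ∉ S → h i * (Polynomial.derivative (fv A q)).eval (xv D F c q i) = 1)
    (H3 : ∀ j ∈ J, ∀ i, w j i ^ ℓ = w j i)
    (H4 : ∀ j ∈ J, (fv A q).eval (xv D F c q j) * h j ^ ℓ =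
      ∑ i ∈ (J ∪ S)ᶜ, w j i * ((fv A q).eval (xv D F c q i) * h i ^ ℓ)) : False := by
  classical
  have hQd : Q.card ≤ d := by
    have := Finset.card_le_univ Q
    rwa [Fintype.card_fin] at this
  have hQc : (Qᶜ).card = e - 1 := by
    rw [Finset.card_compl, Fintype.card_fin]
    omega
  set eq := Finset.equivFinOfCardEq hQc with heq
  set pp : Fin (e - 1) → L := fun i => q (Sum.inl (eq.symm i)) with hpp
  set B : Finset (Q ⊕ (Fin n × Fin (d + 1))) :=
    (J ∪ S).map ⟨fun i => Sum.inr (i, 0), fun a b hab => (Prod.mk.inj (Sum.inr.inj hab)).1⟩ with hB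
  have hBcard : B.card = J.card + S.card := by
    rw [hB, Finset.card_map, Finset.card_union_of_disjoint hdis]
  have hBmem : ∀ i α, (Sum.inr (i, α) : Q ⊕ (Fin n × Fin (d + 1))) ∈ B ↔
      i ∈ J ∪ S ∧ α = 0 := by
    intro i α
    rw [hB, Finset.mem_map]
    constructor
    · rintro ⟨a, ha, hab⟩
      have := Prod.mk.inj (Sum.inr.inj hab)
      exact ⟨this.1 ▸ ha, this.2.symm⟩
    · rintro ⟨ha, rfl⟩
      exact ⟨i, ha, rfl⟩
  have hBz : ∀ t : Q, (Sum.inl t : Q ⊕ (Fin n × Fin (d + 1))) ∉ B := by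
    intro t ht
    rw [hB, Finset.mem_map] at ht
    obtain ⟨a, -, ha⟩ := ht
    exact absurd ha (by simp)
  set L0 := IntermediateField.adjoin k
    (Set.range pp ∪ (Sum.elim z c) '' {w | w ∉ B}) with hL0
  refine h1 k L _ (Sum.elim z c) hc (e - 1) pp B (by omega) ?_
  rw [← hL0]
  set L1 : IntermediateField L0 L := algebraicClosure L0 L with hL1
  have hp0 : ∀ t, q (Sum.inl t) ∈ L0 := by
    intro t
    by_cases ht : t ∈ Q
    · refine IntermediateField.subset_adjoin k _ (Or.inr ⟨Sum.inl ⟨t, ht⟩, hBz _, ?_⟩)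
      rw [Sum.elim_inl]
      exact (Hz ⟨t, ht⟩).symm
    · refine IntermediateField.subset_adjoin k _ (Or.inl
        ⟨eq ⟨t, Finset.mem_compl.2 ht⟩, ?_⟩)
      rw [hpp]
      simp
  have hin : ∀ z : L, z ∈ L0 → z ∈ L1 := fun z hz => L1.algebraMap_mem ⟨z, hz⟩
  have hp : ∀ t, q (Sum.inl t) ∈ L1 := fun t => hin _ (hp0 t)
  have hcB : ∀ v, Sum.inr v ∉ B → c v ∈ L1 := fun v hv =>
    hin _ (IntermediateField.subset_adjoin k _ (Or.inr ⟨Sum.inr v, hv, rfl⟩))
  have hb0 : ∀ b : MvPolynomial (Fin d) k, aeval (fun t => q (Sum.inl t)) b ∈ L0 := by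
    intro b
    induction b using MvPolynomial.induction_on with
    | C a =>
      rw [MvPolynomial.algHom_C]
      exact L0.algebraMap_mem a
    | add b b' hb hb' =>
      rw [map_add]
      exact add_mem hb hb'
    | mul_X b t hb =>
      rw [map_mul, aeval_X]
      exact mul_mem hb (hp0 t)
  have hs : ∀ j, q (Sum.inr j) ∈ L1 := by
    intro j
    refine mem_algebraicClosure_iff.2 ?_
    exact alg_monic (ρ j) (fun l => (⟨aeval (fun t => q (Sum.inl t)) (b j l), hb0 _⟩ : L0)) _ (H0 j)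
  have hb : ∀ b : MvPolynomial (Fin d ⊕ Fin e') k, aeval q b ∈ L1 := by
    intro b
    induction b using MvPolynomial.induction_on with
    | C a =>
      rw [MvPolynomial.algHom_C]
      exact hin _ (L0.algebraMap_mem a)
    | add b b' hb hb' =>
      rw [map_add]
      exact add_mem hb hb'
    | mul_X b t hb =>
      rw [map_mul, aeval_X]
      rcases t with t | j
      · exact mul_mem hb (hp t)
      · exact mul_mem hb (hs j)
  have hx : ∀ i, ∃ e ∈ L1, xv D F c q i = c (i, 0) + e := by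
    intro i
    refine ⟨aeval q (F i) + ∑ t : Fin d, c (i, t.succ) * q (Sum.inl t) ^ D, ?_, ?_⟩
    · refine add_mem (hb _) (sum_mem fun t _ => mul_mem (hcB _ ?_) (pow_mem (hp t) _))
      rw [hBmem]
      intro hh
      exact Fin.succ_ne_zero t hh.2
    · unfold xv
      ring
  have hx' : ∀ i, i ∈ (J ∪ S)ᶜ → xv D F c q i ∈ L1 := by
    intro i hi
    obtain ⟨e, he, hxe⟩ := hx i
    rw [hxe]
    refine add_mem (hcB _ ?_) he
    rw [hBmem]
    intro hh
    exact Finset.mem_compl.1 hi hh.1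
  have halg : ∀ i, xv D F c q i ∈ L1 → IsAlgebraic L0 (c (i, 0)) := by
    intro i hi
    obtain ⟨e, he, hxe⟩ := hx i
    have h2 : c (i, 0) ∈ L1 := by
      have : c (i, 0) = xv D F c q i - e := by rw [hxe]; ring
      rw [this]
      exact sub_mem hi he
    exact mem_algebraicClosure_iff.1 h2
  have hmL1 : (m : L1) ≠ 0 := by
    intro h0
    apply hmk
    have h2 : (algebraMap L1 L) (m : L1) = 0 := by rw [h0, map_zero]
    rw [map_natCast] at h2
    have h3 : algebraMap k L (m : k) = 0 := by rw [map_natCast, h2]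
    exact (map_eq_zero _).1 h3
  have e1 : ∀ z : L1, algebraMap L1 L z = (z : L) := fun z => rfl
  have hfv : fv A q = fam (fun κ => algebraMap L1 L (⟨aeval q (A κ), hb _⟩ : L1)) := rfl
  intro v hv
  rw [hB, Finset.mem_map] at hv
  obtain ⟨i, hi, rfl⟩ := hv
  show IsAlgebraic L0 (c (i, 0))
  apply halg
  rcases Finset.mem_union.1 hi with hiJ | hiS
  · -- `i ∈ J`
    set x := xv D F c q i with hxdef
    have hiS : i ∉ S := Finset.disjoint_left.1 hdis hiJ
    have hγ : ∑ i' ∈ (J ∪ S)ᶜ, w i i' * ((fv A q).eval (xv D F c q i') * h i' ^ ℓ) ∈ L1 := by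
      refine sum_mem fun i' hi' => mul_mem ?_ (mul_mem ?_ (pow_mem ?_ _))
      · exact mem_algebraicClosure_iff.2 (alg_w hℓ _ (H3 i hiJ i'))
      · exact (mem_fam L1 _ (fun κ => hb (A κ)) _ (hx' i' hi')).1
      · have hi'S : i' ∉ S := fun hh => Finset.mem_compl.1 hi' (Finset.mem_union_right _ hh)
        rw [eq_inv_of_mul_eq_one_left (H2 i' hi'S)]
        exact inv_mem (mem_fam L1 _ (fun κ => hb (A κ)) _ (hx' i' hi')).2
    have hH4 := H4 i hiJ
    rw [← hxdef] at hH4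
    obtain ⟨γ, hγdef⟩ : ∃ γ, γ = ∑ i' ∈ (J ∪ S)ᶜ, w i i' *
      ((fv A q).eval (xv D F c q i') * h i' ^ ℓ) := ⟨_, rfl⟩
    rw [← hγdef] at hγ hH4
    have hH2 := H2 i hiS
    rw [← hxdef] at hH2
    have hroot : (fv A q).eval x =
        γ * (Polynomial.derivative (fv A q)).eval x ^ ℓ := by
      calc (fv A q).eval x = (fv A q).eval x *
            (h i * (Polynomial.derivative (fv A q)).eval x) ^ ℓ := by
            rw [hH2, one_pow, mul_one]
        _ = ((fv A q).eval x * h i ^ ℓ) * (Polynomial.derivative (fv A q)).eval x ^ ℓ := by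
            rw [mul_pow]; ring
        _ = _ := by rw [hH4]
    rw [hfv] at hroot
    have hxalg : IsAlgebraic L1 x :=
      alg_J hm hmℓ hmL1 (fun κ => (⟨aeval q (A κ), hb _⟩ : L1)) ⟨γ, hγ⟩ x hroot
    exact mem_algebraicClosure_iff.2 (hxalg.restrictScalars L0)
  · -- `i ∈ S`
    have hH1 := H1 i hiS
    rw [hfv] at hH1
    have hxalg : IsAlgebraic L1 (xv D F c q i) :=
      alg_S hm hmL1 (fun κ => (⟨aeval q (A κ), hb _⟩ : L1)) _ hH1
    exact mem_algebraicClosure_iff.2 (hxalg.restrictScalars L0)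

end sol

section system

variable {k : Type u} [Field k] {d e' n m : ℕ} {Q : Finset (Fin d)}

/-- the variables besides the coefficients -/
abbrev Kap (d e' n : ℕ) : Type := (Fin d ⊕ Fin e') ⊕ (Fin n ⊕ (Fin n × Fin n))

/-- the polynomial ring -/
abbrev PP (k : Type u) [Field k] (d e' n : ℕ) (Q : Finset (Fin d)) : Type u :=
  MvPolynomial ((Q ⊕ (Fin n × Fin (d + 1))) ⊕ Kap d e' n) k

noncomputable def vh (i : Fin n) : PP k d e' n Q := X (Sum.inr (Sum.inr (Sum.inl i)))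

noncomputable def vw (j i : Fin n) : PP k d e' n Q := X (Sum.inr (Sum.inr (Sum.inr (j, i))))

noncomputable def vb (b : MvPolynomial (Fin d ⊕ Fin e') k) : PP k d e' n Q :=
  rename (fun t => Sum.inr (Sum.inl t)) b

noncomputable def vx (D : ℕ) (F : Fin n → MvPolynomial (Fin d ⊕ Fin e') k) (i : Fin n) :
    PP k d e' n Q :=
  vb (F i) + X (Sum.inl (Sum.inr (i, 0))) +
    ∑ t : Fin d, X (Sum.inl (Sum.inr (i, t.succ))) * X (Sum.inr (Sum.inl (Sum.inl t))) ^ D

noncomputable def vs (ρ : Fin e' → ℕ) (b : Fin e' → ℕ → MvPolynomial (Fin d) k) (j : Fin e') :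
    PP k d e' n Q :=
  X (Sum.inr (Sum.inl (Sum.inr j))) ^ ρ j + ∑ l ∈ Finset.range (ρ j),
    rename (fun t => Sum.inr (Sum.inl (Sum.inl t))) (b j l) *
      X (Sum.inr (Sum.inl (Sum.inr j))) ^ l

noncomputable def vf (A : Fin m → MvPolynomial (Fin d ⊕ Fin e') k) :
    Polynomial (PP k d e' n Q) :=
  fam fun κ => vb (A κ)

/-- the system of equations -/
def sys (ℓ D : ℕ) (ρ : Fin e' → ℕ) (b : Fin e' → ℕ → MvPolynomial (Fin d) k)
    (A : Fin m → MvPolynomial (Fin d ⊕ Fin e') k) (F : Fin n → MvPolynomial (Fin d ⊕ Fin e') k)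
    (S J : Finset (Fin n)) : Set (PP k d e' n Q) :=
  {f | (∃ t : Q, f = X (Sum.inr (Sum.inl (Sum.inl (t : Fin d)))) - X (Sum.inl (Sum.inl t))) ∨
    (∃ j, f = vs ρ b j) ∨
    (∃ i ∈ S, f = (Polynomial.derivative (vf A)).eval (vx D F i)) ∨
    (∃ i, i ∉ S ∧ f = vh i * (Polynomial.derivative (vf A)).eval (vx D F i) - 1) ∨
    (∃ j ∈ J, ∃ i, f = vw j i ^ ℓ - vw j i) ∨
    ∃ j ∈ J, f = (vf A).eval (vx D F j) * vh j ^ ℓ -
      ∑ i ∈ (J ∪ S)ᶜ, vw j i * ((vf A).eval (vx D F i) * vh i ^ ℓ)}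

variable {L : Type u} [Field L] [Algebra k L]

theorem aeval_vb (c : Q ⊕ (Fin n × Fin (d + 1)) → L) (y : Kap d e' n → L)
    (b : MvPolynomial (Fin d ⊕ Fin e') k) :
    aeval (Sum.elim c y) (vb b : PP k d e' n Q) = aeval (fun t => y (Sum.inl t)) b := by
  unfold vb
  rw [aeval_rename]
  rfl

theorem aeval_vx (D : ℕ) (F : Fin n → MvPolynomial (Fin d ⊕ Fin e') k)
    (c : Q ⊕ (Fin n × Fin (d + 1)) → L) (y : Kap d e' n → L) (i : Fin n) :
    aeval (Sum.elim c y) (vx D F i : PP k d e' n Q) =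
      xv D F (fun u => c (Sum.inr u)) (fun t => y (Sum.inl t)) i := by
  unfold vx xv
  simp only [map_add, map_sum, map_mul, map_pow, aeval_vb, aeval_X, Sum.elim_inl, Sum.elim_inr]

theorem aeval_vs (ρ : Fin e' → ℕ) (b : Fin e' → ℕ → MvPolynomial (Fin d) k)
    (c : Q ⊕ (Fin n × Fin (d + 1)) → L) (y : Kap d e' n → L) (j : Fin e') :
    aeval (Sum.elim c y) (vs ρ b j : PP k d e' n Q) =
      y (Sum.inl (Sum.inr j)) ^ ρ j + ∑ l ∈ Finset.range (ρ j),
        aeval (fun t => y (Sum.inl (Sum.inl t))) (b j l) * y (Sum.inl (Sum.inr j)) ^ l := by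
  unfold vs
  simp only [map_add, map_sum, map_mul, map_pow, aeval_X, Sum.elim_inr, aeval_rename]
  rfl

theorem aeval_vh (c : Q ⊕ (Fin n × Fin (d + 1)) → L) (y : Kap d e' n → L) (i : Fin n) :
    aeval (Sum.elim c y) (vh i : PP k d e' n Q) = y (Sum.inr (Sum.inl i)) := by
  unfold vh
  rw [aeval_X]
  rfl

theorem aeval_vw (c : Q ⊕ (Fin n × Fin (d + 1)) → L) (y : Kap d e' n → L) (j i : Fin n) :
    aeval (Sum.elim c y) (vw j i : PP k d e' n Q) = y (Sum.inr (Sum.inr (j, i))) := by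
  unfold vw
  rw [aeval_X]
  rfl

theorem aeval_vf (A : Fin m → MvPolynomial (Fin d ⊕ Fin e') k) (D : ℕ)
    (F : Fin n → MvPolynomial (Fin d ⊕ Fin e') k)
    (c : Q ⊕ (Fin n × Fin (d + 1)) → L) (y : Kap d e' n → L) (i : Fin n) :
    aeval (Sum.elim c y) ((vf A).eval (vx D F i) : PP k d e' n Q) =
      (fv A (fun t => y (Sum.inl t))).eval
        (xv D F (fun u => c (Sum.inr u)) (fun t => y (Sum.inl t)) i) := by
  have h1 := eval_fam ((aeval (R := k) (Sum.elim c y)).toRingHom)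
    (fun κ => (vb (A κ) : PP k d e' n Q)) (vx D F i)
  have h2 : ∀ p : PP k d e' n Q, (aeval (R := k) (Sum.elim c y)).toRingHom p =
    aeval (Sum.elim c y) p := fun p => rfl
  simp only [h2, aeval_vb, aeval_vx] at h1
  exact h1

theorem aeval_vd (A : Fin m → MvPolynomial (Fin d ⊕ Fin e') k) (D : ℕ)
    (F : Fin n → MvPolynomial (Fin d ⊕ Fin e') k)
    (c : Q ⊕ (Fin n × Fin (d + 1)) → L) (y : Kap d e' n → L) (i : Fin n) :
    aeval (Sum.elim c y) ((Polynomial.derivative (vf A)).eval (vx D F i) : PP k d e' n Q) =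
      (Polynomial.derivative (fv A (fun t => y (Sum.inl t)))).eval
        (xv D F (fun u => c (Sum.inr u)) (fun t => y (Sum.inl t)) i) := by
  have h1 := eval_der ((aeval (R := k) (Sum.elim c y)).toRingHom)
    (fun κ => (vb (A κ) : PP k d e' n Q)) (vx D F i)
  have h2 : ∀ p : PP k d e' n Q, (aeval (R := k) (Sum.elim c y)).toRingHom p =
    aeval (Sum.elim c y) p := fun p => rfl
  simp only [h2, aeval_vb, aeval_vx] at h1
  exact h1

/-- all equations of the system hold at `(c, y)` -/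
theorem vanish_iff (ℓ D : ℕ) (ρ : Fin e' → ℕ) (b : Fin e' → ℕ → MvPolynomial (Fin d) k)
    (A : Fin m → MvPolynomial (Fin d ⊕ Fin e') k) (F : Fin n → MvPolynomial (Fin d ⊕ Fin e') k)
    (S J : Finset (Fin n)) (c : Q ⊕ (Fin n × Fin (d + 1)) → L) (y : Kap d e' n → L) :
    (∀ f ∈ sys ℓ D ρ b A F S J, aeval (Sum.elim c y) (f : PP k d e' n Q) = 0) ↔
    (∀ t : Q, y (Sum.inl (Sum.inl (t : Fin d))) = c (Sum.inl t)) ∧
    (∀ j, y (Sum.inl (Sum.inr j)) ^ ρ j + ∑ l ∈ Finset.range (ρ j),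
        aeval (fun t => y (Sum.inl (Sum.inl t))) (b j l) * y (Sum.inl (Sum.inr j)) ^ l = 0) ∧
    (∀ i ∈ S, (Polynomial.derivative (fv A (fun t => y (Sum.inl t)))).eval
        (xv D F (fun u => c (Sum.inr u)) (fun t => y (Sum.inl t)) i) = 0) ∧
    (∀ i, i ∉ S → y (Sum.inr (Sum.inl i)) *
      (Polynomial.derivative (fv A (fun t => y (Sum.inl t)))).eval
        (xv D F (fun u => c (Sum.inr u)) (fun t => y (Sum.inl t)) i) = 1) ∧
    (∀ j ∈ J, ∀ i, y (Sum.inr (Sum.inr (j, i))) ^ ℓ = y (Sum.inr (Sum.inr (j, i)))) ∧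
    (∀ j ∈ J, (fv A (fun t => y (Sum.inl t))).eval
        (xv D F (fun u => c (Sum.inr u)) (fun t => y (Sum.inl t)) j) *
          y (Sum.inr (Sum.inl j)) ^ ℓ =
      ∑ i ∈ (J ∪ S)ᶜ, y (Sum.inr (Sum.inr (j, i))) *
        ((fv A (fun t => y (Sum.inl t))).eval
          (xv D F (fun u => c (Sum.inr u)) (fun t => y (Sum.inl t)) i) *
          y (Sum.inr (Sum.inl i)) ^ ℓ)) := by
  constructor
  · intro H
    refine ⟨fun t => ?_, fun j => ?_, fun i hi => ?_, fun i hi => ?_, fun j hj i => ?_,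
      fun j hj => ?_⟩
    · have := H _ (Or.inl ⟨t, rfl⟩)
      rw [map_sub, aeval_X, aeval_X, Sum.elim_inr, Sum.elim_inl] at this
      exact sub_eq_zero.1 this
    · have := H _ (Or.inr (Or.inl ⟨j, rfl⟩))
      rwa [aeval_vs] at this
    · have := H _ (Or.inr (Or.inr (Or.inl ⟨i, hi, rfl⟩)))
      rwa [aeval_vd] at this
    · have := H _ (Or.inr (Or.inr (Or.inr (Or.inl ⟨i, hi, rfl⟩))))
      rw [map_sub, map_mul, aeval_vd, aeval_vh, map_one] at this
      exact sub_eq_zero.1 this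
    · have := H _ (Or.inr (Or.inr (Or.inr (Or.inr (Or.inl ⟨j, hj, i, rfl⟩)))))
      rw [map_sub, map_pow, aeval_vw] at this
      exact sub_eq_zero.1 this
    · have := H _ (Or.inr (Or.inr (Or.inr (Or.inr (Or.inr ⟨j, hj, rfl⟩)))))
      rw [map_sub, map_mul, map_pow, aeval_vf, aeval_vh, map_sum] at this
      simp only [map_mul, map_pow, aeval_vf, aeval_vh, aeval_vw] at this
      exact sub_eq_zero.1 this
  · rintro ⟨Hz, H0, H1, H2, H3, H4⟩ f
      (⟨t, rfl⟩ | ⟨j, rfl⟩ | ⟨i, hi, rfl⟩ | ⟨i, hi, rfl⟩ | ⟨j, hj, i, rfl⟩ | ⟨j, hj, rfl⟩)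
    · rw [map_sub, aeval_X, aeval_X, Sum.elim_inr, Sum.elim_inl, Hz t, sub_self]
    · rw [aeval_vs]
      exact H0 j
    · rw [aeval_vd]
      exact H1 i hi
    · rw [map_sub, map_mul, aeval_vd, aeval_vh, map_one, H2 i hi, sub_self]
    · rw [map_sub, map_pow, aeval_vw, H3 j hj i, sub_self]
    · rw [map_sub, map_mul, map_pow, aeval_vf, aeval_vh, map_sum]
      simp only [map_mul, map_pow, aeval_vf, aeval_vh, aeval_vw]
      rw [H4 j hj, sub_self]

end system

theorem xv_eq {k : Type u} [Field k] {d e' n : ℕ} (D : ℕ)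
    (F : Fin n → MvPolynomial (Fin d ⊕ Fin e') k) (c : Fin n × Fin (d + 1) → k)
    (p : Fin d → k) (s : Fin e' → k) (i : Fin n) :
    xv D F c (Sum.elim p s) i = absc D F c p s i := by
  unfold xv absc
  simp only [aeval_eq_eval, Sum.elim_inl]

theorem fv_eq {k : Type u} [Field k] {d e' m : ℕ} (A : Fin m → MvPolynomial (Fin d ⊕ Fin e') k)
    (p : Fin d → k) (s : Fin e' → k) :
    fv A (Sum.elim p s) = fam fun κ => MvPolynomial.eval (Sum.elim p s) (A κ) := by
  unfold fv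
  simp only [aeval_eq_eval]

theorem eval_sum {k : Type u} [Field k] {Q C' : Type} (Φ : MvPolynomial (Q ⊕ C') k) (z : Q → k)
    (c : C' → k) :
    MvPolynomial.eval z (MvPolynomial.map (MvPolynomial.eval c)
      (MvPolynomial.sumAlgEquiv k Q C' Φ)) = MvPolynomial.eval (Sum.elim z c) Φ := by
  induction Φ using MvPolynomial.induction_on with
  | C a => rw [MvPolynomial.sumAlgEquiv_C_inl, MvPolynomial.map_C, MvPolynomial.eval_C,
      MvPolynomial.eval_C, MvPolynomial.eval_C]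
  | add p q hp hq => rw [map_add, map_add, map_add, map_add, hp, hq]
  | mul_X p i hp =>
    rw [map_mul, map_mul, map_mul, map_mul, hp]
    rcases i with i | i
    · rw [MvPolynomial.sumAlgEquiv_X_inl, MvPolynomial.map_X, MvPolynomial.eval_X,
        MvPolynomial.eval_X, Sum.elim_inl]
    · rw [MvPolynomial.sumAlgEquiv_X_inr, MvPolynomial.map_C, MvPolynomial.eval_C,
        MvPolynomial.eval_X, MvPolynomial.eval_X, Sum.elim_inr]

theorem fixed (h1 : RD.T_TRD.{u}) (h2 : RD.T_ELM.{u}) (k : Type u) [Field k] (ℓ m d e' D n e : ℕ)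
    (hℓ : 2 ≤ ℓ) (hm : 2 ≤ m) (hmℓ : m < ℓ * (m - 1)) (hmk : (m : k) ≠ 0)
    (Q : Finset (Fin d)) (hQ : Q.card + e = d + 1)
    (ρ : Fin e' → ℕ) (b : Fin e' → ℕ → MvPolynomial (Fin d) k)
    (A : Fin m → MvPolynomial (Fin d ⊕ Fin e') k) (F : Fin n → MvPolynomial (Fin d ⊕ Fin e') k)
    (S J : Finset (Fin n)) :
    ∃ Φ : MvPolynomial (Fin n × Fin (d + 1)) k, Φ ≠ 0 ∧
      ∀ c : Fin n × Fin (d + 1) → k, MvPolynomial.eval c Φ ≠ 0 →
      ∃ Ψ : MvPolynomial Q k, Ψ ≠ 0 ∧ ∀ z : Q → k, MvPolynomial.eval z Ψ ≠ 0 →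
      ∀ p s, OnBase ρ b p s → (∀ t : Q, p t = z t) → ∀ w,
        ¬ Bad ℓ e (fam fun κ => MvPolynomial.eval (Sum.elim p s) (A κ)) (absc D F c p s) S J w := by
  classical
  by_cases hcase : Disjoint J S ∧ e ≤ J.card + S.card
  swap
  · exact ⟨1, one_ne_zero, fun c _ => ⟨1, one_ne_zero, fun z _ p s _ _ w hbad =>
      hcase ⟨hbad.1, hbad.2.1⟩⟩⟩
  obtain ⟨Φ, hΦ, hΦ2⟩ := h2 k (Q ⊕ (Fin n × Fin (d + 1))) (Kap d e' n)
    (sys ℓ D ρ b A F S J) (by
    intro L _ _ c y hc
    by_contra hcon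
    push Not at hcon
    obtain ⟨Hz, H0, H1, H2, H3, H4⟩ := (vanish_iff ℓ D ρ b A F S J c y).1 hcon
    refine no_sol h1 ℓ e D hℓ hm hmℓ hmk Q hQ ρ b A F S J hcase.1 hcase.2
      (fun t => c (Sum.inl t)) (fun u => c (Sum.inr u)) ?_ (fun t => y (Sum.inl t))
      (fun i => y (Sum.inr (Sum.inl i))) (fun j i => y (Sum.inr (Sum.inr (j, i)))) Hz
      H0 H1 H2 H3 H4
    have h3 : Sum.elim (fun t => c (Sum.inl t)) (fun u => c (Sum.inr u)) = c := by
      funext v
      rcases v with v | v <;> rfl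
    rw [h3]
    exact hc)
  set Φ' := MvPolynomial.sumAlgEquiv k Q (Fin n × Fin (d + 1)) Φ with hΦ'
  have hΦ'0 : Φ' ≠ 0 := by
    rw [hΦ']
    exact (map_ne_zero_iff _ (AlgEquiv.injective _)).2 hΦ
  obtain ⟨t0, ht0⟩ := MvPolynomial.ne_zero_iff.1 hΦ'0
  refine ⟨coeff t0 Φ', ht0, fun c hc => ?_⟩
  refine ⟨MvPolynomial.map (MvPolynomial.eval c) Φ', ?_, fun z hz p s hps hpz w hbad => ?_⟩
  · rw [MvPolynomial.ne_zero_iff]
    refine ⟨t0, ?_⟩
    rw [coeff_map]
    exact hc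
  · have hz2 : MvPolynomial.eval (Sum.elim z c) Φ ≠ 0 := by
      intro h0
      apply hz
      rw [hΦ', eval_sum, h0]
    obtain ⟨-, -, G1, G2, G3, G4⟩ := hbad
    obtain ⟨f, hf, hne⟩ := hΦ2 (Sum.elim z c) hz2 (Sum.elim (Sum.elim p s) (Sum.elim
      (fun i => ((Polynomial.derivative (fam fun κ => MvPolynomial.eval (Sum.elim p s)
        (A κ))).eval (absc D F c p s i))⁻¹) (fun ji => w ji.1 ji.2)))
    apply hne
    have key := (vanish_iff (L := k) ℓ D ρ b A F S J (Sum.elim z c) (Sum.elim (Sum.elim p s)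
      (Sum.elim (fun i => ((Polynomial.derivative (fam fun κ => MvPolynomial.eval (Sum.elim p s)
        (A κ))).eval (absc D F c p s i))⁻¹) (fun ji => w ji.1 ji.2)))).2 (by
      have e1 : (fun t => (Sum.elim (Sum.elim p s) (Sum.elim
        (fun i => ((Polynomial.derivative (fam fun κ => MvPolynomial.eval (Sum.elim p s)
          (A κ))).eval (absc D F c p s i))⁻¹)
        (fun ji : Fin n × Fin n => w ji.1 ji.2)) : Kap d e' n → k) (Sum.inl t)) =
          Sum.elim p s := rfl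
      have e2 : (fun u => (Sum.elim z c : Q ⊕ (Fin n × Fin (d + 1)) → k) (Sum.inr u)) = c := rfl
      rw [e1, e2]
      simp only [Sum.elim_inl, Sum.elim_inr, xv_eq, fv_eq]
      refine ⟨hpz, hps, G1, fun i hi => inv_mul_cancel₀ (G2 i hi), G3, fun j hj => ?_⟩
      have := G4 j hj
      simp only [Lam, div_eq_mul_inv] at this
      simp only [inv_pow]
      exact this)
    exact key f hf

end PHMS_

open PHMS_ in
theorem p_PHMS (h1 : RD.T_TRD.{u}) (h2 : RD.T_ELM.{u}) : T_PHMS.{u} := by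
  classical
  intro k _ ℓ hp hch m d e' D n e hℓm hdeg Q hQ ρ b A F
  have hℓ : 2 ≤ ℓ := hp.out.two_le
  have hm : 2 ≤ m := by
    by_contra hcon
    have h3 : m - 1 = 0 := by omega
    rw [h3, mul_zero] at hdeg
    omega
  have hmℓ : m < ℓ * (m - 1) := by
    obtain ⟨ℓ', rfl⟩ : ∃ ℓ', ℓ = ℓ' + 1 := ⟨ℓ - 1, by omega⟩
    obtain ⟨m', rfl⟩ : ∃ m', m = m' + 1 := ⟨m - 1, by omega⟩
    simp only [Nat.add_sub_cancel] at hdeg ⊢
    nlinarith
  have hmk : (m : k) ≠ 0 := by
    intro h0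
    exact hℓm ((CharP.cast_eq_zero_iff k ℓ m).1 h0)
  choose Φ hΦ hΦ2 using fixed h1 h2 k ℓ m d e' D n e hℓ hm hmℓ hmk Q hQ ρ b A F
  refine ⟨∏ S : Finset (Fin n), ∏ J : Finset (Fin n), Φ S J, ?_, ?_⟩
  · exact Finset.prod_ne_zero_iff.2 fun S _ => Finset.prod_ne_zero_iff.2 fun J _ => hΦ S J
  · intro c hc
    rw [map_prod] at hc
    have h3 : ∀ S J, MvPolynomial.eval c (Φ S J) ≠ 0 := by
      intro S J
      have h4 := Finset.prod_ne_zero_iff.1 hc S (Finset.mem_univ S)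
      rw [map_prod] at h4
      exact Finset.prod_ne_zero_iff.1 h4 J (Finset.mem_univ J)
    choose Ψ hΨ hΨ2 using fun S J => hΦ2 S J c (h3 S J)
    refine ⟨∏ S : Finset (Fin n), ∏ J : Finset (Fin n), Ψ S J, ?_, ?_⟩
    · exact Finset.prod_ne_zero_iff.2 fun S _ => Finset.prod_ne_zero_iff.2 fun J _ => hΨ S J
    · intro z hz p s hps hpz S J w
      rw [map_prod] at hz
      have h4 := Finset.prod_ne_zero_iff.1 hz S (Finset.mem_univ S)
      rw [map_prod] at h4
      exact hΨ2 S J z (Finset.prod_ne_zero_iff.1 h4 J (Finset.mem_univ J)) p s hps hpz w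

end SRK
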