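import Mathlib
import Pool.Agent.SRK.Targets

/-!
PT: the sum of the conjugates of a point is principal.
-/

namespace SRK

open Polynomial

universe u

namespace PT_

variable {K : Type u} [Field K] (ℓ : ℕ) (f : K[X])

theorem root_pow : (AdjoinRoot.root ((X : Polynomial (Polynomial K)) ^ ℓ - C f)) ^ ℓ =
    AdjoinRoot.of _ f := by
  have h := AdjoinRoot.eval₂_root ((X : Polynomial (Polynomial K)) ^ ℓ - C f)
  rw [eval₂_sub, eval₂_pow, eval₂_X, eval₂_C] at h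
  exact sub_eq_zero.1 h

/-- the product of the conjugates of `Y - y` -/
theorem prod_fac {ζ : K} (hζ : IsPrimitiveRoot ζ ℓ) (hℓ : 0 < ℓ) (y : K) :
    ∏ j : Fin ℓ, ((AdjoinRoot.root ((X : Polynomial (Polynomial K)) ^ ℓ - C f)) -
      AdjoinRoot.of _ (C (ζ ^ (j : ℕ) * y))) = AdjoinRoot.of _ (f - C (y ^ ℓ)) := by
  have h := X_pow_sub_C_eq_prod hζ hℓ (rfl : y ^ ℓ = y ^ ℓ)
  have h2 := congrArg (Polynomial.eval₂
    ((AdjoinRoot.of ((X : Polynomial (Polynomial K)) ^ ℓ - C f)).comp (C : K →+* K[X]))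
    (AdjoinRoot.root _)) h
  rw [eval₂_sub, eval₂_pow, eval₂_X, eval₂_C, eval₂_finsetProd] at h2
  simp only [eval₂_sub, eval₂_X, eval₂_C, RingHom.comp_apply] at h2
  rw [root_pow, ← map_sub] at h2
  rw [h2, ← Fin.prod_univ_eq_prod_range]

theorem prod_le {ζ : K} (hζ : IsPrimitiveRoot ζ ℓ) (hℓ : 0 < ℓ) (x y : K)
    (hy : y ^ ℓ = f.eval x) :
    ∏ j : Fin ℓ, pt ℓ f x (ζ ^ (j : ℕ) * y) ≤ Ideal.span {AdjoinRoot.of _ (X - C x)} := by
  set R := Crd ℓ f with hR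
  set a : R := AdjoinRoot.of _ (X - C x) with ha
  set I : Ideal R := Ideal.span {a} with hI
  have hmap : Ideal.map (Ideal.Quotient.mk I) (∏ j : Fin ℓ, pt ℓ f x (ζ ^ (j : ℕ) * y)) = ⊥ := by
    have h00 := map_prod (Ideal.mapHom (Ideal.Quotient.mk I))
      (fun j : Fin ℓ => pt ℓ f x (ζ ^ (j : ℕ) * y)) Finset.univ
    simp only [Ideal.mapHom_apply] at h00
    rw [h00]
    have h1 : ∀ j : Fin ℓ, Ideal.map (Ideal.Quotient.mk I) (pt ℓ f x (ζ ^ (j : ℕ) * y)) =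
        Ideal.span {Ideal.Quotient.mk I ((AdjoinRoot.root _ : R) -
          AdjoinRoot.of _ (C (ζ ^ (j : ℕ) * y)))} := by
      intro j
      rw [pt, Ideal.map_span, Set.image_pair]
      have h0 : Ideal.Quotient.mk I a = 0 :=
        Ideal.Quotient.eq_zero_iff_mem.2 (Ideal.subset_span rfl)
      rw [← ha, h0, Ideal.span_insert, Ideal.span_singleton_eq_bot.2 rfl, bot_sup_eq]
    rw [Finset.prod_congr rfl fun j _ => h1 j, Ideal.prod_span_singleton, ← map_prod,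
      prod_fac ℓ f hζ hℓ y, hy, Ideal.span_singleton_eq_bot, Ideal.Quotient.eq_zero_iff_mem, hI,
      Ideal.mem_span_singleton, ha]
    exact map_dvd _ (X_sub_C_dvd_sub_C_eval)
  rw [Ideal.map_eq_bot_iff_le_ker, Ideal.mk_ker] at hmap
  exact hmap

theorem mem_of_ne {ζ : K} (hζ : IsPrimitiveRoot ζ ℓ) (x y : K) (hy : y ≠ 0) :
    AdjoinRoot.of _ (X - C x) ∈ ∏ j : Fin ℓ, pt ℓ f x (ζ ^ (j : ℕ) * y) := by
  rw [Ideal.prod_eq_iInf_of_pairwise_isCoprime]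
  · simp only [Ideal.mem_iInf]
    intro j _
    exact Ideal.subset_span (by simp)
  · intro i _ j _ hij
    rw [Function.onFun, Ideal.isCoprime_iff_exists]
    have hne : ζ ^ (i : ℕ) * y - ζ ^ (j : ℕ) * y ≠ 0 := by
      rw [← sub_mul]
      refine mul_ne_zero ?_ hy
      intro h0
      exact hij (Fin.ext (hζ.pow_inj i.2 j.2 (sub_eq_zero.1 h0)))
    set c : K := (ζ ^ (i : ℕ) * y - ζ ^ (j : ℕ) * y)⁻¹ with hc
    refine ⟨AdjoinRoot.of _ (C (-c)) * (AdjoinRoot.root _ -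
        AdjoinRoot.of _ (C (ζ ^ (i : ℕ) * y))), ?_,
      AdjoinRoot.of _ (C c) * (AdjoinRoot.root _ -
        AdjoinRoot.of _ (C (ζ ^ (j : ℕ) * y))), ?_, ?_⟩
    · exact Ideal.mul_mem_left _ _ (Ideal.subset_span (by simp))
    · exact Ideal.mul_mem_left _ _ (Ideal.subset_span (by simp))
    · have h1 : (AdjoinRoot.of ((X : Polynomial (Polynomial K)) ^ ℓ - C f)) (C c) *
          (AdjoinRoot.of _ (C (ζ ^ (i : ℕ) * y)) - AdjoinRoot.of _ (C (ζ ^ (j : ℕ) * y))) = 1 := by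
        rw [← map_sub, ← C_sub, ← map_mul, ← C_mul, hc, inv_mul_cancel₀ hne, C_1, map_one]
      rw [C_neg, map_neg]
      linear_combination h1

theorem mem_of_zero {ζ : K} (hℓ : ℓ.Prime) (hf : Squarefree f) (x : K) (hx : f.eval x = 0) :
    AdjoinRoot.of _ (X - C x) ∈ ∏ j : Fin ℓ, pt ℓ f x (ζ ^ (j : ℕ) * 0) := by
  have h0 : ∏ j : Fin ℓ, pt ℓ f x (ζ ^ (j : ℕ) * 0) = pt ℓ f x 0 ^ ℓ := by
    simp
  rw [h0]
  obtain ⟨g, hg⟩ : X - C x ∣ f := dvd_iff_isRoot.2 hx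
  have hirr := irreducible_X_sub_C x
  have hnd : ¬ (X - C x) ∣ g := by
    intro hd
    apply hirr.not_isUnit
    apply hf
    rw [hg]
    exact mul_dvd_mul_left _ hd
  have hcop : IsCoprime ((X - C x) ^ (ℓ - 1)) g :=
    (hirr.coprime_iff_not_dvd.2 hnd).pow_left
  obtain ⟨u, v, huv⟩ := hcop
  have key : (AdjoinRoot.of ((X : Polynomial (Polynomial K)) ^ ℓ - C f)) (X - C x) =
      AdjoinRoot.of _ u * (AdjoinRoot.of _ (X - C x)) ^ ℓ +
        AdjoinRoot.of _ v * (AdjoinRoot.root _) ^ ℓ := by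
    rw [root_pow, ← map_pow, ← map_mul, ← map_mul, ← map_add]
    congr 1
    have h2 : (X - C x) ^ ℓ = (X - C x) ^ (ℓ - 1) * (X - C x) := by
      rw [← pow_succ, Nat.sub_add_cancel hℓ.one_le]
    rw [h2]
    calc X - C x = (u * (X - C x) ^ (ℓ - 1) + v * g) * (X - C x) := by rw [huv, one_mul]
      _ = u * ((X - C x) ^ (ℓ - 1) * (X - C x)) + v * ((X - C x) * g) := by ring
      _ = _ := by rw [← hg]
  rw [key]
  refine Ideal.add_mem _ (Ideal.mul_mem_left _ _ (Ideal.pow_mem_pow ?_ _))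
    (Ideal.mul_mem_left _ _ (Ideal.pow_mem_pow ?_ _))
  · exact Ideal.subset_span (by simp)
  · exact Ideal.subset_span (by simp)

end PT_

theorem p_PT : T_PT.{u} := by
  intro K _ ℓ hℓ ζ hζ f hf x y hy
  refine le_antisymm (PT_.prod_le ℓ f hζ hℓ.pos x y hy) ?_
  rw [Ideal.span_singleton_le_iff_mem]
  rcases eq_or_ne y 0 with h | h
  · subst h
    rw [zero_pow hℓ.ne_zero] at hy
    exact PT_.mem_of_zero ℓ f hℓ hf x hy.symm
  · exact PT_.mem_of_ne ℓ f hζ x y h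

end SRK
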