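import Mathlib
import Pool.Agent.SRK.Targets

set_option autoImplicit false

/-!
# SRK, RED: the norm equation over the residue field (MP_28d749_ag)
-/

namespace SRK

open Polynomial

universe u

namespace RED_

/-- terms of different degrees modulo `ℓ` -/
theorem deg_arg {k : Type*} [Field k] (ℓ : ℕ) (hℓ : ℓ.Prime) (m : ℕ) (hm : ¬ ℓ ∣ m)
    (f : k[X]) (hf : f.Monic) (hfm : f.natDegree = m) (P : Fin ℓ → k[X])
    (h : ∑ j : Fin ℓ, P j ^ ℓ * f ^ (j : ℕ) = 0) : ∀ j, P j = 0 := by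
  have key := Polynomial.degree_sum_eq_of_disjoint (fun j : Fin ℓ => P j ^ ℓ * f ^ (j : ℕ))
    Finset.univ (by
      rintro i ⟨-, hi⟩ j ⟨-, hj⟩ hij hdeg
      simp only [Function.comp_apply] at hdeg
      apply hij
      have hi' : P i ≠ 0 := by
        rintro h0
        apply hi
        simp [h0, hℓ.ne_zero]
      have hj' : P j ≠ 0 := by
        rintro h0
        apply hj
        simp [h0, hℓ.ne_zero]
      have hd := natDegree_eq_of_degree_eq hdeg
      rw [natDegree_mul (pow_ne_zero _ hi') (pow_ne_zero _ hf.ne_zero),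
        natDegree_mul (pow_ne_zero _ hj') (pow_ne_zero _ hf.ne_zero), natDegree_pow,
        natDegree_pow, natDegree_pow, natDegree_pow, hfm] at hd
      have hmod : (i : ℕ) * m ≡ (j : ℕ) * m [MOD ℓ] := by
        have h1 : (ℓ * (P i).natDegree + i * m) % ℓ = (ℓ * (P j).natDegree + j * m) % ℓ := by
          rw [hd]
        simpa [Nat.ModEq, Nat.mul_add_mod] using h1
      have hcop : Nat.gcd ℓ m = 1 := (Nat.Prime.coprime_iff_not_dvd hℓ).2 hm
      have := Nat.ModEq.cancel_right_of_coprime hcop hmod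
      have h2 : (i : ℕ) % ℓ = (j : ℕ) % ℓ := this
      rw [Nat.mod_eq_of_lt i.2, Nat.mod_eq_of_lt j.2] at h2
      exact Fin.ext h2)
  rw [h, degree_zero] at key
  intro j
  have h1 : degree (P j ^ ℓ * f ^ (j : ℕ)) ≤ ⊥ := by
    rw [key]
    exact Finset.le_sup (f := fun i : Fin ℓ => degree (P i ^ ℓ * f ^ (i : ℕ))) (Finset.mem_univ j)
  have h2 : P j ^ ℓ * f ^ (j : ℕ) = 0 := degree_eq_bot.1 (le_bot_iff.1 h1)
  rcases mul_eq_zero.1 h2 with h3 | h3
  · exact pow_eq_zero_iff hℓ.ne_zero |>.1 h3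
  · exact absurd h3 (pow_ne_zero _ hf.ne_zero)

/-- scaling of a vector of polynomials -/
theorem scale {K : Type u} [Field K] (v : AbsoluteValue K ℝ) (ℓ : ℕ) (O : Subring K)
    {k : Type u} [Field k] (r : O →+* k) (hc : Ctx v ℓ O r) (A : Fin ℓ → K[X])
    (hA : ∃ j, A j ≠ 0) : ∃ μ : K, μ ≠ 0 ∧ ∃ B : Fin ℓ → O[X],
      (∀ j, (B j).map O.subtype = C μ * A j) ∧ ∃ j, (B j).map r ≠ 0 := by
  classical
  obtain ⟨j1, hj1⟩ := hA
  set S : Finset (Σ _ : Fin ℓ, ℕ) := Finset.univ.sigma (fun j => (A j).support) with hS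
  have hne : S.Nonempty := by
    obtain ⟨n1, hn1⟩ := nonempty_support_iff.2 hj1
    exact ⟨⟨j1, n1⟩, by simp only [hS, Finset.mem_sigma, Finset.mem_univ, true_and]; exact hn1⟩
  obtain ⟨⟨j0, n0⟩, h0, hmax⟩ := Finset.exists_max_image S (fun p => v ((A p.1).coeff p.2)) hne
  have ha : (A j0).coeff n0 ≠ 0 := by
    simp only [hS, Finset.mem_sigma, Finset.mem_univ, true_and] at h0
    exact mem_support_iff.1 h0
  set a := (A j0).coeff n0 with ha'
  have hva : 0 < v a := v.pos ha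
  have hco : ∀ j n, a⁻¹ * (A j).coeff n ∈ O := by
    intro j n
    rw [hc.mem, map_mul, map_inv₀]
    by_cases h1 : (A j).coeff n = 0
    · rw [h1, map_zero, mul_zero]; exact zero_le_one
    · have h2 : v ((A j).coeff n) ≤ v a := hmax ⟨j, n⟩ (by
        simp only [hS, Finset.mem_sigma, Finset.mem_univ, true_and]
        exact mem_support_iff.2 h1)
      rw [inv_mul_le_iff₀ hva, mul_one]
      exact h2
  have hB : ∀ j, ∃ B : O[X], B.map O.subtype = C a⁻¹ * A j := by
    intro j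
    have : C a⁻¹ * A j ∈ lifts O.subtype := by
      rw [lifts_iff_coeff_lifts]
      intro n
      rw [coeff_C_mul]
      exact ⟨⟨_, hco j n⟩, rfl⟩
    exact (mem_lifts _).1 this
  choose B hB using hB
  refine ⟨a⁻¹, inv_ne_zero ha, B, hB, j0, ?_⟩
  intro h1
  have h2 : ((B j0).coeff n0 : K) = 1 := by
    have := congrArg (fun P => coeff P n0) (hB j0)
    simp only [coeff_map, coeff_C_mul, Subring.subtype_apply] at this
    rw [this, ← ha', inv_mul_cancel₀ ha]
  have h3 : (B j0).coeff n0 = 1 := Subtype.ext h2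
  have h4 := congrArg (fun P => coeff P n0) h1
  simp only [coeff_map, h3, map_one, coeff_zero] at h4
  exact one_ne_zero h4

/-- base change of the coordinate ring -/
noncomputable def bc {S T : Type*} [CommRing S] [CommRing T] (ℓ : ℕ) (f : S[X]) (φ : S →+* T) :
    Crd ℓ f →+* Crd ℓ (f.map φ) :=
  AdjoinRoot.lift ((AdjoinRoot.of _).comp (mapRingHom φ)) (AdjoinRoot.root _) (by
    have h := AdjoinRoot.eval₂_root ((X : Polynomial (Polynomial T)) ^ ℓ - C (f.map φ))
    rw [eval₂_sub, eval₂_pow, eval₂_X, eval₂_C] at h ⊢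
    exact h)

theorem bc_of {S T : Type*} [CommRing S] [CommRing T] (ℓ : ℕ) (f : S[X]) (φ : S →+* T)
    (g : S[X]) : bc ℓ f φ (AdjoinRoot.of _ g) = AdjoinRoot.of _ (g.map φ) := by
  unfold bc
  rw [AdjoinRoot.lift_of]
  rfl

theorem bc_el {S T : Type*} [CommRing S] [CommRing T] (ℓ : ℕ) (f : S[X]) (φ : S →+* T)
    (A : Fin ℓ → S[X]) : bc ℓ f φ (el ℓ f A) = el ℓ (f.map φ) (fun j => (A j).map φ) := by
  unfold el
  rw [map_sum]
  refine Finset.sum_congr rfl fun j _ => ?_
  rw [map_mul, map_pow, bc_of]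
  congr 2
  unfold bc
  rw [AdjoinRoot.lift_root]

theorem map_ff {S T : Type*} [CommRing S] [CommRing T] {m : ℕ} (φ : S →+* T) (ω : Fin m → S) :
    (ff ω).map φ = ff (fun w => φ (ω w)) := by
  unfold ff
  rw [Polynomial.map_prod]
  simp

theorem map_qq {S T : Type*} [CommRing S] [CommRing T] {m : ℕ} (φ : S →+* T) (ω : Fin m → S)
    (n : Fin m → ℕ) (j : ℕ) : (qq ω n j).map φ = qq (fun w => φ (ω w)) n j := by
  unfold qq
  rw [Polynomial.map_prod]
  refine Finset.prod_congr rfl fun w _ => ?_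
  split_ifs <;> simp

theorem map_qt {S T : Type*} [CommRing S] [CommRing T] {m : ℕ} (φ : S →+* T) (ω : Fin m → S)
    (n : Fin m → ℕ) : (qt ω n).map φ = qt (fun w => φ (ω w)) n := by
  unfold qt
  rw [Polynomial.map_prod]
  simp

theorem monic_ff {S : Type*} [CommRing S] {m : ℕ} (ω : Fin m → S) : (ff ω).Monic :=
  monic_prod_of_monic _ _ fun _ _ => monic_X_sub_C _

theorem deg_ff {S : Type*} [CommRing S] [Nontrivial S] {m : ℕ} (ω : Fin m → S) :
    (ff ω).natDegree = m := by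
  unfold ff
  rw [natDegree_prod_of_monic _ _ fun _ _ => monic_X_sub_C _]
  simp

theorem monic_qq {S : Type*} [CommRing S] {m : ℕ} (ω : Fin m → S) (n : Fin m → ℕ) (j : ℕ) :
    (qq ω n j).Monic := by
  refine monic_prod_of_monic _ _ fun w _ => ?_
  split_ifs
  · exact monic_X_sub_C _
  · exact monic_one

theorem monic_qt {S : Type*} [CommRing S] {m : ℕ} (ω : Fin m → S) (n : Fin m → ℕ) :
    (qt ω n).Monic :=
  monic_prod_of_monic _ _ fun _ _ => (monic_X_sub_C _).pow _

/-- the constant elements have the coordinates `(g, 0, .., 0)` -/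
theorem of_eq_el {S : Type*} [CommRing S] (ℓ : ℕ) (hℓ : 0 < ℓ) (f g : S[X]) :
    AdjoinRoot.of _ g = el ℓ f (fun j => if (j : ℕ) = 0 then g else 0) := by
  unfold el
  rw [Finset.sum_eq_single (⟨0, hℓ⟩ : Fin ℓ)]
  · simp
  · intro j _ hj
    have : (j : ℕ) ≠ 0 := fun h => hj (Fin.ext h)
    simp [this]
  · intro h
    exact absurd (Finset.mem_univ _) h

theorem of_inj (h : T_BAS.{u}) {S : Type u} [CommRing S] [Nontrivial S] (ℓ : ℕ) (hℓ : 0 < ℓ)
    (f g g' : S[X]) (hg : (AdjoinRoot.of _ g : Crd ℓ f) = AdjoinRoot.of _ g') : g = g' := by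
  obtain ⟨A, -, hA⟩ := h S ℓ hℓ f (AdjoinRoot.of _ g)
  have h1 := hA _ (of_eq_el ℓ hℓ f g)
  have h2 := hA (fun j => if (j : ℕ) = 0 then g' else 0) (hg.trans (of_eq_el ℓ hℓ f g'))
  have h3 := congrFun (h1.trans h2.symm) ⟨0, hℓ⟩
  simpa using h3

theorem el_smul {S : Type*} [CommRing S] (ℓ : ℕ) (f : S[X]) (μ : S) (A : Fin ℓ → S[X]) :
    el ℓ f (fun j => C μ * A j) = AdjoinRoot.of _ (C μ) * el ℓ f A := by
  unfold el
  rw [Finset.mul_sum]
  refine Finset.sum_congr rfl fun j _ => ?_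
  rw [map_mul, mul_assoc]

end RED_

open RED_

theorem p_RED (h1 : T_NMJ.{u}) (h2 : T_NRM.{u}) (h3 : T_BAS.{u}) : T_RED.{u} := by
  intro K _ v ℓ hℓ O k _ _ r hc ζ hζ m ω hω hm N x y hy α n hn hP
  have hℓ0 : 0 < ℓ := hℓ.out.pos
  obtain ⟨H, hH⟩ := hP
  obtain ⟨A, hA, -⟩ := h3 K ℓ hℓ0 (ff (fun w => (ω w : K))) H
  rw [hA] at hH
  have hω' : Function.Injective (fun w => (ω w : K)) := Subtype.val_injective.comp hω
  obtain ⟨hdvd, c, hc0, hnorm⟩ := h1 K ℓ ζ hζ m _ hω' hm N (fun i => (x i : K)) y hy α n hn A hH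
  choose A' hA' using hdvd
  -- not all coordinates vanish
  have hne : ∃ j, A' j ≠ 0 := by
    by_contra hcon
    push Not at hcon
    have hA0 : ∀ t : ℕ, el ℓ (ff (fun w => (ω w : K))) (tw ζ t A) = 0 := by
      intro t
      unfold el tw
      refine Finset.sum_eq_zero fun j _ => ?_
      rw [hA' j, hcon j]
      simp
    have h4 : AdjoinRoot.of ((X : K[X][X]) ^ ℓ - C (ff (fun w => (ω w : K))))
        (C c * qt (fun w => (ω w : K)) n * ∏ i, (X - C (x i : K)) ^ (∑ j, α i j)) =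
        AdjoinRoot.of _ 0 := by
      rw [← hnorm, map_zero]
      exact Finset.prod_eq_zero (Finset.mem_range.2 hℓ0) (hA0 0)
    have h5 := of_inj h3 ℓ hℓ0 _ _ _ h4
    have h6 : (C c * qt (fun w => (ω w : K)) n * ∏ i, (X - C (x i : K)) ^ (∑ j, α i j)) ≠ 0 := by
      refine mul_ne_zero (mul_ne_zero (C_ne_zero.2 hc0) (monic_qt _ _).ne_zero) ?_
      exact (monic_prod_of_monic _ _ fun i _ => (monic_X_sub_C _).pow _).ne_zero
    exact h6 h5
  obtain ⟨μ, hμ, B, hB, j0, hj0⟩ := scale v ℓ O r hc A' hne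
  -- the root of unity
  have hvζ : v ζ = 1 := by
    have h4 : v ζ ^ ℓ = 1 := by rw [← map_pow, hζ.pow_eq_one, map_one]
    exact (pow_eq_one_iff_of_nonneg (v.nonneg _) hℓ0.ne').1 h4
  set ζ' : O := ⟨ζ, (hc.mem ζ).2 hvζ.le⟩ with hζ'def
  have hζ' : IsPrimitiveRoot ζ' ℓ := by
    refine IsPrimitiveRoot.of_map_of_injective (f := O.subtype) ?_ Subtype.val_injective
    exact hζ
  obtain ⟨g, hg1, hg2⟩ := h2 O k ℓ r ζ' hζ' (ff ω) (fun j => qq ω n j * B j)
  -- mapping to the field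
  have hff : (ff ω).map O.subtype = ff (fun w => (ω w : K)) := map_ff O.subtype ω
  have hAO : ∀ j : Fin ℓ, (qq ω n j * B j).map O.subtype = C μ * A j := by
    intro j
    rw [Polynomial.map_mul, hB j, hA' j]
    have : (qq ω n j).map O.subtype = qq (fun w => (ω w : K)) n j := map_qq O.subtype ω n j
    rw [this]
    ring
  have hgK : AdjoinRoot.of ((X : K[X][X]) ^ ℓ - C ((ff ω).map O.subtype)) (g.map O.subtype) =
      ∏ t ∈ Finset.range ℓ, el ℓ ((ff ω).map O.subtype) (tw ζ t (fun j => C μ * A j)) := by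
    have h4 := congrArg (bc ℓ (ff ω) O.subtype) hg1
    rw [bc_of, map_prod] at h4
    rw [← h4]
    refine Finset.prod_congr rfl fun t _ => ?_
    rw [bc_el]
    congr 1
    funext j
    unfold tw
    rw [Polynomial.map_mul, hAO j, Polynomial.map_C]
    rfl
  rw [hff] at hgK
  have hgK2 : g.map O.subtype = C (μ ^ ℓ * c) * qt (fun w => (ω w : K)) n *
      ∏ i, (X - C (x i : K)) ^ (∑ j, α i j) := by
    apply of_inj h3 ℓ hℓ0 (ff (fun w => (ω w : K)))
    rw [hgK]
    have h4 : ∀ t : ℕ, el ℓ (ff (fun w => (ω w : K))) (tw ζ t (fun j => C μ * A j)) =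
        AdjoinRoot.of _ (C μ) * el ℓ (ff (fun w => (ω w : K))) (tw ζ t A) := by
      intro t
      rw [← el_smul]
      congr 1
      funext j
      unfold tw
      ring
    simp only [h4]
    rw [Finset.prod_mul_distrib, hnorm, Finset.prod_const, Finset.card_range, ← map_pow,
      ← map_mul]
    congr 1
    rw [C_mul, C_pow]
    ring
  -- the leading coefficient
  set Q : O[X] := qt ω n * ∏ i, (X - C (x i)) ^ (∑ j, α i j) with hQ
  have hQm : Q.Monic :=
    (monic_qt _ _).mul (monic_prod_of_monic _ _ fun i _ => (monic_X_sub_C _).pow _)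
  have hQK : Q.map O.subtype = qt (fun w => (ω w : K)) n *
      ∏ i, (X - C (x i : K)) ^ (∑ j, α i j) := by
    rw [hQ, Polynomial.map_mul, Polynomial.map_prod]
    have : (qt ω n).map O.subtype = qt (fun w => (ω w : K)) n := map_qt O.subtype ω n
    rw [this]
    simp
  have hgQ : g = C (g.coeff Q.natDegree) * Q := by
    apply Polynomial.map_injective O.subtype Subtype.val_injective
    rw [Polynomial.map_mul, hgK2, mul_assoc, ← hQK, Polynomial.map_C]
    congr 2
    have h4 : O.subtype (g.coeff Q.natDegree) = (g.map O.subtype).coeff Q.natDegree := by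
      rw [coeff_map]
    rw [h4, hgK2, mul_assoc, ← hQK, coeff_C_mul, coeff_map, hQm.coeff_natDegree, map_one, mul_one]
  have hgr : g.map r = C (r (g.coeff Q.natDegree)) * qt (fun w => r (ω w)) n *
      ∏ i, (X - C (r (x i))) ^ (∑ j, α i j) := by
    conv_lhs => rw [hgQ]
    rw [Polynomial.map_mul, Polynomial.map_C, hQ, Polynomial.map_mul, Polynomial.map_prod,
      map_qt, mul_assoc]
    simp
  have hsum : ∑ j : Fin ℓ, (qq (fun w => r (ω w)) n j * (B j).map r) ^ ℓ *
      (ff (fun w => r (ω w))) ^ (j : ℕ) = g.map r := by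
    rw [hg2]
    refine Finset.sum_congr rfl fun j _ => ?_
    rw [Polynomial.map_mul, map_qq, map_ff]
  refine ⟨fun j => (B j).map r, r (g.coeff Q.natDegree), ?_, ?_⟩
  · intro h0
    rw [hgr, h0, C_0, zero_mul, zero_mul] at hsum
    have h4 := deg_arg ℓ hℓ.out m hm (ff (fun w => r (ω w))) (monic_ff _) (deg_ff _) _ hsum j0
    rcases mul_eq_zero.1 h4 with h5 | h5
    · exact (monic_qq (fun w => r (ω w)) n j0).ne_zero h5
    · exact hj0 h5
  · rw [hsum, hgr]

end SRK
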