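import Mathlib
import Pool.Agent.SRK.Targets

/-!
The residue field of a nonarchimedean absolute value (RFS).
-/

universe u

namespace SRK

namespace RFS_

variable {K : Type u} [Field K] (v : AbsoluteValue K ℝ)

/-- the valuation ring -/
def OO (hv : IsNonarchimedean v) : Subring K where
  carrier := {x | v x ≤ 1}
  mul_mem' {a b} ha hb := by
    have ha' : v a ≤ 1 := ha
    have hb' : v b ≤ 1 := hb
    change v (a * b) ≤ 1
    rw [map_mul]
    exact mul_le_one₀ ha' (v.nonneg b) hb'
  one_mem' := by
    change v 1 ≤ 1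
    rw [map_one]
  add_mem' {a b} ha hb := (hv a b).trans (max_le ha hb)
  zero_mem' := by
    change v 0 ≤ 1
    rw [map_zero]
    exact zero_le_one
  neg_mem' {a} ha := by
    have ha' : v a ≤ 1 := ha
    change v (-a) ≤ 1
    rwa [AbsoluteValue.map_neg]

/-- the maximal ideal -/
def II (hv : IsNonarchimedean v) : Ideal (OO v hv) where
  carrier := {x | v (x : K) < 1}
  add_mem' {a b} ha hb := lt_of_le_of_lt (hv (a : K) b) (max_lt ha hb)
  zero_mem' := by
    change v ((0 : OO v hv) : K) < 1
    rw [Subring.coe_zero, map_zero]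
    exact zero_lt_one
  smul_mem' c x hx := by
    have hx' : v (x : K) < 1 := hx
    have hc : v (c : K) ≤ 1 := c.2
    change v ((c * x : OO v hv) : K) < 1
    rw [Subring.coe_mul, map_mul]
    calc v (c : K) * v (x : K) ≤ 1 * v (x : K) :=
          mul_le_mul_of_nonneg_right hc (v.nonneg _)
      _ < 1 := by rwa [one_mul]

theorem isMaximal (hv : IsNonarchimedean v) : (II v hv).IsMaximal := by
  rw [Ideal.isMaximal_iff]
  constructor
  · intro h
    have h' : v ((1 : OO v hv) : K) < 1 := h
    rw [Subring.coe_one, map_one] at h'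
    exact lt_irrefl _ h'
  · intro J x _ hx hxJ
    have hx1 : v (x : K) = 1 := le_antisymm x.2 (not_lt.mp hx)
    have hx0 : (x : K) ≠ 0 := by
      intro h
      rw [h, map_zero] at hx1
      exact zero_ne_one hx1
    have hinv : v ((x : K)⁻¹) ≤ 1 := by
      rw [map_inv₀, hx1, inv_one]
    have h1 : (1 : OO v hv) = ⟨(x : K)⁻¹, hinv⟩ * x := by
      apply Subtype.ext
      rw [Subring.coe_mul, Subring.coe_one]
      exact (inv_mul_cancel₀ hx0).symm
    rw [h1]
    exact J.mul_mem_left _ hxJ

/-- in `K` algebraically closed the equation `x ^ n = x + 1` has a solution of value at most one -/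
theorem exists_root [IsAlgClosed K] (hv : IsNonarchimedean v) (n : ℕ) (hn : 2 ≤ n) :
    ∃ x : OO v hv, x ^ n = x + 1 := by
  obtain ⟨x, hx⟩ := IsAlgClosed.exists_root
    ((Polynomial.X : Polynomial K) ^ n - (Polynomial.X + Polynomial.C 1)) (by
      rw [Polynomial.degree_sub_eq_left_of_degree_lt]
      · rw [Polynomial.degree_X_pow]
        have : (n : WithBot ℕ) ≠ 0 := by
          have h0 : n ≠ 0 := by omega
          exact_mod_cast h0
        exact this
      · rw [Polynomial.degree_X_pow, Polynomial.degree_X_add_C]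
        have h1 : 1 < n := by omega
        exact_mod_cast h1)
  have hx' : x ^ n = x + 1 := by
    have h := hx
    rw [Polynomial.IsRoot.def] at h
    simp only [Polynomial.eval_sub, Polynomial.eval_pow, Polynomial.eval_X, Polynomial.eval_add,
      Polynomial.eval_C] at h
    exact sub_eq_zero.mp h
  have hle : v x ≤ 1 := by
    by_contra hlt
    have hlt' : 1 < v x := not_le.mp hlt
    have h1 : v x ^ n ≤ v x := by
      rw [← map_pow, hx']
      refine (hv x 1).trans (max_le le_rfl ?_)
      rw [map_one]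
      exact hlt'.le
    have h2 : v x ^ 1 < v x ^ n := pow_lt_pow_right₀ hlt' (by omega)
    rw [pow_one] at h2
    exact absurd h1 (not_le.mpr h2)
  refine ⟨⟨x, hle⟩, ?_⟩
  apply Subtype.ext
  rw [Subring.coe_pow, Subring.coe_add, Subring.coe_one]
  exact hx'

end RFS_

open RFS_ in
/-- RFS -/
theorem p_RFS : T_RFS.{u} := by
  intro K _ _ v ℓ hv hℓ hlt
  have hmax := isMaximal v hv
  let _ : Field (OO v hv ⧸ II v hv) := Ideal.Quotient.field (II v hv)
  have hz : ((ℓ : ℕ) : OO v hv ⧸ II v hv) = 0 := by
    have h3 : (Ideal.Quotient.mk (II v hv)) ((ℓ : ℕ) : OO v hv) = 0 := by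
      rw [Ideal.Quotient.eq_zero_iff_mem]
      change v (((ℓ : ℕ) : OO v hv) : K) < 1
      rw [Subring.coe_natCast]
      exact hlt
    rw [map_natCast] at h3
    exact h3
  have hchar : CharP (OO v hv ⧸ II v hv) ℓ := (CharP.charP_iff_prime_eq_zero hℓ).mpr hz
  have hinf : Infinite (OO v hv ⧸ II v hv) := by
    by_contra hfin
    have hfin' : Finite (OO v hv ⧸ II v hv) := not_infinite_iff_finite.mp hfin
    let _ : Fintype (OO v hv ⧸ II v hv) := Fintype.ofFinite _
    have hcard : 2 ≤ Fintype.card (OO v hv ⧸ II v hv) := Fintype.one_lt_card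
    obtain ⟨x, hx⟩ := exists_root v hv (Fintype.card (OO v hv ⧸ II v hv)) hcard
    have h1 := FiniteField.pow_card (Ideal.Quotient.mk (II v hv) x)
    rw [← map_pow, hx, map_add, map_one] at h1
    have h2 : (1 : OO v hv ⧸ II v hv) = 0 := by
      have h3 := congrArg (fun t => t - Ideal.Quotient.mk (II v hv) x) h1
      simp at h3
    exact one_ne_zero h2
  refine ⟨OO v hv, OO v hv ⧸ II v hv, inferInstance, hchar, hinf, Ideal.Quotient.mk (II v hv),
    ⟨hv, hlt, fun x => Iff.rfl, fun x => ?_, Ideal.Quotient.mk_surjective⟩⟩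
  rw [Ideal.Quotient.eq_zero_iff_mem]
  exact Iff.rfl

end SRK
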