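import Mathlib
import Pool.Agent.SRK.Targets

/-!
SRK-SCL: scaling of the curve `Y ^ ℓ = f(X)`.
-/

namespace SRK

open Polynomial

universe u

namespace SCL_

variable {K : Type u} [Field K]

lemma comp_ff {m : ℕ} (ω : Fin m → K) (c : K) :
    (ff (fun w => c * ω w)).comp (C c * X) = C (c ^ m) * ff ω := by
  unfold ff
  rw [Polynomial.prod_comp]
  have h : ∀ w : Fin m, (X - C (c * ω w)).comp (C c * X) = C c * (X - C (ω w)) := by
    intro w
    rw [sub_comp, X_comp, C_comp, C_mul, mul_sub]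
  rw [Finset.prod_congr rfl fun w _ => h w, Finset.prod_mul_distrib, Finset.prod_const,
    Finset.card_univ, Fintype.card_fin, C_pow]

/-- the substitution `X ↦ c X`, `Y ↦ κ Y` -/
noncomputable def phi (ℓ : ℕ) {m : ℕ} (ω : Fin m → K) (c κ : K) (h : κ ^ ℓ = c ^ m) :
    Crd ℓ (ff (fun w => c * ω w)) →+* Crd ℓ (ff ω) :=
  AdjoinRoot.lift ((AdjoinRoot.of _).comp (Polynomial.compRingHom (C c * X)))
    (AdjoinRoot.of _ (C κ) * AdjoinRoot.root _) (by
    have h1 := AdjoinRoot.eval₂_root ((X : Polynomial (Polynomial K)) ^ ℓ - C (ff ω))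
    rw [eval₂_sub, eval₂_pow, eval₂_X, eval₂_C] at h1 ⊢
    rw [RingHom.comp_apply, Polynomial.coe_compRingHom_apply, comp_ff, mul_pow, ← map_pow,
      ← C_pow, h, map_mul, ← mul_sub, h1, mul_zero])

lemma phi_of (ℓ : ℕ) {m : ℕ} (ω : Fin m → K) (c κ : K) (h : κ ^ ℓ = c ^ m) (p : K[X]) :
    phi ℓ ω c κ h (AdjoinRoot.of _ p) = AdjoinRoot.of _ (p.comp (C c * X)) := by
  unfold phi
  rw [AdjoinRoot.lift_of]
  rfl

lemma phi_root (ℓ : ℕ) {m : ℕ} (ω : Fin m → K) (c κ : K) (h : κ ^ ℓ = c ^ m) :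
    phi ℓ ω c κ h (AdjoinRoot.root _) = AdjoinRoot.of _ (C κ) * AdjoinRoot.root _ := by
  unfold phi
  rw [AdjoinRoot.lift_root]

/-- two generators may be multiplied by units -/
lemma span_units {R : Type*} [CommRing R] (u v a b : R) (hu : IsUnit u) (hv : IsUnit v) :
    Ideal.span {u * a, v * b} = Ideal.span {a, b} := by
  obtain ⟨u, rfl⟩ := hu
  obtain ⟨v, rfl⟩ := hv
  apply le_antisymm
  · rw [Ideal.span_le]
    rintro x (rfl | rfl)
    · exact Ideal.mul_mem_left _ _ (Ideal.subset_span (by simp))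
    · exact Ideal.mul_mem_left _ _ (Ideal.subset_span (by simp))
  · rw [Ideal.span_le]
    rintro x (rfl | rfl)
    · have h : ((u⁻¹ : Rˣ) : R) * ((u : R) * x) ∈ Ideal.span {(u : R) * x, (v : R) * b} :=
        Ideal.mul_mem_left _ _ (Ideal.subset_span (by simp))
      rwa [Units.inv_mul_cancel_left] at h
    · have h : ((v⁻¹ : Rˣ) : R) * ((v : R) * x) ∈ Ideal.span {(u : R) * a, (v : R) * x} :=
        Ideal.mul_mem_left _ _ (Ideal.subset_span (by simp))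
      rwa [Units.inv_mul_cancel_left] at h

lemma map_pt (ℓ : ℕ) {m : ℕ} (ω : Fin m → K) (c κ : K) (h : κ ^ ℓ = c ^ m) (hc : c ≠ 0)
    (hκ : κ ≠ 0) (x y : K) :
    Ideal.map (phi ℓ ω c κ h) (pt ℓ (ff (fun w => c * ω w)) (c * x) (κ * y)) =
      pt ℓ (ff ω) x y := by
  unfold pt
  rw [Ideal.map_span, Set.image_pair, phi_of, map_sub (phi ℓ ω c κ h), phi_root, phi_of,
    sub_comp, X_comp, C_comp, C_comp]
  have e1 : (AdjoinRoot.of ((X : Polynomial (Polynomial K)) ^ ℓ - C (ff ω)))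
      (C c * X - C (c * x)) = AdjoinRoot.of _ (C c) * AdjoinRoot.of _ (X - C x) := by
    rw [← map_mul, mul_sub, C_mul]
  have e2 : (AdjoinRoot.of ((X : Polynomial (Polynomial K)) ^ ℓ - C (ff ω))) (C κ) *
      AdjoinRoot.root _ - AdjoinRoot.of _ (C (κ * y)) =
      AdjoinRoot.of _ (C κ) * (AdjoinRoot.root _ - AdjoinRoot.of _ (C y)) := by
    rw [mul_sub, ← map_mul, C_mul]
  rw [e1, e2]
  apply span_units
  · exact ((isUnit_iff_ne_zero.2 hc).map C).map _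
  · exact ((isUnit_iff_ne_zero.2 hκ).map C).map _

end SCL_

open SCL_ in
theorem p_SCL : T_SCL.{u} := by
  intro K _ ℓ hℓ m ω ζ c κ hc hκ N x y α hT
  have hκ0 : κ ≠ 0 := by
    rintro rfl
    rw [zero_pow hℓ.ne'] at hκ
    exact pow_ne_zero m hc hκ.symm
  obtain ⟨M, hM, h, hh⟩ := hT
  refine ⟨M, hM, phi ℓ ω c κ hκ h, ?_⟩
  have h1 := congrArg (Ideal.map (phi ℓ ω c κ hκ)) hh
  rw [Ideal.map_span, Set.image_singleton, Ideal.map_pow] at h1
  rw [← h1]
  congr 1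
  unfold dv
  have h2 : ∀ I : Ideal (Crd ℓ (ff (fun w => c * ω w))),
      Ideal.map (phi ℓ ω c κ hκ) I = Ideal.mapHom (phi ℓ ω c κ hκ) I := fun _ => rfl
  rw [h2, map_prod]
  refine Finset.prod_congr rfl fun i _ => ?_
  rw [map_prod]
  refine Finset.prod_congr rfl fun j _ => ?_
  rw [map_pow, ← h2]
  congr 1
  have e : ζ ^ (j : ℕ) * (κ * y i) = κ * (ζ ^ (j : ℕ) * y i) := by ring
  rw [e, map_pt ℓ ω c κ hκ hc hκ0]

end SRK
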