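import Mathlib
import Pool.Agent.SRK.Targets

/-!
SGE: the automorphism `Y ↦ ζ Y` in coordinates.
-/

namespace SRK

open Polynomial

universe u

namespace SGE_

variable {S : Type u} [CommRing S] {ℓ : ℕ} {f : S[X]} {ζ : S}

lemma sg_of (hζ : ζ ^ ℓ = 1) (a : S[X]) :
    sg ℓ f ζ hζ (AdjoinRoot.of _ a) = AdjoinRoot.of _ a := by
  unfold sg
  rw [AdjoinRoot.lift_of]

lemma sg_root (hζ : ζ ^ ℓ = 1) :
    sg ℓ f ζ hζ (AdjoinRoot.root _) = AdjoinRoot.of _ (C ζ) * AdjoinRoot.root _ := by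
  unfold sg
  rw [AdjoinRoot.lift_root]

lemma sg_el (hζ : ζ ^ ℓ = 1) (A : Fin ℓ → S[X]) :
    sg ℓ f ζ hζ (el ℓ f A) = el ℓ f (tw ζ 1 A) := by
  unfold el tw
  rw [map_sum]
  refine Finset.sum_congr rfl fun j _ => ?_
  rw [map_mul, map_pow, sg_of, sg_root, mul_pow, ← map_pow, ← map_pow, one_mul, map_mul]
  ring

lemma it_el (hζ : ζ ^ ℓ = 1) (A : Fin ℓ → S[X]) (t : ℕ) :
    (sg ℓ f ζ hζ)^[t] (el ℓ f A) = el ℓ f (tw ζ t A) := by
  induction t with
  | zero =>
    have h : tw ζ 0 A = A := by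
      funext j
      simp [tw]
    rw [h]
    rfl
  | succ t ih =>
    rw [Function.iterate_succ_apply', ih, sg_el]
    congr 1
    funext j
    unfold tw
    rw [← mul_assoc, ← C_mul, ← pow_add]
    congr 3
    ring

lemma it_of (hζ : ζ ^ ℓ = 1) (a : S[X]) (t : ℕ) :
    (sg ℓ f ζ hζ)^[t] (AdjoinRoot.of _ a) = AdjoinRoot.of _ a :=
  Function.iterate_fixed (sg_of hζ a) t

lemma it_root (hζ : ζ ^ ℓ = 1) (t : ℕ) :
    (sg ℓ f ζ hζ)^[t] (AdjoinRoot.root _) = AdjoinRoot.of _ (C (ζ ^ t)) * AdjoinRoot.root _ := by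
  induction t with
  | zero => simp
  | succ t ih =>
    rw [Function.iterate_succ_apply', ih, map_mul, sg_of, sg_root, ← mul_assoc, ← map_mul,
      ← C_mul, pow_succ]

lemma it_id (hζ : ζ ^ ℓ = 1) (x : Crd ℓ f) : (sg ℓ f ζ hζ)^[ℓ] x = x := by
  induction x using AdjoinRoot.induction_on with
  | ih p =>
    induction p using Polynomial.induction_on' with
    | add p q hp hq =>
      rw [map_add, iterate_map_add, hp, hq]
    | monomial n a =>
      have h : AdjoinRoot.mk ((X : Polynomial (Polynomial S)) ^ ℓ - C f) (monomial n a) =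
          AdjoinRoot.of _ a * AdjoinRoot.root _ ^ n := by
        rw [← C_mul_X_pow_eq_monomial, map_mul, map_pow, AdjoinRoot.mk_C, AdjoinRoot.mk_X]
      rw [h, iterate_map_mul, iterate_map_pow, it_of, it_root, hζ, C_1, map_one, one_mul]

end SGE_

open SGE_

theorem p_SGE : T_SGE.{u} := by
  intro S _ ℓ hℓ f ζ hζ
  refine ⟨fun A t => it_el hζ A t, ?_⟩
  obtain ⟨k, rfl⟩ : ∃ k, ℓ = k + 1 := ⟨ℓ - 1, by omega⟩
  rw [Function.bijective_iff_has_inverse]
  refine ⟨(sg (k + 1) f ζ hζ)^[k], fun x => ?_, fun x => ?_⟩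
  · have h := it_id hζ x
    rwa [Function.iterate_succ_apply] at h
  · have h := it_id hζ x
    rwa [Function.iterate_succ_apply'] at h

end SRK
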