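import Mathlib
import Pool.Agent.SRK.Targets

/-!
# SUB: the group of principal divisors supported in the given points
-/

set_option autoImplicit false

universe u

namespace SRK

open Polynomial

namespace SUB_

/-- division by a principal ideal -/
lemma pr_div {R : Type u} [CommRing R] [IsDomain R] (h g : R) (I : Ideal R) (hg : g ≠ 0)
    (e : Ideal.span {h} * I = Ideal.span {g}) : Pr I := by
  have h1 : g ∈ Ideal.span {h} := by
    have : g ∈ Ideal.span {h} * I := by rw [e]; exact Ideal.mem_span_singleton_self g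
    exact Ideal.mul_le_left this
  obtain ⟨g', rfl⟩ := Ideal.mem_span_singleton.1 h1
  have hh : h ≠ 0 := left_ne_zero_of_mul hg
  refine ⟨g', (Ideal.span_singleton_mul_right_inj hh).1 ?_⟩
  rw [e, Ideal.span_singleton_mul_span_singleton]

lemma pr_mul {R : Type u} [CommRing R] (I J : Ideal R) (hI : Pr I) (hJ : Pr J) : Pr (I * J) := by
  obtain ⟨h, rfl⟩ := hI
  obtain ⟨g, rfl⟩ := hJ
  exact ⟨h * g, Ideal.span_singleton_mul_span_singleton h g⟩

variable {K : Type u} [Field K] {ℓ : ℕ} {ζ : K} {f : K[X]} {N : ℕ} {x y : Fin N → K}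

lemma dv_add (α β : Fin N → Fin ℓ → ℕ) :
    dv ℓ f ζ x y (fun i j => α i j + β i j) = dv ℓ f ζ x y α * dv ℓ f ζ x y β := by
  unfold dv
  rw [← Finset.prod_mul_distrib]
  refine Finset.prod_congr rfl fun i _ => ?_
  rw [← Finset.prod_mul_distrib]
  exact Finset.prod_congr rfl fun j _ => pow_add _ _ _

lemma dv_const (h_PT : T_PT.{u}) (hℓ : ℓ.Prime) (hζ : IsPrimitiveRoot ζ ℓ) (hf : Squarefree f)
    (hxy : ∀ i, y i ^ ℓ = f.eval (x i)) (c : Fin N → ℕ) :
    dv ℓ f ζ x y (fun i _ => c i) = Ideal.span {∏ i, (AdjoinRoot.of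
      ((X : Polynomial (Polynomial K)) ^ ℓ - C f) (X - C (x i))) ^ c i} := by
  unfold dv
  rw [← Ideal.prod_span_singleton]
  refine Finset.prod_congr rfl fun i _ => ?_
  rw [Finset.prod_pow, h_PT K ℓ hℓ ζ hζ f hf (x i) (y i) (hxy i), Ideal.span_singleton_pow]

lemma const_ne (hℓ : 0 < ℓ) (hD : IsDomain (Crd ℓ f)) (c : Fin N → ℕ) :
    (∏ i, (AdjoinRoot.of ((X : Polynomial (Polynomial K)) ^ ℓ - C f) (X - C (x i))) ^ c i :
      Crd ℓ f) ≠ 0 := by
  rw [Finset.prod_ne_zero_iff]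
  intro i _
  refine pow_ne_zero _ ?_
  have hinj : Function.Injective (AdjoinRoot.of ((X : Polynomial (Polynomial K)) ^ ℓ - C f)) := by
    apply AdjoinRoot.of.injective_of_degree_ne_zero
    rw [degree_X_pow_sub_C hℓ]
    exact_mod_cast hℓ.ne'
  rw [Ne, map_eq_zero_iff _ hinj]
  exact X_sub_C_ne_zero (x i)

/-- adding constants -/
lemma key (h_DOM : T_DOM.{u}) (h_PT : T_PT.{u}) (hℓ : ℓ.Prime) (hζ : IsPrimitiveRoot ζ ℓ)
    (hf : Squarefree f) (hd : ¬ ℓ ∣ f.natDegree) (hxy : ∀ i, y i ^ ℓ = f.eval (x i))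
    (β : Fin N → Fin ℓ → ℕ) (c : Fin N → ℕ)
    (h : Pr (dv ℓ f ζ x y (fun i j => c i + β i j))) : Pr (dv ℓ f ζ x y β) := by
  haveI hD := h_DOM K ℓ hℓ f hd
  rw [dv_add (fun i _ => c i) β, dv_const h_PT hℓ hζ hf hxy c] at h
  obtain ⟨g, hg⟩ := h
  by_cases hg0 : g = 0
  · have h1 : dv ℓ f ζ x y β = ⊥ := by
      rw [hg0, Ideal.span_singleton_eq_bot.2 rfl, Ideal.mul_eq_bot] at hg
      refine hg.resolve_left ?_
      rw [Ideal.span_singleton_eq_bot]
      exact const_ne hℓ.pos hD c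
    exact ⟨0, by rw [h1, Ideal.span_singleton_eq_bot.2 rfl]⟩
  · exact pr_div _ g _ hg0 hg

lemma key' (h_PT : T_PT.{u}) (hℓ : ℓ.Prime) (hζ : IsPrimitiveRoot ζ ℓ)
    (hf : Squarefree f) (hxy : ∀ i, y i ^ ℓ = f.eval (x i))
    (β : Fin N → Fin ℓ → ℕ) (c : Fin N → ℕ)
    (h : Pr (dv ℓ f ζ x y β)) : Pr (dv ℓ f ζ x y (fun i j => c i + β i j)) := by
  rw [dv_add (fun i _ => c i) β, dv_const h_PT hℓ hζ hf hxy c]
  exact pr_mul _ _ ⟨_, rfl⟩ h

/-- the automorphism on points -/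
lemma map_pt (hζ : ζ ^ ℓ = 1) (h0 : ζ ≠ 0) (a b : K) :
    Ideal.map (sg ℓ f ζ hζ) (pt ℓ f a (ζ * b)) = pt ℓ f a b := by
  have h1 : sg ℓ f ζ hζ (AdjoinRoot.of _ (X - C a)) = AdjoinRoot.of _ (X - C a) := by
    unfold sg
    rw [AdjoinRoot.lift_of]
  have h2 : sg ℓ f ζ hζ (AdjoinRoot.root _ - AdjoinRoot.of _ (C (ζ * b))) =
      AdjoinRoot.of _ (C ζ) * (AdjoinRoot.root _ - AdjoinRoot.of _ (C b)) := by
    unfold sg
    rw [map_sub, AdjoinRoot.lift_of, AdjoinRoot.lift_root, C_mul, map_mul, mul_sub]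
  unfold pt
  rw [Ideal.map_span, Set.image_pair, h1, h2, Ideal.span_insert, Ideal.span_insert,
    Ideal.span_singleton_mul_left_unit]
  exact ((isUnit_iff_ne_zero.2 h0).map C).map _

lemma zpow_succ [NeZero ℓ] (hζ : ζ ^ ℓ = 1) (j : Fin ℓ) :
    ζ ^ (((j + 1 : Fin ℓ) : ℕ)) = ζ * ζ ^ (j : ℕ) := by
  rw [Fin.val_add, ← pow_eq_pow_mod _ hζ, pow_add, mul_comm]
  congr 1
  rw [Fin.val_one', ← pow_eq_pow_mod _ hζ, pow_one]

lemma map_prod' {R S : Type u} [CommRing R] [CommRing S] (g : R →+* S) {ι : Type} (s : Finset ι)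
    (I : ι → Ideal R) : Ideal.map g (∏ i ∈ s, I i) = ∏ i ∈ s, Ideal.map g (I i) :=
  map_prod (Ideal.mapHom g) I s

/-- the automorphism on divisors -/
lemma map_dv [NeZero ℓ] (hζ : ζ ^ ℓ = 1) (h0 : ζ ≠ 0) (α : Fin N → Fin ℓ → ℕ) :
    Ideal.map (sg ℓ f ζ hζ) (dv ℓ f ζ x y α) = dv ℓ f ζ x y (fun i j => α i (j + 1)) := by
  unfold dv
  rw [map_prod']
  refine Finset.prod_congr rfl fun i _ => ?_
  rw [map_prod', ← Equiv.prod_comp (Equiv.addRight (1 : Fin ℓ))]
  refine Finset.prod_congr rfl fun j _ => ?_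
  rw [Ideal.map_pow, Equiv.coe_addRight, zpow_succ hζ j, mul_assoc, map_pt hζ h0]

end SUB_

open SUB_ in
theorem p_SUB (h_DOM : T_DOM.{u}) (h_PT : T_PT.{u}) : T_SUB.{u} := by
  intro K _ ℓ hℓ ζ hζ f hf hd N x y hxy
  have hp : ℓ.Prime := hℓ.out
  have hζ1 : ζ ^ ℓ = 1 := hζ.pow_eq_one
  have hζ0 : ζ ≠ 0 := hζ.ne_zero hp.ne_zero
  haveI hD := h_DOM K ℓ hp f hd
  have K1 := fun β c h => key (x := x) (y := y) h_DOM h_PT hp hζ hf hd hxy β c h
  have K2 := fun β c h => key' (x := x) (y := y) h_PT hp hζ hf hxy β c h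
  have hzero : Pr (dv ℓ f ζ x y (fun _ _ => 0)) := by
    refine ⟨1, ?_⟩
    unfold dv
    simp
  let P : AddSubgroup (Fin N → Fin ℓ → ℤ) :=
    { carrier := {a | ∃ (α : Fin N → Fin ℓ → ℕ) (c : Fin N → ℕ),
        (∀ i j, (α i j : ℤ) = c i + a i j) ∧ Pr (dv ℓ f ζ x y α)}
      zero_mem' := ⟨fun _ _ => 0, fun _ => 0, fun i j => by simp, hzero⟩
      add_mem' := by
        rintro a b ⟨α, c, h1, h2⟩ ⟨β, d, h3, h4⟩
        refine ⟨fun i j => α i j + β i j, fun i => c i + d i, fun i j => ?_, ?_⟩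
        · push_cast
          rw [h1, h3, Pi.add_apply, Pi.add_apply]
          ring
        · rw [dv_add]
          exact pr_mul _ _ h2 h4
      neg_mem' := by
        rintro a ⟨α, c, h1, h2⟩
        let S : Fin N → ℕ := fun i => ∑ j, α i j
        have hS : ∀ i j, α i j ≤ S i := fun i j =>
          Finset.single_le_sum (f := fun j => α i j) (fun _ _ => Nat.zero_le _)
            (Finset.mem_univ j)
        refine ⟨fun i j => (S i - α i j) + c i, S, fun i j => ?_, ?_⟩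
        · have h3 := h1 i j
          have h4 := hS i j
          rw [Pi.neg_apply, Pi.neg_apply]
          push_cast [Nat.cast_sub h4]
          linarith
        · obtain ⟨h, hh⟩ := h2
          have h5 : dv ℓ f ζ x y α * dv ℓ f ζ x y (fun i j => (S i - α i j) + c i) =
              dv ℓ f ζ x y (fun i _ => S i + c i) := by
            rw [← dv_add]
            congr 1
            funext i j
            have := hS i j
            omega
          rw [hh, dv_const h_PT hp hζ hf hxy] at h5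
          exact pr_div _ _ _ (const_ne hp.pos hD _) h5 }
  refine ⟨P, fun α => ⟨?_, ?_⟩, ?_, ?_⟩
  · rintro ⟨β, c, h1, h2⟩
    refine K1 α c ?_
    have h3 : β = fun i j => c i + α i j := by
      funext i j
      have h4 : (β i j : ℤ) = c i + α i j := h1 i j
      exact_mod_cast h4
    rw [← h3]
    exact h2
  · intro h
    exact ⟨α, fun _ => 0, fun i j => by simp, h⟩
  · rintro a ⟨α, c, h1, h2⟩
    refine ⟨fun i j => α i (j + 1), c, fun i j => h1 i (j + 1), ?_⟩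
    rw [← map_dv hζ1 hζ0 α]
    obtain ⟨h, hh⟩ := h2
    refine ⟨sg ℓ f ζ hζ1 h, ?_⟩
    rw [hh, Ideal.map_span, Set.image_singleton]
  · intro c
    refine ⟨fun i _ => (c i).toNat, fun i => (-c i).toNat, fun i j => ?_, ?_⟩
    · show (((c i).toNat : ℕ) : ℤ) = (((-c i).toNat : ℕ) : ℤ) + c i
      omega
    · rw [dv_const h_PT hp hζ hf hxy]
      exact ⟨_, rfl⟩

end SRK
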