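import Mathlib
import Pool.Agent.SRK.Targets

/-!
# SRK: TOR, abstract lemma on torsion
-/

set_option autoImplicit false

open Polynomial

namespace SRK

namespace TOR_

lemma dvd_poly {ℓ : ℕ} (hℓ : ℓ.Prime) :
    ∃ U : ℤ[X], (X - 1 : ℤ[X]) ^ (ℓ - 1) = ∑ t ∈ Finset.range ℓ, X ^ t + (ℓ : ℤ[X]) * U := by
  have : Fact ℓ.Prime := ⟨hℓ⟩
  have h1 : (X - 1 : (ZMod ℓ)[X]) ^ (ℓ - 1) = ∑ t ∈ Finset.range ℓ, X ^ t := by
    have h2 : (X - 1 : (ZMod ℓ)[X]) ≠ 0 := (monic_X_sub_C (1 : ZMod ℓ)).ne_zero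
    apply mul_right_cancel₀ h2
    rw [geom_sum_mul, ← pow_succ, Nat.sub_add_cancel hℓ.one_le, sub_pow_char, one_pow]
  have h3 : C (ℓ : ℤ) ∣ (X - 1 : ℤ[X]) ^ (ℓ - 1) - ∑ t ∈ Finset.range ℓ, X ^ t := by
    rw [C_dvd_iff_dvd_coeff]
    intro i
    rw [← ZMod.intCast_zmod_eq_zero_iff_dvd]
    have h4 : (((X - 1 : ℤ[X]) ^ (ℓ - 1) - ∑ t ∈ Finset.range ℓ, X ^ t).map
        (Int.castRingHom (ZMod ℓ))) = 0 := by
      rw [Polynomial.map_sub, Polynomial.map_pow, Polynomial.map_sub, Polynomial.map_X,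
        Polynomial.map_one, Polynomial.map_sum, h1]
      simp
    have h5 := congrArg (fun p => p.coeff i) h4
    rw [coeff_map] at h5
    simpa using h5
  obtain ⟨U, hU⟩ := h3
  refine ⟨U, ?_⟩
  have e : C (ℓ : ℤ) = (ℓ : ℤ[X]) := by simp
  rw [e] at hU
  linear_combination hU

end TOR_

open TOR_ in
theorem p_TOR : T_TOR := by
  intro A _ ℓ hℓ s P hs hΦ hH a N hN hNa
  -- the quotient
  let σ : Module.End ℤ (A ⧸ P) :=
    (QuotientAddGroup.map P P s (fun x hx => hs x hx)).toIntLinearMap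
  have hσ : ∀ x : A, σ (QuotientAddGroup.mk x) = QuotientAddGroup.mk (s x) := fun x => rfl
  have hσt : ∀ (t : ℕ) (x : A), (σ ^ t) (QuotientAddGroup.mk x) =
      QuotientAddGroup.mk (s^[t] x) := by
    intro t x
    induction t with
    | zero => rfl
    | succ t ih =>
      rw [pow_succ', Module.End.mul_apply, ih, hσ, Function.iterate_succ_apply']
  have hz : ∀ x : A, (QuotientAddGroup.mk x : A ⧸ P) = 0 ↔ x ∈ P :=
    fun x => QuotientAddGroup.eq_zero_iff x
  have hΦσ : ∑ t ∈ Finset.range ℓ, σ ^ t = 0 := by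
    refine LinearMap.ext fun q => ?_
    induction q using QuotientAddGroup.induction_on with
    | H q =>
    rw [LinearMap.sum_apply, Finset.sum_congr rfl (fun t _ => hσt t q), LinearMap.zero_apply]
    have h1 := (hz _).2 (hΦ q)
    rw [← h1]
    exact (map_sum (QuotientAddGroup.mk' P) _ _).symm
  have hH' : ∀ q : A ⧸ P, ((σ - 1) ^ 2 : Module.End ℤ (A ⧸ P)) q = 0 → (σ - 1) q = 0 := by
    intro q
    induction q using QuotientAddGroup.induction_on with
    | H x =>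
      intro h
      have h1 : (σ - 1) (QuotientAddGroup.mk x) = -(QuotientAddGroup.mk (x - s x) : A ⧸ P) := by
        show σ (QuotientAddGroup.mk x) - QuotientAddGroup.mk x = _
        rw [hσ, QuotientAddGroup.mk_sub]
        abel
      have h2 : ((σ - 1) ^ 2 : Module.End ℤ (A ⧸ P)) (QuotientAddGroup.mk x) =
          (QuotientAddGroup.mk ((x - s x) - s (x - s x)) : A ⧸ P) := by
        rw [pow_two, Module.End.mul_apply, h1]
        show σ (-(QuotientAddGroup.mk (x - s x) : A ⧸ P)) - (-(QuotientAddGroup.mk (x - s x))) = _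
        rw [map_neg, hσ, QuotientAddGroup.mk_sub (P) (x - s x) (s (x - s x))]
        abel
      rw [h2, hz] at h
      rw [h1, neg_eq_zero, hz]
      exact hH x h
  -- powers
  have hdown : ∀ (m : ℕ) (q : A ⧸ P), ((σ - 1) ^ (m + 1) : Module.End ℤ (A ⧸ P)) q = 0 → (σ - 1) q = 0 := by
    intro m
    induction m with
    | zero =>
      intro q h
      simpa using h
    | succ m ih =>
      intro q h
      apply ih
      have e : ((σ - 1) ^ (m + 1 + 1) : Module.End ℤ (A ⧸ P)) q = ((σ - 1) ^ 2 : Module.End ℤ (A ⧸ P)) (((σ - 1) ^ m : Module.End ℤ (A ⧸ P)) q) := by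
        rw [← Module.End.mul_apply, ← pow_add]
        congr 2
        ring
      rw [e] at h
      have h2 := hH' _ h
      rw [← Module.End.mul_apply, ← pow_succ'] at h2
      exact h2
  obtain ⟨U, hU⟩ := dvd_poly hℓ
  have hU' := congrArg (Polynomial.aeval σ) hU
  have e1 : (σ - 1) ^ (ℓ - 1) = (ℓ : Module.End ℤ (A ⧸ P)) * Polynomial.aeval σ U := by
    have h1 : Polynomial.aeval σ ((X - 1 : ℤ[X]) ^ (ℓ - 1)) = (σ - 1) ^ (ℓ - 1) := by simp
    have h2 : Polynomial.aeval σ (∑ t ∈ Finset.range ℓ, (X : ℤ[X]) ^ t + (ℓ : ℤ[X]) * U) =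
        ∑ t ∈ Finset.range ℓ, σ ^ t + (ℓ : Module.End ℤ (A ⧸ P)) * Polynomial.aeval σ U := by
      simp
    rw [h1, h2, hΦσ, zero_add] at hU'
    exact hU'
  have e2 : ∀ k : ℕ, (σ - 1) ^ ((ℓ - 1) * k) =
      (Polynomial.aeval σ U) ^ k * ((ℓ ^ k : ℕ) : Module.End ℤ (A ⧸ P)) := by
    intro k
    rw [pow_mul, e1, (Nat.cast_commute ℓ (Polynomial.aeval σ U)).mul_pow, Nat.cast_pow,
      ← Nat.cast_pow]
    exact (Nat.cast_commute (ℓ ^ k) ((Polynomial.aeval σ U) ^ k))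
  obtain ⟨k, N', hN', rfl⟩ := Nat.exists_eq_pow_mul_and_not_dvd hN.ne' ℓ hℓ.ne_one
  refine ⟨N', hN', ?_⟩
  set b : A ⧸ P := QuotientAddGroup.mk (N' • a) with hb
  have hb0 : (ℓ ^ k) • b = 0 := by
    have h1 : (ℓ ^ k) • b = QuotientAddGroup.mk ((ℓ ^ k * N') • a) := by
      rw [hb, mul_smul]
      rfl
    rw [h1, hz]
    exact hNa
  have h3 : (σ - 1) b = 0 := by
    rcases Nat.eq_zero_or_pos k with h0 | h0
    · subst h0
      rw [pow_zero, one_smul] at hb0
      rw [hb0, map_zero]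
    · obtain ⟨m, hm⟩ : ∃ m, (ℓ - 1) * k = m + 1 := by
        have : 0 < (ℓ - 1) * k := Nat.mul_pos (by have := hℓ.two_le; omega) h0
        exact ⟨(ℓ - 1) * k - 1, by omega⟩
      apply hdown m
      rw [← hm, e2, Module.End.mul_apply]
      have h4 : ((ℓ ^ k : ℕ) : Module.End ℤ (A ⧸ P)) b = (ℓ ^ k) • b := by
        rw [Module.End.natCast_apply]
      rw [h4, hb0, map_zero]
  have h5 : (σ - 1) b = -(QuotientAddGroup.mk (N' • (a - s a)) : A ⧸ P) := by
    show σ b - b = _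
    rw [hb, hσ, map_nsmul, smul_sub, QuotientAddGroup.mk_sub]
    abel
  rw [h5, neg_eq_zero, hz] at h3
  exact h3

end SRK
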