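import Mathlib
import Pool.Agent.SRK.BAS
import Pool.Agent.SRK.CL
import Pool.Agent.SRK.CLA
import Pool.Agent.SRK.CLB
import Pool.Agent.SRK.DEG
import Pool.Agent.SRK.DOM
import Pool.Agent.SRK.FINS
import Pool.Agent.SRK.GID
import Pool.Agent.SRK.HIL
import Pool.Agent.SRK.IDF
import Pool.Agent.SRK.INFS
import Pool.Agent.SRK.JQ
import Pool.Agent.SRK.LAD
import Pool.Agent.SRK.LL
import Pool.Agent.SRK.LOCS
import Pool.Agent.SRK.MAIL
import Pool.Agent.SRK.MAIS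
import Pool.Agent.SRK.MIN
import Pool.Agent.SRK.MOD
import Pool.Agent.SRK.NMJ
import Pool.Agent.SRK.NRM
import Pool.Agent.SRK.PHIS
import Pool.Agent.SRK.PHMS
import Pool.Agent.SRK.PT
import Pool.Agent.SRK.RED
import Pool.Agent.SRK.RFS
import Pool.Agent.SRK.SCL
import Pool.Agent.SRK.SGE
import Pool.Agent.SRK.SUB
import Pool.Agent.SRK.TOR
import Pool.Agent.RD.TRD
import Pool.Agent.RD.ELM

/-!
Assembly of the project SRK.
-/

namespace SRK

universe u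

theorem all_LOCS : T_LOCS.{u} := by
  have hDOM : T_DOM.{u} := p_DOM
  have hBAS : T_BAS.{u} := p_BAS
  have hSGE : T_SGE.{u} := p_SGE
  have hPT : T_PT.{u} := p_PT
  have hJQ : T_JQ.{u} := p_JQ hBAS
  have hGID : T_GID.{u} := p_GID hBAS hSGE
  have hHIL : T_HIL.{u} := p_HIL hDOM hBAS hSGE
  have hSUB : T_SUB.{u} := p_SUB hDOM hPT
  have hCLA : T_CLA.{u} := p_CLA hDOM hPT hSUB hGID hHIL
  have hMIN : T_MIN.{u} := p_MIN hJQ hDOM
  have hNMJ : T_NMJ.{u} := p_NMJ hPT hJQ hBAS hSGE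
  have hRED : T_RED.{u} := p_RED hNMJ p_NRM hBAS
  have hCL : T_CL.{u} := p_CL p_IDF
  have hCLB : T_CLB.{u} := p_CLB hCLA hMIN hRED p_DEG hJQ
  have hLL : T_LL.{u} := p_LL hSUB p_TOR hCLB hCLA hRED hCL
  have hMOD : T_MOD.{u} := p_MOD hSUB
  exact p_LOCS hLL hMOD p_LAD

theorem all_FINS : T_FINS.{u} := by
  have hMAIS : T_MAIS.{u} := p_MAIS all_LOCS
  have hMAIL : T_MAIL.{u} := p_MAIL all_LOCS p_SCL
  have hINFS : T_INFS.{u} := p_INFS hMAIL
  exact p_FINS p_RFS hMAIS hINFS (p_PHMS RD.p_TRD RD.p_ELM) (p_PHIS RD.p_TRD RD.p_ELM)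

/-- an integral polynomial with a unit coefficient takes a unit value at an integral point -/
theorem exists_unit_value {K : Type u} [Field K] [CharZero K] [IsAlgClosed K]
    (v : AbsoluteValue K ℝ) (ℓ : ℕ) (hna : IsNonarchimedean v) (hℓ : ℓ.Prime)
    (hv : v (ℓ : K) < 1) {σ : Type} (Φ : MvPolynomial σ K)
    (hΦ : ∀ t, v (Φ.coeff t) ≤ 1) (hu : ∃ t, v (Φ.coeff t) = 1) :
    ∃ c : σ → K, (∀ u, v (c u) ≤ 1) ∧ v (MvPolynomial.eval c Φ) = 1 := by
  obtain ⟨O, k, _, _, _, r, hC⟩ := p_RFS K v ℓ hna hℓ hv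
  have hle : ∀ x : O, v (x : K) ≤ 1 := fun x => (hC.mem x).1 x.2
  obtain ⟨Φ', hΦ'⟩ := FINS_.exists_lift hC.mem Φ hΦ
  obtain ⟨t, ht⟩ := hu
  have hne : MvPolynomial.map r Φ' ≠ 0 := by
    intro h0
    have h1 : r (Φ'.coeff t) = 0 := by
      rw [← MvPolynomial.coeff_map, h0, MvPolynomial.coeff_zero]
    rw [hC.res] at h1
    rw [← hΦ', MvPolynomial.coeff_map] at ht
    have h2 : O.subtype (Φ'.coeff t) = ((Φ'.coeff t : O) : K) := rfl
    rw [h2] at ht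
    linarith
  obtain ⟨z1, hz1⟩ : ∃ z1 : σ → k, MvPolynomial.eval z1 (MvPolynomial.map r Φ') ≠ 0 := by
    by_contra hcon
    push Not at hcon
    exact hne (MvPolynomial.funext (fun z => by rw [hcon z, map_zero]))
  choose c hc using fun t => hC.surj (z1 t)
  have hcz : (fun u => r (c u)) = z1 := funext hc
  rw [← hcz, FINS_.eval_hom] at hz1
  refine ⟨fun u => (c u : K), fun u => hle _, ?_⟩
  have h3 : MvPolynomial.eval (fun u => (c u : K)) Φ = ((MvPolynomial.eval c Φ' : O) : K) := by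
    rw [← hΦ']
    exact FINS_.eval_hom O.subtype Φ' c
  rw [h3]
  refine le_antisymm (hle _) (not_lt.1 ?_)
  intro hlt
  exact hz1 ((hC.res _).2 hlt)

end SRK
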