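import Mathlib
import Pool.Agent.SRK.Targets

/-!
MAIS: points with integral parameters.
-/

namespace SRK

open Polynomial

universe u

namespace MAIS_

lemma deg_lt {S : Type*} [CommRing S] {m : ℕ} (a : Fin m → S) :
    degree (∑ k : Fin m, C (a k) * X ^ (m - 1 - (k : ℕ)) : S[X]) < m := by
  rw [degree_lt_iff_coeff_zero]
  intro j hj
  rw [finsetSum_coeff]
  refine Finset.sum_eq_zero fun k _ => ?_
  have hk := k.2
  rw [coeff_C_mul_X_pow, if_neg (by omega)]

lemma fam_monic {S : Type*} [CommRing S] {m : ℕ} (a : Fin m → S) : (fam a).Monic :=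
  monic_X_pow_add (deg_lt a)

lemma fam_natDegree {S : Type*} [CommRing S] [Nontrivial S] {m : ℕ} (a : Fin m → S) :
    (fam a).natDegree = m := by
  apply natDegree_eq_of_degree_eq_some
  unfold fam
  rw [degree_add_eq_left_of_degree_lt (by rw [degree_X_pow]; exact deg_lt a), degree_X_pow]

lemma fam_map {S T : Type*} [CommRing S] [CommRing T] (f : S →+* T) {m : ℕ} (a : Fin m → S) :
    (fam a).map f = fam fun k => f (a k) := by
  unfold fam
  rw [Polynomial.map_add, Polynomial.map_pow, map_X, Polynomial.map_sum]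
  congr 1
  refine Finset.sum_congr rfl fun k _ => ?_
  rw [Polynomial.map_mul, map_C, Polynomial.map_pow, map_X]

lemma ff_map {S T : Type*} [CommRing S] [CommRing T] (f : S →+* T) {m : ℕ} (ω : Fin m → S) :
    (ff ω).map f = ff fun w => f (ω w) := by
  unfold ff
  rw [Polynomial.map_prod]
  refine Finset.prod_congr rfl fun w _ => ?_
  rw [Polynomial.map_sub, map_X, map_C]

lemma exists_roots {K : Type*} [Field K] [CharZero K] [IsAlgClosed K] {m : ℕ} (a : Fin m → K)
    (h : Squarefree (fam a)) : ∃ ω : Fin m → K, Function.Injective ω ∧ fam a = ff ω := by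
  classical
  have hsep : (fam a).Separable := PerfectField.separable_iff_squarefree.2 h
  have hnd : (fam a).roots.Nodup := nodup_roots hsep
  have hspl := IsAlgClosed.splits (fam a)
  have hcard : (fam a).roots.toFinset.card = m := by
    rw [Multiset.toFinset_card_of_nodup hnd, ← hspl.natDegree_eq_card_roots, fam_natDegree]
  let e : Fin m ≃ (fam a).roots.toFinset := ((fam a).roots.toFinset.equivFinOfCardEq hcard).symm
  refine ⟨fun w => (e w : K), fun i j hij => e.injective (Subtype.ext hij), ?_⟩
  have h1 : ff (fun w => (e w : K)) = ∏ x : (fam a).roots.toFinset, (X - C (x : K)) := by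
    unfold ff
    exact Equiv.prod_comp e (fun x : (fam a).roots.toFinset => X - C (x : K))
  rw [h1, Finset.prod_coe_sort (fam a).roots.toFinset (fun x => X - C x)]
  conv_lhs => rw [hspl.eq_prod_roots_of_monic (fam_monic a)]
  rw [Finset.prod_eq_multiset_prod, Multiset.toFinset_val, Multiset.dedup_eq_self.2 hnd]

lemma sum_le' {K : Type*} [Field K] {v : AbsoluteValue K ℝ} (hna : IsNonarchimedean v)
    {ι : Type*} (s : Finset ι) (f : ι → K) {B : ℝ} (hB : 0 ≤ B) (h : ∀ i ∈ s, v (f i) ≤ B) :
    v (∑ i ∈ s, f i) ≤ B := by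
  classical
  induction s using Finset.induction_on with
  | empty => simpa using hB
  | insert a S ha ih =>
    rw [Finset.sum_insert ha]
    exact (hna _ _).trans (max_le (h a (Finset.mem_insert_self _ _))
      (ih fun i hi => h i (Finset.mem_insert_of_mem hi)))

lemma root_integral {K : Type*} [Field K] {v : AbsoluteValue K ℝ} (hna : IsNonarchimedean v)
    {m : ℕ} (a : Fin m → K) (ha : ∀ k, v (a k) ≤ 1) (x : K) (hx : (fam a).eval x = 0) :
    v x ≤ 1 := by
  by_contra hc
  push Not at hc
  have hx0 : 0 < v x := by linarith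
  rcases Nat.eq_zero_or_pos m with h0 | hpos
  · subst h0
    simp [fam] at hx
  have h1 : x ^ m = -∑ k : Fin m, a k * x ^ (m - 1 - (k : ℕ)) := by
    rw [eq_neg_iff_add_eq_zero]
    unfold fam at hx
    rw [eval_add, eval_pow, eval_X, eval_finsetSum] at hx
    simpa using hx
  have h2 : v (∑ k : Fin m, a k * x ^ (m - 1 - (k : ℕ))) ≤ v x ^ (m - 1) := by
    apply sum_le' hna _ _ (by positivity)
    intro k _
    rw [map_mul, map_pow]
    calc v (a k) * v x ^ (m - 1 - (k : ℕ)) ≤ 1 * v x ^ (m - 1) := by
          apply mul_le_mul (ha k) _ (by positivity) zero_le_one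
          exact pow_le_pow_right₀ hc.le (by omega)
      _ = v x ^ (m - 1) := one_mul _
  have h3 : v x ^ m ≤ v x ^ (m - 1) := by
    rw [← map_pow, h1, v.map_neg]
    exact h2
  have h4 : v x ^ (m - 1) < v x ^ m := pow_lt_pow_right₀ hc (by omega)
  linarith

end MAIS_

open MAIS_ in
theorem p_MAIS (h : T_LOCS.{u}) : T_MAIS.{u} := by
  intro K _ _ _ v ℓ _ O k _ _ r hctx ζ hζ m hm h2 a hsq N x y hxy e hrel
  obtain ⟨ω, hinj, hω⟩ := exists_roots _ hsq
  have hmem : ∀ w, ω w ∈ O := by
    intro w
    rw [hctx.mem]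
    apply root_integral hctx.na (fun κ => (a κ : K)) (fun κ => (hctx.mem _).1 (a κ).2)
    rw [hω]
    unfold ff
    rw [eval_prod]
    exact Finset.prod_eq_zero (Finset.mem_univ w) (by simp)
  let ω' : Fin m → O := fun w => ⟨ω w, hmem w⟩
  have hω' : (fun w => ((ω' w : O) : K)) = ω := rfl
  have hinj' : Function.Injective ω' := fun i j hij => hinj (congrArg Subtype.val hij)
  have hO : fam a = ff ω' := by
    apply Polynomial.map_injective O.subtype Subtype.val_injective
    rw [fam_map, ff_map]
    exact hω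
  have hk : (fam fun κ => r (a κ)) = ff fun w => r (ω' w) := by
    rw [← fam_map, ← ff_map, hO]
  have hK : (fam fun κ => (a κ : K)) = ff fun w => ((ω' w : O) : K) := hω
  rw [hk]
  rw [hK] at hxy hrel
  exact h K v ℓ O k r hctx ζ hζ m ω' hinj' hm h2 N x y hxy e hrel

end SRK
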